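import Mathlib

/-!
Iterated Abel summation for periodic mean-zero weights.
-/

namespace Pool.Agent.Helper54.CN

open Finset Filter Topology

/-- forward difference -/
def dlt (φ : ℕ → ℝ) : ℕ → ℝ := fun k => φ (k + 1) - φ k

/-- partial sums of `g`, `∑_{j ≤ k} g j` -/
noncomputable def psum (g : ℕ → ℝ) : ℕ → ℝ := fun k => ∑ j ∈ range (k + 1), g j

/-- mean of the partial sums over a period -/
noncomputable def mu (q : ℕ) (g : ℕ → ℝ) : ℝ := (∑ k ∈ range q, psum g k) / q

/-- the centred partial sums -/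
noncomputable def cps (q : ℕ) (g : ℕ → ℝ) : ℕ → ℝ := fun k => psum g k - mu q g

/-- periodic and of mean zero -/
structure PZ (q : ℕ) (g : ℕ → ℝ) : Prop where
  pos : 0 < q
  per : ∀ k, g (k + q) = g k
  zero : ∑ k ∈ range q, g k = 0

theorem PZ.sum_shift {q : ℕ} {g : ℕ → ℝ} (h : PZ q g) (k : ℕ) :
    ∑ j ∈ range q, g (k + j) = 0 := by
  induction k with
  | zero => simpa using h.zero
  | succ k ih =>
    have h1 : ∑ j ∈ range (q + 1), g (k + j) = ∑ j ∈ range q, g (k + j) + g (k + q) :=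
      Finset.sum_range_succ _ _
    have h2 : ∑ j ∈ range (q + 1), g (k + j) = ∑ j ∈ range q, g (k + (j + 1)) + g (k + 0) :=
      Finset.sum_range_succ' _ _
    have h3 : ∑ j ∈ range q, g (k + 1 + j) = ∑ j ∈ range q, g (k + (j + 1)) := by
      apply Finset.sum_congr rfl
      intro j _
      congr 1
      ring
    rw [h3]
    have h4 := h.per k
    simp only [add_zero] at h2
    linarith

theorem PZ.psum_per {q : ℕ} {g : ℕ → ℝ} (h : PZ q g) (k : ℕ) :
    psum g (k + q) = psum g k := by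
  unfold psum
  have h1 : k + q + 1 = (k + 1) + q := by ring
  rw [h1, Finset.sum_range_add, h.sum_shift (k + 1), add_zero]

theorem PZ.cps {q : ℕ} {g : ℕ → ℝ} (h : PZ q g) : PZ q (cps q g) where
  pos := h.pos
  per := fun k => by
    unfold CN.cps
    rw [h.psum_per]
  zero := by
    unfold CN.cps mu
    rw [Finset.sum_sub_distrib, Finset.sum_const, card_range, nsmul_eq_mul]
    have : (q : ℝ) ≠ 0 := by exact_mod_cast h.pos.ne'
    field_simp
    ring

theorem per_bdd {q : ℕ} (hq : 0 < q) {g : ℕ → ℝ} (h : ∀ k, g (k + q) = g k) :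
    ∃ M : ℝ, 0 ≤ M ∧ ∀ k, |g k| ≤ M := by
  refine ⟨∑ j ∈ range q, |g j|, Finset.sum_nonneg fun _ _ => abs_nonneg _, fun k => ?_⟩
  have hk : g k = g (k % q) := by
    have hp : Function.Periodic g q := h
    exact (hp.map_mod_nat k).symm
  rw [hk]
  exact Finset.single_le_sum (f := fun j => |g j|) (fun _ _ => abs_nonneg _)
    (mem_range.2 (Nat.mod_lt _ hq))

theorem summable_bdd_mul {g φ : ℕ → ℝ} {M : ℝ} (hM : ∀ k, |g k| ≤ M) (hφ : Summable φ) :
    Summable fun k => g k * φ k := by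
  have h0 : 0 ≤ M := (abs_nonneg _).trans (hM 0)
  refine Summable.of_norm_bounded (g := fun k => M * |φ k|) (hφ.abs.mul_left M) fun k => ?_
  rw [Real.norm_eq_abs, abs_mul]
  exact mul_le_mul_of_nonneg_right (hM k) (abs_nonneg _)

theorem summable_dlt {φ : ℕ → ℝ} (hφ : Summable φ) : Summable (dlt φ) :=
  ((summable_nat_add_iff 1).2 hφ).sub hφ

theorem tsum_dlt {φ : ℕ → ℝ} (hφ : Summable φ) : ∑' k, dlt φ k = - φ 0 := by
  unfold dlt
  rw [((summable_nat_add_iff 1).2 hφ).tsum_sub hφ]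
  have := hφ.tsum_eq_zero_add
  linarith

/-- one step of Abel summation -/
theorem abel_step {q : ℕ} {g φ : ℕ → ℝ} (h : PZ q g) (hφ : Summable φ) :
    ∑' k, g k * φ k = mu q g * φ 0 - ∑' k, cps q g k * dlt φ k := by
  obtain ⟨M, hM0, hM⟩ := per_bdd h.pos h.per
  obtain ⟨M', hM0', hM'⟩ := per_bdd h.pos h.psum_per
  obtain ⟨M'', hM0'', hM''⟩ := per_bdd h.pos h.cps.per
  have hs1 : Summable fun k => g k * φ k := summable_bdd_mul hM hφ
  have hs2 : Summable fun k => psum g k * dlt φ k := summable_bdd_mul hM' (summable_dlt hφ)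
  have hfin : ∀ n, ∑ k ∈ range n, g k * φ k + ∑ k ∈ range n, psum g k * dlt φ k
      = (∑ j ∈ range n, g j) * φ n := by
    intro n
    induction n with
    | zero => simp
    | succ n ih =>
      rw [Finset.sum_range_succ, Finset.sum_range_succ (fun k => psum g k * dlt φ k)]
      have : psum g n = ∑ j ∈ range n, g j + g n := Finset.sum_range_succ _ _
      have h3 : ∑ j ∈ range (n + 1), g j = ∑ j ∈ range n, g j + g n := Finset.sum_range_succ _ _
      have h5 : dlt φ n = φ (n + 1) - φ n := rfl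
      rw [this, h3, h5]
      linear_combination ih
  have hlim : Tendsto (fun n => (∑ j ∈ range n, g j) * φ n) atTop (𝓝 0) := by
    have hφ0 : Tendsto φ atTop (𝓝 0) := hφ.tendsto_atTop_zero
    have hb : ∀ n, ‖∑ j ∈ range n, g j‖ ≤ M' := by
      intro n
      cases n with
      | zero => simpa using hM0'
      | succ n => exact hM' n
    rw [tendsto_zero_iff_norm_tendsto_zero] at hφ0 ⊢
    refine squeeze_zero (fun n => norm_nonneg _) (g := fun n => M' * ‖φ n‖) (fun n => ?_) ?_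
    · rw [norm_mul]
      exact mul_le_mul_of_nonneg_right (hb n) (norm_nonneg _)
    · simpa using hφ0.const_mul M'
  have h4 : ∑' k, g k * φ k + ∑' k, psum g k * dlt φ k = 0 := by
    have h5 := (hs1.hasSum.tendsto_sum_nat).add (hs2.hasSum.tendsto_sum_nat)
    have h6 : (fun n => ∑ k ∈ range n, g k * φ k + ∑ k ∈ range n, psum g k * dlt φ k)
      = fun n => (∑ j ∈ range n, g j) * φ n := funext hfin
    rw [h6] at h5
    exact tendsto_nhds_unique h5 hlim
  have h7 : ∑' k, cps q g k * dlt φ k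
      = ∑' k, psum g k * dlt φ k - mu q g * ∑' k, dlt φ k := by
    rw [← tsum_mul_left, ← hs2.tsum_sub ((summable_dlt hφ).mul_left _)]
    apply tsum_congr
    intro k
    unfold cps
    ring
  rw [h7, tsum_dlt hφ]
  linarith

/-- crude first-order bound -/
theorem abel_bound1 {q : ℕ} {g : ℕ → ℝ} (h : PZ q g) :
    ∃ K : ℝ, 0 ≤ K ∧ ∀ φ : ℕ → ℝ, Summable φ → |∑' k, g k * φ k| ≤ K * ∑' k, |dlt φ k| := by
  obtain ⟨M'', hM0'', hM''⟩ := per_bdd h.pos h.cps.per
  refine ⟨|mu q g| + M'', by positivity, fun φ hφ => ?_⟩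
  rw [abel_step h hφ]
  have h1 : |φ 0| ≤ ∑' k, |dlt φ k| := by
    have := tsum_dlt hφ
    have h2 : φ 0 = - ∑' k, dlt φ k := by linarith
    rw [h2, abs_neg]
    have := norm_tsum_le_tsum_norm (f := dlt φ) (by simpa using (summable_dlt hφ).norm)
    simpa using this
  have h2 : |∑' k, cps q g k * dlt φ k| ≤ M'' * ∑' k, |dlt φ k| := by
    have hs : Summable fun k => cps q g k * dlt φ k := summable_bdd_mul hM'' (summable_dlt hφ)
    have h3 := norm_tsum_le_tsum_norm (f := fun k => cps q g k * dlt φ k) hs.norm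
    rw [← tsum_mul_left]
    refine (by simpa using h3 : _ ≤ ∑' k, |cps q g k * dlt φ k|).trans ?_
    refine hs.abs.tsum_le_tsum (fun k => ?_) ((summable_dlt hφ).abs.mul_left _)
    rw [abs_mul]
    exact mul_le_mul_of_nonneg_right (hM'' k) (abs_nonneg _)
  calc |mu q g * φ 0 - ∑' k, cps q g k * dlt φ k|
      ≤ |mu q g * φ 0| + |∑' k, cps q g k * dlt φ k| := abs_sub _ _
    _ ≤ |mu q g| * ∑' k, |dlt φ k| + M'' * ∑' k, |dlt φ k| := by
        rw [abs_mul]
        gcongr
    _ = _ := by ring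

/-- second-order bound -/
theorem abel_bound2 {q : ℕ} {g : ℕ → ℝ} (h : PZ q g) :
    ∃ K : ℝ, 0 ≤ K ∧ ∀ φ : ℕ → ℝ, Summable φ →
      |∑' k, g k * φ k - mu q g * φ 0| ≤ K * ∑' k, |dlt (dlt φ) k| := by
  obtain ⟨K, hK, h1⟩ := abel_bound1 h.cps
  refine ⟨K, hK, fun φ hφ => ?_⟩
  have := h1 _ (summable_dlt hφ)
  rw [abel_step h hφ]
  rw [show mu q g * φ 0 - ∑' k, cps q g k * dlt φ k - mu q g * φ 0
    = - ∑' k, cps q g k * dlt φ k by ring, abs_neg]
  exact this

/-- third-order bound -/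
theorem abel_bound3 {q : ℕ} {g : ℕ → ℝ} (h : PZ q g) :
    ∃ K : ℝ, 0 ≤ K ∧ ∀ φ : ℕ → ℝ, Summable φ →
      |∑' k, g k * φ k - mu q g * φ 0 + mu q (cps q g) * dlt φ 0|
        ≤ K * ∑' k, |dlt (dlt (dlt φ)) k| := by
  obtain ⟨K, hK, h1⟩ := abel_bound2 h.cps
  refine ⟨K, hK, fun φ hφ => ?_⟩
  have := h1 _ (summable_dlt hφ)
  rw [abel_step h hφ]
  rw [show mu q g * φ 0 - ∑' k, cps q g k * dlt φ k - mu q g * φ 0 + mu q (cps q g) * dlt φ 0
    = - (∑' k, cps q g k * dlt φ k - mu q (cps q g) * dlt φ 0) by ring, abs_neg]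
  exact this

theorem sum_psum (n : ℕ) (g : ℕ → ℝ) :
    ∑ k ∈ range n, psum g k = n * ∑ j ∈ range n, g j - ∑ j ∈ range n, j * g j := by
  induction n with
  | zero => simp
  | succ n ih =>
    rw [Finset.sum_range_succ, ih, Finset.sum_range_succ, Finset.sum_range_succ]
    unfold psum
    rw [Finset.sum_range_succ]
    push_cast
    ring

theorem PZ.mu_eq {q : ℕ} {g : ℕ → ℝ} (h : PZ q g) :
    mu q g = - (∑ j ∈ range q, j * g j) / q := by
  unfold mu
  rw [sum_psum, h.zero]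
  simp

theorem sum_mul_psum (n : ℕ) (g : ℕ → ℝ) :
    2 * ∑ k ∈ range n, k * psum g k = n * (n - 1) * ∑ j ∈ range n, g j
      - ∑ j ∈ range n, (j ^ 2 - j) * g j := by
  induction n with
  | zero => simp
  | succ n ih =>
    rw [Finset.sum_range_succ, mul_add, ih, Finset.sum_range_succ, Finset.sum_range_succ]
    unfold psum
    rw [Finset.sum_range_succ]
    push_cast
    ring

theorem sum_id_real (n : ℕ) : 2 * ∑ k ∈ range n, (k : ℝ) = n * (n - 1) := by
  induction n with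
  | zero => simp
  | succ n ih =>
    rw [Finset.sum_range_succ, mul_add, ih]
    push_cast
    ring

theorem PZ.mu_cps_eq {q : ℕ} {g : ℕ → ℝ} (h : PZ q g) :
    mu q (CN.cps q g) = (∑ j ∈ range q, (j ^ 2 - q * j) * g j) / (2 * q) := by
  have hq : (q : ℝ) ≠ 0 := by exact_mod_cast h.pos.ne'
  rw [h.cps.mu_eq]
  have h1 : ∑ j ∈ range q, (j : ℝ) * CN.cps q g j
      = ∑ j ∈ range q, (j : ℝ) * psum g j - mu q g * ∑ j ∈ range q, (j : ℝ) := by
    rw [Finset.mul_sum, ← Finset.sum_sub_distrib]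
    apply Finset.sum_congr rfl
    intro j _
    unfold CN.cps
    ring
  have h2 := sum_mul_psum q g
  have h3 := sum_id_real q
  have h4 := h.mu_eq
  rw [h.zero] at h2
  have h5 : ∑ j ∈ range q, ((j : ℝ) ^ 2 - j) * g j
      = ∑ j ∈ range q, ((j : ℝ) ^ 2 - q * j) * g j + (q - 1) * ∑ j ∈ range q, j * g j := by
    rw [Finset.mul_sum, ← Finset.sum_add_distrib]
    apply Finset.sum_congr rfl
    intro j _
    ring
  rw [h1, h4]
  rw [h5] at h2
  set S1 := ∑ j ∈ range q, (j : ℝ) * g j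
  set S2 := ∑ j ∈ range q, ((j : ℝ) ^ 2 - q * j) * g j
  set P := ∑ k ∈ range q, (k : ℝ) * psum g k
  set I := ∑ k ∈ range q, (k : ℝ)
  have hI : I = q * (q - 1) / 2 := by linarith
  have hP : P = - (S2 + (q - 1) * S1) / 2 := by linarith
  rw [hI, hP]
  field_simp
  ring

end Pool.Agent.Helper54.CN
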