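import Pool.Agent.Helper54.CN.Bern

/-!
The two-dimensional limit theorem in abstract form.
-/

namespace Pool.Agent.Helper54.CN

open Finset Filter Topology

set_option linter.unusedSectionVars false

theorem Tr_add {f g : ℕ → ℝ} (hf : Summable f) (hg : Summable g) :
    Tr (fun k => f k + g k) = Tr f + Tr g := by
  unfold Tr
  rw [hf.tsum_add hg]
  ring

theorem Tr_sub {f g : ℕ → ℝ} (hf : Summable f) (hg : Summable g) :
    Tr (fun k => f k - g k) = Tr f - Tr g := by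
  unfold Tr
  rw [hf.tsum_sub hg]
  ring

theorem Tr_mul (c : ℝ) (f : ℕ → ℝ) : Tr (fun k => c * f k) = c * Tr f := by
  unfold Tr
  rw [tsum_mul_left]
  ring

theorem Tr_bound {f : ℕ → ℝ} (hf : Summable f) : |Tr f| ≤ 2 * ∑' k, |f k| := by
  unfold Tr
  have h1 : |∑' k, f k| ≤ ∑' k, |f k| := by
    simpa using norm_tsum_le_tsum_norm (f := f) hf.norm
  have h2 : |f 0| ≤ ∑' k, |f k| := hf.abs.le_tsum 0 fun _ _ => abs_nonneg _
  have h3 : |∑' k, f k - f 0 / 2| ≤ |∑' k, f k| + |f 0 / 2| := abs_sub _ _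
  have h4 : |f 0 / 2| ≤ |f 0| := by
    rw [abs_div, abs_two]
    have := abs_nonneg (f 0)
    linarith
  linarith

/-- difference in the first variable -/
def Dx (f : ℕ → ℕ → ℝ) : ℕ → ℕ → ℝ := fun x y => f (x + 1) y - f x y

/-- difference in the second variable -/
def Dy (f : ℕ → ℕ → ℝ) : ℕ → ℕ → ℝ := fun x y => f x (y + 1) - f x y

/-- summability over pairs -/
def Sm (f : ℕ → ℕ → ℝ) : Prop := Summable fun p : ℕ × ℕ => f p.1 p.2

theorem Sm.dx {f : ℕ → ℕ → ℝ} (h : Sm f) : Sm (Dx f) := by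
  unfold Sm Dx
  refine Summable.sub ?_ h
  exact h.comp_injective (i := fun p : ℕ × ℕ => (p.1 + 1, p.2)) (by
    intro p p' hp
    simpa [Prod.ext_iff] using hp)

theorem Sm.dy {f : ℕ → ℕ → ℝ} (h : Sm f) : Sm (Dy f) := by
  unfold Sm Dy
  refine Summable.sub ?_ h
  exact h.comp_injective (i := fun p : ℕ × ℕ => (p.1, p.2 + 1)) (by
    intro p p' hp
    simpa [Prod.ext_iff] using hp)

theorem Sm.swap {f : ℕ → ℕ → ℝ} (h : Sm f) : Sm fun x y => f y x := by
  have := (Equiv.prodComm ℕ ℕ).summable_iff.2 h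
  exact this

theorem Sm.abs {f : ℕ → ℕ → ℝ} (h : Sm f) : Sm fun x y => |f x y| := Summable.abs h

theorem Sm.row {f : ℕ → ℕ → ℝ} (h : Sm f) (x : ℕ) : Summable fun y => f x y :=
  h.comp_injective (i := fun y : ℕ => (x, y)) (by
    intro p p' hp
    simpa [Prod.ext_iff] using hp)

theorem Sm.col {f : ℕ → ℕ → ℝ} (h : Sm f) (y : ℕ) : Summable fun x => f x y :=
  h.comp_injective (i := fun x : ℕ => (x, y)) (by
    intro p p' hp
    simpa [Prod.ext_iff] using hp)

theorem Sm.tsum_col {f : ℕ → ℕ → ℝ} (h : Sm f) : Summable fun y => ∑' x, f x y :=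
  Summable.prod (f := fun p : ℕ × ℕ => f p.2 p.1) h.swap

theorem Sm.tsum_eq {f : ℕ → ℕ → ℝ} (h : Sm f) :
    ∑' p : ℕ × ℕ, f p.1 p.2 = ∑' y, ∑' x, f x y := by
  have h1 := Summable.tsum_prod (f := fun p : ℕ × ℕ => f p.2 p.1) h.swap
  rw [← h1]
  exact ((Equiv.prodComm ℕ ℕ).tsum_eq (fun p : ℕ × ℕ => f p.1 p.2)).symm

theorem Sm.tr_col {f : ℕ → ℕ → ℝ} (h : Sm f) : Summable fun y => Tr fun x => f x y := by
  unfold Tr
  exact h.tsum_col.sub ((h.row 0).div_const 2)

theorem Sm.row_le {f : ℕ → ℕ → ℝ} (h : Sm f) (hf : ∀ x y, 0 ≤ f x y) (x : ℕ) :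
    ∑' y, f x y ≤ ∑' p : ℕ × ℕ, f p.1 p.2 := by
  have h1 : ∑' p : ℕ × ℕ, f p.1 p.2 = ∑' x, ∑' y, f x y := Summable.tsum_prod h
  rw [h1]
  exact (Summable.prod h).le_tsum x fun _ _ => tsum_nonneg fun _ => hf _ _

theorem Sm.bdd_mul {f g : ℕ → ℕ → ℝ} (h : Sm f) {M : ℝ} (hM : ∀ x y, |g x y| ≤ M) :
    Sm fun x y => g x y * f x y := by
  unfold Sm
  have h0 : 0 ≤ M := (abs_nonneg _).trans (hM 0 0)
  refine Summable.of_norm_bounded (g := fun p : ℕ × ℕ => M * |f p.1 p.2|)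
    (Summable.mul_left M h.abs) fun k => ?_
  rw [Real.norm_eq_abs, abs_mul]
  exact mul_le_mul_of_nonneg_right (hM _ _) (abs_nonneg _)

variable {q : ℕ} [NeZero q]

theorem zmod_bdd (w : ZMod q → ℝ) : ∃ M : ℝ, 0 ≤ M ∧ ∀ x, |w x| ≤ M :=
  ⟨∑ x, |w x|, Finset.sum_nonneg fun _ _ => abs_nonneg _, fun x =>
    Finset.single_le_sum (f := fun x => |w x|) (fun _ _ => abs_nonneg _) (mem_univ x)⟩

/-- limit of the `y`-sum with an even mean-zero coefficient depending on `y` only -/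
theorem abs_T1 {l : Filter ℝ} (F : ℝ → ℕ → ℕ → ℝ) (hs : ∀ᶠ s in l, Sm (F s))
    (h3y : Tendsto (fun s => ∑' p : ℕ × ℕ, |Dy (Dy (Dy (F s))) p.1 p.2|) l (𝓝 0))
    {L2 : ℝ} (hL2 : Tendsto (fun s => Tr fun x => Dy (F s) x 0) l (𝓝 (-L2)))
    (w : ZMod q → ℝ) (hw : ∑ y, w y = 0) (hwe : ∀ y, w (-y) = w y) :
    Tendsto (fun s => Tr fun y => w y * Tr fun x => F s x y) l
      (𝓝 ((q / 2) * (∑ y, w y * be2 y) * L2)) := by
  obtain ⟨K, hK, hb⟩ := tr_bound3 w hw
  have hodd : ∑ y, w y * be1 y = 0 := by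
    have h : ∑ x : ZMod q, w x * be1 x = ∑ x : ZMod q, w (-x) * be1 (-x) :=
      (Equiv.sum_comp (Equiv.neg (ZMod q)) (fun x => w x * be1 x)).symm
    simp only [be1_neg, hwe, mul_neg, Finset.sum_neg_distrib] at h
    linarith
  have hd : ∀ᶠ s in l, |Tr (fun y => w y * Tr fun x => F s x y)
      + (q / 2) * (∑ y, w y * be2 y) * Tr (fun x => Dy (F s) x 0)|
      ≤ K * (2 * ∑' p : ℕ × ℕ, |Dy (Dy (Dy (F s))) p.1 p.2|) := by
    filter_upwards [hs] with s hs
    have h1 := hb (fun y => Tr fun x => F s x y) hs.tr_col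
    rw [hodd, zero_mul, add_zero] at h1
    have h2 : ∀ (G : ℕ → ℕ → ℝ), Sm G → dlt (fun y => Tr fun x => G x y)
        = fun y => Tr fun x => Dy G x y := by
      intro G hG
      funext y
      unfold dlt
      rw [← Tr_sub (hG.col (y + 1)) (hG.col y)]
      rfl
    rw [h2 _ hs, h2 _ hs.dy, h2 _ hs.dy.dy] at h1
    refine h1.trans (mul_le_mul_of_nonneg_left ?_ hK)
    rw [hs.dy.dy.dy.abs.tsum_eq, ← tsum_mul_left]
    refine Summable.tsum_le_tsum (fun y => Tr_bound (hs.dy.dy.dy.col y)) hs.dy.dy.dy.tr_col.abs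
      (hs.dy.dy.dy.abs.tsum_col.mul_left 2)
  have h0 : Tendsto (fun s => Tr (fun y => w y * Tr fun x => F s x y)
      + (q / 2) * (∑ y, w y * be2 y) * Tr (fun x => Dy (F s) x 0)) l (𝓝 0) := by
    rw [tendsto_zero_iff_abs_tendsto_zero]
    refine tendsto_of_tendsto_of_tendsto_of_le_of_le' tendsto_const_nhds
      (h := fun s => K * (2 * ∑' p : ℕ × ℕ, |Dy (Dy (Dy (F s))) p.1 p.2|)) ?_
      (Eventually.of_forall fun s => abs_nonneg _) hd
    simpa using (h3y.const_mul 2).const_mul K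
  have h4 := h0.sub (hL2.const_mul ((q / 2) * (∑ y, w y * be2 y)))
  simpa using h4

/-- the abstract two-dimensional limit theorem -/
theorem abs_2D {l : Filter ℝ} (F : ℝ → ℕ → ℕ → ℝ) (hs : ∀ᶠ s in l, Sm (F s))
    (h3x : Tendsto (fun s => ∑' p : ℕ × ℕ, |Dx (Dx (Dx (F s))) p.1 p.2|) l (𝓝 0))
    (h3y : Tendsto (fun s => ∑' p : ℕ × ℕ, |Dy (Dy (Dy (F s))) p.1 p.2|) l (𝓝 0))
    (h00 : Tendsto (fun s => F s 0 0) l (𝓝 1))
    (hxy : Tendsto (fun s => ∑' y, |Dy (Dx (F s)) 0 y|) l (𝓝 0))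
    {L1 L2 : ℝ} (hL1 : Tendsto (fun s => Tr fun y => Dx (F s) 0 y) l (𝓝 (-L1)))
    (hL2 : Tendsto (fun s => Tr fun x => Dy (F s) x 0) l (𝓝 (-L2)))
    (c : ZMod q → ZMod q → ℝ) (hc : ∑ x, ∑ y, c x y = 0) (hce : ∀ x y, c (-x) (-y) = c x y) :
    Tendsto (fun s => Tr fun y => Tr fun x => c x y * F s x y) l
      (𝓝 (∑ x, ∑ y, c x y * (be1 x * be1 y + L1 / 2 * be2 x + L2 / 2 * be2 y))) := by
  have hq : (q : ℝ) ≠ 0 := by exact_mod_cast (NeZero.ne q)
  -- the mean in the first variable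
  set cb : ZMod q → ℝ := fun y => (∑ x, c x y) / q with hcb
  set c0 : ZMod q → ZMod q → ℝ := fun x y => c x y - cb y with hc0
  have hc' : ∑ y, ∑ x, c x y = 0 := by rw [Finset.sum_comm]; exact hc
  have hcbs : ∑ y, cb y = 0 := by
    simp only [hcb]
    rw [← Finset.sum_div, hc', zero_div]
  have hcbe : ∀ y, cb (-y) = cb y := by
    intro y
    simp only [hcb]
    congr 1
    rw [← Equiv.sum_comp (Equiv.neg (ZMod q)) (fun x => c x (-y))]
    apply Finset.sum_congr rfl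
    intro x _
    exact hce x y
  have hc0s : ∀ y, ∑ x, c0 x y = 0 := by
    intro y
    simp only [hc0, hcb]
    rw [Finset.sum_sub_distrib, Finset.sum_const, Finset.card_univ, ZMod.card, nsmul_eq_mul]
    field_simp
    ring
  -- uniform constants
  have hK : ∀ y : ZMod q, ∃ K : ℝ, 0 ≤ K ∧ ∀ φ : ℕ → ℝ, Summable φ →
      |Tr (fun k => c0 k y * φ k) + (∑ x, c0 x y * be1 x) * φ 0
        + (q / 2) * (∑ x, c0 x y * be2 x) * dlt φ 0| ≤ K * ∑' k, |dlt (dlt (dlt φ)) k| :=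
    fun y => tr_bound3 (fun x => c0 x y) (hc0s y)
  choose K hK0 hKb using hK
  set B1 : ZMod q → ℝ := fun y => ∑ x, c0 x y * be1 x with hB1
  set B2 : ZMod q → ℝ := fun y => ∑ x, c0 x y * be2 x with hB2
  have hB1' : ∀ y, B1 y = ∑ x, c x y * be1 x := by
    intro y
    simp only [hB1, hc0, sub_mul]
    rw [Finset.sum_sub_distrib, ← Finset.mul_sum, sum_be1]
    ring
  have hB1o : ∀ y, B1 (-y) = - B1 y := by
    intro y
    rw [hB1', hB1', ← Equiv.sum_comp (Equiv.neg (ZMod q)) (fun x => c x (-y) * be1 x),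
      ← Finset.sum_neg_distrib]
    apply Finset.sum_congr rfl
    intro x _
    simp only [Equiv.neg_apply]
    rw [hce, be1_neg]
    ring
  have hB1s : ∑ y, B1 y = 0 := by
    have h : ∑ x : ZMod q, B1 x = ∑ x : ZMod q, B1 (-x) :=
      (Equiv.sum_comp (Equiv.neg (ZMod q)) B1).symm
    simp only [hB1o, Finset.sum_neg_distrib] at h
    linarith
  have hB1b2 : ∑ y, B1 y * be2 y = 0 := by
    have h : ∑ x : ZMod q, B1 x * be2 x = ∑ x : ZMod q, B1 (-x) * be2 (-x) :=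
      (Equiv.sum_comp (Equiv.neg (ZMod q)) (fun x => B1 x * be2 x)).symm
    simp only [hB1o, be2_neg, neg_mul, Finset.sum_neg_distrib] at h
    linarith
  set bm : ℝ := (∑ y, B2 y) / q with hbm
  set B20 : ZMod q → ℝ := fun y => B2 y - bm with hB20
  have hB20s : ∑ y, B20 y = 0 := by
    simp only [hB20]
    rw [Finset.sum_sub_distrib, Finset.sum_const, Finset.card_univ, ZMod.card, nsmul_eq_mul, hbm]
    field_simp
    ring
  obtain ⟨K1, hK1, hb1⟩ := tr_bound3 B1 hB1s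
  obtain ⟨K2, hK2, hb2⟩ := tr_bound1 B20 hB20s
  set R : ℝ → ℕ → ℝ := fun s y => Tr (fun x => c0 x y * F s x y) + B1 y * F s 0 y
    + (q / 2) * B2 y * Dx (F s) 0 y with hR
  obtain ⟨KK, hKK⟩ : ∃ KK : ℝ, ∀ y, K y ≤ KK := ⟨∑ y, K y, fun y =>
    Finset.single_le_sum (fun i _ => hK0 i) (mem_univ y)⟩
  have hRb : ∀ s, Sm (F s) → ∀ y : ℕ, |R s y| ≤ KK * ∑' x, |Dx (Dx (Dx (F s))) x y| := by
    intro s hs y
    refine (hKb y (fun x => F s x y) (hs.col y)).trans ?_
    exact mul_le_mul_of_nonneg_right (hKK _) (tsum_nonneg fun _ => abs_nonneg _)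
  obtain ⟨M, hM0, hM⟩ := zmod_bdd (fun p : ZMod q => ∑ y, |c p y|)
  have hcM : ∀ x y : ZMod q, |c x y| ≤ M := fun x y =>
    ((Finset.single_le_sum (f := fun y => |c x y|) (fun _ _ => abs_nonneg _) (mem_univ y)).trans
      (le_abs_self _)).trans (hM x)
  obtain ⟨Mb, hMb0, hMb⟩ := zmod_bdd cb
  have hc0M : ∀ x y : ZMod q, |c0 x y| ≤ M + Mb := fun x y =>
    (abs_sub _ _).trans (add_le_add (hcM x y) (hMb y))
  obtain ⟨MB1, _, hMB1⟩ := zmod_bdd B1
  obtain ⟨MB2, _, hMB2⟩ := zmod_bdd B2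
  obtain ⟨MB20, _, hMB20⟩ := zmod_bdd B20
  -- decomposition
  have hdec : ∀ s, Sm (F s) → Tr (fun y => Tr fun x => c x y * F s x y)
      = Tr (fun y => cb y * Tr fun x => F s x y) + Tr (R s)
        - Tr (fun y => B1 y * F s 0 y) - (q / 2) * bm * Tr (fun y => Dx (F s) 0 y)
        - (q / 2) * Tr (fun y => B20 y * Dx (F s) 0 y) := by
    intro s hs
    have e1 : (fun y : ℕ => Tr fun x : ℕ => c x y * F s x y) = fun y : ℕ =>
        ((((cb y * Tr fun x => F s x y) + R s y) - B1 y * F s 0 y)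
          - (q / 2) * bm * Dx (F s) 0 y) - (q / 2) * (B20 y * Dx (F s) 0 y) := by
      funext y
      have e2 : Tr (fun x => c x y * F s x y)
          = cb y * Tr (fun x => F s x y) + Tr (fun x => c0 x y * F s x y) := by
        rw [← Tr_mul, ← Tr_add ((hs.col y).mul_left _)
          (summable_bdd_mul (fun k => hc0M k y) (hs.col y))]
        congr 1
        funext x
        simp only [hc0]
        ring
      rw [e2]
      simp only [hR, hB20]
      ring
    have s0 : Sm (Dx (F s)) := hs.dx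
    have s1 : Summable fun y : ℕ => cb y * Tr fun x => F s x y :=
      summable_bdd_mul (fun k => hMb k) hs.tr_col
    have s3 : Summable fun y : ℕ => B1 y * F s 0 y :=
      summable_bdd_mul (fun k => hMB1 k) (hs.row 0)
    have s4 : Summable fun y : ℕ => (q / 2) * bm * Dx (F s) 0 y := (s0.row 0).mul_left _
    have s5 : Summable fun y : ℕ => (q / 2) * (B20 y * Dx (F s) 0 y) :=
      (summable_bdd_mul (fun k => hMB20 k) (s0.row 0)).mul_left _
    have s2 : Summable fun y : ℕ => R s y := by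
      refine Summable.of_norm_bounded (hs.dx.dx.dx.abs.tsum_col.mul_left KK) fun y => ?_
      exact hRb s hs y
    rw [e1, Tr_sub (((s1.add s2).sub s3).sub s4) s5, Tr_sub ((s1.add s2).sub s3) s4,
      Tr_sub (s1.add s2) s3, Tr_add s1 s2, Tr_mul, Tr_mul]
  -- limits
  have l1 := abs_T1 F hs h3y hL2 cb hcbs hcbe
  have l2 : Tendsto (fun s => Tr (R s)) l (𝓝 0) := by
    rw [tendsto_zero_iff_abs_tendsto_zero]
    refine tendsto_of_tendsto_of_tendsto_of_le_of_le' tendsto_const_nhds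
      (h := fun s => 2 * (KK * ∑' p : ℕ × ℕ, |Dx (Dx (Dx (F s))) p.1 p.2|)) ?_
      (Eventually.of_forall fun s => abs_nonneg _) ?_
    · simpa using (h3x.const_mul KK).const_mul 2
    · filter_upwards [hs] with s hs
      have s2 : Summable fun y : ℕ => R s y :=
        Summable.of_norm_bounded (hs.dx.dx.dx.abs.tsum_col.mul_left KK) fun y => hRb s hs y
      refine (Tr_bound s2).trans (mul_le_mul_of_nonneg_left ?_ zero_le_two)
      rw [hs.dx.dx.dx.abs.tsum_eq, ← tsum_mul_left]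
      exact s2.abs.tsum_le_tsum (fun y => hRb s hs y) (hs.dx.dx.dx.abs.tsum_col.mul_left KK)
  have l3 : Tendsto (fun s => Tr (fun y => B1 y * F s 0 y)) l (𝓝 (-(∑ y, B1 y * be1 y))) := by
    have h0 : Tendsto (fun s => Tr (fun y => B1 y * F s 0 y) + (∑ y, B1 y * be1 y) * F s 0 0) l
        (𝓝 0) := by
      rw [tendsto_zero_iff_abs_tendsto_zero]
      refine tendsto_of_tendsto_of_tendsto_of_le_of_le' tendsto_const_nhds
        (h := fun s => K1 * ∑' p : ℕ × ℕ, |Dy (Dy (Dy (F s))) p.1 p.2|) ?_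
        (Eventually.of_forall fun s => abs_nonneg _) ?_
      · simpa using h3y.const_mul K1
      · filter_upwards [hs] with s hs
        have := hb1 (fun y => F s 0 y) (hs.row 0)
        rw [hB1b2, mul_zero, zero_mul, add_zero] at this
        refine this.trans (mul_le_mul_of_nonneg_left ?_ hK1)
        exact hs.dy.dy.dy.abs.row_le (fun _ _ => abs_nonneg _) 0
    have h1 := h0.sub (h00.const_mul (∑ y, B1 y * be1 y))
    simpa using h1
  have l5 : Tendsto (fun s => Tr (fun y => B20 y * Dx (F s) 0 y)) l (𝓝 0) := by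
    rw [tendsto_zero_iff_abs_tendsto_zero]
    refine tendsto_of_tendsto_of_tendsto_of_le_of_le' tendsto_const_nhds
      (h := fun s => K2 * ∑' y, |Dy (Dx (F s)) 0 y|) ?_
      (Eventually.of_forall fun s => abs_nonneg _) ?_
    · simpa using hxy.const_mul K2
    · filter_upwards [hs] with s hs
      exact hb2 (fun y => Dx (F s) 0 y) (hs.dx.row 0)
  have hfin := (((l1.add l2).sub l3).sub (hL1.const_mul ((q / 2) * bm))).sub
    (l5.const_mul ((q : ℝ) / 2))
  have hval : (q / 2) * (∑ y, cb y * be2 y) * L2 + 0 - -(∑ y, B1 y * be1 y)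
      - (q / 2) * bm * -L1 - (q : ℝ) / 2 * 0
      = ∑ x, ∑ y, c x y * (be1 x * be1 y + L1 / 2 * be2 x + L2 / 2 * be2 y) := by
    have v1 : (q : ℝ) * (∑ y, cb y * be2 y) = ∑ x, ∑ y, c x y * be2 y := by
      rw [Finset.sum_comm, Finset.mul_sum]
      apply Finset.sum_congr rfl
      intro y _
      simp only [hcb]
      rw [← Finset.sum_mul]
      field_simp
    have v2 : (q : ℝ) * bm = ∑ x, ∑ y, c x y * be2 x := by
      rw [hbm, mul_div_cancel₀ _ hq]
      simp only [hB2, hc0, sub_mul]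
      rw [Finset.sum_comm (s := univ) (t := univ)]
      simp only [Finset.sum_sub_distrib]
      have : ∑ x : ZMod q, ∑ y : ZMod q, cb y * be2 x = 0 := by
        simp only [← Finset.sum_mul, hcbs, zero_mul, Finset.sum_const_zero]
      rw [this, sub_zero]
    have v3 : ∑ y, B1 y * be1 y = ∑ x, ∑ y, c x y * (be1 x * be1 y) := by
      rw [Finset.sum_comm]
      apply Finset.sum_congr rfl
      intro y _
      rw [hB1', Finset.sum_mul]
      apply Finset.sum_congr rfl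
      intro x _
      ring
    have v4 : ∑ x, ∑ y, c x y * (be1 x * be1 y + L1 / 2 * be2 x + L2 / 2 * be2 y)
        = ∑ x, ∑ y, c x y * (be1 x * be1 y) + L1 / 2 * ∑ x, ∑ y, c x y * be2 x
          + L2 / 2 * ∑ x, ∑ y, c x y * be2 y := by
      simp only [Finset.mul_sum, ← Finset.sum_add_distrib]
      apply Finset.sum_congr rfl
      intro x _
      apply Finset.sum_congr rfl
      intro y _
      ring
    rw [v4, v3, ← v1, ← v2]
    ring
  rw [hval] at hfin
  refine hfin.congr' ?_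
  filter_upwards [hs] with s hs
  exact (hdec s hs).symm

end Pool.Agent.Helper54.CN
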