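import Mathlib

/-!
Sums over residues as sums over a range.
-/

namespace Pool.Agent.Helper54.CN

open Finset Filter Topology

theorem sum_zmod {M : Type*} [AddCommMonoid M] (q : ℕ) [NeZero q] (f : ZMod q → M) :
    ∑ x : ZMod q, f x = ∑ j ∈ range q, f (j : ZMod q) := by
  refine Finset.sum_nbij' (fun x => x.val) (fun j => (j : ZMod q)) ?_ ?_ ?_ ?_ ?_
  · intro x _
    exact mem_range.2 (ZMod.val_lt x)
  · intro j _
    exact mem_univ _
  · intro x _
    simp
  · intro j hj
    exact ZMod.val_cast_of_lt (mem_range.1 hj)
  · intro x _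
    simp

set_option linter.unusedSectionVars false

end Pool.Agent.Helper54.CN
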