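import Pool.Agent.Helper54.CN.Abel
import Pool.Agent.Helper54.CN.SumZ

/-!
Trapezoidal sums against mean-zero functions on `ZMod q`.
-/

namespace Pool.Agent.Helper54.CN

open Finset Filter Topology

variable {q : ℕ} [NeZero q]

/-- first periodic Bernoulli function -/
noncomputable def be1 (x : ZMod q) : ℝ := if x = 0 then 0 else (x.val : ℝ) / q - 1 / 2

/-- second periodic Bernoulli function without its constant -/
noncomputable def be2 (x : ZMod q) : ℝ := ((x.val : ℝ) / q) ^ 2 - (x.val : ℝ) / q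

theorem be1_zero : be1 (0 : ZMod q) = 0 := by simp [be1]

theorem be2_zero : be2 (0 : ZMod q) = 0 := by simp [be2]

theorem be1_neg (x : ZMod q) : be1 (-x) = - be1 x := by
  unfold be1
  have hq : (q : ℝ) ≠ 0 := by exact_mod_cast (NeZero.ne q)
  by_cases hx : x = 0
  · simp [hx]
  · rw [if_neg hx, if_neg (neg_ne_zero.2 hx), ZMod.neg_val, if_neg hx,
      Nat.cast_sub (ZMod.val_lt x).le]
    field_simp
    ring

theorem be2_neg (x : ZMod q) : be2 (-x) = be2 x := by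
  unfold be2
  have hq : (q : ℝ) ≠ 0 := by exact_mod_cast (NeZero.ne q)
  by_cases hx : x = 0
  · simp [hx]
  · rw [ZMod.neg_val, if_neg hx, Nat.cast_sub (ZMod.val_lt x).le]
    field_simp
    ring

theorem sum_be1 : ∑ x : ZMod q, be1 x = 0 := by
  have h : ∑ x : ZMod q, be1 x = ∑ x : ZMod q, be1 (-x) :=
    (Equiv.sum_comp (Equiv.neg (ZMod q)) be1).symm
  simp only [be1_neg, Finset.sum_neg_distrib] at h
  linarith

/-- trapezoidal sum -/
noncomputable def Tr (f : ℕ → ℝ) : ℝ := ∑' k, f k - f 0 / 2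

theorem pz_of_zmod {w : ZMod q → ℝ} (hw : ∑ x, w x = 0) : PZ q (fun k => w (k : ZMod q)) where
  pos := Nat.pos_of_ne_zero (NeZero.ne q)
  per := fun k => by simp
  zero := by rw [← sum_zmod, hw]

theorem mu_zmod {w : ZMod q → ℝ} (hw : ∑ x, w x = 0) :
    mu q (fun k => w (k : ZMod q)) - w 0 / 2 = - ∑ x, w x * be1 x := by
  have hq : (q : ℝ) ≠ 0 := by exact_mod_cast (NeZero.ne q)
  rw [(pz_of_zmod hw).mu_eq]
  have h1 : ∀ x : ZMod q, w x * be1 x = (x.val : ℝ) * w x / q - w x / 2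
      + if x = 0 then w x / 2 else 0 := by
    intro x
    unfold be1
    by_cases hx : x = 0
    · simp [hx]
    · simp [hx]
      ring
  have h2 : ∑ j ∈ range q, (j : ℝ) * w (j : ZMod q) = ∑ x : ZMod q, (x.val : ℝ) * w x := by
    rw [sum_zmod]
    apply Finset.sum_congr rfl
    intro j hj
    rw [ZMod.val_cast_of_lt (mem_range.1 hj)]
  simp only [h1]
  rw [h2, Finset.sum_add_distrib, Finset.sum_sub_distrib, ← Finset.sum_div, ← Finset.sum_div, hw,
    Finset.sum_ite_eq' Finset.univ (0 : ZMod q) (fun x => w x / 2)]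
  simp
  ring

theorem mu_cps_zmod {w : ZMod q → ℝ} (hw : ∑ x, w x = 0) :
    mu q (cps q (fun k => w (k : ZMod q))) = (q / 2) * ∑ x, w x * be2 x := by
  have hq : (q : ℝ) ≠ 0 := by exact_mod_cast (NeZero.ne q)
  rw [(pz_of_zmod hw).mu_cps_eq, sum_zmod, Finset.mul_sum, Finset.sum_div]
  apply Finset.sum_congr rfl
  intro j hj
  unfold be2
  rw [ZMod.val_cast_of_lt (mem_range.1 hj)]
  field_simp

theorem tr_bound3 (w : ZMod q → ℝ) (hw : ∑ x, w x = 0) :
    ∃ K : ℝ, 0 ≤ K ∧ ∀ φ : ℕ → ℝ, Summable φ →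
      |Tr (fun k => w k * φ k) + (∑ x, w x * be1 x) * φ 0
        + (q / 2) * (∑ x, w x * be2 x) * dlt φ 0| ≤ K * ∑' k, |dlt (dlt (dlt φ)) k| := by
  obtain ⟨K, hK, h⟩ := abel_bound3 (pz_of_zmod hw)
  refine ⟨K, hK, fun φ hφ => ?_⟩
  have h1 := h φ hφ
  have h2 := mu_zmod hw
  have h3 := mu_cps_zmod hw
  rw [h3] at h1
  have h4 : Tr (fun k => w k * φ k) + (∑ x, w x * be1 x) * φ 0
        + (q / 2) * (∑ x, w x * be2 x) * dlt φ 0
      = ∑' (k : ℕ), w ↑k * φ k - mu q (fun k ↦ w ↑k) * φ 0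
        + (↑q / 2 * ∑ x, w x * be2 x) * dlt φ 0 := by
    have h5 : ∑ x, w x * be1 x = w 0 / 2 - mu q (fun k => w (k : ZMod q)) := by linarith
    rw [h5]
    unfold Tr
    simp only [Nat.cast_zero]
    ring
  rw [h4]
  exact h1

theorem tr_bound1 (w : ZMod q → ℝ) (hw : ∑ x, w x = 0) :
    ∃ K : ℝ, 0 ≤ K ∧ ∀ φ : ℕ → ℝ, Summable φ →
      |Tr (fun k => w k * φ k)| ≤ K * ∑' k, |dlt φ k| := by
  obtain ⟨K, hK, h⟩ := abel_bound1 (pz_of_zmod hw)
  refine ⟨K + |w 0|, by positivity, fun φ hφ => ?_⟩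
  have h1 := h φ hφ
  have h2 : |φ 0| ≤ ∑' k, |dlt φ k| := by
    have := tsum_dlt hφ
    have h2 : φ 0 = - ∑' k, dlt φ k := by linarith
    rw [h2, abs_neg]
    have := norm_tsum_le_tsum_norm (f := dlt φ) (by simpa using (summable_dlt hφ).norm)
    simpa using this
  unfold Tr
  have h3 : 0 ≤ ∑' k, |dlt φ k| := tsum_nonneg fun _ => abs_nonneg _
  calc |∑' k : ℕ, w k * φ k - w (0 : ℕ) * φ 0 / 2|
      ≤ |∑' k : ℕ, w k * φ k| + |w (0 : ℕ) * φ 0 / 2| := abs_sub _ _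
    _ ≤ K * ∑' k, |dlt φ k| + |w 0| * ∑' k, |dlt φ k| := by
        gcongr
        rw [abs_div, abs_mul, Nat.cast_zero, abs_two]
        have := mul_le_mul_of_nonneg_left h2 (abs_nonneg (w 0))
        have h4 : 0 ≤ |w 0| * |φ 0| := by positivity
        linarith
    _ = _ := by ring

end Pool.Agent.Helper54.CN
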