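import Pool.Agent.Helper54.CN.GoodDef

/-!
Definitions for the search tree over residue classes.
-/

namespace Pool.Agent.Helper54.CN

open Finset QuadraticAlgebra

/-- forced evaluation of a natural number argument -/
def slet {β : Type} (x : ℕ) (f : ℕ → β) : β :=
  Nat.rec (motive := fun _ => β) (f 0) (fun k _ => f k) (Nat.add x 1)

theorem slet_eq {β : Type} (x : ℕ) (f : ℕ → β) : slet x f = f x := rfl

/-- packed value of the character sum, evaluation form -/
noncomputable def RD.ttt (D : RD) (A m : ℕ) : ℕ :=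
  RD.rec (motive := fun _ => ℕ) (fun q _ _ T _ _ _ rows => TOT q T A m rows) D

theorem RD.ttt_eq (D : RD) (A m : ℕ) : D.ttt A m = D.tot A m := by
  cases D; rfl

/-- `(a, n)` lies in the class `(α, β)` modulo `Q` -/
def Cls (a n : ℤ) (Q α β : ℕ) : Prop := (a : ZMod Q) = α ∧ (n : ZMod Q) = β

/-- test of a relation on a class -/
noncomputable def tst (D : RD) (α β : ℕ) : Bool :=
  slet (Nat.mod α D.q) fun A => slet (Nat.mod (Nat.mul α β) D.q) fun m =>
    slet (D.ttt A m) fun N => ctst D.r (Nat.mod α D.r) (Nat.mod β D.r) N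

/-- a relation can be applied to `(a, n)` -/
structure App (a : ℤ) (D : RD) : Prop where
  G : Good D
  hna : ∀ p, p.Prime → p ∣ D.q * D.r → (p : ℤ) ≠ |a|

/-- successive filtering of residue pairs modulo a new prime -/
noncomputable def fil (α β : ℕ) (pre : List RD) (k : List (ℕ × ℕ) → Bool) (S : List (ℕ × ℕ)) :
    Bool :=
  List.rec (motive := fun _ => List (ℕ × ℕ) → Bool) k
    (fun D _ ih S => List.rec (motive := fun _ => Bool) true
      (fun _ _ _ => slet (Nat.mod α D.q) fun A => slet (Nat.mod (Nat.mul α β) D.q) fun m =>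
        slet (D.ttt A m) fun N => slet D.r fun r =>
          ih (List.filter (fun w => ctst r w.1 w.2 N) S)) S) pre S

theorem fil_nil (α β : ℕ) (k : List (ℕ × ℕ) → Bool) (S : List (ℕ × ℕ)) :
    fil α β [] k S = k S := rfl

theorem fil_cons_nil (α β : ℕ) (D : RD) (pre : List RD) (k : List (ℕ × ℕ) → Bool) :
    fil α β (D :: pre) k [] = true := rfl

theorem fil_cons_cons (α β : ℕ) (D : RD) (pre : List RD) (k : List (ℕ × ℕ) → Bool) (x : ℕ × ℕ)
    (S : List (ℕ × ℕ)) :
    fil α β (D :: pre) k (x :: S) = fil α β pre k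
      (List.filter (fun w => ctst D.r w.1 w.2 (D.ttt (α % D.q) (α * β % D.q))) (x :: S)) := rfl

/-- some test fails -/
noncomputable def anyF (post : List RD) (α β : ℕ) : Bool :=
  List.rec (motive := fun _ => Bool) false (fun D _ acc => Bool.rec (motive := fun _ => Bool)
    true acc (tst D α β)) post

theorem anyF_cons (D : RD) (post : List RD) (α β : ℕ) : anyF (D :: post) α β =
    Bool.rec (motive := fun _ => Bool) true (anyF post α β) (tst D α β) := rfl

/-- one step of the search: refine by a prime `p` with idempotents `e1, e2` modulo `Q p = Q'` -/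
noncomputable def stp (Q' e1 e2 : ℕ) (L : List (ℕ × ℕ)) (pre post : List RD) (k : ℕ → ℕ → Bool)
    (α β : ℕ) : Bool :=
  fil α β pre (fun S => allL S fun w =>
    slet (Nat.mod (Nat.add (Nat.mul e1 α) (Nat.mul e2 w.1)) Q') fun α' =>
    slet (Nat.mod (Nat.add (Nat.mul e1 β) (Nat.mul e2 w.2)) Q') fun β' =>
    orB (anyF post α' β') (k α' β')) L

/-- parameters of a step are consistent -/
def stOK (Q p Q' e1 e2 : ℕ) : Bool :=
  andB (Nat.beq Q' (Nat.mul Q p)) (andB (Nat.beq (Nat.gcd Q p) 1)
  (andB (Nat.beq (Nat.mod e1 Q) (Nat.mod 1 Q)) (andB (Nat.beq (Nat.mod e1 p) 0)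
  (andB (Nat.beq (Nat.mod e2 Q) 0) (Nat.beq (Nat.mod e2 p) (Nat.mod 1 p))))))

/-- table of non-residues: bit `z` is set, or `z` is a square -/
def nrOK (p nr : ℕ) : Bool :=
  allB p fun z => orB (Nat.beq (Nat.mod (Nat.shiftRight nr z) 2) 1)
    (List.any (List.range p) fun y => Nat.beq (Nat.mod (Nat.mul y y) p) z)

/-- second coordinates admissible for a first coordinate -/
def SP1 (p nr s : ℕ) : List (ℕ × ℕ) :=
  ((List.range p).filter fun t => Nat.beq (Nat.mod (Nat.shiftRight nr
    (Nat.mod (Nat.add (Nat.mul (Nat.mul s t) (Nat.mul s t)) (Nat.mul (Nat.sub p 1) (Nat.mul 4 s)))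
      p)) 2) 1).map fun t => (s, t)

/-- all admissible pairs -/
def SP (p nr : ℕ) : List (ℕ × ℕ) := (List.range p).flatMap fun s => SP1 p nr s

end Pool.Agent.Helper54.CN
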