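import Pool.Agent.Helper54.CN.Good
import Pool.Agent.Helper54.CN.ChainDef

/-!
Search tree over residue classes.
-/

namespace Pool.Agent.Helper54.CN

open Finset QuadraticAlgebra

theorem zmod_down {a : ℤ} {Q q α : ℕ} (h : (a : ZMod Q) = α) (hq : q ∣ Q) :
    (a : ZMod q) = α := by
  have := congrArg (ZMod.castHom hq (ZMod q)) h
  rwa [map_intCast, map_natCast] at this

theorem Cls.down {a n : ℤ} {Q q α β : ℕ} (h : Cls a n Q α β) (hq : q ∣ Q) : Cls a n q α β :=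
  ⟨zmod_down h.1 hq, zmod_down h.2 hq⟩

theorem Cls.prod {a n : ℤ} {q α β : ℕ} (h : Cls a n q α β) :
    ((a * n : ℤ) : ZMod q) = ((α * β : ℕ) : ZMod q) := by
  push_cast
  rw [h.1, h.2]

theorem Cls.mod {a n : ℤ} {q α β : ℕ} (h : Cls a n q α β) : Cls a n q (α % q) (β % q) := by
  refine ⟨?_, ?_⟩
  · rw [ZMod.natCast_mod]; exact h.1
  · rw [ZMod.natCast_mod]; exact h.2

/-- the context in which relations are applied -/
structure Ctx (a n : ℤ) : Prop where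
  h : Hyp a n
  hb : 150 ≤ a * n

theorem Ctx.tst_true {a n : ℤ} (c : Ctx a n) {D : RD} (A : App a D) {Q α β : ℕ}
    (hc : Cls a n Q α β) (hq : D.q ∣ Q) (hr : D.r ∣ Q) : tst D α β = true := by
  unfold tst
  simp only [slet_eq, RD.ttt_eq]
  have h1 := (hc.down hq).mod
  have h2 := (hc.down hr).mod
  refine c.h.test c.hb A.G A.hna h1.1 ?_ h2.1 h2.2
  have h3 := (hc.down hq).prod
  rw [h3]
  exact (ZMod.natCast_mod _ _).symm

theorem Ctx.fil_sound {a n : ℤ} (c : Ctx a n) {Q p α β : ℕ} (hc : Cls a n Q α β)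
    (w : ℕ × ℕ) (hw : Cls a n p w.1 w.2) (pre : List RD)
    (hpre : ∀ D ∈ pre, App a D ∧ D.q ∣ Q ∧ D.r = p) (k : List (ℕ × ℕ) → Bool) :
    ∀ S : List (ℕ × ℕ), w ∈ S → fil α β pre k S = true → ∃ S', w ∈ S' ∧ k S' = true := by
  induction pre with
  | nil =>
    intro S hS h
    rw [fil_nil] at h
    exact ⟨S, hS, h⟩
  | cons D pre ih =>
    intro S hS h
    cases S with
    | nil => exact absurd hS List.not_mem_nil
    | cons x S =>
      rw [fil_cons_cons] at h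
      obtain ⟨hA, hq, hr⟩ := hpre D List.mem_cons_self
      refine ih (fun D' hD' => hpre D' (List.mem_cons_of_mem _ hD')) _ ?_ h
      rw [List.mem_filter]
      refine ⟨hS, ?_⟩
      rw [RD.ttt_eq]
      subst hr
      have h1 := (hc.down hq).mod
      refine c.h.test c.hb hA.G hA.hna h1.1 ?_ hw.1 hw.2
      have h3 := (hc.down hq).prod
      rw [h3]
      exact (ZMod.natCast_mod _ _).symm

theorem Ctx.anyF_false {a n : ℤ} (c : Ctx a n) {Q α β : ℕ} (hc : Cls a n Q α β) (post : List RD)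
    (hpost : ∀ D ∈ post, App a D ∧ D.q ∣ Q ∧ D.r ∣ Q) : anyF post α β = false := by
  induction post with
  | nil => rfl
  | cons D post ih =>
    obtain ⟨hA, hq, hr⟩ := hpost D List.mem_cons_self
    rw [anyF_cons, c.tst_true hA hc hq hr]
    exact ih fun D' hD' => hpost D' (List.mem_cons_of_mem _ hD')

theorem cls_crt {a : ℤ} {Q p e1 e2 α s : ℕ} (hQ : Nat.Coprime Q p)
    (a1 : e1 % Q = 1 % Q) (a2 : e1 % p = 0) (b1 : e2 % Q = 0) (b2 : e2 % p = 1 % p)
    (h1 : (a : ZMod Q) = α) (h2 : (a : ZMod p) = s) :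
    (a : ZMod (Q * p)) = ((e1 * α + e2 * s) % (Q * p) : ℕ) := by
  have c11 : (e1 : ZMod Q) = 1 := by
    have := (ZMod.natCast_eq_natCast_iff e1 1 Q).2 a1
    simpa using this
  have c12 : (e1 : ZMod p) = 0 := by
    rw [ZMod.natCast_eq_zero_iff]
    exact Nat.dvd_of_mod_eq_zero a2
  have c21 : (e2 : ZMod Q) = 0 := by
    rw [ZMod.natCast_eq_zero_iff]
    exact Nat.dvd_of_mod_eq_zero b1
  have c22 : (e2 : ZMod p) = 1 := by
    have := (ZMod.natCast_eq_natCast_iff e2 1 p).2 b2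
    simpa using this
  rw [ZMod.natCast_mod]
  apply (ZMod.chineseRemainder hQ).injective
  rw [map_intCast, map_natCast]
  ext
  · simp only [Prod.fst_intCast, Prod.fst_natCast]
    push_cast
    rw [c11, c21, h1]
    ring
  · simp only [Prod.snd_intCast, Prod.snd_natCast]
    push_cast
    rw [c12, c22, h2]
    ring

theorem Ctx.stp_sound {a n : ℤ} (c : Ctx a n) {Q p Q' e1 e2 : ℕ} (hst : stOK Q p Q' e1 e2 = true)
    {L : List (ℕ × ℕ)} (hL : ∃ w ∈ L, Cls a n p w.1 w.2) {pre post : List RD}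
    (hpre : ∀ D ∈ pre, App a D ∧ D.q ∣ Q ∧ D.r = p)
    (hpost : ∀ D ∈ post, App a D ∧ D.q ∣ Q' ∧ D.r ∣ Q') {k : ℕ → ℕ → Bool} {α β : ℕ}
    (hc : Cls a n Q α β) (h : stp Q' e1 e2 L pre post k α β = true) :
    ∃ α' β', Cls a n Q' α' β' ∧ k α' β' = true := by
  obtain ⟨w, hw, hwc⟩ := hL
  unfold stp at h
  obtain ⟨S', hwS, hS⟩ := c.fil_sound hc w hwc pre hpre _ L hw h
  rw [allL_iff] at hS
  have h1 := hS w hwS
  simp only [slet_eq] at h1
  unfold stOK at hst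
  simp only [andB_iff, beq_iff'] at hst
  obtain ⟨s1, s2, s3, s4, s5, s6⟩ := hst
  have s1' : Q' = Q * p := s1
  subst s1'
  have hc' : Cls a n (Q * p) ((e1 * α + e2 * w.1) % (Q * p)) ((e1 * β + e2 * w.2) % (Q * p)) :=
    ⟨cls_crt s2 s3 s4 s5 s6 hc.1 hwc.1, cls_crt s2 s3 s4 s5 s6 hc.2 hwc.2⟩
  rw [orB_iff] at h1
  rcases h1 with h1 | h1
  · have := c.anyF_false hc' post hpost
    rw [show anyF post ((e1 * α + e2 * w.1) % (Q * p)) ((e1 * β + e2 * w.2) % (Q * p)) = true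
      from h1] at this
    exact absurd this (by simp)
  · exact ⟨_, _, hc', h1⟩

theorem Ctx.sp1_mem {a n : ℤ} (c : Ctx a n) {p : ℕ} (hp : p.Prime) (hp2 : p ≠ 2) (hp97 : p ≤ 97)
    (hna : (p : ℤ) ≠ |a|) {nr : ℕ} (hnr : nrOK p nr = true) :
    ∃ s t, s < p ∧ (s, t) ∈ SP1 p nr s ∧ Cls a n p s t := by
  have : NeZero p := ⟨hp.ne_zero⟩
  refine ⟨(a : ZMod p).val, (n : ZMod p).val, ZMod.val_lt _, ?_, by simp [Cls]⟩
  unfold SP1
  rw [List.mem_map]
  refine ⟨(n : ZMod p).val, ?_, rfl⟩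
  rw [List.mem_filter]
  refine ⟨List.mem_range.2 (ZMod.val_lt _), ?_⟩
  rw [beq_iff']
  unfold nrOK at hnr
  simp only [allB_iff] at hnr
  set s := (a : ZMod p).val with hs
  set t := (n : ZMod p).val with ht
  set z := (s * t * (s * t) + (p - 1) * (4 * s)) % p with hz
  have h1 := hnr z (Nat.mod_lt _ hp.pos)
  rw [orB_iff] at h1
  rcases h1 with h1 | h1
  · exact beq_iff'.1 h1
  · exfalso
    rw [List.any_eq_true] at h1
    obtain ⟨y, _, hy⟩ := h1
    rw [beq_iff'] at hy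
    have hb' : 3 * (p : ℤ) + 3 < 2 * (a * n) := by
      have := c.hb
      have : (p : ℤ) ≤ 97 := by exact_mod_cast hp97
      omega
    obtain ⟨k, hk⟩ := hp.odd_of_ne_two hp2
    have hy' : (y : ZMod p) * y = (a * n) * (a * n) - 4 * a := by
      have e1 : ((y * y % p : ℕ) : ZMod p) = (z : ZMod p) := congrArg _ hy
      rw [ZMod.natCast_mod, hz, ZMod.natCast_mod] at e1
      push_cast [Nat.cast_sub hp.one_lt.le] at e1
      rw [e1, hs, ht]
      simp only [ZMod.natCast_val, ZMod.cast_id', id_eq, CharP.cast_eq_zero]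
      ring
    apply c.h.inert hp hna hb' ((k + 1) * (a * n + y))
    rw [← ZMod.intCast_zmod_eq_zero_iff_dvd]
    have hk2 : (2 : ZMod p) * (k + 1) = 1 := by
      have : ((2 * k + 1 : ℕ) : ZMod p) = 0 := by rw [← hk]; simp
      push_cast at this
      linear_combination this
    push_cast
    have e3 : (k + 1 : ZMod p) * (k + 1) * (4 : ZMod p) = 1 := by
      linear_combination (2 * (k + 1 : ZMod p) + 1) * hk2
    linear_combination ((k + 1 : ZMod p) ^ 2) * hy' + (k + 1 : ZMod p) * ((a * n : ZMod p) ^ 2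
      + a * n * y) * hk2 - a * e3

theorem Ctx.sp_mem {a n : ℤ} (c : Ctx a n) {p : ℕ} (hp : p.Prime) (hp2 : p ≠ 2) (hp97 : p ≤ 97)
    (hna : (p : ℤ) ≠ |a|) {nr : ℕ} (hnr : nrOK p nr = true) :
    ∃ w ∈ SP p nr, Cls a n p w.1 w.2 := by
  obtain ⟨s, t, hs, hst, hcst⟩ := c.sp1_mem hp hp2 hp97 hna hnr
  exact ⟨(s, t), List.mem_flatMap.2 ⟨s, List.mem_range.2 hs, hst⟩, hcst⟩

theorem Ctx.sp1_mem' {a n : ℤ} (c : Ctx a n) {p : ℕ} (hp : p.Prime) (hp2 : p ≠ 2) (hp97 : p ≤ 97)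
    (hna : (p : ℤ) ≠ |a|) {nr : ℕ} (hnr : nrOK p nr = true) {s : ℕ} (hs : s < p)
    (ha : (a : ZMod p) = s) :
    ∃ w ∈ SP1 p nr s, Cls a n p w.1 w.2 := by
  obtain ⟨s', t, hs', hst, hcst⟩ := c.sp1_mem hp hp2 hp97 hna hnr
  have h1 : ((s' : ℕ) : ZMod p) = (s : ℕ) := hcst.1.symm.trans ha
  rw [ZMod.natCast_eq_natCast_iff] at h1
  have h2 : s' = s := by
    have h3 : s' % p = s % p := h1
    rwa [Nat.mod_eq_of_lt hs', Nat.mod_eq_of_lt hs] at h3
  subst h2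
  exact ⟨(s', t), hst, hcst⟩

end Pool.Agent.Helper54.CN
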