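import Pool.Agent.Helper54.CN.Count2

/-!
A fundamental domain for classes of positive norm.
-/

namespace Pool.Agent.Helper54.CN

open QuadraticAlgebra NumberTheorySymbols Finset

variable {a n : ℤ}

/-- the trace in coordinates -/
def TT (a n x y : ℤ) : ℤ := 2 * x + a * n * y

theorem TT_sq (a n x y : ℤ) : TT a n x y ^ 2 = DD a n * y ^ 2 + 4 * QQ a n x y := by
  unfold TT DD QQ; ring

/-- the fundamental domain -/
def Dset (a n : ℤ) : Set (ℤ × ℤ) := {z | 0 ≤ z.2 ∧ 0 < a.sign * (n * z.1 + z.2)}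

namespace Hyp

theorem sgn (h : Hyp a n) : a.sign * a.sign = 1 ∧ 0 < a.sign * n ∧
    2 < a.sign * (a * n ^ 2 - 2) := by
  have hb := h.big
  rcases h.pos_or_neg with ⟨ha, hn⟩ | ⟨ha, hn⟩
  · rw [Int.sign_eq_one_of_pos ha]
    refine ⟨by norm_num, by linarith, ?_⟩
    have : 1 ≤ n := hn
    nlinarith
  · rw [Int.sign_eq_neg_one_of_neg ha]
    refine ⟨by norm_num, by linarith, ?_⟩
    have : n ≤ -1 := by linarith
    have h1 : a ≤ -1 := by linarith
    nlinarith

theorem te_sq (h : Hyp a n) : (a.sign * (a * n ^ 2 - 2)) ^ 2 - 4 = (a.sign * n) ^ 2 * DD a n := by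
  have h1 := h.sgn.1
  unfold DD
  linear_combination ((a * n ^ 2 - 2) ^ 2 - n ^ 2 * ((a * n) ^ 2 - 4 * a)) * h1

theorem D_pos (h : Hyp a n) : 0 < DD a n := by have := DD_gt h.big; linarith

theorem dset_trace (h : Hyp a n) {x y : ℤ} (hz : (x, y) ∈ Dset a n) :
    0 < TT a n x y ∧ 0 < QQ a n x y := by
  obtain ⟨hy, hd⟩ := hz
  simp only at hy hd
  obtain ⟨h1, h2, h3⟩ := h.sgn
  set s := a.sign
  have e1 : (s * n) * TT a n x y = 2 * (s * (n * x + y)) + (s * (a * n ^ 2 - 2)) * y := by
    unfold TT; ring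
  have hT : 0 < (s * n) * TT a n x y := by
    rw [e1]
    have : 0 ≤ (s * (a * n ^ 2 - 2)) * y := mul_nonneg (by linarith) hy
    linarith
  refine ⟨(mul_pos_iff_of_pos_left h2).1 hT, ?_⟩
  have e2 : (s * n) ^ 2 * (4 * QQ a n x y) = 4 * (s * (n * x + y)) ^ 2
      + 4 * (s * (n * x + y)) * ((s * (a * n ^ 2 - 2)) * y) + 4 * y ^ 2 := by
    have h4 := TT_sq a n x y
    have h5 := h.te_sq
    have h6 : (s * n) ^ 2 * (4 * QQ a n x y)
        = ((s * n) * TT a n x y) ^ 2 - ((s * n) ^ 2 * DD a n) * y ^ 2 := by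
      linear_combination (-(s * n) ^ 2) * h4
    rw [h6, e1, ← h5]
    ring
  have h7 : 0 < (s * n) ^ 2 * (4 * QQ a n x y) := by
    rw [e2]
    have : 0 ≤ (s * (a * n ^ 2 - 2)) * y := mul_nonneg (by linarith) hy
    have : 0 < (s * (n * x + y)) ^ 2 := by positivity
    have : 0 ≤ (s * (n * x + y)) * ((s * (a * n ^ 2 - 2)) * y) := by positivity
    linarith [sq_nonneg y]
  have h8 : 0 < 4 * QQ a n x y := (mul_pos_iff_of_pos_left (by positivity)).1 h7
  linarith

/-- positive units with positive second coordinate are at least the basic one -/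
theorem unit_ge (h : Hyp a n) {x y : ℤ} (hN : QQ a n x y = 1) (hT : 0 < TT a n x y)
    (hy : 0 < y) : a.sign * n ≤ y := by
  have hb := h.big
  have hTs := TT_sq a n x y
  rw [hN] at hTs
  have hpar : ∃ k, TT a n x y = a * n * y + 2 * k := ⟨x, by unfold TT; ring⟩
  obtain ⟨k, hk⟩ := hpar
  set T := TT a n x y
  have hmy : 0 < a * n * y := by positivity
  unfold DD at hTs
  rcases h.pos_or_neg with ⟨ha, hn⟩ | ⟨ha, hn⟩
  · rw [Int.sign_eq_one_of_pos ha]
    have ha3 : 3 ≤ a := by have := h.ha; rwa [abs_of_pos ha] at this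
    have h1 : T ^ 2 < (a * n * y) ^ 2 := by nlinarith
    have h2 : T < a * n * y := lt_of_pow_lt_pow_left₀ 2 hmy.le h1
    have h3 : T ≤ a * n * y - 2 := by omega
    have h4 : T ^ 2 ≤ (a * n * y - 2) ^ 2 := pow_le_pow_left₀ hT.le h3 2
    have h5 : a * (n * y) ≤ a * (y ^ 2) := by linarith
    have h6 : n * y ≤ y ^ 2 := le_of_mul_le_mul_left h5 ha
    have h7 : n * y ≤ y * y := by linarith
    have := le_of_mul_le_mul_right h7 hy
    linarith
  · rw [Int.sign_eq_neg_one_of_neg ha]
    have h1 : (a * n * y) ^ 2 < T ^ 2 := by nlinarith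
    have h2 : a * n * y < T := lt_of_pow_lt_pow_left₀ 2 hT.le h1
    have h3 : a * n * y + 2 ≤ T := by omega
    have h4 : (a * n * y + 2) ^ 2 ≤ T ^ 2 := pow_le_pow_left₀ (by linarith) h3 2
    have h5 : (-a) * (-n * y) ≤ (-a) * (y ^ 2) := by linarith
    have h6 : -n * y ≤ y ^ 2 := le_of_mul_le_mul_left h5 (by linarith)
    have h7 : -n * y ≤ y * y := by linarith
    have := le_of_mul_le_mul_right h7 hy
    linarith

/-- product of two totally positive coordinates pairs -/
theorem tot_pos {D T1 T2 y1 y2 : ℤ} (hD : 0 < D) (h1 : 0 < T1) (h2 : 0 < T2)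
    (h3 : D * y1 ^ 2 < T1 ^ 2) (h4 : D * y2 ^ 2 < T2 ^ 2) : 0 < T1 * T2 + D * (y1 * y2) := by
  have h5 : (D * (y1 * y2)) ^ 2 < (T1 * T2) ^ 2 := by
    have e : (D * (y1 * y2)) ^ 2 = (D * y1 ^ 2) * (D * y2 ^ 2) := by ring
    rw [e, mul_pow]
    have : 0 ≤ D * y1 ^ 2 := by positivity
    have : 0 ≤ D * y2 ^ 2 := by positivity
    exact mul_lt_mul'' h3 h4 (by positivity) (by positivity)
  have h6 := abs_lt_of_sq_lt_sq h5 (by positivity)
  have := (abs_lt.1 h6).1
  linarith

theorem TT_mul (a n x1 y1 x2 y2 : ℤ) (z1 z2 : RR a n) (h1 : z1 = ⟨x1, y1⟩) (h2 : z2 = ⟨x2, y2⟩) :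
    2 * TT a n (z1 * z2).re (z1 * z2).im = TT a n x1 y1 * TT a n x2 y2 + DD a n * (y1 * y2) ∧
    2 * (z1 * z2).im = TT a n x1 y1 * y2 + y1 * TT a n x2 y2 := by
  subst h1 h2
  constructor
  · simp only [re_mul, im_mul]
    unfold TT DD; ring
  · simp only [im_mul]
    unfold TT; ring

/-- units acting on the domain, one-sided version -/
theorem inj_aux (h : Hyp a n) {α β u : RR a n} (hα : (α.re, α.im) ∈ Dset a n)
    (hβ : (β.re, β.im) ∈ Dset a n) (hu : IsUnit u) (huα : β = u * α) (hy : 0 ≤ u.im) : u = 1 := by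
  have hD := h.D_pos
  have hN : QQ a n u.re u.im = 1 := by rw [← norm_eq]; exact h.unit_norm hu
  obtain ⟨hTα, hNα⟩ := h.dset_trace hα
  obtain ⟨hTβ, hNβ⟩ := h.dset_trace hβ
  have sqα := TT_sq a n α.re α.im
  have squ := TT_sq a n u.re u.im
  rw [hN] at squ
  have hmul := TT_mul a n u.re u.im α.re α.im u α rfl rfl
  rw [← huα] at hmul
  have hTu : 0 < TT a n u.re u.im := by
    by_contra hc
    have hc' : 0 < - TT a n u.re u.im := by
      have : TT a n u.re u.im ≠ 0 := by
        intro h0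
        rw [h0] at squ
        linarith [mul_nonneg hD.le (sq_nonneg u.im)]
      omega
    have := tot_pos (y1 := -u.im) (y2 := α.im) hD hc' hTα (by
      rw [neg_sq, neg_sq]; linarith) (by linarith)
    linarith [hmul.1]
  rcases hy.eq_or_lt with h0 | h0
  · have : TT a n u.re u.im = 2 * u.re := by unfold TT; rw [← h0]; ring
    rw [this] at squ hTu
    rw [← h0] at squ
    have hr : u.re = 1 := by nlinarith
    ext
    · simpa using hr
    · simpa using h0.symm
  · exfalso
    have hge := h.unit_ge hN hTu h0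
    obtain ⟨s1, s2, s3⟩ := h.sgn
    have tes := h.te_sq
    set s := a.sign
    set te := s * (a * n ^ 2 - 2) with hte
    set ν := s * n with hν
    -- v = star ε * u
    set ε' : RR a n := ⟨s * (a * n ^ 2 - 1), -(s * n)⟩ with hε
    have hTε : TT a n (s * (a * n ^ 2 - 1)) (-(s * n)) = te := by
      unfold TT; rw [hte]; ring
    have m1 := TT_mul a n (s * (a * n ^ 2 - 1)) (-(s * n)) u.re u.im ε' u rfl rfl
    rw [hTε] at m1
    set v := ε' * u with hv
    have hyv : 0 ≤ v.im := by
      have h1 : (ν * TT a n u.re u.im) ^ 2 ≤ (te * u.im) ^ 2 := by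
        have : (te * u.im) ^ 2 - (ν * TT a n u.re u.im) ^ 2 = 4 * (u.im ^ 2 - ν ^ 2) := by
          linear_combination (-ν ^ 2) * squ + (u.im ^ 2) * tes
        have h2 : ν ^ 2 ≤ u.im ^ 2 := pow_le_pow_left₀ s2.le hge 2
        linarith
      have h3 : ν * TT a n u.re u.im ≤ te * u.im := by
        apply le_of_sq_le_sq h1
        have : 0 < te := by linarith
        positivity
      have h4 := m1.2
      rw [← hν] at h4
      linarith
    have hTv : 0 < TT a n v.re v.im := by
      have h1 := tot_pos (D := DD a n) (T1 := te) (T2 := TT a n u.re u.im) (y1 := -(s * n))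
        (y2 := u.im) hD (by linarith) hTu (by rw [neg_sq, ← hν]; linarith) (by linarith)
      have h2 := m1.1
      linarith
    have m2 := TT_mul a n v.re v.im α.re α.im v α rfl rfl
    have e1 : v * α = ε' * β := by rw [hv, huα]; ring
    have h5 : (v * α).im = -(s * (n * β.re + β.im)) := by
      rw [e1, hε]
      simp only [im_mul]
      ring
    have h6 : 0 ≤ 2 * (v * α).im := by
      rw [m2.2]
      have := hα.1
      simp only at this
      positivity
    have := hβ.2
    simp only at this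
    linarith

theorem inj (h : Hyp a n) {α β : RR a n} (hα : (α.re, α.im) ∈ Dset a n)
    (hβ : (β.re, β.im) ∈ Dset a n) (hab : Associated α β) : α = β := by
  obtain ⟨u, hu⟩ := hab
  rcases le_total 0 (u : RR a n).im with h1 | h1
  · have := h.inj_aux hα hβ u.isUnit (by rw [← hu, mul_comm]) h1
    rw [← hu, this, mul_one]
  · have hN := h.unit_norm u.isUnit
    have hst : star (u : RR a n) * u = 1 := by
      rw [mul_comm, ← algebraMap_norm_eq_mul_star, hN, map_one]
    have hsu : IsUnit (star (u : RR a n)) := ⟨⟨star u, u, hst, by rw [mul_comm]; exact hst⟩, rfl⟩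
    have := h.inj_aux hβ hα hsu (by rw [← hu, mul_comm α, ← mul_assoc, hst, one_mul]) (by
      simpa using h1)
    rw [← hu]
    rw [this] at hst
    rw [one_mul] at hst
    rw [hst, mul_one]

set_option maxHeartbeats 1000000 in
theorem surj_aux (h : Hyp a n) {α : RR a n} (hα : 0 < α.norm) :
    ∃ β : RR a n, Associated α β ∧ (β.re, β.im) ∈ Dset a n := by
  classical
  have hD := h.D_pos
  -- representatives with positive trace
  have hex : ∃ k : ℕ, ∃ β : RR a n, Associated α β ∧ 0 < TT a n β.re β.im ∧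
      (TT a n β.re β.im).toNat = k := by
    have sq := TT_sq a n α.re α.im
    rw [← norm_eq] at sq
    have hne : TT a n α.re α.im ≠ 0 := by
      intro h0
      rw [h0] at sq
      linarith [mul_nonneg hD.le (sq_nonneg α.im)]
    rcases lt_or_gt_of_ne hne with h1 | h1
    · refine ⟨_, -α, ⟨-1, by simp⟩, ?_, rfl⟩
      have : TT a n (-α).re (-α).im = - TT a n α.re α.im := by unfold TT; simp; ring
      linarith
    · exact ⟨_, α, Associated.refl _, h1, rfl⟩
  obtain ⟨β, hβ, hTβ, hk⟩ := Nat.find_spec hex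
  have hmin : ∀ γ : RR a n, Associated α γ → 0 < TT a n γ.re γ.im →
      TT a n β.re β.im ≤ TT a n γ.re γ.im := by
    intro γ h1 h2
    have := Nat.find_min' hex ⟨γ, h1, h2, rfl⟩
    rw [← hk] at this
    omega
  have hNβ : β.norm = α.norm := (h.norm_assoc hβ).symm
  have sqβ := TT_sq a n β.re β.im
  rw [← norm_eq, hNβ] at sqβ
  obtain ⟨s1, s2, s3⟩ := h.sgn
  have tes := h.te_sq
  set s := a.sign with hs
  set te := s * (a * n ^ 2 - 2) with hte
  set ν := s * n with hν
  set ε' : RR a n := ⟨s * (a * n ^ 2 - 1), -(s * n)⟩ with hε'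
  set ε : RR a n := ⟨-s, s * n⟩ with hε
  have hee : ε * ε' = 1 := by
    ext
    · simp only [hε, hε', re_mul, re_one]
      linear_combination s1
    · simp only [hε, hε', im_mul, im_one]
      ring
  have hTε' : TT a n (s * (a * n ^ 2 - 1)) (-(s * n)) = te := by
    unfold TT; rw [hte]; ring
  have hTε : TT a n (-s) (s * n) = te := by
    unfold TT; rw [hte]; ring
  have uε : IsUnit ε := IsUnit.of_mul_eq_one _ hee
  have uε' : IsUnit ε' := IsUnit.of_mul_eq_one _ (by rw [mul_comm]; exact hee)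
  have m1 := TT_mul a n (s * (a * n ^ 2 - 1)) (-(s * n)) β.re β.im ε' β rfl rfl
  have m2 := TT_mul a n (-s) (s * n) β.re β.im ε β rfl rfl
  rw [hTε'] at m1
  rw [hTε] at m2
  have p1 := tot_pos (D := DD a n) (T1 := te) (T2 := TT a n β.re β.im) (y1 := -(s * n))
        (y2 := β.im) hD (by linarith) hTβ (by rw [neg_sq, ← hν]; linarith) (by linarith)
  have p2 := tot_pos (D := DD a n) (T1 := te) (T2 := TT a n β.re β.im) (y1 := (s * n))
        (y2 := β.im) hD (by linarith) hTβ (by rw [← hν]; linarith) (by linarith)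
  have as1 : Associated α (ε' * β) := hβ.trans (associated_unit_mul_right β ε' uε')
  have as2 : Associated α (ε * β) := hβ.trans (associated_unit_mul_right β ε uε)
  have q1 := hmin _ as1 (by linarith [m1.1])
  have q2 := hmin _ as2 (by linarith [m2.1])
  rw [← hν] at m1 m2 p1 p2
  set T := TT a n β.re β.im with hT
  set y := β.im with hy
  -- the key inequality
  have key1 : ν * DD a n * y ≤ (te - 2) * T := by
    have := m1.1
    linarith
  have key2 : -(ν * DD a n * y) ≤ (te - 2) * T := by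
    have := m2.1
    linarith
  have k1 : (te + 2) * y ≤ ν * T := by
    have h1 : (te - 2) * ((te + 2) * y) ≤ (te - 2) * (ν * T) := by
      have h2 : ν * (ν * DD a n * y) ≤ ν * ((te - 2) * T) := mul_le_mul_of_nonneg_left key1 s2.le
      have h3 : (te - 2) * ((te + 2) * y) = ν * (ν * DD a n * y) := by linear_combination y * tes
      have h4 : (te - 2) * (ν * T) = ν * ((te - 2) * T) := by ring
      rw [h3, h4]
      exact h2
    exact le_of_mul_le_mul_left h1 (by linarith)
  have k2 : (te + 2) * (-y) ≤ ν * T := by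
    have h1 : (te - 2) * ((te + 2) * (-y)) ≤ (te - 2) * (ν * T) := by
      have h2 : ν * (-(ν * DD a n * y)) ≤ ν * ((te - 2) * T) := mul_le_mul_of_nonneg_left key2 s2.le
      have h3 : (te - 2) * ((te + 2) * -y) = ν * (-(ν * DD a n * y)) := by
        linear_combination (-y) * tes
      have h4 : (te - 2) * (ν * T) = ν * ((te - 2) * T) := by ring
      rw [h3, h4]
      exact h2
    exact le_of_mul_le_mul_left h1 (by linarith)
  rcases le_or_gt 0 y with hy0 | hy0
  · refine ⟨β, hβ, hy0, ?_⟩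
    have e1 : (ε' * β).im = -(s * (n * β.re + β.im)) := by
      rw [hε']
      simp only [im_mul]
      ring
    show 0 < s * (n * β.re + β.im)
    have h3 : 2 * (ε' * β).im < 0 := by
      rw [m1.2]
      rcases hy0.eq_or_lt with h0 | h0
      · rw [← h0]
        have : 0 < ν * T := by positivity
        linarith
      · linarith
    linarith
  · refine ⟨ε * β, as2, ?_, ?_⟩
    · show 0 ≤ (ε * β).im
      have := m2.2
      linarith
    · show 0 < s * (n * (ε * β).re + (ε * β).im)
      have e1 : (ε' * (ε * β)).im = -(s * (n * (ε * β).re + (ε * β).im)) := by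
        rw [hε']
        simp only [im_mul]
        ring
      have e2 : ε' * (ε * β) = β := by
        rw [← mul_assoc, mul_comm ε', hee, one_mul]
      rw [e2] at e1
      linarith

theorem bij (h : Hyp a n) {N : ℕ} (hN : 0 < N) :
    Set.BijOn (fun z : ℤ × ℤ => Associates.mk (⟨z.1, z.2⟩ : RR a n))
      {z ∈ Dset a n | QQ a n z.1 z.2 = N} {A | nrm A = N} := by
  refine ⟨?_, ?_, ?_⟩
  · rintro ⟨x, y⟩ ⟨h1, h2⟩
    show nrm _ = _
    rw [h.nrm_mk, norm_eq]
    exact h2
  · rintro ⟨x, y⟩ ⟨h1, h2⟩ ⟨x', y'⟩ ⟨h3, h4⟩ heq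
    have h5 : Associated (⟨x, y⟩ : RR a n) ⟨x', y'⟩ := Associates.mk_eq_mk_iff_associated.1 heq
    have h6 := h.inj (α := ⟨x, y⟩) (β := ⟨x', y'⟩) h1 h3 h5
    have h7 := congrArg QuadraticAlgebra.re h6
    have h8 := congrArg QuadraticAlgebra.im h6
    simp only at h7 h8
    rw [h7, h8]
  · intro A hA
    obtain ⟨x, rfl⟩ := Associates.mk_surjective A
    have hA' : nrm (Associates.mk x) = N := hA
    rw [h.nrm_mk] at hA'
    obtain ⟨β, h1, h2⟩ := h.surj_aux (α := x) (by rw [hA']; exact_mod_cast hN)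
    refine ⟨(β.re, β.im), ⟨h2, ?_⟩, ?_⟩
    · show QQ a n β.re β.im = N
      rw [← norm_eq, ← h.norm_assoc h1, hA']
    · show Associates.mk (⟨β.re, β.im⟩ : RR a n) = _
      exact (Associates.mk_eq_mk_iff_associated.2 h1).symm

/-- the number of points of the domain with given norm -/
theorem card_dset (h : Hyp a n) {N : ℕ} (hN : 0 < N) :
    2 * (Nat.card {z : ℤ × ℤ // z ∈ Dset a n ∧ QQ a n z.1 z.2 = N} : ℤ)
      = cnv (fun _ => 1) (fun k => J((k : ℤ) | Dn a n)) N
        + cnv (fun k => J((k : ℤ) | a.natAbs)) (fun k => J((k : ℤ) | pp a n)) N := by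
  have h1 := h.count_one hN
  have h2 := h.count_sign hN
  rw [← h1.2, ← h2, ← finsum_mem_add_distrib h1.1]
  have hb := h.bij hN
  have hc : Nat.card {z : ℤ × ℤ // z ∈ Dset a n ∧ QQ a n z.1 z.2 = N}
      = ({A | nrm A = N} : Set (Associates (RR a n))).ncard := by
    rw [← hb.image_eq, hb.injOn.ncard_image]
    rfl
  rw [hc]
  have hsub : ({A | nrm A = N} : Set (Associates (RR a n))) ⊆ SS a n N := by
    intro A hA
    have : nrm A = N := hA
    show (nrm A).natAbs = N
    rw [this, Int.natAbs_natCast]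
  have hfin : ({A | nrm A = N} : Set (Associates (RR a n))).Finite := h1.1.subset hsub
  have h3 : ∑ᶠ A ∈ SS a n N, (1 + Int.sign (nrm A))
      = ∑ᶠ A ∈ ({A | nrm A = N} : Set (Associates (RR a n))), (2 : ℤ) := by
    rw [← finsum_mem_inter_support, ← finsum_mem_inter_support (fun _ => (2:ℤ))]
    have hset : SS a n N ∩ Function.support (fun A => 1 + Int.sign (nrm A))
        = ({A | nrm A = N} : Set (Associates (RR a n))) ∩ Function.support (fun _ => (2 : ℤ)) := by
      ext A
      simp only [Set.mem_inter_iff, Function.mem_support]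
      constructor
      · rintro ⟨h4, h5⟩
        have h4' : (nrm A).natAbs = N := h4
        refine ⟨?_, by norm_num⟩
        show nrm A = N
        rcases Int.natAbs_eq (nrm A) with h6 | h6
        · rw [h6, h4']
        · exfalso
          apply h5
          rw [h6, h4', Int.sign_neg, Int.sign_eq_one_of_pos (by exact_mod_cast hN)]
          norm_num
      · rintro ⟨h4, _⟩
        have h4' : nrm A = N := h4
        refine ⟨hsub h4, ?_⟩
        rw [h4', Int.sign_eq_one_of_pos (by exact_mod_cast hN)]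
        norm_num
    rw [hset]
    apply finsum_mem_congr rfl
    rintro A ⟨h4, _⟩
    have h4' : nrm A = N := h4
    rw [h4', Int.sign_eq_one_of_pos (by exact_mod_cast hN)]
    norm_num
  rw [h3, finsum_mem_eq_finite_toFinset_sum _ hfin, Finset.sum_const, nsmul_eq_mul,
    Set.ncard_eq_toFinset_card _ hfin]
  ring

end Hyp

end Pool.Agent.Helper54.CN
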