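import Pool.Agent.Helper54.CN.NZero3

/-!
Data modulo 91 in characteristic 37.
-/

namespace Pool.Agent.Helper54.CN

set_option maxRecDepth 100000

/-- character table -/
def N91x37_T7 : ℕ := 39402006196394479267814703034087275948508224523246963601917091852959439676300197497220405829787235522464713575235584

/-- character table -/
def N91x37_T13 : ℕ := 55890651322825521667803964642968537296657902768651301849228757229125221217431616427771273289071938109383288242894376215723882305644168691797753103847844010083754491839928449129344696799459503951771243775775039160780001230384521019392

/-- character table -/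
def N91x37_T : ℕ := 30837383749332363457918649426793361543420024767829540961316951988447451047994367997290406411421141659932559095943713274994868280775537312367711150964696811837372877238319823640033451668329821924723362250514089325045688096220049848893718679500381598442676025952767239136902193907344054876028098717353096726455454874409098721335775430208733434216161203288205541144388930307286437613308974655558565990304965386200959882156048894595864677138968523523763133138380636260627109834301832904836534691523435822333390659252188303747354642669931309154013987532397749206967006357095191351026067736414676293708116137600668001407493077420313230140187546130647894644269277897846632328912795588009528765943944831387830783793828386427596876719463488641646332567413813268830308161197151009253625798885595238408634615241308629537375546707946623266636384031036334595227811574471153467051381364457413545734628139150177519915487109201340216654804978217758461732638275259759155837396734797185283899667376302741427886813732152949260187485984319983812777900935704204838370530691005412171630952367035820192575427096805568955939419744162625400333113417078130100734433903296297306935969901914337652131920804256602525928989338854672988282791356962351308709475154920764797065618535123905004578126572268499551906956249800247351963861246023505042167012722080353832479372403610874121838415015835841582616458853664083836567403265594079842093479108536606773096532550678875514483117106932689757145686533800461959295021586331297584499331060738640722483850585078948471693660341444020009143715531907175862594960327537625914930244508562358965411310034845298309149632588436837253180237345772226855800331354400317880006078946350073992682105384555756103600905865850903328668516352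

/-- data -/
def N91x37 : ND := ⟨91, 37, 0, N91x37_T, 2,
  [(7, 104), (13, 2532)], [(7, 40), (13, 8)]⟩

theorem N91x37_chr : Nonempty (Chr 91 37 0 N91x37_T) := by
  have h7 : Nonempty (Chr 7 37 0 N91x37_T7) := exists_chr_prime (by norm_num) (by norm_num)
    (by unfold BB; norm_num) (by decide +kernel)
  have h13 : Nonempty (Chr 13 37 0 N91x37_T13) := exists_chr_prime (by norm_num) (by norm_num)
    (by unfold BB; norm_num) (by decide +kernel)
  exact exists_chr_mul (q1 := 7) (q2 := 13) (by norm_num) (by unfold BB; norm_num) h7 h13
    (by decide +kernel)

theorem N91x37_ok : N91x37.ok = true := by decide +kernel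

theorem N91x37_t : tOK 91 37 N91x37_T = true := by decide +kernel

theorem N91x37_primes (p : ℕ) (hp : p.Prime) (h : p ∣ N91x37.q * N91x37.r) : p ∈ [7, 13, 37] := by
  have h' : p ∣ 7 * 13 * 37 := h
  simp only [Nat.Prime.dvd_mul hp] at h'
  rcases h' with ((h | h) | h)
  · rw [(Nat.prime_dvd_prime_iff_eq hp (by norm_num : Nat.Prime 7)).1 h]; simp
  · rw [(Nat.prime_dvd_prime_iff_eq hp (by norm_num : Nat.Prime 13)).1 h]; simp
  · rw [(Nat.prime_dvd_prime_iff_eq hp (by norm_num : Nat.Prime 37)).1 h]; simp

theorem N91x37_primesq (p : ℕ) (hp : p.Prime) (h : p ∣ N91x37.q) : p ∈ [7, 13] := by
  have h' : p ∣ 7 * 13 := h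
  simp only [Nat.Prime.dvd_mul hp] at h'
  rcases h' with (h | h)
  · rw [(Nat.prime_dvd_prime_iff_eq hp (by norm_num : Nat.Prime 7)).1 h]; simp
  · rw [(Nat.prime_dvd_prime_iff_eq hp (by norm_num : Nat.Prime 13)).1 h]; simp

theorem N91x37_good : NGood N91x37 where
  q1 := by show 1 < 91; norm_num
  odd := by show Odd 91; exact ⟨45, by norm_num⟩
  sqf := (Nat.squarefree_mul (by norm_num : Nat.Coprime 7 13)).2
    ⟨(by norm_num : Nat.Prime 7).prime.squarefree, (by norm_num : Nat.Prime 13).prime.squarefree⟩
  pr := by show Nat.Prime 37; norm_num
  r2 := by show 37 ≠ 2; norm_num
  small := fun p hp h => by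
    have := N91x37_primes p hp h
    simp only [List.mem_cons, List.not_mem_nil, or_false] at this
    omega
  chr := N91x37_chr
  t := N91x37_t
  ok := N91x37_ok
  hps := by
    intro w hw
    change w ∈ [(7, 104), (13, 2532)] at hw
    simp only [List.mem_cons, List.not_mem_nil, or_false] at hw
    rcases hw with rfl | rfl
    · exact ⟨(by norm_num : Nat.Prime 7), (by show 7 ∣ 91; norm_num)⟩
    · exact ⟨(by norm_num : Nat.Prime 13), (by show 13 ∣ 91; norm_num)⟩
  hps' := fun p hp h => by
    have h1 := N91x37_primesq p hp h
    simp only [List.mem_cons, List.not_mem_nil, or_false] at h1
    rcases h1 with rfl | rfl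
    · exact ⟨104, by show (7, 104) ∈ [(7, 104), (13, 2532)]; simp⟩
    · exact ⟨2532, by show (13, 2532) ∈ [(7, 104), (13, 2532)]; simp⟩
  hcs := fun p hp h => by
    have h1 := N91x37_primesq p hp h
    simp only [List.mem_cons, List.not_mem_nil, or_false] at h1
    rcases h1 with rfl | rfl
    · exact ⟨40, by show (7, 40) ∈ [(7, 40), (13, 8)]; simp⟩
    · exact ⟨8, by show (13, 8) ∈ [(7, 40), (13, 8)]; simp⟩

end Pool.Agent.Helper54.CN
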