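import Pool.Agent.Helper54.CN.KillDef

/-!
Search trees for the cases `a = 3, -3, 7, -7`.
-/

namespace Pool.Agent.Helper54.CN

set_option maxRecDepth 100000

/-- last step -/
noncomputable def no_3_e0 : ℕ → ℕ → Bool :=
  stp 286195 139231 146965 (SP1 37 nr37 3) [R91x37] [] non

/-- last step -/
noncomputable def no_3_e1 : ℕ → ℕ → Bool :=
  stp 239785 224316 15470 (SP1 31 nr31 3) [R221x31] [] non

/-- alternatives -/
noncomputable def no_3_f (α β : ℕ) : Bool := orB (no_3_e0 α β) (no_3_e1 α β)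

/-- a step -/
noncomputable def no_3_s3 : ℕ → ℕ → Bool :=
  stp 7735 5356 2380 (SP1 13 nr13 3) [R119x13] [R221x5, R221x5b] no_3_f

/-- a step -/
noncomputable def no_3_s2 : ℕ → ℕ → Bool :=
  stp 595 120 476 (SP1 5 nr5 3) [R119x5b, R119x5] [] no_3_s3

/-- a step -/
noncomputable def no_3_s1 : ℕ → ℕ → Bool :=
  stp 119 85 35 (SP1 17 nr17 3) [] [] no_3_s2

theorem no_3_tab : (allL (SP1 7 nr7 3) fun w => no_3_s1 w.1 w.2) = true := by
  decide +kernel

/-- last step -/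
noncomputable def no_m3_e0 : ℕ → ℕ → Bool :=
  stp 286195 139231 146965 (SP1 37 nr37 34) [R91x37] [] non

/-- a step -/
noncomputable def no_m3_s3 : ℕ → ℕ → Bool :=
  stp 7735 5356 2380 (SP1 13 nr13 10) [R119x13] [R221x5, R221x5b] no_m3_e0

/-- a step -/
noncomputable def no_m3_s2 : ℕ → ℕ → Bool :=
  stp 595 120 476 (SP1 5 nr5 2) [R119x5b, R119x5] [] no_m3_s3

/-- a step -/
noncomputable def no_m3_s1 : ℕ → ℕ → Bool :=
  stp 119 85 35 (SP1 17 nr17 14) [] [] no_m3_s2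

theorem no_m3_tab : (allL (SP1 7 nr7 4) fun w => no_m3_s1 w.1 w.2) = true := by
  decide +kernel

/-- last step -/
noncomputable def no_7_e0 : ℕ → ℕ → Bool :=
  stp 122655 16576 106080 (SP1 37 nr37 7) [] [R185x13] non

/-- a step -/
noncomputable def no_7_s3 : ℕ → ℕ → Bool :=
  stp 3315 2211 1105 (SP1 3 nr3 1) [R221x3] [R51x5] no_7_e0

/-- a step -/
noncomputable def no_7_s2 : ℕ → ℕ → Bool :=
  stp 1105 885 221 (SP1 5 nr5 2) [R221x5, R221x5b] [] no_7_s3

/-- a step -/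
noncomputable def no_7_s1 : ℕ → ℕ → Bool :=
  stp 221 52 170 (SP1 13 nr13 7) [] [] no_7_s2

theorem no_7_tab : (allL (SP1 17 nr17 7) fun w => no_7_s1 w.1 w.2) = true := by
  decide +kernel

/-- last step -/
noncomputable def no_m7_e0 : ℕ → ℕ → Bool :=
  stp 241995 56356 185640 (SP1 73 nr73 66) [R85x73] [] non

/-- a step -/
noncomputable def no_m7_s3 : ℕ → ℕ → Bool :=
  stp 3315 2211 1105 (SP1 3 nr3 2) [R221x3] [R51x5] no_m7_e0

/-- a step -/
noncomputable def no_m7_s2 : ℕ → ℕ → Bool :=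
  stp 1105 885 221 (SP1 5 nr5 3) [R221x5, R221x5b] [] no_m7_s3

/-- a step -/
noncomputable def no_m7_s1 : ℕ → ℕ → Bool :=
  stp 221 52 170 (SP1 13 nr13 6) [] [] no_m7_s2

theorem no_m7_tab : (allL (SP1 17 nr17 10) fun w => no_m7_s1 w.1 w.2) = true := by
  decide +kernel

end Pool.Agent.Helper54.CN
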