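import Pool.Agent.Helper54.CN.Kill
import Pool.Agent.Helper54.CN.SpecDef

/-!
The cases `a = 3, -3, 7, -7`.
-/

namespace Pool.Agent.Helper54.CN

set_option maxRecDepth 100000

theorem no_3 {n : ℤ} (c : Ctx (3) n) : False := by
  have hna : Nn (3) [5, 7, 13, 17, 31, 37] := by
    intro p hp
    simp only [List.mem_cons, List.not_mem_nil, or_false] at hp
    rcases hp with rfl | rfl | rfl | rfl | rfl | rfl <;> norm_num
  obtain ⟨w, hw, hc⟩ := (c.sp1_mem' (p := 7) (by norm_num) (by norm_num) (by norm_num) (hna 7 (by decide)) nrok7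
      (s := 3) (by norm_num) (by decide))
  have h1 := allL_iff.1 no_3_tab w hw
  obtain ⟨α1, β1, hc1, h2⟩ := c.stp_sound (Q := 7) (p := 17) (Q' := 119) (by decide +kernel)
    (c.sp1_mem' (p := 17) (by norm_num) (by norm_num) (by norm_num) (hna 17 (by decide)) nrok17
      (s := 3) (by norm_num) (by decide))
    (by
    intro D hD
    exact absurd hD List.not_mem_nil) (by
    intro D hD
    exact absurd hD List.not_mem_nil) hc h1
  obtain ⟨α2, β2, hc2, h3⟩ := c.stp_sound (Q := 119) (p := 5) (Q' := 595) (by decide +kernel)
    (c.sp1_mem' (p := 5) (by norm_num) (by norm_num) (by norm_num) (hna 5 (by decide)) nrok5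
      (s := 3) (by norm_num) (by decide))
    (by
    intro D hD
    simp only [List.mem_cons, List.not_mem_nil, or_false] at hD
    rcases hD with rfl | rfl
    · exact ⟨R119x5b_app (hna.sub (by decide)),
        (by show 119 ∣ 119; norm_num), rfl⟩
    · exact ⟨R119x5_app (hna.sub (by decide)),
        (by show 119 ∣ 119; norm_num), rfl⟩) (by
    intro D hD
    exact absurd hD List.not_mem_nil) hc1 h2
  obtain ⟨α3, β3, hc3, h4⟩ := c.stp_sound (Q := 595) (p := 13) (Q' := 7735) (by decide +kernel)
    (c.sp1_mem' (p := 13) (by norm_num) (by norm_num) (by norm_num) (hna 13 (by decide)) nrok13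
      (s := 3) (by norm_num) (by decide))
    (by
    intro D hD
    simp only [List.mem_cons, List.not_mem_nil, or_false] at hD
    rcases hD with rfl
    · exact ⟨R119x13_app (hna.sub (by decide)),
        (by show 119 ∣ 595; norm_num), rfl⟩) (by
    intro D hD
    simp only [List.mem_cons, List.not_mem_nil, or_false] at hD
    rcases hD with rfl | rfl
    · exact ⟨R221x5_app (hna.sub (by decide)),
        (by show 221 ∣ 7735; norm_num), (by show 5 ∣ 7735; norm_num)⟩
    · exact ⟨R221x5b_app (hna.sub (by decide)),
        (by show 221 ∣ 7735; norm_num), (by show 5 ∣ 7735; norm_num)⟩) hc2 h3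
  rcases orB_iff.1 h4 with hx | hx
  · obtain ⟨_, _, _, hh⟩ := c.stp_sound (Q := 7735) (p := 37) (Q' := 286195) (by decide +kernel)
      (c.sp1_mem' (p := 37) (by norm_num) (by norm_num) (by norm_num) (hna 37 (by decide)) nrok37
      (s := 3) (by norm_num) (by decide))
      (by
      intro D hD
      simp only [List.mem_cons, List.not_mem_nil, or_false] at hD
      rcases hD with rfl
      · exact ⟨R91x37_app (hna.sub (by decide)),
          (by show 91 ∣ 7735; norm_num), rfl⟩) (by
      intro D hD
      exact absurd hD List.not_mem_nil) hc3 hx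
    exact absurd hh (by simp [non])
  · obtain ⟨_, _, _, hh⟩ := c.stp_sound (Q := 7735) (p := 31) (Q' := 239785) (by decide +kernel)
      (c.sp1_mem' (p := 31) (by norm_num) (by norm_num) (by norm_num) (hna 31 (by decide)) nrok31
      (s := 3) (by norm_num) (by decide))
      (by
      intro D hD
      simp only [List.mem_cons, List.not_mem_nil, or_false] at hD
      rcases hD with rfl
      · exact ⟨R221x31_app (hna.sub (by decide)),
          (by show 221 ∣ 7735; norm_num), rfl⟩) (by
      intro D hD
      exact absurd hD List.not_mem_nil) hc3 hx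
    exact absurd hh (by simp [non])

theorem no_m3 {n : ℤ} (c : Ctx (-3) n) : False := by
  have hna : Nn (-3) [5, 7, 13, 17, 37] := by
    intro p hp
    simp only [List.mem_cons, List.not_mem_nil, or_false] at hp
    rcases hp with rfl | rfl | rfl | rfl | rfl <;> norm_num
  obtain ⟨w, hw, hc⟩ := (c.sp1_mem' (p := 7) (by norm_num) (by norm_num) (by norm_num) (hna 7 (by decide)) nrok7
      (s := 4) (by norm_num) (by decide))
  have h1 := allL_iff.1 no_m3_tab w hw
  obtain ⟨α1, β1, hc1, h2⟩ := c.stp_sound (Q := 7) (p := 17) (Q' := 119) (by decide +kernel)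
    (c.sp1_mem' (p := 17) (by norm_num) (by norm_num) (by norm_num) (hna 17 (by decide)) nrok17
      (s := 14) (by norm_num) (by decide))
    (by
    intro D hD
    exact absurd hD List.not_mem_nil) (by
    intro D hD
    exact absurd hD List.not_mem_nil) hc h1
  obtain ⟨α2, β2, hc2, h3⟩ := c.stp_sound (Q := 119) (p := 5) (Q' := 595) (by decide +kernel)
    (c.sp1_mem' (p := 5) (by norm_num) (by norm_num) (by norm_num) (hna 5 (by decide)) nrok5
      (s := 2) (by norm_num) (by decide))
    (by
    intro D hD
    simp only [List.mem_cons, List.not_mem_nil, or_false] at hD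
    rcases hD with rfl | rfl
    · exact ⟨R119x5b_app (hna.sub (by decide)),
        (by show 119 ∣ 119; norm_num), rfl⟩
    · exact ⟨R119x5_app (hna.sub (by decide)),
        (by show 119 ∣ 119; norm_num), rfl⟩) (by
    intro D hD
    exact absurd hD List.not_mem_nil) hc1 h2
  obtain ⟨α3, β3, hc3, h4⟩ := c.stp_sound (Q := 595) (p := 13) (Q' := 7735) (by decide +kernel)
    (c.sp1_mem' (p := 13) (by norm_num) (by norm_num) (by norm_num) (hna 13 (by decide)) nrok13
      (s := 10) (by norm_num) (by decide))
    (by
    intro D hD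
    simp only [List.mem_cons, List.not_mem_nil, or_false] at hD
    rcases hD with rfl
    · exact ⟨R119x13_app (hna.sub (by decide)),
        (by show 119 ∣ 595; norm_num), rfl⟩) (by
    intro D hD
    simp only [List.mem_cons, List.not_mem_nil, or_false] at hD
    rcases hD with rfl | rfl
    · exact ⟨R221x5_app (hna.sub (by decide)),
        (by show 221 ∣ 7735; norm_num), (by show 5 ∣ 7735; norm_num)⟩
    · exact ⟨R221x5b_app (hna.sub (by decide)),
        (by show 221 ∣ 7735; norm_num), (by show 5 ∣ 7735; norm_num)⟩) hc2 h3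
  obtain ⟨_, _, _, hh⟩ := c.stp_sound (Q := 7735) (p := 37) (Q' := 286195) (by decide +kernel)
    (c.sp1_mem' (p := 37) (by norm_num) (by norm_num) (by norm_num) (hna 37 (by decide)) nrok37
      (s := 34) (by norm_num) (by decide))
    (by
    intro D hD
    simp only [List.mem_cons, List.not_mem_nil, or_false] at hD
    rcases hD with rfl
    · exact ⟨R91x37_app (hna.sub (by decide)),
        (by show 91 ∣ 7735; norm_num), rfl⟩) (by
    intro D hD
    exact absurd hD List.not_mem_nil) hc3 h4
  exact absurd hh (by simp [non])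

theorem no_7 {n : ℤ} (c : Ctx (7) n) : False := by
  have hna : Nn (7) [3, 5, 13, 17, 37] := by
    intro p hp
    simp only [List.mem_cons, List.not_mem_nil, or_false] at hp
    rcases hp with rfl | rfl | rfl | rfl | rfl <;> norm_num
  obtain ⟨w, hw, hc⟩ := (c.sp1_mem' (p := 17) (by norm_num) (by norm_num) (by norm_num) (hna 17 (by decide)) nrok17
      (s := 7) (by norm_num) (by decide))
  have h1 := allL_iff.1 no_7_tab w hw
  obtain ⟨α1, β1, hc1, h2⟩ := c.stp_sound (Q := 17) (p := 13) (Q' := 221) (by decide +kernel)
    (c.sp1_mem' (p := 13) (by norm_num) (by norm_num) (by norm_num) (hna 13 (by decide)) nrok13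
      (s := 7) (by norm_num) (by decide))
    (by
    intro D hD
    exact absurd hD List.not_mem_nil) (by
    intro D hD
    exact absurd hD List.not_mem_nil) hc h1
  obtain ⟨α2, β2, hc2, h3⟩ := c.stp_sound (Q := 221) (p := 5) (Q' := 1105) (by decide +kernel)
    (c.sp1_mem' (p := 5) (by norm_num) (by norm_num) (by norm_num) (hna 5 (by decide)) nrok5
      (s := 2) (by norm_num) (by decide))
    (by
    intro D hD
    simp only [List.mem_cons, List.not_mem_nil, or_false] at hD
    rcases hD with rfl | rfl
    · exact ⟨R221x5_app (hna.sub (by decide)),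
        (by show 221 ∣ 221; norm_num), rfl⟩
    · exact ⟨R221x5b_app (hna.sub (by decide)),
        (by show 221 ∣ 221; norm_num), rfl⟩) (by
    intro D hD
    exact absurd hD List.not_mem_nil) hc1 h2
  obtain ⟨α3, β3, hc3, h4⟩ := c.stp_sound (Q := 1105) (p := 3) (Q' := 3315) (by decide +kernel)
    (c.sp1_mem' (p := 3) (by norm_num) (by norm_num) (by norm_num) (hna 3 (by decide)) nrok3
      (s := 1) (by norm_num) (by decide))
    (by
    intro D hD
    simp only [List.mem_cons, List.not_mem_nil, or_false] at hD
    rcases hD with rfl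
    · exact ⟨R221x3_app (hna.sub (by decide)),
        (by show 221 ∣ 1105; norm_num), rfl⟩) (by
    intro D hD
    simp only [List.mem_cons, List.not_mem_nil, or_false] at hD
    rcases hD with rfl
    · exact ⟨R51x5_app (hna.sub (by decide)),
        (by show 51 ∣ 3315; norm_num), (by show 5 ∣ 3315; norm_num)⟩) hc2 h3
  obtain ⟨_, _, _, hh⟩ := c.stp_sound (Q := 3315) (p := 37) (Q' := 122655) (by decide +kernel)
    (c.sp1_mem' (p := 37) (by norm_num) (by norm_num) (by norm_num) (hna 37 (by decide)) nrok37
      (s := 7) (by norm_num) (by decide))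
    (by
    intro D hD
    exact absurd hD List.not_mem_nil) (by
    intro D hD
    simp only [List.mem_cons, List.not_mem_nil, or_false] at hD
    rcases hD with rfl
    · exact ⟨R185x13_app (hna.sub (by decide)),
        (by show 185 ∣ 122655; norm_num), (by show 13 ∣ 122655; norm_num)⟩) hc3 h4
  exact absurd hh (by simp [non])

theorem no_m7 {n : ℤ} (c : Ctx (-7) n) : False := by
  have hna : Nn (-7) [3, 5, 13, 17, 73] := by
    intro p hp
    simp only [List.mem_cons, List.not_mem_nil, or_false] at hp
    rcases hp with rfl | rfl | rfl | rfl | rfl <;> norm_num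
  obtain ⟨w, hw, hc⟩ := (c.sp1_mem' (p := 17) (by norm_num) (by norm_num) (by norm_num) (hna 17 (by decide)) nrok17
      (s := 10) (by norm_num) (by decide))
  have h1 := allL_iff.1 no_m7_tab w hw
  obtain ⟨α1, β1, hc1, h2⟩ := c.stp_sound (Q := 17) (p := 13) (Q' := 221) (by decide +kernel)
    (c.sp1_mem' (p := 13) (by norm_num) (by norm_num) (by norm_num) (hna 13 (by decide)) nrok13
      (s := 6) (by norm_num) (by decide))
    (by
    intro D hD
    exact absurd hD List.not_mem_nil) (by
    intro D hD
    exact absurd hD List.not_mem_nil) hc h1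
  obtain ⟨α2, β2, hc2, h3⟩ := c.stp_sound (Q := 221) (p := 5) (Q' := 1105) (by decide +kernel)
    (c.sp1_mem' (p := 5) (by norm_num) (by norm_num) (by norm_num) (hna 5 (by decide)) nrok5
      (s := 3) (by norm_num) (by decide))
    (by
    intro D hD
    simp only [List.mem_cons, List.not_mem_nil, or_false] at hD
    rcases hD with rfl | rfl
    · exact ⟨R221x5_app (hna.sub (by decide)),
        (by show 221 ∣ 221; norm_num), rfl⟩
    · exact ⟨R221x5b_app (hna.sub (by decide)),
        (by show 221 ∣ 221; norm_num), rfl⟩) (by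
    intro D hD
    exact absurd hD List.not_mem_nil) hc1 h2
  obtain ⟨α3, β3, hc3, h4⟩ := c.stp_sound (Q := 1105) (p := 3) (Q' := 3315) (by decide +kernel)
    (c.sp1_mem' (p := 3) (by norm_num) (by norm_num) (by norm_num) (hna 3 (by decide)) nrok3
      (s := 2) (by norm_num) (by decide))
    (by
    intro D hD
    simp only [List.mem_cons, List.not_mem_nil, or_false] at hD
    rcases hD with rfl
    · exact ⟨R221x3_app (hna.sub (by decide)),
        (by show 221 ∣ 1105; norm_num), rfl⟩) (by
    intro D hD
    simp only [List.mem_cons, List.not_mem_nil, or_false] at hD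
    rcases hD with rfl
    · exact ⟨R51x5_app (hna.sub (by decide)),
        (by show 51 ∣ 3315; norm_num), (by show 5 ∣ 3315; norm_num)⟩) hc2 h3
  obtain ⟨_, _, _, hh⟩ := c.stp_sound (Q := 3315) (p := 73) (Q' := 241995) (by decide +kernel)
    (c.sp1_mem' (p := 73) (by norm_num) (by norm_num) (by norm_num) (hna 73 (by decide)) nrok73
      (s := 66) (by norm_num) (by decide))
    (by
    intro D hD
    simp only [List.mem_cons, List.not_mem_nil, or_false] at hD
    rcases hD with rfl
    · exact ⟨R85x73_app (hna.sub (by decide)),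
        (by show 85 ∣ 3315; norm_num), rfl⟩) (by
    intro D hD
    exact absurd hD List.not_mem_nil) hc3 h4
  exact absurd hh (by simp [non])

end Pool.Agent.Helper54.CN
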