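import Pool.Agent.Helper54.CN.TwoAdic4
import Pool.Agent.Helper54.CN.Spec
import Pool.Agent.Helper54.CN.N91x37
import Pool.Agent.Helper54.CN.N455x11
import Pool.Agent.Helper54.CN.N455x37
import Pool.Agent.Helper54.CN.N2431x41
import Pool.Agent.Helper54.CN.N2431x59

/-!
The contradiction for `a * n ≥ 150`.
-/

namespace Pool.Agent.Helper54.CN

open NumberTheorySymbols Finset

theorem zero_iff {n : ℤ} {q : ℕ} : (n : ZMod q) = 0 ↔ (q : ℤ) ∣ n :=
  ZMod.intCast_zmod_eq_zero_iff_dvd n q

theorem comb37 : (allB 455 fun z => orB (notB (admz N455x37.ps z))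
    (notB (Nat.beq (Nat.mod (lk N91x37.T (Nat.mod z 91)) 4294967296)
      (Nat.mod (lk N455x37.T z) 4294967296)))) = true := by decide +kernel

theorem n37 {a n : ℤ} (c : Ctx a n) (hna : Nn a [5, 7, 13, 37]) (h91 : (n : ZMod 91) = 0)
    (h455 : (n : ZMod 455) = 0) : (n : ZMod 37) = 0 := by
  obtain ⟨α, hα, hα1, hadm1, h1⟩ := c.n0_re N91x37_good rfl
    (fun p hp hd => hna.sub (by decide) p (N91x37_primes p hp hd)) h91
  obtain ⟨β, hβ, hβ1, hadm2, h2⟩ := c.n0_re N455x37_good rfl
    (fun p hp hd => hna.sub (by decide) p (N455x37_primes p hp hd)) h455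
  rcases h1 with h1 | h1
  · exact h1
  · rcases h2 with h2 | h2
    · exact h2
    · exfalso
      have h3 := comb37
      rw [allB_iff] at h3
      have h4 := h3 β hβ
      rw [orB_iff, notB_iff, notB_iff] at h4
      rcases h4 with h4 | h4
      · rw [hadm2] at h4
        exact absurd h4 (by simp)
      · rw [Bool.eq_false_iff, Ne, beq_iff'] at h4
        apply h4
        have hαβ : β % 91 = α := by
          have h5 : ((β : ℕ) : ZMod 91) = ((α : ℕ) : ZMod 91) := by
            have h6 := zmod_down (q := 91) hβ1 (by show 91 ∣ 455; norm_num)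
            exact h6.symm.trans hα1
          rw [ZMod.natCast_eq_natCast_iff'] at h5
          have h7 : α < 91 := hα
          omega
        have hαβ' : Nat.mod β 91 = α := hαβ
        rw [hαβ']
        have : Fact (Nat.Prime 37) := ⟨by norm_num⟩
        have ok1 := N91x37_good.ok
        have ok2 := N455x37_good.ok
        unfold ND.ok at ok1 ok2
        simp only [andB_iff, allL_iff, allB_iff] at ok1 ok2
        have b1 := (nrmE_iff.1 (ok1.2.2.2.1 α hα)).1
        have b2 := (nrmE_iff.1 (ok2.2.2.2.1 β hβ)).1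
        have h1' : (1 + (a : ZMod 37) * ((lk N91x37.T α % BB : ℕ) : ZMod 37) : ZMod 37) = 0 := h1
        have h2' : (1 + (a : ZMod 37) * ((lk N455x37.T β % BB : ℕ) : ZMod 37) : ZMod 37) = 0 := h2
        have ha0 : (a : ZMod 37) ≠ 0 := by
          intro h0
          rw [h0] at h1'
          simp at h1'
        have h8 : (a : ZMod 37) * (((lk N91x37.T α % BB : ℕ) : ZMod 37)
            - ((lk N455x37.T β % BB : ℕ) : ZMod 37)) = 0 := by
          linear_combination h1' - h2'
        rcases mul_eq_zero.1 h8 with h9 | h9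
        · exact absurd h9 ha0
        · rw [sub_eq_zero, ZMod.natCast_eq_natCast_iff'] at h9
          have b1' : lk N91x37.T α % BB < 37 := b1
          have b2' : lk N455x37.T β % BB < 37 := b2
          rw [Nat.mod_eq_of_lt b1', Nat.mod_eq_of_lt b2'] at h9
          exact h9

theorem Ctx.contra {a n : ℤ} (c : Ctx a n) : False := by
  have h4 := c.h.a_mod_four
  have hA : (a.natAbs : ℤ) = |a| := Int.natCast_natAbs a
  have h3 : a.natAbs ≠ 3 := by
    intro h
    rcases Int.natAbs_eq a with h' | h'
    · rw [h] at h'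
      have : a = 3 := by exact_mod_cast h'
      subst this
      exact no_3 c
    · rw [h] at h'
      have : a = -3 := by exact_mod_cast h'
      subst this
      exact no_m3 c
  have h7 : a.natAbs ≠ 7 := by
    intro h
    rcases Int.natAbs_eq a with h' | h'
    · rw [h] at h'
      have : a = 7 := by exact_mod_cast h'
      subst this
      exact no_7 c
    · rw [h] at h'
      have : a = -7 := by exact_mod_cast h'
      subst this
      exact no_m7 c
  have hN : Nn a [3, 5, 7, 13, 17, 37, 73, 97] := by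
    intro p hp hpa
    rw [← hA] at hpa
    have hpa' : p = a.natAbs := by exact_mod_cast hpa
    simp only [List.mem_cons, List.not_mem_nil, or_false] at hp
    omega
  have hn := c.main hN
  have hd := zero_iff.1 hn
  have hn3 : (n : ZMod 3) = 0 := zero_iff.2 (dvd_trans (by norm_num) hd)
  have hn5 : (n : ZMod 5) = 0 := zero_iff.2 (dvd_trans (by norm_num) hd)
  have s3 := c.not_sq (p := 3) (by norm_num) (by norm_num) (hN 3 (by decide)) hn3
  have s5 := c.not_sq (p := 5) (by norm_num) (by norm_num) (hN 5 (by decide)) hn5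
  have h11 : a.natAbs ≠ 11 := by
    intro h
    rcases Int.natAbs_eq a with h' | h'
    · rw [h] at h'
      have : a = 11 := by exact_mod_cast h'
      subst this
      exact s3 ⟨1, by decide⟩
    · rw [h] at h'
      have : a = -11 := by exact_mod_cast h'
      subst this
      exact s5 ⟨1, by decide⟩
  have h59 : a.natAbs ≠ 59 := by
    intro h
    rcases Int.natAbs_eq a with h' | h'
    · rw [h] at h'
      have : a = 59 := by exact_mod_cast h'
      subst this
      exact s3 ⟨1, by decide⟩
    · rw [h] at h'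
      have : a = -59 := by exact_mod_cast h'
      subst this
      exact s5 ⟨2, by decide⟩
  have hN2 : Nn a [3, 5, 7, 11, 13, 17, 37, 41, 59, 73, 97] := by
    intro p hp hpa
    rw [← hA] at hpa
    have hpa' : p = a.natAbs := by exact_mod_cast hpa
    simp only [List.mem_cons, List.not_mem_nil, or_false] at hp
    omega
  have hn11 : (n : ZMod 11) = 0 := c.n0 N455x11_good N455x11_ok2
    (fun p hp hd => hN2.sub (by decide) p (N455x11_primes p hp hd))
    (zero_iff.2 (dvd_trans (by show ((455 : ℕ) : ℤ) ∣ ((23205 : ℕ) : ℤ); norm_num) hd))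
  rcases lt_trichotomy a 0 with ha | ha | ha
  · have hn2431 : (n : ZMod 2431) = 0 := by
      rw [zero_iff]
      have h1 := zero_iff.1 hn11
      have h2 : ((221 : ℕ) : ℤ) ∣ n := dvd_trans (by norm_num) hd
      have h3 : ((2431 : ℕ) : ℤ) = ((11 : ℕ) : ℤ) * ((221 : ℕ) : ℤ) := by norm_num
      rw [h3]
      exact (Nat.isCoprime_iff_coprime.2 (by norm_num : Nat.Coprime 11 221)).mul_dvd h1 h2
    have hn41 : (n : ZMod 41) = 0 := c.n0 N2431x41_good N2431x41_ok2
      (fun p hp hd => hN2.sub (by decide) p (N2431x41_primes p hp hd)) hn2431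
    have hn59 : (n : ZMod 59) = 0 := c.n0 N2431x59_good N2431x59_ok2
      (fun p hp hd => hN2.sub (by decide) p (N2431x59_primes p hp hd)) hn2431
    apply c.neg ha (hN2.sub (by decide))
    rw [zero_iff] at hn5 hn41 hn59 ⊢
    have h3 : ((12095 : ℕ) : ℤ) = ((5 : ℕ) : ℤ) * (((41 : ℕ) : ℤ) * ((59 : ℕ) : ℤ)) := by norm_num
    rw [h3]
    refine IsCoprime.mul_dvd ?_ hn5 ((Nat.isCoprime_iff_coprime.2
      (by norm_num : Nat.Coprime 41 59)).mul_dvd hn41 hn59)
    exact_mod_cast Nat.isCoprime_iff_coprime.2 (by norm_num : Nat.Coprime 5 (41 * 59))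
  · have := c.h.ha
    rw [ha] at this
    norm_num at this
  · have hn37 := n37 c (hN2.sub (by decide))
      (zero_iff.2 (dvd_trans (by norm_num) hd)) (zero_iff.2 (dvd_trans (by norm_num) hd))
    apply c.pos ha (hN2.sub (by decide))
    rw [zero_iff] at hn11 hn37 ⊢
    have h3 : ((407 : ℕ) : ℤ) = ((11 : ℕ) : ℤ) * ((37 : ℕ) : ℤ) := by norm_num
    rw [h3]
    exact (Nat.isCoprime_iff_coprime.2 (by norm_num : Nat.Coprime 11 37)).mul_dvd hn11 hn37

end Pool.Agent.Helper54.CN
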