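import Pool.Agent.Helper54.CN.Genus

/-!
Counting classes of given norm: the two recursions.
-/

namespace Pool.Agent.Helper54.CN

open QuadraticAlgebra NumberTheorySymbols Finset

/-- Dirichlet convolution of two functions -/
def cnv (f g : ℕ → ℤ) (N : ℕ) : ℤ := ∑ x ∈ Nat.divisorsAntidiagonal N, f x.1 * g x.2

theorem cnv_one {f g : ℕ → ℤ} (hf : f 1 = 1) (hg : g 1 = 1) : cnv f g 1 = 1 := by
  simp [cnv, hf, hg]

theorem cnv_rec {f g : ℕ → ℤ} (hf : ∀ k l, f (k * l) = f k * f l)
    (hg : ∀ k l, g (k * l) = g k * g l) {p M : ℕ} (hp : p.Prime) (hM : 0 < M) :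
    cnv f g (p * M) = (f p + g p) * cnv f g M
      - f p * g p * (if p ∣ M then cnv f g (M / p) else 0) := by
  classical
  set I1 := (Nat.divisorsAntidiagonal M).image (fun x : ℕ × ℕ => (p * x.1, x.2)) with hI1
  set I2 := (Nat.divisorsAntidiagonal M).image (fun x : ℕ × ℕ => (x.1, p * x.2)) with hI2
  have hp0 := hp.pos
  have hu : Nat.divisorsAntidiagonal (p * M) = I1 ∪ I2 := by
    ext ⟨k, l⟩
    simp only [hI1, hI2, mem_union, mem_image, Nat.mem_divisorsAntidiagonal, Prod.mk.injEq,
      Prod.exists]
    constructor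
    · rintro ⟨h1, h2⟩
      rcases (hp.dvd_mul).1 (Dvd.intro _ h1.symm) with ⟨k', rfl⟩ | ⟨l', rfl⟩
      · left
        refine ⟨k', l, ⟨?_, hM.ne'⟩, rfl, rfl⟩
        have : p * (k' * l) = p * M := by rw [← h1]; ring
        exact Nat.eq_of_mul_eq_mul_left hp0 this
      · right
        refine ⟨k, l', ⟨?_, hM.ne'⟩, rfl, rfl⟩
        have : p * (k * l') = p * M := by rw [← h1]; ring
        exact Nat.eq_of_mul_eq_mul_left hp0 this
    · rintro (⟨k', l', ⟨h1, h2⟩, rfl, rfl⟩ | ⟨k', l', ⟨h1, h2⟩, rfl, rfl⟩)
      · exact ⟨by rw [mul_assoc, h1], by positivity⟩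
      · exact ⟨by rw [mul_left_comm, h1], by positivity⟩
  have hi : I1 ∩ I2 = if p ∣ M then (Nat.divisorsAntidiagonal (M / p)).image
      (fun x : ℕ × ℕ => (p * x.1, p * x.2)) else ∅ := by
    ext ⟨k, l⟩
    simp only [hI1, hI2, mem_inter, mem_image, Nat.mem_divisorsAntidiagonal, Prod.mk.injEq,
      Prod.exists]
    constructor
    · rintro ⟨⟨k', l', ⟨h1, _⟩, rfl, rfl⟩, ⟨k'', l'', ⟨h3, _⟩, hk, rfl⟩⟩
      have hd : p ∣ M := ⟨k' * l'', by rw [← h1]; ring⟩
      rw [if_pos hd, mem_image]
      refine ⟨(k', l''), ?_, rfl⟩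
      rw [Nat.mem_divisorsAntidiagonal]
      obtain ⟨M', rfl⟩ := hd
      rw [Nat.mul_div_cancel_left _ hp0]
      refine ⟨?_, by rintro rfl; simp at hM⟩
      have : p * (k' * l'') = p * M' := by rw [← h1]; ring
      exact Nat.eq_of_mul_eq_mul_left hp0 this
    · intro h
      split_ifs at h with hd
      · rw [mem_image] at h
        obtain ⟨⟨k', l'⟩, h1, h2⟩ := h
        rw [Nat.mem_divisorsAntidiagonal] at h1
        simp only [Prod.mk.injEq] at h2
        obtain ⟨rfl, rfl⟩ := h2
        obtain ⟨M', rfl⟩ := hd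
        rw [Nat.mul_div_cancel_left _ hp0] at h1
        obtain ⟨h1, h1'⟩ := h1
        simp only at h1
        refine ⟨⟨k', p * l', ⟨by rw [← h1]; ring, hM.ne'⟩, rfl, rfl⟩,
          ⟨p * k', l', ⟨by rw [← h1]; ring, hM.ne'⟩, rfl, rfl⟩⟩
      · simp at h
  have e1 : ∑ x ∈ I1, f x.1 * g x.2 = f p * cnv f g M := by
    rw [hI1, Finset.sum_image]
    · unfold cnv
      rw [Finset.mul_sum]
      apply Finset.sum_congr rfl
      intro x _
      simp only [hf]
      ring
    · rintro ⟨k, l⟩ _ ⟨k', l'⟩ _ h
      simp only [Prod.mk.injEq] at h ⊢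
      exact ⟨Nat.eq_of_mul_eq_mul_left hp0 h.1, h.2⟩
  have e2 : ∑ x ∈ I2, f x.1 * g x.2 = g p * cnv f g M := by
    rw [hI2, Finset.sum_image]
    · unfold cnv
      rw [Finset.mul_sum]
      apply Finset.sum_congr rfl
      intro x _
      simp only [hg]
      ring
    · rintro ⟨k, l⟩ _ ⟨k', l'⟩ _ h
      simp only [Prod.mk.injEq] at h ⊢
      exact ⟨h.1, Nat.eq_of_mul_eq_mul_left hp0 h.2⟩
  have e3 : ∑ x ∈ I1 ∩ I2, f x.1 * g x.2
      = f p * g p * (if p ∣ M then cnv f g (M / p) else 0) := by
    rw [hi]
    split_ifs with hd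
    · rw [Finset.sum_image]
      · unfold cnv
        rw [Finset.mul_sum]
        apply Finset.sum_congr rfl
        intro x _
        simp only [hf, hg]
        ring
      · rintro ⟨k, l⟩ _ ⟨k', l'⟩ _ h
        simp only [Prod.mk.injEq] at h ⊢
        exact ⟨Nat.eq_of_mul_eq_mul_left hp0 h.1, Nat.eq_of_mul_eq_mul_left hp0 h.2⟩
    · simp
  have e4 := Finset.sum_union_inter (s₁ := I1) (s₂ := I2) (f := fun x => f x.1 * g x.2)
  rw [e1, e2, e3, ← hu] at e4
  have e5 : cnv f g (p * M) = ∑ x ∈ Nat.divisorsAntidiagonal (p * M), f x.1 * g x.2 := rfl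
  rw [e5]
  linear_combination e4

variable {a n : ℤ}

/-- the norm of a class -/
noncomputable def nrm (A : Associates (RR a n)) : ℤ := (Quotient.out A).norm

theorem Hyp.norm_assoc (h : Hyp a n) {z w : RR a n} (hzw : Associated z w) :
    z.norm = w.norm := by
  obtain ⟨u, rfl⟩ := hzw
  rw [map_mul, h.unit_norm u.isUnit, mul_one]

theorem Hyp.nrm_mk (h : Hyp a n) (z : RR a n) : nrm (Associates.mk z) = z.norm := by
  apply h.norm_assoc
  rw [← Associates.mk_eq_mk_iff_associated]
  exact Quotient.out_eq _

theorem Hyp.nrm_mul (h : Hyp a n) (A B : Associates (RR a n)) : nrm (A * B) = nrm A * nrm B := by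
  obtain ⟨x, rfl⟩ := Associates.mk_surjective A
  obtain ⟨y, rfl⟩ := Associates.mk_surjective B
  rw [Associates.mk_mul_mk, h.nrm_mk, h.nrm_mk, h.nrm_mk, map_mul]

theorem Hyp.nrm_eq_one_or (h : Hyp a n) {A : Associates (RR a n)} (hA : (nrm A).natAbs = 1) :
    A = 1 := by
  obtain ⟨x, rfl⟩ := Associates.mk_surjective A
  rw [h.nrm_mk] at hA
  rw [Associates.mk_eq_one, isUnit_iff', Int.abs_eq_natAbs, hA]
  rfl

theorem Hyp.nrm_ne_zero (h : Hyp a n) {A : Associates (RR a n)} (hA : nrm A ≠ 0) : A ≠ 0 := by
  rintro rfl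
  apply hA
  rw [← Associates.mk_zero, h.nrm_mk, QuadraticAlgebra.norm_zero]

/-- classes of given absolute norm -/
def SS (a n : ℤ) (N : ℕ) : Set (Associates (RR a n)) := {A | (nrm A).natAbs = N}

theorem Hyp.SS_one (h : Hyp a n) : SS a n 1 = {1} := by
  ext A
  simp only [SS, Set.mem_ofPred_eq, Set.mem_singleton_iff]
  constructor
  · exact fun hA => h.nrm_eq_one_or hA
  · rintro rfl
    rw [← Associates.mk_one, h.nrm_mk, QuadraticAlgebra.norm_one]
    rfl

/-- multiples of a fixed class -/
theorem Hyp.SS_mul (h : Hyp a n) {N : ℕ} {P : Associates (RR a n)} (hP : nrm P ≠ 0) :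
    (fun B => P * B) '' SS a n N = {A ∈ SS a n ((nrm P).natAbs * N) | P ∣ A} := by
  ext A
  simp only [Set.mem_image, SS, Set.mem_ofPred_eq]
  constructor
  · rintro ⟨B, hB, rfl⟩
    exact ⟨by rw [h.nrm_mul, Int.natAbs_mul, hB], dvd_mul_right _ _⟩
  · rintro ⟨h1, ⟨B, rfl⟩⟩
    refine ⟨B, ?_, rfl⟩
    rw [h.nrm_mul, Int.natAbs_mul] at h1
    exact Nat.eq_of_mul_eq_mul_left (Int.natAbs_pos.2 hP) h1

theorem Hyp.mul_inj (h : Hyp a n) {P : Associates (RR a n)} (hP : nrm P ≠ 0) :
    Function.Injective (fun B => P * B) := by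
  have := h.dom
  intro B C hBC
  exact mul_left_cancel₀ (h.nrm_ne_zero hP) hBC

/-- local data at a prime -/
def Loc (a n : ℤ) (th : ℤ → ℤ) (f g : ℕ → ℤ) (p : ℕ) : Prop :=
  (Prime (p : RR a n) ∧ f p + g p = 0 ∧ f p * g p = -1) ∨
  (∃ α : RR a n, Prime α ∧ α.norm.natAbs = p ∧ α ∣ star α ∧ f p + g p = th α.norm ∧
    f p * g p = 0) ∨
  (∃ α : RR a n, Prime α ∧ α.norm.natAbs = p ∧ ¬ α ∣ star α ∧ f p + g p = 2 * th α.norm ∧
    f p * g p = 1 ∧ th α.norm * th α.norm = 1)

/-- the counting theorem -/
theorem Hyp.count (h : Hyp a n) {th : ℤ → ℤ} (th1 : th 1 = 1)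
    (thm : ∀ x y, th (x * y) = th x * th y) (thsq : ∀ x, x ≠ 0 → th (x * x) = 1)
    {f g : ℕ → ℤ} (hf1 : f 1 = 1) (hg1 : g 1 = 1)
    (hf : ∀ k l, f (k * l) = f k * f l) (hg : ∀ k l, g (k * l) = g k * g l)
    (hloc : ∀ p : ℕ, p.Prime → Loc a n th f g p) (N : ℕ) (hN : 0 < N) :
    (SS a n N).Finite ∧ ∑ᶠ A ∈ SS a n N, th (nrm A) = cnv f g N := by
  have := h.dom
  induction N using Nat.strong_induction_on with
  | _ N ih =>
    rcases eq_or_ne N 1 with rfl | hN1
    · rw [h.SS_one]
      refine ⟨Set.finite_singleton _, ?_⟩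
      rw [finsum_mem_singleton, cnv_one hf1 hg1, ← Associates.mk_one, h.nrm_mk,
        QuadraticAlgebra.norm_one, th1]
    · set p := N.minFac with hp
      have hpp : p.Prime := Nat.minFac_prime hN1
      obtain ⟨M, hM⟩ := Nat.minFac_dvd N
      rw [← hp] at hM
      have hM0 : 0 < M := by
        rcases Nat.eq_zero_or_pos M with h0 | h0
        · rw [h0] at hM; simp at hM; omega
        · exact h0
      have hMN : M < N := by
        rw [hM]
        have := hpp.two_le
        nlinarith
      obtain ⟨fM, sM⟩ := ih M hMN hM0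
      have hrec := cnv_rec hf hg hpp hM0
      have hMp : p ∣ M → (SS a n (M / p)).Finite ∧
          ∑ᶠ A ∈ SS a n (M / p), th (nrm A) = cnv f g (M / p) := by
        intro hd
        refine ih (M / p) ?_ (Nat.div_pos (Nat.le_of_dvd hM0 hd) hpp.pos)
        exact (Nat.div_le_self _ _).trans_lt hMN
      -- the square of `p` as a class
      have hnp : nrm (Associates.mk (p : RR a n)) = (p : ℤ) * p := by
        rw [h.nrm_mk, QuadraticAlgebra.norm_natCast]; ring
      have hp0 : (p : ℤ) ≠ 0 := by exact_mod_cast hpp.ne_zero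
      have hnp0 : nrm (Associates.mk (p : RR a n)) ≠ 0 := by
        rw [hnp]; exact mul_ne_zero hp0 hp0
      have hnpa : (nrm (Associates.mk (p : RR a n))).natAbs = p * p := by
        rw [hnp, Int.natAbs_mul]; simp
      have hthp : th (nrm (Associates.mk (p : RR a n))) = 1 := by
        rw [hnp]; exact thsq _ hp0
      -- multiples of p in S N
      set Z : Set (Associates (RR a n)) := {A ∈ SS a n N | Associates.mk (p : RR a n) ∣ A} with hZ
      have hZf : Z.Finite ∧ ∑ᶠ A ∈ Z, th (nrm A) = (if p ∣ M then cnv f g (M / p) else 0) := by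
        split_ifs with hd
        · obtain ⟨f1, s1⟩ := hMp hd
          have e : (fun B => Associates.mk (p : RR a n) * B) '' SS a n (M / p) = Z := by
            rw [h.SS_mul hnp0, hnpa, hZ]
            have : p * p * (M / p) = N := by
              obtain ⟨M', rfl⟩ := hd
              rw [Nat.mul_div_cancel_left _ hpp.pos, hM]
              ring
            rw [this]
          rw [← e]
          refine ⟨f1.image _, ?_⟩
          rw [finsum_mem_image (h.mul_inj hnp0).injOn, ← s1]
          apply finsum_mem_congr rfl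
          intro B _
          rw [h.nrm_mul, thm, hthp, one_mul]
        · have : Z = ∅ := by
            rw [Set.eq_empty_iff_forall_notMem]
            rintro A ⟨h1, ⟨B, rfl⟩⟩
            apply hd
            have h2 : (nrm (Associates.mk (p : RR a n) * B)).natAbs = N := h1
            rw [h.nrm_mul, Int.natAbs_mul, hnpa, hM, mul_assoc] at h2
            exact ⟨_, (Nat.eq_of_mul_eq_mul_left hpp.pos h2).symm⟩
          rw [this]
          simp
      -- elements of S N are killed by a prime above p
      have hdiv : ∀ x : RR a n, Associates.mk x ∈ SS a n N → (p : RR a n) ∣ x * star x := by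
        intro x hx
        have h1 : (nrm (Associates.mk x)).natAbs = N := hx
        rw [h.nrm_mk] at h1
        rw [← algebraMap_norm_eq_mul_star]
        have h2 : (p : ℤ) ∣ x.norm := by
          rw [Int.natCast_dvd, h1, hM]
          exact dvd_mul_right _ _
        obtain ⟨k, hk⟩ := h2
        refine ⟨(k : RR a n), ?_⟩
        rw [hk]
        ext <;> simp
      have hstar : ∀ x y : RR a n, x ∣ star y → star x ∣ y := by
        rintro x y ⟨c, hc⟩
        refine ⟨star c, ?_⟩
        have := congrArg star hc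
        rw [star_star, star_mul] at this
        rw [this, mul_comm]
      -- multiples of a prime above `p`
      have hX : ∀ β : RR a n, β.norm.natAbs = p →
          {A ∈ SS a n N | Associates.mk β ∣ A}.Finite ∧
          ∑ᶠ A ∈ {A ∈ SS a n N | Associates.mk β ∣ A}, th (nrm A) = th β.norm * cnv f g M := by
        intro β hβ
        have hn0 : nrm (Associates.mk β) ≠ 0 := by
          rw [h.nrm_mk]
          intro h0
          rw [h0] at hβ
          exact hpp.ne_zero hβ.symm
        have hna : (nrm (Associates.mk β)).natAbs = p := by rw [h.nrm_mk]; exact hβ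
        have hS := h.SS_mul (N := M) hn0
        rw [hna, ← hM] at hS
        rw [← hS]
        refine ⟨fM.image _, ?_⟩
        rw [finsum_mem_image (h.mul_inj hn0).injOn, ← sM, mul_finsum_mem]
        apply finsum_mem_congr rfl
        intro B _
        rw [h.nrm_mul, thm, h.nrm_mk]
      have hpd : ∀ β : RR a n, β.norm.natAbs = p → β ∣ (p : RR a n) := by
        intro β hβ
        have h1 : β ∣ algebraMap ℤ (RR a n) β.norm := by
          rw [algebraMap_norm_eq_mul_star]; exact dvd_mul_right _ _
        rcases Int.natAbs_eq β.norm with h2 | h2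
        · rw [h2, hβ] at h1
          convert h1 using 1
          ext <;> simp
        · rw [h2, hβ] at h1
          rw [← dvd_neg]
          convert h1 using 1
          ext <;> simp
      rcases hloc p hpp with ⟨hpr, hs, hm⟩ | ⟨α, hα, hαn, hαs, hs, hm⟩ | ⟨α, hα, hαn, hαs, hs, hm, hth⟩
      · -- inert
        have hSZ : SS a n N = Z := by
          rw [hZ]
          ext A
          simp only [Set.mem_ofPred_eq, iff_self_and]
          intro hA
          obtain ⟨x, rfl⟩ := Associates.mk_surjective A
          rw [Associates.mk_dvd_mk]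
          rcases hpr.dvd_or_dvd (hdiv x hA) with h1 | h1
          · exact h1
          · have := hstar _ _ h1
            rwa [star_natCast] at this
        rw [hSZ, hM, hrec, hs, hm]
        refine ⟨hZf.1, ?_⟩
        rw [hZf.2]
        ring
      · -- ramified
        obtain ⟨x1, x2⟩ := hX α hαn
        have hS : SS a n N = {A ∈ SS a n N | Associates.mk α ∣ A} := by
          ext A
          simp only [Set.mem_ofPred_eq, iff_self_and]
          intro hA
          obtain ⟨x, rfl⟩ := Associates.mk_surjective A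
          rw [Associates.mk_dvd_mk]
          rcases hα.dvd_or_dvd ((hpd α hαn).trans (hdiv x hA)) with h1 | h1
          · exact h1
          · exact hαs.trans (hstar _ _ h1)
        rw [hS]
        refine ⟨x1, ?_⟩
        rw [x2, hM, hrec, hs, hm]
        ring
      · -- split
        have hns : (star α).norm.natAbs = p := by rw [QuadraticAlgebra.norm_star]; exact hαn
        have hα' : Prime (star α) := by
          have := (MulEquiv.prime_iff (starRingAut (R := RR a n)).toMulEquiv (p := α)).2 hα
          exact this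
        obtain ⟨x1, x2⟩ := hX α hαn
        obtain ⟨y1, y2⟩ := hX (star α) hns
        have hnd : ¬ star α ∣ α := by
          intro hd
          apply hαs
          obtain ⟨c, hc⟩ := hd
          rcases hα.irreducible.isUnit_or_isUnit hc with h1 | h1
          · exact absurd h1 hα'.not_isUnit
          · obtain ⟨u, rfl⟩ := h1
            refine ⟨((u⁻¹ : (RR a n)ˣ) : RR a n), ?_⟩
            calc star α = star α * (u * ((u⁻¹ : (RR a n)ˣ) : RR a n)) := by
                  rw [Units.mul_inv, mul_one]
              _ = (star α * u) * ((u⁻¹ : (RR a n)ˣ) : RR a n) := by ring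
              _ = _ := by rw [← hc]
        set X : Set (Associates (RR a n)) := {A ∈ SS a n N | Associates.mk α ∣ A} with hXd
        set Y : Set (Associates (RR a n)) := {A ∈ SS a n N | Associates.mk (star α) ∣ A} with hYd
        have hU : SS a n N = X ∪ Y := by
          ext A
          simp only [hXd, hYd, Set.mem_union, Set.mem_ofPred_eq]
          constructor
          · intro hA
            obtain ⟨x, rfl⟩ := Associates.mk_surjective A
            simp only [Associates.mk_dvd_mk]
            rcases hα.dvd_or_dvd ((hpd α hαn).trans (hdiv x hA)) with h1 | h1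
            · exact Or.inl ⟨hA, h1⟩
            · exact Or.inr ⟨hA, hstar _ _ h1⟩
          · rintro (hA | hA)
            · exact hA.1
            · exact hA.1
        have hI : X ∩ Y = Z := by
          ext A
          simp only [hXd, hYd, hZ, Set.mem_inter_iff, Set.mem_ofPred_eq]
          obtain ⟨x, rfl⟩ := Associates.mk_surjective A
          simp only [Associates.mk_dvd_mk]
          constructor
          · rintro ⟨⟨h1, h2⟩, ⟨_, h3⟩⟩
            refine ⟨h1, ?_⟩
            obtain ⟨y, rfl⟩ := h2
            rcases hα'.dvd_or_dvd h3 with h4 | h4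
            · exact absurd h4 hnd
            · obtain ⟨z, rfl⟩ := h4
              rw [← mul_assoc, ← algebraMap_norm_eq_mul_star]
              apply dvd_mul_of_dvd_left
              rcases Int.natAbs_eq α.norm with h5 | h5
              · rw [h5, hαn]
                convert dvd_refl (p : RR a n) using 1
                ext <;> simp
              · rw [h5, hαn, ← dvd_neg]
                convert dvd_refl (p : RR a n) using 1
                ext <;> simp
          · rintro ⟨h1, h2⟩
            exact ⟨⟨h1, (hpd α hαn).trans h2⟩, ⟨h1, (hpd _ hns).trans h2⟩⟩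
        have hsum := finsum_mem_union_inter (f := fun A => th (nrm A)) x1 y1
        rw [← hU, hI, x2, y2, hZf.2, QuadraticAlgebra.norm_star] at hsum
        refine ⟨by rw [hU]; exact x1.union y1, ?_⟩
        rw [hM, hrec, hs, hm, ← hM]
        linear_combination hsum

end Pool.Agent.Helper54.CN
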