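import Pool.Agent.Helper54.CN.Count1

/-!
Local data at primes and the number of classes of positive norm.
-/

namespace Pool.Agent.Helper54.CN

open QuadraticAlgebra NumberTheorySymbols Finset

variable {a n : ℤ}

namespace Hyp

theorem prime_of_norm (h : Hyp a n) {p : ℕ} (hp : p.Prime) {α : RR a n}
    (hα : α.norm.natAbs = p) : Prime α := by
  have := h.dom
  have := h.pid
  have hirr : Irreducible α := by
    rw [irreducible_iff]
    constructor
    · rw [isUnit_iff', Int.abs_eq_natAbs, hα]
      intro h1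
      have : p = 1 := by exact_mod_cast h1
      exact hp.one_lt.ne' this
    · intro x y hxy
      have h1 : x.norm.natAbs * y.norm.natAbs = p := by
        rw [← Int.natAbs_mul, ← map_mul, ← hxy, hα]
      rcases (Nat.prime_mul_iff.1 (h1 ▸ hp)) with ⟨_, h2⟩ | ⟨_, h2⟩
      · right
        rw [isUnit_iff', Int.abs_eq_natAbs, h2]; rfl
      · left
        rw [isUnit_iff', Int.abs_eq_natAbs, h2]; rfl
  exact hirr.prime

theorem root_of_square (h : Hyp a n) {l : ℕ} (hl : l.Prime) (hl2 : l ≠ 2)
    (hJ : IsSquare (((Dn a n : ℕ) : ℤ) : ZMod l)) : ∃ x : ℤ, (l : ℤ) ∣ x ^ 2 - a * n * x + a := by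
  have : Fact l.Prime := ⟨hl⟩
  have hodd : Odd l := hl.odd_of_ne_two hl2
  obtain ⟨s, hs⟩ := hJ
  obtain ⟨t, ht⟩ : ∃ t : ℤ, (t : ZMod l) = s := ⟨s.val, by simp⟩
  obtain ⟨j, hj⟩ := hodd
  refine ⟨(a * n + t) * (j + 1), ?_⟩
  rw [← ZMod.intCast_zmod_eq_zero_iff_dvd]
  have h2' : (2 : ZMod l) * ((j : ZMod l) + 1) = 1 := by
    have : ((2 * j + 1 : ℕ) : ZMod l) = 0 := by rw [← hj]; simp
    push_cast at this
    linear_combination this
  rw [h.Dn_eq] at hs
  unfold DD at hs
  push_cast at hs ⊢
  rw [ht]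
  have h4 : (4 : ZMod l) * ((((a : ZMod l) * n + s) * (j + 1)) ^ 2
      - a * n * ((a * n + s) * (j + 1)) + a) = 0 := by
    linear_combination (
      ((a * n + s) ^ 2 * (2 * (j + 1) + 1) - 2 * a * n * (a * n + s)) * h2' - hs)
  have h5 : (4 : ZMod l) ≠ 0 := by
    intro h6
    have h7 : (1 : ZMod l) = 0 := by
      linear_combination (-(2 * ((j : ZMod l) + 1) + 1)) * h2' + ((j : ZMod l) + 1) ^ 2 * h6
    exact one_ne_zero h7
  exact (mul_eq_zero.1 h4).resolve_left h5

theorem Dn_mod_eight (h : Hyp a n) : Dn a n % 8 = 5 := by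
  have h1 := h.Dn_eq
  have h2 : DD a n % 8 = 5 := by
    unfold DD
    obtain ⟨k, hk⟩ : Odd (a * n) := h.odd_a.mul h.odd_n
    obtain ⟨j, hj⟩ := h.odd_a
    have hev : Even (k * (k + 1)) := Int.even_mul_succ_self k
    obtain ⟨i, hi⟩ := hev
    rw [hk, hj]
    have : (2 * k + 1) ^ 2 - 4 * (2 * j + 1) = 4 * (k * (k + 1)) - 8 * j - 3 := by ring
    rw [this, hi]
    omega
  omega

/-- the three possibilities for a rational prime -/
theorem loc (h : Hyp a n) {p : ℕ} (hp : p.Prime) :
    (Prime (p : RR a n) ∧ J((p : ℤ) | Dn a n) = -1) ∨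
    (∃ α : RR a n, Prime α ∧ α.norm.natAbs = p ∧ α ∣ star α ∧ p ∣ Dn a n) ∨
    (∃ α : RR a n, Prime α ∧ α.norm.natAbs = p ∧ ¬ α ∣ star α ∧ J((p : ℤ) | Dn a n) = 1) := by
  have := h.dom
  have := h.pid
  have : Fact p.Prime := ⟨hp⟩
  by_cases hex : ∃ z : RR a n, |z.norm| = p
  · right
    obtain ⟨α, hα⟩ := hex
    have hp2 : p ≠ 2 := by
      rintro rfl
      rw [norm_eq] at hα
      have h1 := h.small Nat.prime_two (by
        intro h2
        have h3 := h.ha
        rw [← h2] at h3
        norm_num at h3) hα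
      have h2 := h.big
      push_cast at h1
      linarith
    have hα' : α.norm.natAbs = p := by
      rw [Int.abs_eq_natAbs] at hα
      exact_mod_cast hα
    have hpr := h.prime_of_norm hp hα'
    -- p does not divide the imaginary part
    have hpN : (p : ℤ) ∣ α.norm := by rw [Int.natCast_dvd, hα']
    have hy : ¬ (p : ℤ) ∣ α.im := by
      intro hd
      have hpi : Prime (p : ℤ) := Nat.prime_iff_prime_int.1 hp
      have h1 : (p : ℤ) ∣ α.re := by
        rw [norm_eq] at hpN
        unfold QQ at hpN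
        have h2 : (p : ℤ) ∣ α.re ^ 2 := by
          have h3 : (p : ℤ) ∣ a * n * α.re * α.im + a * α.im ^ 2 := by
            apply dvd_add
            · exact hd.mul_left _
            · exact (hd.pow two_ne_zero).mul_left _
          have h4 := dvd_sub hpN h3
          have h5 : α.re ^ 2 + a * n * α.re * α.im + a * α.im ^ 2
            - (a * n * α.re * α.im + a * α.im ^ 2) = α.re ^ 2 := by ring
          rwa [h5] at h4
        exact hpi.dvd_of_dvd_pow h2
      obtain ⟨u, hu⟩ := h1
      obtain ⟨v, hv⟩ := hd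
      have h6 : α.norm = (p : ℤ) ^ 2 * QQ a n u v := by
        rw [norm_eq, hu, hv]; unfold QQ; ring
      have h7 : p ^ 2 ∣ p := by
        have : (p : ℤ) ^ 2 ∣ α.norm := ⟨_, h6⟩
        have h8 := Int.natAbs_dvd_natAbs.2 this
        rw [hα', Int.natAbs_pow, Int.natAbs_natCast] at h8
        exact h8
      have h8 := Nat.le_of_dvd hp.pos h7
      have := hp.two_le
      nlinarith
    have hT : ((Dn a n : ℤ)) * α.im ^ 2 = (2 * α.re + a * n * α.im) ^ 2 - 4 * α.norm := by
      rw [h.Dn_eq, norm_eq, four_QQ]; unfold DD; ring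
    have hTs : (p : ℤ) ∣ (2 * α.re + a * n * α.im) → α ∣ star α := by
      intro hd
      have hpd : α ∣ (p : RR a n) := by
        have h1 : α ∣ algebraMap ℤ (RR a n) α.norm := by
          rw [algebraMap_norm_eq_mul_star]; exact dvd_mul_right _ _
        rcases Int.natAbs_eq α.norm with h2 | h2
        · rw [h2, hα'] at h1
          convert h1 using 1
          ext <;> simp
        · rw [h2, hα'] at h1
          rw [← dvd_neg]
          convert h1 using 1
          ext <;> simp
      obtain ⟨c, hc⟩ := hd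
      have h2 : α ∣ α + star α := by
        have h3 : α + star α = (p : RR a n) * (c : RR a n) := by
          ext
          · simp only [re_add, re_star]
            simp
            linarith
          · simp
        rw [h3]
        exact hpd.mul_right _
      exact (dvd_add_right (dvd_refl α)).1 h2
    by_cases hs : α ∣ star α
    · left
      refine ⟨α, hpr, hα', hs, ?_⟩
      have h1 : α ∣ algebraMap ℤ (RR a n) (2 * α.re + a * n * α.im) := by
        have h2 : algebraMap ℤ (RR a n) (2 * α.re + a * n * α.im) = α + star α := by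
          ext
          · simp
            ring
          · simp
        rw [h2]
        exact dvd_add (dvd_refl α) hs
      obtain ⟨c, hc⟩ := h1
      have h2 := congrArg QuadraticAlgebra.norm hc
      rw [QuadraticAlgebra.norm_algebraMap, map_mul] at h2
      have hpi : Prime (p : ℤ) := Nat.prime_iff_prime_int.1 hp
      have h3 : (p : ℤ) ∣ (2 * α.re + a * n * α.im) := by
        apply hpi.dvd_of_dvd_pow (n := 2)
        rw [h2]
        exact hpN.mul_right _
      have h4 : (p : ℤ) ∣ (Dn a n : ℤ) * α.im ^ 2 := by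
        rw [hT]
        exact dvd_sub (h3.pow two_ne_zero |>.trans (dvd_refl _)) (hpN.mul_left 4)
      rcases hpi.dvd_or_dvd h4 with h5 | h5
      · exact_mod_cast h5
      · exact absurd (hpi.dvd_of_dvd_pow h5) hy
    · right
      refine ⟨α, hpr, hα', hs, ?_⟩
      have hsq : IsSquare (((Dn a n : ℕ) : ℤ) : ZMod p) := by
        have h1 : ((α.im : ℤ) : ZMod p) ≠ 0 := by
          rwa [Ne, ZMod.intCast_zmod_eq_zero_iff_dvd]
        have h2 : ((α.norm : ℤ) : ZMod p) = 0 := by
          rwa [ZMod.intCast_zmod_eq_zero_iff_dvd]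
        have h3 := congrArg (Int.cast : ℤ → ZMod p) hT
        refine ⟨((2 * α.re + a * n * α.im : ℤ) : ZMod p) / (α.im : ZMod p), ?_⟩
        rw [Int.cast_mul, Int.cast_sub, Int.cast_mul, h2, mul_zero, sub_zero] at h3
        push_cast at h3 ⊢
        field_simp
        linear_combination h3
      have hnd : ¬ p ∣ Dn a n := by
        intro hd
        apply hs
        apply hTs
        have hpi : Prime (p : ℤ) := Nat.prime_iff_prime_int.1 hp
        apply hpi.dvd_of_dvd_pow (n := 2)
        have h5 : (2 * α.re + a * n * α.im) ^ 2 = (Dn a n : ℤ) * α.im ^ 2 + 4 * α.norm := by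
          linarith
        rw [h5]
        apply dvd_add
        · apply dvd_mul_of_dvd_left
          exact_mod_cast hd
        · exact hpN.mul_left 4
      have hodd : Odd p := hp.odd_of_ne_two hp2
      rw [← jacobiSym.quadratic_reciprocity_one_mod_four h.Dn_mod hodd]
      rcases jacobiSym.trichotomy ((Dn a n : ℕ) : ℤ) p with h6 | h6 | h6
      · exfalso
        rw [jacobiSym.eq_zero_iff, Int.gcd_natCast_natCast] at h6
        apply hnd
        by_contra hc
        exact h6.2 (Nat.Coprime.symm ((Nat.Prime.coprime_iff_not_dvd hp).2 hc))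
      · exact h6
      · exfalso
        rw [ZMod.nonsquare_iff_jacobiSym_eq_neg_one] at h6
        exact h6 hsq
  · left
    have hirr : Irreducible (p : RR a n) := by
      have hnl : (p : RR a n).norm = (p : ℤ) ^ 2 := QuadraticAlgebra.norm_natCast p
      rw [irreducible_iff]
      constructor
      · rw [isUnit_iff', hnl, abs_of_nonneg (by positivity)]
        have : (1 : ℤ) < p := by exact_mod_cast hp.one_lt
        nlinarith
      · intro x y hxy
        by_contra hc
        push Not at hc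
        apply hex
        refine ⟨x, ?_⟩
        have hx := hc.1
        have hy := hc.2
        rw [isUnit_iff'] at hx hy
        have h3 : x.norm.natAbs * y.norm.natAbs = p ^ 2 := by
          rw [← Int.natAbs_mul, ← map_mul, ← hxy, hnl, Int.natAbs_pow, Int.natAbs_natCast]
        have hα' : x.norm.natAbs ≠ 1 := by
          intro h4
          apply hx
          rw [Int.abs_eq_natAbs, h4]
          rfl
        have hβ' : y.norm.natAbs ≠ 1 := by
          intro h4
          apply hy
          rw [Int.abs_eq_natAbs, h4]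
          rfl
        have h5 := (Nat.Prime.mul_eq_prime_sq_iff hp hα' hβ').1 h3
        rw [Int.abs_eq_natAbs, h5.1]
    refine ⟨hirr.prime, ?_⟩
    rcases eq_or_ne p 2 with rfl | hp2
    · push_cast
      rw [jacobiSym.at_two h.Dn_odd, ZMod.χ₈_nat_mod_eight, h.Dn_mod_eight]
      decide
    · have hodd : Odd p := hp.odd_of_ne_two hp2
      rw [← jacobiSym.quadratic_reciprocity_one_mod_four h.Dn_mod hodd,
        ZMod.nonsquare_iff_jacobiSym_eq_neg_one]
      intro hsq
      apply hex
      obtain ⟨x, hx⟩ := h.root_of_square hp hp2 hsq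
      exact h.exists_norm_of_root hp hx

/-- sign of the norm of a prime not above `a` -/
theorem sign_norm (h : Hyp a n) {p : ℕ} (hp : p.Prime) (hpa : p ≠ a.natAbs) {α : RR a n}
    (hα : α.norm.natAbs = p) : Int.sign α.norm = J((p : ℤ) | a.natAbs) := by
  have hc : Nat.Coprime p a.natAbs := (Nat.coprime_primes hp h.prime_a).2 hpa
  have hg : Int.gcd α.norm a.natAbs = 1 := by
    rw [Int.gcd, hα, Int.natAbs_natCast]
    exact hc
  have h1 := h.jacobi_norm hg
  have hp0 : (0 : ℤ) < p := by exact_mod_cast hp.pos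
  rcases Int.natAbs_eq α.norm with h2 | h2
  · rw [hα] at h2
    rw [h2] at h1
    rw [h2, h1, Int.sign_eq_one_of_pos hp0]
  · rw [hα] at h2
    have h3 : α.norm = -1 * (p : ℤ) := by linarith
    rw [h3, jacobiSym.mul_left, h.jacobi_neg_one] at h1
    have h4 : J((p : ℤ) | a.natAbs) = -1 := by linarith
    rw [h4, h2, Int.sign_neg, Int.sign_eq_one_of_pos hp0]

theorem sign_norm_a (h : Hyp a n) {α : RR a n} (hpr : Prime α)
    (hα : α.norm.natAbs = a.natAbs) (hs : α ∣ star α) : α.norm = a := by
  have := h.dom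
  set w : RR a n := ⟨0, 1⟩ with hw
  have hwn : w.norm = a := by rw [norm_eq, hw]; unfold QQ; ring
  have h1 : α ∣ w * star w := by
    rw [← algebraMap_norm_eq_mul_star, hwn]
    have h2 : α ∣ algebraMap ℤ (RR a n) α.norm := by
      rw [algebraMap_norm_eq_mul_star]; exact dvd_mul_right _ _
    rcases Int.natAbs_eq_natAbs_iff.1 hα with h3 | h3
    · rwa [h3] at h2
    · rw [h3, map_neg, dvd_neg] at h2
      exact h2
  have h4 : α ∣ w := by
    rcases hpr.dvd_or_dvd h1 with h5 | h5
    · exact h5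
    · obtain ⟨c, hc⟩ := h5
      have h6 := congrArg star hc
      rw [star_star, star_mul] at h6
      exact hs.trans ⟨star c, by rw [h6, mul_comm]⟩
  obtain ⟨c, hc⟩ := h4
  have h7 : a = α.norm * c.norm := by rw [← map_mul, ← hc, hwn]
  have h8 : c.norm.natAbs = 1 := by
    have h9 := congrArg Int.natAbs h7
    rw [Int.natAbs_mul, hα] at h9
    have h10 : 0 < a.natAbs := h.prime_a.pos
    nlinarith
  have h9 : IsUnit c := by
    rw [isUnit_iff', Int.abs_eq_natAbs, h8]; rfl
  rw [h.unit_norm h9, mul_one] at h7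
  exact h7.symm

theorem pos_or_neg (h : Hyp a n) : (0 < a ∧ 0 < n) ∨ (a < 0 ∧ n < 0) := by
  have hb := h.big
  rcases lt_trichotomy a 0 with ha | ha | ha
  · right
    refine ⟨ha, ?_⟩
    by_contra hc
    nlinarith
  · rw [ha] at hb
    simp at hb
  · left
    refine ⟨ha, ?_⟩
    by_contra hc
    nlinarith

theorem jacobi_A_pp (h : Hyp a n) : J((a.natAbs : ℤ) | pp a n) = Int.sign a := by
  rw [jacobiSym.quadratic_reciprocity_three_mod_four h.a_mod_four h.pp_mod_four]
  have h4 : J(4 | a.natAbs) = 1 := jacobiSym.at_four h.A_odd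
  rcases h.pos_or_neg with ⟨ha, hn⟩ | ⟨ha, hn⟩
  · have h1 : (pp a n : ℤ) = a * n ^ 2 - 4 := by
      unfold pp
      rw [Int.natCast_natAbs, abs_of_nonneg]
      have := h.big
      have : 1 ≤ n := hn
      nlinarith
    have h2 : J((pp a n : ℤ) | a.natAbs) = J(-1 * 4 | a.natAbs) := by
      apply jacobiSym.mod_left'
      rw [h1]
      apply Int.ModEq.symm
      apply Int.modEq_iff_dvd.2
      have : a * n ^ 2 - 4 - -1 * 4 = a * n ^ 2 := by ring
      rw [this]
      exact dvd_mul_of_dvd_left (Int.natAbs_dvd.2 (dvd_refl a)) _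
    rw [h2, jacobiSym.mul_left, h.jacobi_neg_one, h4, Int.sign_eq_one_of_pos ha]
    norm_num
  · have h1 : (pp a n : ℤ) = 4 - a * n ^ 2 := by
      unfold pp
      rw [Int.natCast_natAbs, abs_of_nonpos]
      · ring
      · nlinarith [sq_nonneg n]
    have h2 : J((pp a n : ℤ) | a.natAbs) = J(4 | a.natAbs) := by
      apply jacobiSym.mod_left'
      rw [h1]
      apply Int.ModEq.symm
      apply Int.modEq_iff_dvd.2
      have : 4 - a * n ^ 2 - 4 = a * (-n ^ 2) := by ring
      rw [this]
      exact dvd_mul_of_dvd_left (Int.natAbs_dvd.2 (dvd_refl a)) _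
    rw [h2, h4, Int.sign_eq_neg_one_of_neg ha]

/-- number of classes of norm `± N` -/
theorem count_one (h : Hyp a n) {N : ℕ} (hN : 0 < N) : (SS a n N).Finite ∧
    ∑ᶠ A ∈ SS a n N, (1 : ℤ) = cnv (fun _ => 1) (fun k => J((k : ℤ) | Dn a n)) N := by
  refine h.count (th := fun _ => 1) (f := fun _ => 1)
    (g := fun k => J((k : ℤ) | Dn a n)) rfl (by simp) (by simp) rfl (by simp) (by simp)
    (by intro k l; push_cast; exact jacobiSym.mul_left _ _ _) (fun p hp => ?_) N hN
  rcases h.loc hp with ⟨h1, h2⟩ | ⟨α, h1, h2, h3, h4⟩ | ⟨α, h1, h2, h3, h4⟩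
  · exact Or.inl ⟨h1, by beta_reduce; rw [h2]; norm_num, by beta_reduce; rw [h2]; norm_num⟩
  · have h5 : J((p : ℤ) | Dn a n) = 0 := by
      rw [jacobiSym.eq_zero_iff, Int.gcd_natCast_natCast]
      have := h.Dn_gt
      refine ⟨by omega, ?_⟩
      rw [Nat.gcd_eq_left h4]
      exact hp.one_lt.ne'
    exact Or.inr (Or.inl ⟨α, h1, h2, h3, by beta_reduce; rw [h5]; norm_num, by beta_reduce; rw [h5]; norm_num⟩)
  · exact Or.inr (Or.inr ⟨α, h1, h2, h3, by beta_reduce; rw [h4]; norm_num, by beta_reduce; rw [h4]; norm_num, by norm_num⟩)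

/-- signed number of classes of norm `± N` -/
theorem count_sign (h : Hyp a n) {N : ℕ} (hN : 0 < N) :
    ∑ᶠ A ∈ SS a n N, Int.sign (nrm A)
      = cnv (fun k => J((k : ℤ) | a.natAbs)) (fun k => J((k : ℤ) | pp a n)) N := by
  refine (h.count (th := Int.sign) (f := fun k => J((k : ℤ) | a.natAbs))
    (g := fun k => J((k : ℤ) | pp a n)) (by decide) Int.sign_mul (fun x hx => ?_) (by simp) (by simp)
    (by intro k l; push_cast; exact jacobiSym.mul_left _ _ _)
    (by intro k l; push_cast; exact jacobiSym.mul_left _ _ _) (fun p hp => ?_) N hN).2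
  · exact Int.sign_eq_one_of_pos (mul_self_pos.2 hx)
  have hA0 : a.natAbs ≠ 0 := h.prime_a.ne_zero
  have hP0 : pp a n ≠ 0 := by have := h.pp_gt; omega
  have hprod : J((p : ℤ) | Dn a n) = J((p : ℤ) | a.natAbs) * J((p : ℤ) | pp a n) := by
    rw [h.Dn_mul, jacobiSym.mul_right' _ hA0 hP0]
  rcases h.loc hp with ⟨h1, h2⟩ | ⟨α, h1, h2, h3, h4⟩ | ⟨α, h1, h2, h3, h4⟩
  · refine Or.inl ⟨h1, ?_, by rw [← hprod, h2]⟩
    rw [hprod] at h2
    rcases jacobiSym.trichotomy (p : ℤ) a.natAbs with h5 | h5 | h5 <;>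
    rcases jacobiSym.trichotomy (p : ℤ) (pp a n) with h6 | h6 | h6 <;>
    rw [h5, h6] at h2 <;> simp_all
  · rw [h.Dn_mul] at h4
    by_cases hpa : p = a.natAbs
    · have h5 : J((p : ℤ) | a.natAbs) = 0 := by
        rw [jacobiSym.eq_zero_iff, Int.gcd_natCast_natCast, hpa, Nat.gcd_self]
        exact ⟨hA0, h.prime_a.one_lt.ne'⟩
      have h6 : α.norm = a := h.sign_norm_a h1 (by rw [h2, hpa]) h3
      have h7 : J((p : ℤ) | pp a n) = Int.sign a := by rw [hpa]; exact h.jacobi_A_pp
      exact Or.inr (Or.inl ⟨α, h1, h2, h3, by beta_reduce; rw [h5, h6, h7, zero_add],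
        by beta_reduce; rw [h5, zero_mul]⟩)
    · have hd : p ∣ pp a n := by
        rcases hp.dvd_mul.1 h4 with h5 | h5
        · exact absurd ((Nat.prime_dvd_prime_iff_eq hp h.prime_a).1 h5) hpa
        · exact h5
      have h5 : J((p : ℤ) | pp a n) = 0 := by
        rw [jacobiSym.eq_zero_iff, Int.gcd_natCast_natCast, Nat.gcd_eq_left hd]
        exact ⟨hP0, hp.one_lt.ne'⟩
      exact Or.inr (Or.inl ⟨α, h1, h2, h3, by beta_reduce; rw [h5, h.sign_norm hp hpa h2, add_zero],
        by beta_reduce; rw [h5, mul_zero]⟩)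
  · have hpa : p ≠ a.natAbs := by
      intro hpe
      have h5 : J((p : ℤ) | Dn a n) = 0 := by
        rw [jacobiSym.eq_zero_iff, Int.gcd_natCast_natCast]
        have := h.Dn_gt
        refine ⟨by omega, ?_⟩
        have hd : p ∣ Dn a n := by rw [h.Dn_mul, hpe]; exact dvd_mul_right _ _
        rw [Nat.gcd_eq_left hd]
        exact hp.one_lt.ne'
      rw [h5] at h4
      norm_num at h4
    have h5 := h.sign_norm hp hpa h2
    rw [hprod] at h4
    refine Or.inr (Or.inr ⟨α, h1, h2, h3, ?_, h4, ?_⟩) <;> rw [h5]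
    · rcases jacobiSym.trichotomy (p : ℤ) a.natAbs with h6 | h6 | h6 <;>
      rcases jacobiSym.trichotomy (p : ℤ) (pp a n) with h7 | h7 | h7 <;>
      rw [h6, h7] at h4 <;> simp_all
    · rcases jacobiSym.trichotomy (p : ℤ) a.natAbs with h6 | h6 | h6 <;>
      rw [h6] at h4 <;> simp_all

end Hyp

end Pool.Agent.Helper54.CN
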