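import Pool.Agent.Helper54.CN.Abel

/-!
Elementary estimates for exponential sums.
-/

namespace Pool.Agent.Helper54.CN

open Finset Filter Topology

theorem exp_lin {s : ℝ} (hs : 0 < s) (hs1 : s ≤ 1) : s / 2 ≤ 1 - Real.exp (-s) := by
  have h1 := Real.add_one_le_exp s
  have h2 : Real.exp (-s) * Real.exp s = 1 := by rw [← Real.exp_add]; simp
  have h3 : 0 < Real.exp (-s) := Real.exp_pos _
  have h4 : Real.exp (-s) * (1 + s) ≤ 1 := by nlinarith
  have h5 : Real.exp (-s) ≤ 1 / (1 + s) := by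
    rw [le_div_iff₀ (by linarith)]
    exact h4
  have h6 : 1 / (1 + s) ≤ 1 - s / 2 := by
    rw [div_le_iff₀ (by linarith)]
    nlinarith
  linarith

theorem exp_nat_eq (s : ℝ) (x : ℕ) : Real.exp (-(s * x)) = Real.exp (-s) ^ x := by
  rw [← Real.exp_nat_mul]
  congr 1
  ring

theorem summ_exp {s : ℝ} (hs : 0 < s) : Summable fun x : ℕ => Real.exp (-(s * x)) := by
  simp only [exp_nat_eq]
  exact summable_geometric_of_lt_one (Real.exp_pos _).le (by
    rw [Real.exp_lt_one_iff]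
    linarith)

theorem tsum_exp_le {s : ℝ} (hs : 0 < s) (hs1 : s ≤ 1) :
    ∑' x : ℕ, Real.exp (-(s * x)) ≤ 2 / s := by
  simp only [exp_nat_eq]
  rw [tsum_geometric_of_lt_one (Real.exp_pos _).le (by
    rw [Real.exp_lt_one_iff]
    linarith)]
  have h := exp_lin hs hs1
  rw [inv_eq_one_div, div_le_div_iff₀ (by linarith) hs]
  linarith

theorem summ_exp2 {s : ℝ} (hs : 0 < s) :
    Summable fun p : ℕ × ℕ => Real.exp (-(s * ((p.1 : ℝ) + p.2))) := by
  have := (summ_exp hs).mul_of_nonneg (summ_exp hs) (fun _ => (Real.exp_pos _).le)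
    (fun _ => (Real.exp_pos _).le)
  refine this.congr fun p => ?_
  rw [← Real.exp_add]
  congr 1
  ring

theorem tsum_exp2_le {s : ℝ} (hs : 0 < s) (hs1 : s ≤ 1) :
    ∑' p : ℕ × ℕ, Real.exp (-(s * ((p.1 : ℝ) + p.2))) ≤ 4 / s ^ 2 := by
  have h1 : ∑' p : ℕ × ℕ, Real.exp (-(s * ((p.1 : ℝ) + p.2)))
      = (∑' x : ℕ, Real.exp (-(s * x))) * ∑' x : ℕ, Real.exp (-(s * x)) := by
    rw [tsum_mul_tsum_of_summable_norm (summ_exp hs).norm (summ_exp hs).norm]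
    apply tsum_congr
    intro p
    rw [← Real.exp_add]
    congr 1
    ring
  rw [h1]
  have h2 := tsum_exp_le hs hs1
  have h3 : 0 ≤ ∑' x : ℕ, Real.exp (-(s * x)) := tsum_nonneg fun _ => (Real.exp_pos _).le
  calc _ ≤ (2 / s) * (2 / s) := by gcongr
    _ = _ := by ring

theorem tendsto_of_lin {f : ℝ → ℝ} {K : ℝ} (h : ∀ s, 0 < s → s ≤ 1 → |f s| ≤ K * s) :
    Tendsto f (𝓝[>] 0) (𝓝 0) := by
  rw [tendsto_zero_iff_abs_tendsto_zero]
  refine tendsto_of_tendsto_of_tendsto_of_le_of_le' tendsto_const_nhds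
    (h := fun s => K * s) ?_ (Eventually.of_forall fun s => abs_nonneg _) ?_
  · have : Tendsto (fun s : ℝ => K * s) (𝓝 0) (𝓝 (K * 0)) := tendsto_id.const_mul K
    rw [mul_zero] at this
    exact this.mono_left nhdsWithin_le_nhds
  · have : ∀ᶠ s : ℝ in 𝓝[>] 0, s ∈ Set.Ioc (0:ℝ) 1 := Ioc_mem_nhdsGT one_pos
    filter_upwards [this] with s hs
    exact h s hs.1 hs.2

theorem exp_neg_sub_one {a : ℝ} (ha : 0 ≤ a) : |Real.exp (-a) - 1| ≤ a := by
  have h1 := Real.add_one_le_exp (-a)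
  have h2 : Real.exp (-a) ≤ 1 := Real.exp_le_one_iff.2 (by linarith)
  rw [abs_le]
  constructor <;> linarith

theorem exp_neg_quad {a : ℝ} (ha : 0 ≤ a) : |Real.exp (-a) - 1 + a| ≤ a ^ 2 := by
  have h1 := Real.add_one_le_exp (-a)
  have h2 : Real.exp (-a) ≤ 1 := Real.exp_le_one_iff.2 (by linarith)
  rcases le_total a 1 with h | h
  · have := Real.abs_exp_sub_one_sub_id_le (x := -a) (by rw [abs_neg, abs_of_nonneg ha]; exact h)
    rw [show Real.exp (-a) - 1 + a = Real.exp (-a) - 1 - (-a) by ring]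
    simpa using this
  · rw [abs_le]
    constructor
    · nlinarith
    · nlinarith

theorem tsum_bound1 {f : ℕ → ℝ} {s K : ℝ} (hs : 0 < s) (hs1 : s ≤ 1) (hK : 0 ≤ K)
    (h : ∀ y, |f y| ≤ s ^ 2 * K * Real.exp (-(s * y))) :
    Summable f ∧ ∑' y, |f y| ≤ (2 * K) * s := by
  have h1 : Summable fun y : ℕ => s ^ 2 * K * Real.exp (-(s * y)) := (summ_exp hs).mul_left _
  have h2 : Summable f := Summable.of_norm_bounded h1 h
  refine ⟨h2, ?_⟩
  calc ∑' y, |f y| ≤ ∑' y : ℕ, s ^ 2 * K * Real.exp (-(s * y)) := h2.abs.tsum_le_tsum h h1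
    _ = s ^ 2 * K * ∑' y : ℕ, Real.exp (-(s * y)) := tsum_mul_left
    _ ≤ s ^ 2 * K * (2 / s) := by
        gcongr
        exact tsum_exp_le hs hs1
    _ = _ := by
        field_simp

theorem tsum_bound2 {f : ℕ → ℕ → ℝ} {s K : ℝ} (hs : 0 < s) (hs1 : s ≤ 1) (hK : 0 ≤ K)
    (h : ∀ x y, |f x y| ≤ s ^ 3 * K * Real.exp (-(s * ((x : ℝ) + y)))) :
    ∑' p : ℕ × ℕ, |f p.1 p.2| ≤ (4 * K) * s := by
  have h1 : Summable fun p : ℕ × ℕ => s ^ 3 * K * Real.exp (-(s * ((p.1 : ℝ) + p.2))) :=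
    (summ_exp2 hs).mul_left _
  have h2 : Summable fun p : ℕ × ℕ => f p.1 p.2 :=
    Summable.of_norm_bounded h1 fun p => h p.1 p.2
  calc ∑' p : ℕ × ℕ, |f p.1 p.2|
      ≤ ∑' p : ℕ × ℕ, s ^ 3 * K * Real.exp (-(s * ((p.1 : ℝ) + p.2))) :=
        h2.abs.tsum_le_tsum (fun p => h p.1 p.2) h1
    _ = s ^ 3 * K * ∑' p : ℕ × ℕ, Real.exp (-(s * ((p.1 : ℝ) + p.2))) := tsum_mul_left
    _ ≤ s ^ 3 * K * (4 / s ^ 2) := by
        gcongr
        exact tsum_exp2_le hs hs1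
    _ = _ := by
        field_simp

end Pool.Agent.Helper54.CN
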