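import Pool.Agent.Helper54.CN.Abs2D
import Pool.Agent.Helper54.CN.ExpLem

/-!
The limit theorem for `exp (-t (A x^2 + B x y + C y^2))`.
-/

namespace Pool.Agent.Helper54.CN

open Finset Filter Topology

/-- the Gaussian family -/
noncomputable def GF (A B C : ℝ) (s : ℝ) (x y : ℕ) : ℝ :=
  Real.exp (-(s ^ 2 * (A * (x : ℝ) ^ 2 + B * x * y + C * (y : ℝ) ^ 2)))

theorem GF_swap (A B C s : ℝ) (x y : ℕ) : GF A B C s x y = GF C B A s y x := by
  unfold GF
  congr 1
  ring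

theorem gauss_key {A B C : ℝ} (hA : 0 < A) (hB : 0 ≤ B) (hC : 0 < C) :
    ∃ K : ℝ, 0 < K ∧ ∀ u v : ℝ, 0 ≤ u → 0 ≤ v →
      (1 + u + v) ^ 4 * Real.exp (-(A * u ^ 2 + B * u * v + C * v ^ 2))
        ≤ K * Real.exp (-(u + v)) := by
  set c0 := min A C / 2 with hc0
  have hc : 0 < c0 := by
    have := lt_min hA hC
    positivity
  refine ⟨24 * Real.exp (1 + 1 / c0), by positivity, fun u v hu hv => ?_⟩
  have h1 : (1 + u + v) ^ 4 ≤ 24 * Real.exp (1 + u + v) := by
    have := Real.pow_div_factorial_le_exp (1 + u + v) (by positivity) 4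
    have h24 : ((Nat.factorial 4 : ℕ) : ℝ) = 24 := by norm_num [Nat.factorial]
    rw [h24, div_le_iff₀ (by norm_num)] at this
    linarith
  have h2 : c0 * (u + v) ^ 2 ≤ A * u ^ 2 + B * u * v + C * v ^ 2 := by
    have hAm : 2 * c0 ≤ A := by rw [hc0]; linarith [min_le_left A C]
    have hCm : 2 * c0 ≤ C := by rw [hc0]; linarith [min_le_right A C]
    nlinarith [mul_nonneg (mul_nonneg hB hu) hv, mul_nonneg hc.le (sq_nonneg (u - v)),
      mul_nonneg (sub_nonneg.2 hAm) (sq_nonneg u), mul_nonneg (sub_nonneg.2 hCm) (sq_nonneg v)]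
  have h3 : 2 * (u + v) - c0 * (u + v) ^ 2 ≤ 1 / c0 := by
    rw [le_div_iff₀ hc]
    nlinarith [sq_nonneg (c0 * (u + v) - 1)]
  calc (1 + u + v) ^ 4 * Real.exp (-(A * u ^ 2 + B * u * v + C * v ^ 2))
      ≤ (24 * Real.exp (1 + u + v)) * Real.exp (-(c0 * (u + v) ^ 2)) := by
        gcongr
    _ = 24 * Real.exp (1 + (2 * (u + v) - c0 * (u + v) ^ 2)) * Real.exp (-(u + v)) := by
        rw [mul_assoc, mul_assoc, ← Real.exp_add, ← Real.exp_add]
        congr 2
        ring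
    _ ≤ 24 * Real.exp (1 + 1 / c0) * Real.exp (-(u + v)) := by
        gcongr

theorem step_diff {f f' : ℝ → ℝ} (h : ∀ z, HasDerivAt f (f' z) z) {x K : ℝ}
    (hb : ∀ z, x ≤ z → z ≤ x + 1 → |f' z| ≤ K) : |f (x + 1) - f x| ≤ K := by
  obtain ⟨c, hc, he⟩ := exists_hasDerivAt_eq_slope f f' (show x < x + 1 by linarith)
    (fun z _ => (h z).continuousAt.continuousWithinAt) (fun z _ => h z)
  have : f (x + 1) - f x = f' c := by
    rw [he]
    field_simp
    ring
  rw [this]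
  exact hb c hc.1.le hc.2.le

theorem third_diff {f f1 f2 f3 : ℝ → ℝ} (h1 : ∀ z, HasDerivAt f (f1 z) z)
    (h2 : ∀ z, HasDerivAt f1 (f2 z) z) (h3 : ∀ z, HasDerivAt f2 (f3 z) z) {x K : ℝ}
    (hb : ∀ z, x ≤ z → |f3 z| ≤ K) :
    |(f (x + 3) - f (x + 2)) - (f (x + 2) - f (x + 1))
      - ((f (x + 2) - f (x + 1)) - (f (x + 1) - f x))| ≤ K := by
  have sh : ∀ {g g' : ℝ → ℝ}, (∀ z, HasDerivAt g (g' z) z) →
      ∀ z, HasDerivAt (fun z => g (z + 1) - g z) (g' (z + 1) - g' z) z := by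
    intro g g' hg z
    exact (HasDerivAt.comp_add_const z 1 (hg (z + 1))).sub (hg z)
  have a1 := sh h1
  have a2 := sh h2
  have b1 := sh a1
  have c2 : ∀ z, x ≤ z → |f2 (z + 1) - f2 z| ≤ K := fun z hz =>
    step_diff h3 fun w hw _ => hb w (hz.trans hw)
  have c1 : ∀ z, x ≤ z → |(f1 (z + 1 + 1) - f1 (z + 1)) - (f1 (z + 1) - f1 z)| ≤ K := fun z hz =>
    step_diff a2 fun w hw _ => c2 w (hz.trans hw)
  have c0 := step_diff (x := x) (K := K) b1 fun w hw _ => c1 w hw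
  convert c0 using 2
  ring_nf

theorem dlt3 (φ : ℕ → ℝ) (k : ℕ) : dlt (dlt (dlt φ)) k
    = (φ (k + 3) - φ (k + 2)) - (φ (k + 2) - φ (k + 1))
      - ((φ (k + 2) - φ (k + 1)) - (φ (k + 1) - φ k)) := rfl

theorem gauss_D3 {A B C : ℝ} (hA : 0 < A) (hB : 0 ≤ B) (hC : 0 < C) :
    ∃ K : ℝ, 0 < K ∧ ∀ s : ℝ, 0 < s → ∀ x y : ℕ,
      |Dx (Dx (Dx (GF A B C s))) x y| ≤ s ^ 3 * K * Real.exp (-(s * ((x : ℝ) + y))) := by
  obtain ⟨K, hK, hk⟩ := gauss_key hA hB hC
  set L := 2 * A + B with hL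
  have hL0 : 0 < L := by positivity
  refine ⟨(L ^ 3 + 6 * A * L) * K, by positivity, fun s hs x y => ?_⟩
  set P : ℝ → ℝ := fun z => 2 * A * z + B * y with hP
  set f : ℝ → ℝ := fun z => Real.exp (-(s ^ 2 * (A * z ^ 2 + B * z * y + C * (y : ℝ) ^ 2))) with hf
  have hd : ∀ z, HasDerivAt f (-(s ^ 2 * P z) * f z) z := by
    intro z
    have h1 : HasDerivAt (fun z : ℝ => -(s ^ 2 * (A * z ^ 2 + B * z * y + C * (y : ℝ) ^ 2)))
        (-(s ^ 2 * (A * (2 * z) + B * y))) z := by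
      have h2 : HasDerivAt (fun z : ℝ => z ^ 2) (2 * z) z := by
        simpa using hasDerivAt_pow 2 z
      have h3 : HasDerivAt (fun z : ℝ => B * z * y) (B * y) z := by
        have := ((hasDerivAt_id z).const_mul B).mul_const (y : ℝ)
        simpa using this
      have h4 := (((h2.const_mul A).add h3).add_const (C * (y : ℝ) ^ 2)).const_mul (s ^ 2)
      exact h4.neg
    have h5 := h1.exp
    convert h5 using 1
    simp only [hf, hP]
    ring
  have hPd : ∀ z, HasDerivAt P (2 * A) z := by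
    intro z
    have h0 : HasDerivAt (fun z : ℝ => 2 * A * z) (2 * A) z := by
      simpa using (hasDerivAt_id z).const_mul (2 * A)
    exact h0.add_const (B * (y : ℝ))
  have hd2 : ∀ z, HasDerivAt (fun z => -(s ^ 2 * P z) * f z)
      ((s ^ 4 * P z ^ 2 - 2 * A * s ^ 2) * f z) z := by
    intro z
    have := (((hPd z).const_mul (s ^ 2)).fun_neg).fun_mul (hd z)
    refine this.congr_deriv ?_
    ring
  have hd3 : ∀ z, HasDerivAt (fun z => (s ^ 4 * P z ^ 2 - 2 * A * s ^ 2) * f z)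
      ((-(s ^ 6 * P z ^ 3) + 6 * A * s ^ 4 * P z) * f z) z := by
    intro z
    have h1 : HasDerivAt (fun z => P z ^ 2) (2 * P z * (2 * A)) z := by
      have := (hPd z).fun_pow 2
      simpa using this
    have := (((h1.const_mul (s ^ 4)).sub_const (2 * A * s ^ 2))).fun_mul (hd z)
    refine this.congr_deriv ?_
    ring
  have hb : ∀ z, (x : ℝ) ≤ z → |(-(s ^ 6 * P z ^ 3) + 6 * A * s ^ 4 * P z) * f z|
      ≤ s ^ 3 * ((L ^ 3 + 6 * A * L) * K) * Real.exp (-(s * ((x : ℝ) + y))) := by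
    intro z hz
    have hz0 : 0 ≤ z := (Nat.cast_nonneg x).trans hz
    have hy0 : (0 : ℝ) ≤ y := Nat.cast_nonneg y
    have hu : 0 ≤ s * z := by positivity
    have hv : 0 ≤ s * y := by positivity
    have hk1 := hk (s * z) (s * y) hu hv
    have hfz : f z = Real.exp (-(A * (s * z) ^ 2 + B * (s * z) * (s * y) + C * (s * y) ^ 2)) := by
      simp only [hf]
      congr 1
      ring
    have hf0 : 0 < f z := Real.exp_pos _
    rw [← hfz] at hk1
    have hsP : s * P z ≤ L * (1 + s * z + s * y) := by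
      simp only [hP, hL]
      nlinarith [mul_nonneg hA.le hu, mul_nonneg hB hu, mul_nonneg hA.le hv, mul_nonneg hB hv]
    have hsP0 : 0 ≤ s * P z := by
      simp only [hP]
      positivity
    set w := 1 + s * z + s * y with hw
    have hw1 : 1 ≤ w := by linarith
    have h1 : |-(s ^ 6 * P z ^ 3) + 6 * A * s ^ 4 * P z|
        ≤ s ^ 3 * ((L ^ 3 + 6 * A * L) * w ^ 4) := by
      have e1 : -(s ^ 6 * P z ^ 3) + 6 * A * s ^ 4 * P z
        = s ^ 3 * (-(s * P z) ^ 3 + 6 * A * (s * P z)) := by ring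
      rw [e1, abs_mul, abs_of_pos (by positivity : (0:ℝ) < s ^ 3)]
      refine mul_le_mul_of_nonneg_left ?_ (by positivity)
      have e2 : |-(s * P z) ^ 3 + 6 * A * (s * P z)| ≤ (s * P z) ^ 3 + 6 * A * (s * P z) := by
        rw [abs_le]
        constructor
        · have : 0 ≤ 6 * A * (s * P z) := by positivity
          have : 0 ≤ (s * P z) ^ 3 := by positivity
          linarith
        · have : 0 ≤ (s * P z) ^ 3 := by positivity
          linarith
      refine e2.trans ?_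
      have e3 : (s * P z) ^ 3 ≤ L ^ 3 * w ^ 4 := by
        calc (s * P z) ^ 3 ≤ (L * w) ^ 3 := by gcongr
          _ = L ^ 3 * w ^ 3 := by ring
          _ ≤ L ^ 3 * w ^ 4 := by gcongr; norm_num
      have e4 : 6 * A * (s * P z) ≤ 6 * A * L * w ^ 4 := by
        calc 6 * A * (s * P z) ≤ 6 * A * (L * w) := by gcongr
          _ = 6 * A * L * w ^ 1 := by ring
          _ ≤ 6 * A * L * w ^ 4 := by gcongr; norm_num
      linarith
    calc |(-(s ^ 6 * P z ^ 3) + 6 * A * s ^ 4 * P z) * f z|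
        = |-(s ^ 6 * P z ^ 3) + 6 * A * s ^ 4 * P z| * f z := by
          rw [abs_mul, abs_of_pos hf0]
      _ ≤ s ^ 3 * ((L ^ 3 + 6 * A * L) * w ^ 4) * f z := by gcongr
      _ = s ^ 3 * (L ^ 3 + 6 * A * L) * (w ^ 4 * f z) := by ring
      _ ≤ s ^ 3 * (L ^ 3 + 6 * A * L) * (K * Real.exp (-(s * z + s * y))) := by gcongr
      _ ≤ s ^ 3 * (L ^ 3 + 6 * A * L) * (K * Real.exp (-(s * ((x : ℝ) + y)))) := by
          gcongr
          rw [mul_add]
          gcongr
      _ = _ := by ring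
  have h := third_diff hd hd2 hd3 (x := (x : ℝ)) hb
  have e : Dx (Dx (Dx (GF A B C s))) x y
      = (f ((x : ℝ) + 3) - f (x + 2)) - (f (x + 2) - f (x + 1))
      - ((f (x + 2) - f (x + 1)) - (f (x + 1) - f x)) := by
    simp only [Dx, GF, hf]
    push_cast
    ring_nf
  rw [e]
  exact h

end Pool.Agent.Helper54.CN
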