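import Pool.Agent.Helper54.CN.Gauss

/-!
The limit theorem for `exp (-t (A x^2 + B x y + C y^2))`, conclusion.
-/

namespace Pool.Agent.Helper54.CN

open Finset Filter Topology

theorem gauss_sm {A B C : ℝ} (hA : 0 < A) (hB : 0 ≤ B) (hC : 0 < C) {s : ℝ} (hs : 0 < s) :
    Sm (GF A B C s) := by
  obtain ⟨K, hK, hk⟩ := gauss_key hA hB hC
  refine Summable.of_norm_bounded
    (g := fun p : ℕ × ℕ => K * Real.exp (-(s * ((p.1 : ℝ) + p.2))))
    ((summ_exp2 hs).mul_left _) fun p => ?_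
  have h1 := hk (s * p.1) (s * p.2) (by positivity) (by positivity)
  have h2 : GF A B C s p.1 p.2 = Real.exp (-(A * (s * p.1) ^ 2 + B * (s * p.1) * (s * p.2)
      + C * (s * p.2) ^ 2)) := by
    unfold GF
    congr 1
    ring
  have h3 : (1 : ℝ) ≤ (1 + s * p.1 + s * p.2) ^ 4 := by
    apply one_le_pow₀
    have : 0 ≤ s * p.1 := by positivity
    have : 0 ≤ s * p.2 := by positivity
    linarith
  rw [h2, Real.norm_eq_abs, abs_of_pos (Real.exp_pos _)]
  set E := Real.exp (-(A * (s * p.1) ^ 2 + B * (s * p.1) * (s * p.2) + C * (s * p.2) ^ 2))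
  have hE : 0 < E := Real.exp_pos _
  calc E = 1 * E := by ring
    _ ≤ _ := by gcongr
    _ ≤ _ := h1
    _ = _ := by ring_nf

set_option maxHeartbeats 2000000 in
/-- bound for the boundary terms -/
theorem gauss_line {A B C : ℝ} (hA : 0 < A) (hB : 0 ≤ B) (hC : 0 < C) :
    ∃ K : ℝ, 0 < K ∧ ∀ s : ℝ, 0 < s → s ≤ 1 → ∀ y : ℕ,
      |Dy (Dx (GF A B C s)) 0 y| ≤ s ^ 2 * K * Real.exp (-(s * y)) ∧
      |Dx (GF A B C s) 0 y - B / (2 * C) * (GF A B C s 0 (y + 1) - GF A B C s 0 y)|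
        ≤ s ^ 2 * K * Real.exp (-(s * y)) := by
  obtain ⟨K, hK, hk⟩ := gauss_key hA hB hC
  set κ := B / (2 * C) with hκ
  have hκ0 : 0 ≤ κ := by positivity
  set M1 := C * 2 * (A + B) + B with hM1
  set M2 := |B / 2 - A| + (A + B) ^ 2 + κ * (2 * C) ^ 2 with hM2
  have hM10 : 0 ≤ M1 := by positivity
  have hM20 : 0 ≤ M2 := by positivity
  refine ⟨(M1 + M2 + 1) * K, by positivity, fun s hs hs1 y => ?_⟩
  have hy : (0 : ℝ) ≤ y := Nat.cast_nonneg y
  set v := s * y with hv
  have hv0 : 0 ≤ v := by positivity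
  set E : ℝ := Real.exp (-(s ^ 2 * (C * (y : ℝ) ^ 2))) with hE
  have hE0 : 0 < E := Real.exp_pos _
  have hkE : (1 + v) ^ 4 * E ≤ K * Real.exp (-v) := by
    have := hk 0 v le_rfl hv0
    have e1 : E = Real.exp (-(A * 0 ^ 2 + B * 0 * v + C * v ^ 2)) := by
      rw [hE, hv]
      congr 1
      ring
    rw [e1]
    simpa using this
  have hE2 : ∀ M : ℝ, 0 ≤ M → M ≤ M1 + M2 + 1 → s ^ 2 * (M * (1 + v) ^ 2) * E
      ≤ s ^ 2 * ((M1 + M2 + 1) * K) * Real.exp (-v) := by
    intro M hM hM'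
    have h1 : (1 + v) ^ 2 ≤ (1 + v) ^ 4 := pow_le_pow_right₀ (by linarith) (by norm_num)
    calc s ^ 2 * (M * (1 + v) ^ 2) * E ≤ s ^ 2 * ((M1 + M2 + 1) * (1 + v) ^ 4) * E := by gcongr
      _ = s ^ 2 * (M1 + M2 + 1) * ((1 + v) ^ 4 * E) := by ring
      _ ≤ s ^ 2 * (M1 + M2 + 1) * (K * Real.exp (-v)) := by gcongr
      _ = _ := by ring
  -- the values
  set a : ℝ := s ^ 2 * (A + B * y) with ha
  set a' : ℝ := s ^ 2 * (A + B * (y + 1)) with ha'
  set b : ℝ := s ^ 2 * (C * (2 * y + 1)) with hb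
  have ha0 : 0 ≤ a := by positivity
  have ha0' : 0 ≤ a' := by positivity
  have hb0 : 0 ≤ b := by positivity
  have g00 : GF A B C s 0 y = E := by
    rw [hE]; unfold GF; congr 1; push_cast; ring
  have g01 : GF A B C s 0 (y + 1) = E * Real.exp (-b) := by
    rw [hE, ← Real.exp_add]; unfold GF; congr 1; push_cast; rw [hb]; ring
  have g10 : GF A B C s 1 y = E * Real.exp (-a) := by
    rw [hE, ← Real.exp_add]; unfold GF; congr 1; push_cast; rw [ha]; ring
  have g11 : GF A B C s 1 (y + 1) = E * Real.exp (-b) * Real.exp (-a') := by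
    rw [hE, ← Real.exp_add, ← Real.exp_add]; unfold GF; congr 1; push_cast; rw [hb, ha']; ring
  have s2 : s ^ 2 ≤ s := by rw [sq]; exact mul_le_of_le_one_right hs.le hs1
  constructor
  · have e1 : Dy (Dx (GF A B C s)) 0 y
        = E * ((Real.exp (-b) - 1) * (Real.exp (-a') - 1)
          + (Real.exp (-a) * (Real.exp (-(s ^ 2 * B)) - 1))) := by
      have e2 : Real.exp (-a') = Real.exp (-a) * Real.exp (-(s ^ 2 * B)) := by
        rw [← Real.exp_add]; congr 1; rw [ha', ha]; ring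
      show (GF A B C s (0 + 1) (y + 1) - GF A B C s 0 (y + 1))
        - (GF A B C s (0 + 1) y - GF A B C s 0 y) = _
      rw [zero_add, g00, g01, g10, g11, e2]
      ring
    rw [e1, abs_mul, abs_of_pos hE0]
    have h1 : |(Real.exp (-b) - 1) * (Real.exp (-a') - 1)
          + (Real.exp (-a) * (Real.exp (-(s ^ 2 * B)) - 1))| ≤ b * a' + s ^ 2 * B := by
      refine (abs_add_le _ _).trans (add_le_add ?_ ?_)
      · rw [abs_mul]
        exact mul_le_mul (exp_neg_sub_one hb0) (exp_neg_sub_one ha0') (abs_nonneg _) hb0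
      · rw [abs_mul, abs_of_pos (Real.exp_pos _)]
        have h2 : Real.exp (-a) ≤ 1 := Real.exp_le_one_iff.2 (by linarith)
        calc Real.exp (-a) * |Real.exp (-(s ^ 2 * B)) - 1| ≤ 1 * (s ^ 2 * B) := by
              gcongr
              exact exp_neg_sub_one (by positivity)
          _ = _ := by ring
    have h2 : b * a' + s ^ 2 * B ≤ s ^ 2 * (M1 * (1 + v) ^ 2) := by
      have h3 : s * (C * (2 * y + 1)) ≤ C * 2 * (1 + v) := by
        have e3 : s * (C * (2 * y + 1)) = C * (2 * v + s) := by rw [hv]; ring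
        rw [e3, mul_assoc]
        gcongr
        linarith
      have h4 : s * (A + B * (y + 1)) ≤ (A + B) * (1 + v) := by
        have e4 : s * (A + B * (y + 1)) = A * s + B * (v + s) := by rw [hv]; ring
        have e5 : A * s ≤ A * (1 + v) := by gcongr; linarith
        have e6 : B * (v + s) ≤ B * (1 + v) := mul_le_mul_of_nonneg_left (by linarith) hB
        rw [e4, add_mul]
        exact add_le_add e5 e6
      have h5 : b * a' = s ^ 2 * ((s * (C * (2 * y + 1))) * (s * (A + B * (y + 1)))) := by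
        rw [hb, ha']; ring
      rw [h5, ← mul_add]
      refine mul_le_mul_of_nonneg_left ?_ (by positivity)
      have h6 : (s * (C * (2 * y + 1))) * (s * (A + B * (y + 1)))
          ≤ (C * 2 * (1 + v)) * ((A + B) * (1 + v)) := by gcongr
      have h7 : B ≤ B * (1 + v) ^ 2 := by
        have : (1 : ℝ) ≤ (1 + v) ^ 2 := one_le_pow₀ (by linarith)
        exact le_mul_of_one_le_right hB this
      calc _ ≤ (C * 2 * (1 + v)) * ((A + B) * (1 + v)) + B * (1 + v) ^ 2 := add_le_add h6 h7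
        _ = _ := by rw [hM1]; ring
    calc _ ≤ E * (s ^ 2 * (M1 * (1 + v) ^ 2)) := by
          gcongr
          exact h1.trans h2
      _ = s ^ 2 * (M1 * (1 + v) ^ 2) * E := by ring
      _ ≤ _ := hE2 M1 hM10 (by linarith)
  · have e1 : Dx (GF A B C s) 0 y - κ * (GF A B C s 0 (y + 1) - GF A B C s 0 y)
        = E * ((Real.exp (-a) - 1 + a) - κ * (Real.exp (-b) - 1 + b) + (κ * b - a)) := by
      show (GF A B C s (0 + 1) y - GF A B C s 0 y)
        - κ * (GF A B C s 0 (y + 1) - GF A B C s 0 y) = _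
      rw [zero_add, g00, g01, g10]
      ring
    have e2 : κ * b - a = s ^ 2 * (B / 2 - A) := by
      rw [hκ, hb, ha]
      field_simp
      ring
    rw [e1, abs_mul, abs_of_pos hE0, e2]
    have h1 : |(Real.exp (-a) - 1 + a) - κ * (Real.exp (-b) - 1 + b) + s ^ 2 * (B / 2 - A)|
        ≤ a ^ 2 + κ * b ^ 2 + s ^ 2 * |B / 2 - A| := by
      refine (abs_add_le _ _).trans (add_le_add ((abs_sub _ _).trans (add_le_add ?_ ?_)) ?_)
      · exact exp_neg_quad ha0
      · rw [abs_mul, abs_of_nonneg hκ0]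
        exact mul_le_mul_of_nonneg_left (exp_neg_quad hb0) hκ0
      · rw [abs_mul, abs_of_pos (by positivity : (0:ℝ) < s ^ 2)]
    have h2 : a ^ 2 + κ * b ^ 2 + s ^ 2 * |B / 2 - A| ≤ s ^ 2 * (M2 * (1 + v) ^ 2) := by
      have h3 : s * (C * (2 * y + 1)) ≤ 2 * C * (1 + v) := by
        have e3 : s * (C * (2 * y + 1)) = C * (2 * v + s) := by rw [hv]; ring
        rw [e3, mul_comm 2 C, mul_assoc]
        gcongr
        linarith
      have h4 : s * (A + B * y) ≤ (A + B) * (1 + v) := by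
        have e4 : s * (A + B * y) = A * s + B * v := by rw [hv]; ring
        have e5 : A * s ≤ A * (1 + v) := by gcongr; linarith
        have e6 : B * v ≤ B * (1 + v) := by gcongr; linarith
        rw [e4, add_mul]
        exact add_le_add e5 e6
      have h5 : a ^ 2 = s ^ 2 * (s * (A + B * y)) ^ 2 := by rw [ha]; ring
      have h5' : b ^ 2 = s ^ 2 * (s * (C * (2 * y + 1))) ^ 2 := by rw [hb]; ring
      have h6 : a ^ 2 ≤ s ^ 2 * ((A + B) * (1 + v)) ^ 2 := by
        rw [h5]; gcongr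
      have h6' : b ^ 2 ≤ s ^ 2 * (2 * C * (1 + v)) ^ 2 := by
        rw [h5']; gcongr
      have h7 : |B / 2 - A| ≤ |B / 2 - A| * (1 + v) ^ 2 := by
        have : (1 : ℝ) ≤ (1 + v) ^ 2 := one_le_pow₀ (by linarith)
        exact le_mul_of_one_le_right (abs_nonneg _) this
      calc a ^ 2 + κ * b ^ 2 + s ^ 2 * |B / 2 - A|
          ≤ s ^ 2 * ((A + B) * (1 + v)) ^ 2 + κ * (s ^ 2 * (2 * C * (1 + v)) ^ 2)
            + s ^ 2 * (|B / 2 - A| * (1 + v) ^ 2) := by gcongr
        _ = s ^ 2 * (M2 * (1 + v) ^ 2) := by rw [hM2]; ring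
    calc _ ≤ E * (s ^ 2 * (M2 * (1 + v) ^ 2)) := by
          gcongr
          exact h1.trans h2
      _ = s ^ 2 * (M2 * (1 + v) ^ 2) * E := by ring
      _ ≤ _ := hE2 M2 hM20 (by linarith)

theorem gauss_L1 {A B C : ℝ} (hA : 0 < A) (hB : 0 ≤ B) (hC : 0 < C) :
    Tendsto (fun s => Tr fun y => Dx (GF A B C s) 0 y) (𝓝[>] 0) (𝓝 (-(B / (2 * C)))) := by
  obtain ⟨K, hK, hk⟩ := gauss_line hA hB hC
  set κ := B / (2 * C) with hκ
  have h0 : Tendsto (fun s => ∑' y, (Dx (GF A B C s) 0 y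
      - κ * (GF A B C s 0 (y + 1) - GF A B C s 0 y))) (𝓝[>] 0) (𝓝 0) := by
    apply tendsto_of_lin (K := 2 * K)
    intro s hs hs1
    obtain ⟨h1, h2⟩ := tsum_bound1 hs hs1 hK.le fun y => (hk s hs hs1 y).2
    refine le_trans ?_ h2
    simpa using norm_tsum_le_tsum_norm h1.norm
  have h1 : Tendsto (fun s => (Real.exp (-(s ^ 2 * A)) - 1) / 2) (𝓝[>] 0) (𝓝 0) := by
    have : Tendsto (fun s : ℝ => (Real.exp (-(s ^ 2 * A)) - 1) / 2) (𝓝 0)
        (𝓝 ((Real.exp (-((0:ℝ) ^ 2 * A)) - 1) / 2)) := by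
      apply Continuous.tendsto
      fun_prop
    simp only [ne_eq, OfNat.ofNat_ne_zero, not_false_eq_true, zero_pow, zero_mul, neg_zero,
      Real.exp_zero, sub_self, zero_div] at this
    exact this.mono_left nhdsWithin_le_nhds
  have h2 : Tendsto (fun s => ∑' y, (Dx (GF A B C s) 0 y
      - κ * (GF A B C s 0 (y + 1) - GF A B C s 0 y)) - κ
      - (Real.exp (-(s ^ 2 * A)) - 1) / 2) (𝓝[>] 0) (𝓝 (-κ)) := by
    have := (h0.sub_const κ).sub h1
    simpa using this
  refine h2.congr' ?_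
  filter_upwards [self_mem_nhdsWithin] with s hs
  have hs : 0 < s := hs
  have hsm := gauss_sm hA hB hC hs
  have s1 : Summable fun y => Dx (GF A B C s) 0 y := hsm.dx.row 0
  have s2 : Summable fun y => κ * (GF A B C s 0 (y + 1) - GF A B C s 0 y) :=
    (hsm.dy.row 0).mul_left _
  have h3 : ∑' y, (GF A B C s 0 (y + 1) - GF A B C s 0 y) = - GF A B C s 0 0 :=
    tsum_dlt (hsm.row 0)
  rw [s1.tsum_sub s2, tsum_mul_left, h3]
  have h4 : GF A B C s 0 0 = 1 := by simp [GF]
  have h5 : Dx (GF A B C s) 0 0 = Real.exp (-(s ^ 2 * A)) - 1 := by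
    simp [Dx, GF]
  rw [h4]
  show _ = ∑' k, Dx (GF A B C s) 0 k - Dx (GF A B C s) 0 0 / 2
  rw [h5]
  ring

/-- the two-dimensional limit theorem -/
theorem gauss_2D {q : ℕ} [NeZero q] {A B C : ℝ} (hA : 0 < A) (hB : 0 ≤ B) (hC : 0 < C)
    (c : ZMod q → ZMod q → ℝ) (hc : ∑ x, ∑ y, c x y = 0) (hce : ∀ x y, c (-x) (-y) = c x y) :
    Tendsto (fun t : ℝ => Tr fun y : ℕ => Tr fun x : ℕ =>
        c x y * Real.exp (-(t * (A * (x : ℝ) ^ 2 + B * x * y + C * (y : ℝ) ^ 2)))) (𝓝[>] 0)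
      (𝓝 (∑ x, ∑ y, c x y * (be1 x * be1 y + B / (4 * C) * be2 x + B / (4 * A) * be2 y))) := by
  obtain ⟨K, hK, hk⟩ := gauss_D3 hA hB hC
  obtain ⟨K', hK', hk'⟩ := gauss_D3 hC hB hA
  obtain ⟨K2, hK2, hk2⟩ := gauss_line hA hB hC
  have hsw : ∀ s, Dy (Dy (Dy (GF A B C s))) = fun x y => Dx (Dx (Dx (GF C B A s))) y x := by
    intro s
    funext x y
    simp only [Dx, Dy, GF_swap A B C s]
  have key := abs_2D (l := 𝓝[>] (0:ℝ)) (GF A B C)
    (by filter_upwards [self_mem_nhdsWithin] with s hs using gauss_sm hA hB hC hs)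
    (by
      apply tendsto_of_lin (K := 4 * K)
      intro s hs hs1
      rw [abs_of_nonneg (tsum_nonneg fun _ => abs_nonneg _)]
      exact tsum_bound2 hs hs1 hK.le (hk s hs))
    (by
      apply tendsto_of_lin (K := 4 * K')
      intro s hs hs1
      rw [abs_of_nonneg (tsum_nonneg fun _ => abs_nonneg _)]
      refine tsum_bound2 hs hs1 hK'.le ?_
      intro x y
      rw [hsw s]
      have := hk' s hs y x
      rwa [add_comm (y : ℝ)] at this)
    (by
      have : ∀ s, GF A B C s 0 0 = 1 := by intro s; simp [GF]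
      simp only [this]
      exact tendsto_const_nhds)
    (by
      apply tendsto_of_lin (K := 2 * K2)
      intro s hs hs1
      rw [abs_of_nonneg (tsum_nonneg fun _ => abs_nonneg _)]
      exact (tsum_bound1 hs hs1 hK2.le fun y => (hk2 s hs hs1 y).1).2)
    (L1 := B / (2 * C)) (L2 := B / (2 * A)) (gauss_L1 hA hB hC)
    (by
      have := gauss_L1 hC hB hA
      refine this.congr fun s => ?_
      congr 1
      funext x
      simp only [Dx, Dy, GF_swap A B C s])
    c hc hce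
  have hsq : Tendsto Real.sqrt (𝓝[>] 0) (𝓝[>] 0) := by
    apply tendsto_nhdsWithin_of_tendsto_nhds_of_eventually_within
    · have := Real.continuous_sqrt.tendsto 0
      rw [Real.sqrt_zero] at this
      exact this.mono_left nhdsWithin_le_nhds
    · filter_upwards [self_mem_nhdsWithin] with t ht
      exact Real.sqrt_pos.2 ht
  have h2 := key.comp hsq
  have hval : ∑ x, ∑ y, c x y * (be1 x * be1 y + B / (2 * C) / 2 * be2 x + B / (2 * A) / 2 * be2 y)
    = ∑ x, ∑ y, c x y * (be1 x * be1 y + B / (4 * C) * be2 x + B / (4 * A) * be2 y) := by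
    apply Finset.sum_congr rfl
    intro x _
    apply Finset.sum_congr rfl
    intro y _
    have e1 : B / (2 * C) / 2 = B / (4 * C) := by field_simp; ring
    have e2 : B / (2 * A) / 2 = B / (4 * A) := by field_simp; ring
    rw [e1, e2]
  rw [hval] at h2
  refine h2.congr' ?_
  filter_upwards [self_mem_nhdsWithin] with t ht
  have ht : 0 < t := ht
  simp only [Function.comp]
  congr 1
  funext y
  congr 1
  funext x
  unfold GF
  rw [Real.sq_sqrt ht.le]

end Pool.Agent.Helper54.CN
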