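import Pool.Agent.Helper54.CN.Ring

/-!
The discriminant has a prime factor `|a| ≡ 3 (mod 4)`.
-/

namespace Pool.Agent.Helper54.CN

open QuadraticAlgebra NumberTheorySymbols

/-- the cofactor of `|a|` in the discriminant -/
def pp (a n : ℤ) : ℕ := (a * n ^ 2 - 4).natAbs

/-- the discriminant as a natural number -/
def Dn (a n : ℤ) : ℕ := (DD a n).natAbs

variable {a n : ℤ}

theorem exists_jacobi_neg {N : ℕ} (hodd : Odd N) (hs : Squarefree N) (h1 : 1 < N) :
    ∃ v : ℕ, J((v : ℤ) | N) = -1 := by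
  set P := N.minFac with hP
  have hPp : P.Prime := Nat.minFac_prime (by omega)
  obtain ⟨s, hs'⟩ := Nat.minFac_dvd N
  rw [← hP] at hs'
  have hP2 : P ≠ 2 := by
    intro h2
    rw [hs', h2] at hodd
    exact (Nat.not_odd_iff_even.2 (even_two_mul s)) hodd
  have : Fact P.Prime := ⟨hPp⟩
  have hcop : Nat.Coprime P s := by
    rw [hs'] at hs
    exact Nat.coprime_of_squarefree_mul hs
  obtain ⟨y, hy⟩ := FiniteField.exists_nonsquare (F := ZMod P) (by
    rw [ZMod.ringChar_zmod_n]; exact hP2)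
  obtain ⟨v, hv1, hv2⟩ := Nat.chineseRemainder hcop y.val 1
  refine ⟨v, ?_⟩
  have hs0 : s ≠ 0 := by
    rintro rfl
    simp at hs'
    omega
  have hP0 : P ≠ 0 := hPp.ne_zero
  rw [hs', jacobiSym.mul_right' _ hP0 hs0]
  have e1 : J((v : ℤ) | P) = J((y.val : ℤ) | P) := by
    apply jacobiSym.mod_left'
    exact_mod_cast hv1
  have e2 : J((v : ℤ) | s) = J((1 : ℤ) | s) := by
    apply jacobiSym.mod_left'
    have : v % s = 1 % s := hv2
    exact_mod_cast this
  rw [e1, e2, jacobiSym.one_left, mul_one, ZMod.nonsquare_iff_jacobiSym_eq_neg_one]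
  simpa using hy

namespace Hyp

theorem A_odd (h : Hyp a n) : Odd a.natAbs := Int.natAbs_odd.2 h.odd_a

theorem A_ge (h : Hyp a n) : 3 ≤ a.natAbs := by
  have := h.ha
  rw [Int.abs_eq_natAbs] at this
  exact_mod_cast this

theorem Dn_eq (h : Hyp a n) : (Dn a n : ℤ) = DD a n := by
  unfold Dn
  have := DD_gt h.big
  omega

theorem Dn_mul (_h : Hyp a n) : Dn a n = a.natAbs * pp a n := by
  unfold Dn pp DD
  rw [← Int.natAbs_mul]
  congr 1
  ring

theorem Dn_sqf (h : Hyp a n) : Squarefree (Dn a n) := Int.squarefree_natAbs.2 h.sqf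

theorem Dn_mod (h : Hyp a n) : Dn a n % 4 = 1 := by
  have h1 := h.Dn_eq
  have h2 : DD a n % 4 = 1 := by
    unfold DD
    have : Odd (a * n) := h.odd_a.mul h.odd_n
    obtain ⟨k, hk⟩ := this
    rw [hk]
    have : (2 * k + 1) ^ 2 - 4 * a = 4 * (k ^ 2 + k - a) + 1 := by ring
    rw [this]
    omega
  omega

theorem Dn_gt (h : Hyp a n) : 1 < Dn a n := by
  have h1 := h.Dn_eq
  have h2 := DD_gt h.big
  omega

theorem Dn_odd (h : Hyp a n) : Odd (Dn a n) := by
  have := h.Dn_mod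
  rw [Nat.odd_iff]
  omega

theorem cop (h : Hyp a n) : Nat.Coprime a.natAbs (pp a n) := by
  have := h.Dn_sqf
  rw [h.Dn_mul] at this
  exact Nat.coprime_of_squarefree_mul this

theorem pp_sqf (h : Hyp a n) : Squarefree (pp a n) := by
  have := h.Dn_sqf
  rw [h.Dn_mul] at this
  exact this.of_mul_right

theorem pp_odd (h : Hyp a n) : Odd (pp a n) := by
  have := h.Dn_odd
  rw [h.Dn_mul] at this
  exact (Nat.odd_mul.1 this).2

theorem pp_gt (h : Hyp a n) : 1 < pp a n := by
  -- `(a n)^2 - 4 a > |a|`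
  have h1 := h.Dn_mul
  have h2 := h.Dn_eq
  have h3 := abs_a_le h.big
  have h4 : |a| < DD a n := by
    unfold DD
    have h5 := le_abs_self a
    have := h.big
    nlinarith
  have h5 : a.natAbs < Dn a n := by
    have : (a.natAbs : ℤ) < Dn a n := by
      rw [h2]
      simpa using h4
    exact_mod_cast this
  rw [h1] at h5
  by_contra hc
  have h6 : pp a n = 0 ∨ pp a n = 1 := by omega
  rcases h6 with h6 | h6 <;> rw [h6] at h5 <;> omega

theorem prime_a (h : Hyp a n) : (a.natAbs).Prime := by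
  by_contra hc
  have h3 := h.A_ge
  set l := (a.natAbs).minFac with hl
  have hlp : l.Prime := Nat.minFac_prime (by omega)
  obtain ⟨s, hs⟩ := Nat.minFac_dvd a.natAbs
  rw [← hl] at hs
  have hne : l ≠ a.natAbs := by
    intro he
    apply hc
    rw [← he]
    exact hlp
  have hs1 : s ≠ 1 := by
    rintro rfl
    apply hne
    rw [hs, mul_one]
  have hs0 : s ≠ 0 := by
    rintro rfl
    simp at hs
    omega
  have hs2 : 2 ≤ s := by omega
  have hd : (l : ℤ) ∣ a := Int.natCast_dvd.2 (Nat.minFac_dvd _)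
  have h5 : 2 * (l : ℤ) ≤ |a| := by
    have : 2 * l ≤ a.natAbs := by rw [hs]; nlinarith
    rw [Int.abs_eq_natAbs]
    exact_mod_cast this
  have h6 := abs_a_le h.big
  have h7 := h.big
  refine h.inert hlp ?_ ?_ 0 ?_
  · rw [Int.abs_eq_natAbs]
    exact_mod_cast hne
  · linarith
  · simpa using hd

/-- the norm of an element prime to `a` is a square modulo `a` -/
theorem jacobi_norm (_h : Hyp a n) {z : RR a n} (hz : Int.gcd z.norm a.natAbs = 1) :
    J(z.norm | a.natAbs) = 1 := by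
  obtain ⟨t, ht⟩ : ∃ t : ℤ, z.norm = z.re ^ 2 + (a.natAbs : ℤ) * t := by
    rw [norm_eq]
    rcases Int.natAbs_eq a with h1 | h1
    · refine ⟨n * z.re * z.im + z.im ^ 2, ?_⟩
      rw [← h1]
      unfold QQ
      ring
    · refine ⟨-(n * z.re * z.im + z.im ^ 2), ?_⟩
      rw [show (a.natAbs : ℤ) = -a by linarith]
      unfold QQ
      ring
  have h1 : z.norm % (a.natAbs : ℤ) = (z.re ^ 2) % (a.natAbs : ℤ) := by
    rw [ht, Int.add_mul_emod_self_left]
  rw [jacobiSym.mod_left' h1]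
  apply jacobiSym.sq_one'
  have h2 : IsCoprime z.norm (a.natAbs : ℤ) := Int.isCoprime_iff_gcd_eq_one.2 hz
  rw [ht, IsCoprime.add_mul_left_left_iff] at h2
  exact Int.isCoprime_iff_gcd_eq_one.1 (h2.of_isCoprime_of_dvd_left (dvd_pow_self _ two_ne_zero))

theorem root_of_jacobi (h : Hyp a n) {l : ℕ} (hl : l.Prime) (hl2 : l ≠ 2)
    (hJ : J((l : ℤ) | Dn a n) = 1) : ∃ x : ℤ, (l : ℤ) ∣ x ^ 2 - a * n * x + a := by
  have : Fact l.Prime := ⟨hl⟩
  have hodd : Odd l := hl.odd_of_ne_two hl2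
  have h1 : J((Dn a n : ℤ) | l) = 1 := by
    rw [jacobiSym.quadratic_reciprocity_one_mod_four h.Dn_mod hodd]
    exact hJ
  have h2 := ZMod.isSquare_of_jacobiSym_eq_one h1
  obtain ⟨s, hs⟩ := h2
  obtain ⟨t, ht⟩ : ∃ t : ℤ, (t : ZMod l) = s := ⟨s.val, by simp⟩
  obtain ⟨j, hj⟩ := hodd
  -- x = (m + t) * (l+1)/2
  refine ⟨(a * n + t) * (j + 1), ?_⟩
  rw [← ZMod.intCast_zmod_eq_zero_iff_dvd]
  have h2' : (2 : ZMod l) * ((j : ZMod l) + 1) = 1 := by
    have : ((2 * j + 1 : ℕ) : ZMod l) = 0 := by rw [← hj]; simp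
    push_cast at this
    linear_combination this
  have h3 : (((Dn a n : ℤ)) : ZMod l) = s * s := hs
  rw [h.Dn_eq] at h3
  unfold DD at h3
  push_cast at h3 ⊢
  rw [ht]
  have h4 : (4 : ZMod l) * ((((a : ZMod l) * n + s) * (j + 1)) ^ 2
      - a * n * ((a * n + s) * (j + 1)) + a) = 0 := by
    linear_combination ((a * n + s) ^ 2 * (2 * (j + 1) + 1) - 2 * a * n * (a * n + s)) * h2' - h3
  have h5 : (4 : ZMod l) ≠ 0 := by
    intro h6
    have h7 : (1 : ZMod l) = 0 := by
      linear_combination (-(2 * ((j : ZMod l) + 1) + 1)) * h2' + ((j : ZMod l) + 1) ^ 2 * h6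
    exact one_ne_zero h7
  exact (mul_eq_zero.1 h4).resolve_left h5

theorem a_mod_four (h : Hyp a n) : a.natAbs % 4 = 3 := by
  by_contra hc
  have hA := h.A_odd
  have hA1 : a.natAbs % 4 = 1 := by
    obtain ⟨k, hk⟩ := hA
    omega
  have hpr := h.prime_a
  have : Fact (a.natAbs).Prime := ⟨hpr⟩
  obtain ⟨u, hu⟩ := exists_jacobi_neg hA hpr.prime.squarefree (by have := h.A_ge; omega)
  obtain ⟨v, hv⟩ := exists_jacobi_neg h.pp_odd h.pp_sqf h.pp_gt
  obtain ⟨c, hc1, hc2⟩ := Nat.chineseRemainder h.cop u v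
  have eA : ∀ l : ℕ, l ≡ c [MOD Dn a n] → J((l : ℤ) | a.natAbs) = -1 ∧
      J((l : ℤ) | pp a n) = -1 := by
    intro l hl
    rw [h.Dn_mul] at hl
    have h1 : l ≡ u [MOD a.natAbs] := (hl.of_mul_right _).trans hc1
    have h2 : l ≡ v [MOD pp a n] := (hl.of_mul_left _).trans hc2
    constructor
    · rw [← hu]
      apply jacobiSym.mod_left'
      have : l % a.natAbs = u % a.natAbs := h1
      exact_mod_cast this
    · rw [← hv]
      apply jacobiSym.mod_left'
      have : l % pp a n = v % pp a n := h2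
      exact_mod_cast this
  have hA0 : a.natAbs ≠ 0 := hpr.ne_zero
  have hp0 : pp a n ≠ 0 := by have := h.pp_gt; omega
  have hcc := eA c rfl
  have hcop : Nat.Coprime c (Dn a n) := by
    rw [h.Dn_mul]
    apply Nat.Coprime.mul_right
    · by_contra hn
      have : J((c : ℤ) | a.natAbs) = 0 := by
        rw [jacobiSym.eq_zero_iff, Int.gcd_natCast_natCast]
        exact ⟨hA0, hn⟩
      rw [hcc.1] at this
      norm_num at this
    · by_contra hn
      have : J((c : ℤ) | pp a n) = 0 := by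
        rw [jacobiSym.eq_zero_iff, Int.gcd_natCast_natCast]
        exact ⟨hp0, hn⟩
      rw [hcc.2] at this
      norm_num at this
  obtain ⟨l, hl2, hlp, hlc⟩ := Nat.forall_exists_prime_gt_and_modEq (max 2 a.natAbs) 
    (by have := h.Dn_gt; omega : Dn a n ≠ 0) hcop
  have hl := eA l hlc
  have hJ : J((l : ℤ) | Dn a n) = 1 := by
    rw [h.Dn_mul, jacobiSym.mul_right' _ hA0 hp0, hl.1, hl.2]
    norm_num
  obtain ⟨x, hx⟩ := h.root_of_jacobi hlp (by have := le_max_left 2 a.natAbs; omega) hJ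
  obtain ⟨z, hz⟩ := h.exists_norm_of_root hlp hx
  have hgl : Nat.Coprime l a.natAbs := by
    rw [Nat.coprime_primes hlp hpr]
    have := le_max_right 2 a.natAbs
    omega
  have hzg : Int.gcd z.norm a.natAbs = 1 := by
    have : z.norm.natAbs = l := by
      have h1 := hz
      rw [Int.abs_eq_natAbs] at h1
      exact_mod_cast h1
    rw [Int.gcd, this, Int.natAbs_natCast]
    exact hgl
  have h1 := h.jacobi_norm hzg
  have hm1 : J(-1 | a.natAbs) = 1 := by
    rw [jacobiSym.at_neg_one hA, ZMod.χ₄_nat_one_mod_four hA1]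
  rcases abs_choice z.norm with h2 | h2
  · rw [hz] at h2
    rw [← h2, hl.1] at h1
    norm_num at h1
  · rw [hz] at h2
    have h3 : z.norm = -1 * (l : ℤ) := by linarith
    rw [h3, jacobiSym.mul_left, hm1, hl.1] at h1
    norm_num at h1

theorem jacobi_neg_one (h : Hyp a n) : J(-1 | a.natAbs) = -1 := by
  rw [jacobiSym.at_neg_one h.A_odd, ZMod.χ₄_nat_three_mod_four h.a_mod_four]

/-- units have norm one -/
theorem unit_norm (h : Hyp a n) {z : RR a n} (hz : IsUnit z) : z.norm = 1 := by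
  rw [isUnit_iff'] at hz
  rcases abs_choice z.norm with h2 | h2
  · rw [hz] at h2
    exact h2.symm
  · rw [hz] at h2
    exfalso
    have h3 : z.norm = -1 := by linarith
    have h4 := h.jacobi_norm (z := z) (by rw [h3]; simp)
    rw [h3, h.jacobi_neg_one] at h4
    norm_num at h4

theorem pp_mod_four (h : Hyp a n) : pp a n % 4 = 3 := by
  have h1 := h.Dn_mod
  rw [h.Dn_mul, Nat.mul_mod, h.a_mod_four] at h1
  have : pp a n % 4 < 4 := Nat.mod_lt _ (by norm_num)
  interval_cases hh : pp a n % 4 <;> omega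

end Hyp

end Pool.Agent.Helper54.CN
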