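import Pool.Agent.Helper54.CN.SumZ

/-!
Orbit decomposition of sums over pairs modulo `q`.
-/

namespace Pool.Agent.Helper54.CN

open Finset

/-- `P` represents the unimodular pairs up to units -/
def Sys (R : Type) [CommRing R] [Fintype R] [DecidableEq R] (P : List (R × R)) : Prop :=
  ∀ (M : Type) [AddCommMonoid M] (h : R → R → M), (∀ x y, ¬ IsCoprime x y → h x y = 0) →
    ∑ x, ∑ y, h x y = (P.map fun ρ => ∑ c : Rˣ, h (c * ρ.1) (c * ρ.2)).sum

theorem list_sum_comm {α β M : Type*} [AddCommMonoid M] [Fintype β] (l : List α) (f : α → β → M) :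
    ∑ b, (l.map fun x => f x b).sum = (l.map fun x => ∑ b, f x b).sum := by
  induction l with
  | nil => simp
  | cons x l ih => simp [Finset.sum_add_distrib, ih]

theorem list_flatMap_sum {α β M : Type*} [AddCommMonoid M] (l : List α) (g : α → List β)
    (f : β → M) : ((l.flatMap g).map f).sum = (l.map fun x => ((g x).map f).sum).sum := by
  induction l with
  | nil => simp
  | cons x l ih => simp [ih]

theorem Sys.prod {R S : Type} [CommRing R] [Fintype R] [DecidableEq R] [CommRing S] [Fintype S]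
    [DecidableEq S] {P : List (R × R)} {P' : List (S × S)} (h1 : Sys R P) (h2 : Sys S P') :
    Sys (R × S) (P.flatMap fun ρ => P'.map fun σ => ((ρ.1, σ.1), (ρ.2, σ.2))) := by
  intro M _ h hh
  have hc : ∀ (x1 y1 : R) (x2 y2 : S), IsCoprime ((x1, x2) : R × S) (y1, y2) →
      IsCoprime x1 y1 ∧ IsCoprime x2 y2 := by
    rintro x1 y1 x2 y2 ⟨⟨u1, u2⟩, ⟨v1, v2⟩, huv⟩
    simp only [Prod.mk_mul_mk, Prod.mk_add_mk, Prod.mk_eq_one] at huv
    exact ⟨⟨u1, v1, huv.1⟩, ⟨u2, v2, huv.2⟩⟩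
  have e1 : ∑ x : R × S, ∑ y : R × S, h x y
      = ∑ x2 : S, ∑ y2 : S, ∑ x1 : R, ∑ y1 : R, h (x1, x2) (y1, y2) := by
    rw [Fintype.sum_prod_type_right]
    apply Finset.sum_congr rfl
    intro x2 _
    simp only [Fintype.sum_prod_type_right]
    rw [Finset.sum_comm]
  have e2 : ∀ x2 y2 : S, ∑ x1 : R, ∑ y1 : R, h (x1, x2) (y1, y2)
      = (P.map fun ρ => ∑ c : Rˣ, h (c * ρ.1, x2) (c * ρ.2, y2)).sum := by
    intro x2 y2
    exact h1 M (fun x1 y1 => h (x1, x2) (y1, y2)) fun x y hxy =>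
      hh _ _ fun hc' => hxy (hc _ _ _ _ hc').1
  have e3 : ∀ (ρ : R × R) (c : Rˣ), ∑ x2 : S, ∑ y2 : S, h (c * ρ.1, x2) (c * ρ.2, y2)
      = (P'.map fun σ => ∑ c' : Sˣ, h (c * ρ.1, c' * σ.1) (c * ρ.2, c' * σ.2)).sum := by
    intro ρ c
    exact h2 M (fun x2 y2 => h (c * ρ.1, x2) (c * ρ.2, y2)) fun x y hxy =>
      hh _ _ fun hc' => hxy (hc _ _ _ _ hc').2
  rw [e1]
  simp only [e2]
  rw [list_flatMap_sum]
  have e4 : ∑ x2 : S, ∑ y2 : S, (P.map fun ρ => ∑ c : Rˣ, h (c * ρ.1, x2) (c * ρ.2, y2)).sum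
      = (P.map fun ρ => ∑ c : Rˣ, ∑ x2 : S, ∑ y2 : S, h (c * ρ.1, x2) (c * ρ.2, y2)).sum := by
    simp only [list_sum_comm]
    congr 1
    apply List.map_congr_left
    intro ρ _
    have : ∀ x2 : S, ∑ y2 : S, ∑ c : Rˣ, h (c * ρ.1, x2) (c * ρ.2, y2)
        = ∑ c : Rˣ, ∑ y2 : S, h (c * ρ.1, x2) (c * ρ.2, y2) := fun x2 => Finset.sum_comm
    simp only [this]
    exact Finset.sum_comm
  rw [e4]
  congr 1
  apply List.map_congr_left
  intro ρ _
  simp only [e3]
  rw [list_sum_comm, List.map_map]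
  congr 1
  apply List.map_congr_left
  intro σ _
  simp only [Function.comp]
  rw [← Fintype.sum_prod_type', ← Equiv.sum_comp (MulEquiv.prodUnits).toEquiv]
  rfl

theorem Sys.map {R S : Type} [CommRing R] [Fintype R] [DecidableEq R] [CommRing S] [Fintype S]
    [DecidableEq S] {P : List (R × R)} (h1 : Sys R P) (e : R ≃+* S) :
    Sys S (P.map fun ρ => (e ρ.1, e ρ.2)) := by
  intro M _ h hh
  have h2 := h1 M (fun x y => h (e x) (e y)) (fun x y hxy => by
    apply hh
    intro hc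
    apply hxy
    have := hc.map e.symm.toRingHom
    simpa using this)
  have e1 : ∑ x : S, ∑ y : S, h x y = ∑ x : R, ∑ y : R, h (e x) (e y) := by
    rw [← Equiv.sum_comp e.toEquiv]
    apply Finset.sum_congr rfl
    intro x _
    rw [← Equiv.sum_comp e.toEquiv]
    rfl
  rw [e1, h2, List.map_map]
  congr 1
  apply List.map_congr_left
  intro ρ _
  simp only [Function.comp]
  rw [← Equiv.sum_comp (Units.mapEquiv e.toMulEquiv).toEquiv]
  apply Finset.sum_congr rfl
  intro c _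
  simp

theorem Sys.of_eq {R : Type} [CommRing R] [Fintype R] [DecidableEq R] {P P' : List (R × R)}
    (h1 : Sys R P) (h : P = P') : Sys R P' := h ▸ h1

/-- the list of points for a prime -/
def ptsP (p : ℕ) : List (ℕ × ℕ) := (List.range p).map (fun t => (1, t)) ++ [(0, 1)]

/-- cast a list of natural pairs -/
def castL (q : ℕ) (P : List (ℕ × ℕ)) : List (ZMod q × ZMod q) :=
  P.map fun ρ => ((ρ.1 : ZMod q), (ρ.2 : ZMod q))

theorem list_range_sum {M : Type*} [AddCommMonoid M] (n : ℕ) (f : ℕ → M) :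
    ((List.range n).map f).sum = ∑ j ∈ range n, f j := rfl

theorem Sys.prime (p : ℕ) [Fact p.Prime] : Sys (ZMod p) (castL p (ptsP p)) := by
  intro M _ h hh
  have h00 : h 0 0 = 0 := by
    apply hh
    rintro ⟨u, v, huv⟩
    simp at huv
  have e1 : ∑ x : ZMod p, ∑ y, h x y = ∑ y, h 0 y + ∑ x ∈ univ.erase (0 : ZMod p), ∑ y, h x y :=
    (Finset.add_sum_erase univ (fun x => ∑ y, h x y) (mem_univ 0)).symm
  have e2 : ∑ y : ZMod p, h 0 y = h 0 0 + ∑ y ∈ univ.erase (0 : ZMod p), h 0 y :=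
    (Finset.add_sum_erase univ (fun y => h 0 y) (mem_univ 0)).symm
  have e3 : ∀ g : ZMod p → M, ∑ x ∈ univ.erase (0 : ZMod p), g x = ∑ c : (ZMod p)ˣ, g c := by
    intro g
    symm
    refine Finset.sum_bij (fun c _ => (c : ZMod p)) ?_ ?_ ?_ ?_
    · intro c _
      rw [mem_erase]
      exact ⟨c.ne_zero, mem_univ _⟩
    · intro c _ c' _ hcc
      exact Units.ext hcc
    · intro x hx
      rw [mem_erase] at hx
      exact ⟨Units.mk0 x hx.1, mem_univ _, rfl⟩
    · intro c _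
      rfl
  rw [e1, e2, h00, zero_add, e3, e3]
  have e4 : ∀ c : (ZMod p)ˣ, ∑ y, h c y = ∑ t : ZMod p, h c (c * t) := by
    intro c
    exact (Equiv.sum_comp (Units.mulLeft c) (fun y => h c y)).symm
  simp only [e4]
  unfold castL ptsP
  rw [List.map_append, List.map_append, List.sum_append, List.map_map, List.map_map]
  simp only [Function.comp_def, Nat.cast_one, mul_one, List.map_cons, List.map_nil,
    List.sum_cons, List.sum_nil, add_zero, Nat.cast_zero, mul_zero]
  rw [list_range_sum, ← sum_zmod p (fun t => ∑ c : (ZMod p)ˣ, h (↑c) (↑c * t)), add_comm]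
  congr 1
  exact Finset.sum_comm

/-- combination of two lists of points -/
def crtL (e1 e2 q : ℕ) (P P' : List (ℕ × ℕ)) : List (ℕ × ℕ) :=
  P.flatMap fun ρ => P'.map fun σ => ((e1 * ρ.1 + e2 * σ.1) % q, (e1 * ρ.2 + e2 * σ.2) % q)

theorem Sys.crt {q1 q2 : ℕ} [NeZero q1] [NeZero q2] [NeZero (q1 * q2)] {P P' : List (ℕ × ℕ)}
    (h1 : Sys (ZMod q1) (castL q1 P)) (h2 : Sys (ZMod q2) (castL q2 P')) {e1 e2 : ℕ}
    (hc : q1.Coprime q2) (a1 : e1 % q1 = 1 % q1) (a2 : e1 % q2 = 0) (b1 : e2 % q1 = 0)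
    (b2 : e2 % q2 = 1 % q2) :
    Sys (ZMod (q1 * q2)) (castL (q1 * q2) (crtL e1 e2 (q1 * q2) P P')) := by
  have h3 := (h1.prod h2).map (ZMod.chineseRemainder hc).symm
  refine h3.of_eq ?_
  have c11 : (e1 : ZMod q1) = 1 := by
    have := (ZMod.natCast_eq_natCast_iff e1 1 q1).2 a1
    simpa using this
  have c12 : (e1 : ZMod q2) = 0 := by
    rw [ZMod.natCast_eq_zero_iff]
    exact Nat.dvd_of_mod_eq_zero a2
  have c21 : (e2 : ZMod q1) = 0 := by
    rw [ZMod.natCast_eq_zero_iff]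
    exact Nat.dvd_of_mod_eq_zero b1
  have c22 : (e2 : ZMod q2) = 1 := by
    have := (ZMod.natCast_eq_natCast_iff e2 1 q2).2 b2
    simpa using this
  have key : ∀ x y : ℕ, (ZMod.chineseRemainder hc).symm ((x : ZMod q1), (y : ZMod q2))
      = (((e1 * x + e2 * y) % (q1 * q2) : ℕ) : ZMod (q1 * q2)) := by
    intro x y
    rw [ZMod.natCast_mod, RingEquiv.symm_apply_eq, map_natCast]
    ext
    · simp only [Prod.fst_natCast]
      push_cast
      rw [c11, c21]
      ring
    · simp only [Prod.snd_natCast]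
      push_cast
      rw [c12, c22]
      ring
  unfold castL crtL
  rw [List.map_flatMap, List.map_flatMap, List.flatMap_map]
  congr 1
  funext ρ
  rw [List.map_map, List.map_map, List.map_map]
  apply List.map_congr_left
  intro σ _
  simp only [Function.comp_def]
  rw [key, key]

end Pool.Agent.Helper54.CN
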