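import Pool.Agent.Helper54.CN.Rel3
import Pool.Agent.Helper54.CN.Reduce

/-!
Definition of validated relations.
-/

namespace Pool.Agent.Helper54.CN

open Finset QuadraticAlgebra

/-- weighted digit sum of a character table -/
def sj (T q : ℕ) : ℕ := Nat.rec (motive := fun _ => ℕ) 0
  (fun j acc => Nat.add (Nat.mul j (Nat.mod (lk T j) 4294967296)) acc) q

/-- weighted second digit sum of a character table -/
def sj' (T q : ℕ) : ℕ := Nat.rec (motive := fun _ => ℕ) 0
  (fun j acc => Nat.add (Nat.mul j (Nat.div (lk T j) 4294967296)) acc) q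

/-- character is odd and has vanishing first moment -/
def tOK (q r T : ℕ) : Bool :=
  andB (Nat.beq (lk T (q - 1)) (r - 1))
    (andB (Nat.beq (Nat.mod (sj T q) r) 0) (Nat.beq (Nat.mod (sj' T q) r) 0))

/-- validated relation -/
structure Good (D : RD) : Prop where
  q1 : 1 < D.q
  odd : Odd D.q
  sqf : Squarefree D.q
  pr : D.r.Prime
  r2 : D.r ≠ 2
  small : ∀ p, p.Prime → p ∣ D.q * D.r → p ≤ 97
  chr : Nonempty (Chr D.q D.r D.ν D.T)
  t : tOK D.q D.r D.T = true
  ok : D.ok = true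
  sys : ∀ [NeZero D.q], Sys (ZMod D.q) (castL D.q (D.rows.map fun R => (R.x, R.y)))

/-- combination test -/
def ctst (r u v N : ℕ) : Bool :=
  andB (Nat.beq (Nat.mod (Nat.add (dg0 N) (Nat.mul v (Nat.add (dg1 N) (Nat.mul u (dg2 N))))) r) 0)
    (Nat.beq (Nat.mod (Nat.add (dg3 N) (Nat.mul v (Nat.add (dg4 N) (Nat.mul u (dg5 N))))) r) 0)

end Pool.Agent.Helper54.CN
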