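import Pool.Agent.Helper54.CN.Rel5
import Pool.Agent.Helper54.CN.GoodDef

/-!
Relations as necessary conditions on the residues of `a` and `n`.
-/

namespace Pool.Agent.Helper54.CN

open Finset QuadraticAlgebra

theorem sj_eq (T q : ℕ) : sj T q = ∑ j ∈ range q, j * (lk T j % BB) := by
  induction q with
  | zero => rfl
  | succ q ih =>
    rw [Finset.sum_range_succ, ← ih]
    show q * (lk T q % BB) + sj T q = _
    ring

theorem sj'_eq (T q : ℕ) : sj' T q = ∑ j ∈ range q, j * (lk T j / BB) := by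
  induction q with
  | zero => rfl
  | succ q ih =>
    rw [Finset.sum_range_succ, ← ih]
    show q * (lk T q / BB) + sj' T q = _
    ring

theorem fp_finset_sum {α : Type} (r ν : ℕ) (s : Finset α) (f g : α → ℕ) :
    fp r ν (∑ c ∈ s, f c) (∑ c ∈ s, g c) = ∑ c ∈ s, fp r ν (f c) (g c) := by
  classical
  induction s using Finset.induction_on with
  | empty => exact fp_zero r ν
  | insert x s hx ih =>
    rw [Finset.sum_insert hx, Finset.sum_insert hx, Finset.sum_insert hx, ← fp_add, ih]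

theorem Chr.neg_one {q r ν T : ℕ} (hq : 1 < q) (hr : 1 < r) (hrB : r < BB) (c : Chr q r ν T)
    (h : tOK q r T = true) : c.χ (-1) = -1 := by
  unfold tOK at h
  simp only [andB_iff, beq_iff'] at h
  have e1 : (-1 : ZMod q) = ((q - 1 : ℕ) : ZMod q) := by
    rw [Nat.cast_sub hq.le]
    simp
  rw [e1, c.tab _ (by omega), h.1]
  unfold ev
  rw [Nat.mod_eq_of_lt (by omega), Nat.div_eq_of_lt (by omega), ← natCast_fp, Nat.cast_sub hr.le]
  have : ((r : ℕ) : FF r ν) = 0 := by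
    rw [natCast_fp, ← fp_mod, Nat.mod_self, Nat.zero_mod]
    exact fp_zero r ν
  rw [this]
  simp

theorem Chr.sum_zero {q r ν T : ℕ} (c : Chr q r ν T)
    (h : tOK q r T = true) : ∑ j ∈ range q, (j : FF r ν) * c.χ j = 0 := by
  unfold tOK at h
  simp only [andB_iff, beq_iff'] at h
  have e1 : ∑ j ∈ range q, (j : FF r ν) * c.χ j
      = ∑ j ∈ range q, fp r ν (j * (lk T j % BB)) (j * (lk T j / BB)) := by
    apply Finset.sum_congr rfl
    intro j hj
    rw [c.tab j (mem_range.1 hj)]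
    unfold ev
    rw [fp_smul]
  rw [e1, ← fp_finset_sum, ← sj_eq, ← sj'_eq, ← fp_mod]
  have h1 : sj T q % r = 0 := h.2.1
  have h2 : sj' T q % r = 0 := h.2.2
  rw [h1, h2]
  exact fp_zero r ν

namespace Hyp

variable {a n : ℤ}

theorem not_dvd_Dn (h : Hyp a n) {l : ℕ} (hl : l.Prime) (hl2 : l ≠ 2) (hla : (l : ℤ) ≠ |a|)
    (hb : 3 * (l : ℤ) + 3 < 2 * (a * n)) : ¬ l ∣ Dn a n := by
  intro hd
  have hodd : Odd l := hl.odd_of_ne_two hl2
  obtain ⟨k, hk⟩ := hodd
  have h1 : (l : ℤ) ∣ DD a n := by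
    rw [← h.Dn_eq]
    exact_mod_cast hd
  apply h.inert hl hla hb ((k + 1) * (a * n))
  obtain ⟨t, ht⟩ := h1
  unfold DD at ht
  have hk' : (l : ℤ) = 2 * k + 1 := by exact_mod_cast hk
  have h4 : (l : ℤ) ∣ 4 * (((k + 1 : ℤ) * (a * n)) ^ 2 - a * n * ((k + 1) * (a * n)) + a) := by
    refine ⟨-t + l * (a * n) ^ 2, ?_⟩
    rw [hk'] at ht ⊢
    linear_combination (-1 : ℤ) * ht
  have h5 : IsCoprime (l : ℤ) 4 := by
    refine ⟨l, -(k * (k + 1)), ?_⟩
    rw [hk']; ring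
  exact h5.dvd_of_dvd_mul_left h4

theorem coprime_Dn (h : Hyp a n) {q : ℕ} (hq : ∀ p, p.Prime → p ∣ q →
    p ≠ 2 ∧ (p : ℤ) ≠ |a| ∧ 3 * (p : ℤ) + 3 < 2 * (a * n)) : q.Coprime (Dn a n) := by
  apply Nat.coprime_of_dvd
  intro p hp h1 h2
  obtain ⟨h3, h4, h5⟩ := hq p hp h1
  exact h.not_dvd_Dn hp h3 h4 h5 h2

end Hyp

theorem unit_natCast {r ν x : ℕ} (h : Nat.Coprime x r) : IsUnit (x : FF r ν) := by
  have h1 : IsUnit (x : ZMod r) := (ZMod.isUnit_iff_coprime x r).2 h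
  have h2 := h1.map (algebraMap (ZMod r) (FF r ν))
  rwa [map_natCast] at h2

theorem Hyp.test {a n : ℤ} (h : Hyp a n) (hb : 150 ≤ a * n) {D : RD} (G : Good D)
    (hna : ∀ p, p.Prime → p ∣ D.q * D.r → (p : ℤ) ≠ |a|) {A m u v : ℕ}
    (hA : (a : ZMod D.q) = A) (hm : ((a * n : ℤ) : ZMod D.q) = m)
    (hu : (a : ZMod D.r) = u) (hv : (n : ZMod D.r) = v) : ctst D.r u v (D.tot A m) = true := by
  obtain ⟨c⟩ := G.chr
  have hrB : D.r < BB := by
    have := G.small D.r G.pr (dvd_mul_left _ _)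
    unfold BB
    omega
  have : NeZero D.q := ⟨by have := G.q1; omega⟩
  have hodd2 : ∀ p, p.Prime → p ∣ D.q * D.r → p ≠ 2 := by
    intro p hp hpd hp2
    subst hp2
    rcases (Nat.Prime.dvd_mul hp).1 hpd with h1 | h1
    · have := G.odd
      rw [← Nat.not_even_iff_odd] at this
      exact this (even_iff_two_dvd.2 h1)
    · exact G.r2 ((Nat.prime_dvd_prime_iff_eq hp G.pr).1 h1).symm
  have hcq : D.q.Coprime (Dn a n) := by
    apply h.coprime_Dn
    intro p hp hpd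
    refine ⟨hodd2 p hp (hpd.mul_right _), hna p hp (hpd.mul_right _), ?_⟩
    have := G.small p hp (hpd.mul_right _)
    have : (p : ℤ) ≤ 97 := by exact_mod_cast this
    omega
  have hcr : D.r.Coprime (Dn a n) := by
    apply h.coprime_Dn
    intro p hp hpd
    refine ⟨hodd2 p hp (hpd.mul_left _), hna p hp (hpd.mul_left _), ?_⟩
    have := G.small p hp (hpd.mul_left _)
    have : (p : ℤ) ≤ 97 := by exact_mod_cast this
    omega
  have hU2 : IsUnit (2 : FF D.r D.ν) := by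
    have h1 : Nat.Coprime 2 D.r := by
      rw [Nat.coprime_primes Nat.prime_two G.pr]
      exact G.r2.symm
    have := unit_natCast (ν := D.ν) h1
    exact_mod_cast this
  have hUD : IsUnit (Dn a n : FF D.r D.ν) := unit_natCast hcr.symm
  have hv1 := h.vanish G.odd G.sqf hcq hU2 hUD c.χ (c.neg_one G.q1 G.pr.one_lt hrB G.t)
    (c.sum_zero G.t)
  rw [rel_main G.pr.pos hrB c G.ok G.sys hA hm] at hv1
  set N := D.tot A m
  have cu : (a : FF D.r D.ν) = (u : FF D.r D.ν) := by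
    have := congrArg (algebraMap (ZMod D.r) (FF D.r D.ν)) hu
    rwa [map_intCast, map_natCast] at this
  have cv : (n : FF D.r D.ν) = (v : FF D.r D.ν) := by
    have := congrArg (algebraMap (ZMod D.r) (FF D.r D.ν)) hv
    rwa [map_intCast, map_natCast] at this
  rw [Int.cast_mul, cu, cv] at hv1
  have e1 : fp D.r D.ν (dg0 N) (dg3 N) + (v : FF D.r D.ν) * fp D.r D.ν (dg1 N) (dg4 N)
      + ((u : FF D.r D.ν) * (v : FF D.r D.ν)) * fp D.r D.ν (dg2 N) (dg5 N)
      = fp D.r D.ν (dg0 N + v * (dg1 N + u * dg2 N)) (dg3 N + v * (dg4 N + u * dg5 N)) := by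
    rw [← Nat.cast_mul, fp_smul, fp_smul, fp_add, fp_add]
    congr 1 <;> ring
  rw [e1] at hv1
  obtain ⟨z1, z2⟩ := fp_eq_zero hv1
  unfold ctst
  rw [andB_iff, beq_iff', beq_iff']
  exact ⟨z1, z2⟩

end Pool.Agent.Helper54.CN
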