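import Pool.Agent.Helper54.CN.Ring

/-!
The ring of integers of the quadratic field of discriminant `(an)^2 - 4a`.
-/

namespace Pool.Agent.Helper54.CN

open QuadraticAlgebra NumberField Polynomial

theorem rat_decomp {K : Type*} [Field K] [NumberField K] (h2 : Module.finrank ℚ K = 2) {x : K}
    (hx : ∀ q : ℚ, x ≠ (q : K)) (z : K) : ∃ p q : ℚ, z = (p : K) + q * x := by
  have li : LinearIndependent ℚ ![(1 : K), x] := by
    rw [LinearIndependent.pair_iff]
    intro s t h
    have ht : t = 0 := by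
      by_contra ht
      apply hx (-s / t)
      rw [Rat.smul_def, Rat.smul_def] at h
      have htK : (t : K) ≠ 0 := by exact_mod_cast ht
      push_cast
      field_simp
      linear_combination h
    refine ⟨?_, ht⟩
    rw [ht, zero_smul, add_zero, Rat.smul_def, mul_one] at h
    exact_mod_cast h
  have hs := li.span_eq_top_of_card_eq_finrank' (by simp [h2])
  have hz : z ∈ Submodule.span ℚ (Set.range ![(1 : K), x]) := by
    rw [hs]
    exact Submodule.mem_top
  rw [Submodule.mem_span_range_iff_exists_fun] at hz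
  obtain ⟨c, hc⟩ := hz
  refine ⟨c 0, c 1, ?_⟩
  rw [← hc, Fin.sum_univ_two]
  simp [Rat.smul_def]

theorem rat_int_of_sq {D : ℤ} (hD : Squarefree D) {w : ℚ} {k : ℤ} (h : w ^ 2 * D = k) :
    ∃ v : ℤ, w = v := by
  have h1 : (w.num : ℚ) ^ 2 * D = k * (w.den : ℚ) ^ 2 := by
    have hd : (w.den : ℚ) ≠ 0 := by exact_mod_cast w.den_ne_zero
    have hw : w = w.num / w.den := (Rat.num_div_den w).symm
    have h2 : (w.num : ℚ) = w * w.den := by
      field_simp at hw
      linarith
    rw [h2, ← h]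
    ring
  have h3 : w.num ^ 2 * D = k * (w.den : ℤ) ^ 2 := by exact_mod_cast h1
  have hco : IsCoprime ((w.den : ℤ) ^ 2) (w.num ^ 2) := by
    apply IsCoprime.pow
    have := w.reduced
    rw [Int.isCoprime_iff_gcd_eq_one]
    rw [Nat.Coprime, Nat.gcd_comm] at this
    exact this
  have h4 : (w.den : ℤ) ^ 2 ∣ w.num ^ 2 * D := ⟨k, by rw [h3]; ring⟩
  have h5 := hco.dvd_of_dvd_mul_left h4
  have h6 := hD (w.den : ℤ) (by rw [← sq]; exact h5)
  have h7 : w.den = 1 := by
    rw [Int.isUnit_iff] at h6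
    have := w.den_pos
    omega
  exact ⟨w.num, (Rat.coe_int_num_of_den_eq_one h7).symm⟩

theorem integral_decomp {K : Type*} [Field K] [NumberField K] {D : ℤ} (hD : Squarefree D)
    (hDo : Odd D) {x : K} (hx2 : x ^ 2 = (D : K)) (hx : ∀ q : ℚ, x ≠ (q : K)) {p q : ℚ} {z : K}
    (hz : z = (p : K) + q * x) (hint : IsIntegral ℤ z) :
    ∃ U V : ℤ, 2 * p = U ∧ 2 * q = V ∧ Even (U - V) := by
  by_cases hq : q = 0
  · rw [hq] at hz
    have hz' : z = algebraMap ℚ K p := by
      rw [hz]
      simp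
    rw [hz', isIntegral_algebraMap_iff (algebraMap ℚ K).injective,
      IsIntegrallyClosed.isIntegral_iff] at hint
    obtain ⟨k, hk⟩ := hint
    refine ⟨2 * k, 0, ?_, ?_, ?_⟩
    · rw [← hk]
      push_cast
      simp
    · rw [hq]; simp
    · rw [sub_zero]
      exact even_two_mul k
  · set P : ℚ[X] := X ^ 2 + C (-(2 * p)) * X + C (p ^ 2 - D * q ^ 2) with hP
    have hPdeg : P.natDegree = 2 := by
      rw [hP]
      compute_degree!
    have hPm : P.Monic := by
      rw [hP]
      monicity!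
    have hPz : aeval z P = 0 := by
      rw [hP]
      simp only [map_add, map_mul, map_pow, aeval_X, aeval_C, eq_ratCast]
      rw [hz]
      push_cast
      linear_combination (q : K) ^ 2 * hx2
    have hzint : IsIntegral ℚ z := hint.tower_top
    have hdvd : minpoly ℚ z ∣ P := minpoly.dvd ℚ z hPz
    have hz2 : 2 ≤ (minpoly ℚ z).natDegree := by
      rw [minpoly.two_le_natDegree_iff hzint]
      rintro ⟨c, hc⟩
      apply hx ((c - p) / q)
      have hqK : (q : K) ≠ 0 := by exact_mod_cast hq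
      have hc' : (c : K) = p + q * x := by
        rw [← hz, ← hc]
        simp
      push_cast
      field_simp
      linear_combination -hc'
    have heq : P = minpoly ℚ z := by
      apply eq_of_monic_of_dvd_of_natDegree_le (minpoly.monic hzint) hPm hdvd
      rw [hPdeg]
      exact hz2
    rw [minpoly.isIntegrallyClosed_eq_field_fractions' ℚ hint] at heq
    have c1 := congrArg (fun f => f.coeff 1) heq
    have c0 := congrArg (fun f => f.coeff 0) heq
    simp only [hP, coeff_map, coeff_add, coeff_X_pow, coeff_C_mul, coeff_X, coeff_C] at c1 c0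
    norm_num at c1 c0
    set f1 := (minpoly ℤ z).coeff 1
    set f0 := (minpoly ℤ z).coeff 0
    have hU : 2 * p = ((-f1 : ℤ) : ℚ) := by
      push_cast
      linarith
    obtain ⟨V, hV⟩ := rat_int_of_sq hD (w := 2 * q) (k := f1 ^ 2 - 4 * f0) (by
      push_cast
      rw [← c0, ← c1]
      ring)
    refine ⟨-f1, V, hU, hV, ?_⟩
    have h5 : f1 ^ 2 - D * V ^ 2 = 4 * f0 := by
      have : ((f1 : ℚ)) ^ 2 - D * (V : ℚ) ^ 2 = 4 * f0 := by
        rw [← hV, ← c0, ← c1]
        ring
      exact_mod_cast this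
    obtain ⟨d, hd⟩ := hDo
    rw [hd] at h5
    rcases Int.even_or_odd f1 with ⟨e, he⟩ | ⟨e, he⟩ <;>
      rcases Int.even_or_odd V with ⟨g, hg⟩ | ⟨g, hg⟩
    · exact ⟨-e - g, by rw [he, hg]; ring⟩
    · exfalso
      rw [he, hg] at h5
      have : (2 : ℤ) ∣ 1 := ⟨2 * e ^ 2 - 2 * f0 - (2 * d + 1) * (2 * g ^ 2 + 2 * g) - d, by
        linear_combination -h5⟩
      norm_num at this
    · exfalso
      rw [he, hg] at h5
      have : (2 : ℤ) ∣ 1 := ⟨2 * f0 - 2 * e ^ 2 - 2 * e + 2 * (2 * d + 1) * g ^ 2, by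
        linear_combination h5⟩
      norm_num at this
    · exact ⟨-e - g - 1, by rw [he, hg]; ring⟩

theorem pid_of_classNumber {K : Type*} [Field K] [NumberField K] (h2 : Module.finrank ℚ K = 2)
    {a n : ℤ} (hsq : Squarefree (DD a n)) (hbig : 35 < a * n) (hodd : Odd (a * n)) {x : K}
    (hx2 : x ^ 2 = ((DD a n : ℤ) : K)) (hcl : classNumber K = 1) :
    IsPrincipalIdealRing (RR a n) := by
  have hx : ∀ q : ℚ, x ≠ (q : K) := by
    rintro q rfl
    have h3 : (q : ℚ) ^ 2 = ((DD a n : ℤ) : ℚ) := by exact_mod_cast hx2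
    have h4 : IsSquare ((DD a n : ℤ) : ℚ) := ⟨q, by rw [← h3, sq]⟩
    rw [Rat.isSquare_intCast_iff] at h4
    obtain ⟨k, hk⟩ := h4
    exact DD_not_square hsq hbig k (by rw [hk, sq])
  have hDo : Odd (DD a n) := by
    unfold DD
    exact (hodd.pow).sub_even ⟨2 * a, by ring⟩
  set θ : K := ((a * n : ℤ) + x) / 2 with hθ
  have hθ2 : θ * θ = (-a : ℤ) + (a * n : ℤ) * θ := by
    unfold DD at hx2
    rw [hθ]
    push_cast at hx2 ⊢
    field_simp
    linear_combination hx2
  have hθi : IsIntegral ℤ θ := by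
    refine ⟨X ^ 2 + C (-(a * n)) * X + C a, by monicity!, ?_⟩
    simp only [eval₂_add, eval₂_mul, eval₂_pow, eval₂_X, eval₂_C]
    simp only [eq_intCast]
    push_cast at hθ2 ⊢
    linear_combination hθ2
  set θ' : 𝓞 K := ⟨θ, hθi⟩ with hθ'
  have hθ2' : θ' * θ' = (-a : ℤ) • (1 : 𝓞 K) + (a * n : ℤ) • θ' := by
    apply RingOfIntegers.coe_injective
    rw [zsmul_eq_mul, zsmul_eq_mul, mul_one]
    push_cast
    show θ * θ = _
    rw [hθ2]
    push_cast
    rfl
  set φ : RR a n →ₐ[ℤ] 𝓞 K := QuadraticAlgebra.lift ⟨θ', hθ2'⟩ with hφ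
  have hφz : ∀ z : RR a n, ((φ z : 𝓞 K) : K) = (z.re : K) + (z.im : K) * θ := by
    intro z
    have : φ z = z.re • 1 + z.im • θ' := rfl
    rw [this, zsmul_eq_mul, zsmul_eq_mul, mul_one]
    push_cast
    rfl
  have hinj : Function.Injective φ := by
    rw [injective_iff_map_eq_zero]
    intro z hz
    have h3 := hφz z
    rw [hz] at h3
    have h4 : (z.re : K) + (z.im : K) * θ = 0 := by
      rw [← h3]
      rfl
    have hi : z.im = 0 := by
      by_contra hi
      have hiK : (z.im : K) ≠ 0 := by exact_mod_cast hi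
      apply hx (-(2 * z.re + z.im * (a * n)) / z.im)
      rw [hθ] at h4
      push_cast at h4 ⊢
      field_simp at h4 ⊢
      linear_combination h4
    have hr : z.re = 0 := by
      rw [hi, Int.cast_zero, zero_mul, add_zero] at h4
      exact_mod_cast h4
    ext
    · exact hr
    · exact hi
  have hsurj : Function.Surjective φ := by
    intro w
    obtain ⟨p, q, hpq⟩ := rat_decomp h2 hx (w : K)
    obtain ⟨U, V, hU, hV, hUV⟩ := integral_decomp hsq hDo hx2 hx hpq w.2
    have hev : Even (U - a * n * V) := by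
      have : U - a * n * V = (U - V) - (a * n - 1) * V := by ring
      rw [this]
      exact hUV.sub ((hodd.sub_odd odd_one).mul_right V)
    obtain ⟨e, he⟩ := hev
    refine ⟨⟨e, V⟩, ?_⟩
    apply RingOfIntegers.coe_injective
    show ((φ ⟨e, V⟩ : 𝓞 K) : K) = (w : K)
    rw [hφz, hpq, hθ]
    have hUK : 2 * (p : K) = U := by exact_mod_cast congrArg (fun t : ℚ => (t : K)) hU
    have hVK : 2 * (q : K) = V := by exact_mod_cast congrArg (fun t : ℚ => (t : K)) hV
    have heK : (U : K) - (a * n : ℤ) * V = e + e := by exact_mod_cast congrArg (Int.cast : ℤ → K) he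
    show (e : K) + (V : K) * (((a * n : ℤ) + x) / 2) = _
    push_cast at heK ⊢
    field_simp
    linear_combination -heK - hUK - x * hVK
  have hpid : IsPrincipalIdealRing (𝓞 K) := classNumber_eq_one_iff.1 hcl
  have hb : Function.Bijective (φ : RR a n →+* 𝓞 K) := ⟨hinj, hsurj⟩
  exact IsPrincipalIdealRing.of_surjective (RingEquiv.ofBijective (φ : RR a n →+* 𝓞 K) hb).symm
    (RingEquiv.surjective _)

end Pool.Agent.Helper54.CN
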