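import Pool.Agent.Helper54.CN.Search
import Pool.Agent.Helper54.CN.R91x37
import Pool.Agent.Helper54.CN.R273x37
import Pool.Agent.Helper54.CN.R119x97a
import Pool.Agent.Helper54.CN.R119x97b
import Pool.Agent.Helper54.CN.R221x73
import Pool.Agent.Helper54.CN.R85x73
import Pool.Agent.Helper54.CN.R185x13
import Pool.Agent.Helper54.CN.R221x31

/-!
Tables of non-residues.
-/

namespace Pool.Agent.Helper54.CN

set_option maxRecDepth 100000

/-- non-residues -/
def nr3 : ℕ := 4

theorem nrok3 : nrOK 3 nr3 = true := by decide +kernel

/-- non-residues -/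
def nr5 : ℕ := 12

theorem nrok5 : nrOK 5 nr5 = true := by decide +kernel

/-- non-residues -/
def nr7 : ℕ := 104

theorem nrok7 : nrOK 7 nr7 = true := by decide +kernel

/-- non-residues -/
def nr13 : ℕ := 2532

theorem nrok13 : nrOK 13 nr13 = true := by decide +kernel

/-- non-residues -/
def nr17 : ℕ := 23784

theorem nrok17 : nrOK 17 nr17 = true := by decide +kernel

/-- non-residues -/
def nr31 : ℕ := 1843574856

theorem nrok31 : nrOK 31 nr31 = true := by decide +kernel

/-- non-residues -/
def nr37 : ℕ := 41370444132

theorem nrok37 : nrOK 37 nr37 = true := by decide +kernel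

/-- non-residues -/
def nr73 : ℕ := 384875580742593342624

theorem nrok73 : nrOK 73 nr73 = true := by decide +kernel

/-- non-residues -/
def nr97 : ℕ := 6380052750319376475725948064

theorem nrok97 : nrOK 97 nr97 = true := by decide +kernel

theorem leq3 : SP 3 nr3 = L3 := by decide +kernel

theorem leq5 : SP 5 nr5 = L5 := by decide +kernel

theorem leq7 : SP 7 nr7 = L7 := by decide +kernel

theorem leq13 : SP 13 nr13 = L13 := by decide +kernel

theorem leq17 : SP 17 nr17 = L17 := by decide +kernel

/-- the empty continuation -/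
def non (_ _ : ℕ) : Bool := false

/-- group of exceptional classes -/
def grp1 : List (ℕ × ℕ) := [(23, 1), (23, 23204), (23186,
  1), (23186, 23204), (2, 20), (2, 23185), (12107, 23), (12107, 23182), (19541, 19), (19541,
  23186), (11603, 40), (11603, 23165)]

theorem ktab1 : (allL grp1 fun w => stp 858585 139231 719355 (SP 37 nr37) [R91x37, R273x37] [] non w.1 w.2) = true := by
  decide +kernel

/-- group of exceptional classes -/
def grp2 : List (ℕ × ℕ) := [(2, 13), (2, 23192), (11603,
  26), (11603, 23179), (11602, 30), (11602, 23175), (16243, 30), (16243, 23175), (23194, 3),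
  (23194, 23202), (18562, 15), (18562, 23190), (23203, 15), (23203, 23190), (4219, 33), (4219,
  23172)]

theorem ktab2 : (allL grp2 fun w => stp 2250885 510511 1740375 (SP 97 nr97) [R119x97a, R119x97b] [] non w.1 w.2) = true := by
  decide +kernel

/-- group of exceptional classes -/
def grp3 : List (ℕ × ℕ) := [(3713, 25), (3713, 23180),
  (9287, 5), (9287, 23200), (18563, 9271), (18563, 13934), (13922, 9293), (13922, 13912)]

theorem ktab3 : (allL grp3 fun w => stp 1693965 1508326 185640 (SP 73 nr73) [R221x73, R85x73] [] non w.1 w.2) = true := by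
  decide +kernel

/-- group of exceptional classes -/
def grp4 : List (ℕ × ℕ) := [(1, 21), (1, 23184)]

theorem ktab4 : (allL grp4 fun w => stp 858585 139231 719355 (SP 37 nr37) [R91x37] [R185x13] non w.1 w.2) = true := by
  decide +kernel

theorem surv_split : ∀ w ∈ surv, w ∈ grp1 ∨ w ∈ grp2 ∨ w ∈ grp3 ∨ w ∈ grp4 := by
  decide +kernel

end Pool.Agent.Helper54.CN
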