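import Pool.Agent.Helper54.CN.Search

/-!
Part of the main search.
-/

namespace Pool.Agent.Helper54.CN

set_option maxRecDepth 100000

theorem srch_3_4 : ch1 3 4 = true := by decide +kernel

theorem srch_3_5 : ch1 3 5 = true := by decide +kernel

theorem srch_4_0 : ch1 4 0 = true := by decide +kernel

theorem srch_4_2 : ch1 4 2 = true := by decide +kernel

end Pool.Agent.Helper54.CN
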