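import Pool.Agent.Helper54.CN.Search

/-!
Part of the main search.
-/

namespace Pool.Agent.Helper54.CN

set_option maxRecDepth 100000

theorem srch_4_5 : ch1 4 5 = true := by decide +kernel

theorem srch_5_1 : ch1 5 1 = true := by decide +kernel

theorem srch_5_2 : ch1 5 2 = true := by decide +kernel

theorem srch_5_5 : ch1 5 5 = true := by decide +kernel

end Pool.Agent.Helper54.CN
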