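import Pool.Agent.Helper54.CN.Search

/-!
Part of the main search.
-/

namespace Pool.Agent.Helper54.CN

set_option maxRecDepth 100000

theorem srch_5_6 : ch1 5 6 = true := by decide +kernel

theorem srch_6_1 : ch1 6 1 = true := by decide +kernel

theorem srch_6_3 : ch1 6 3 = true := by decide +kernel

theorem srch_6_4 : ch1 6 4 = true := by decide +kernel

end Pool.Agent.Helper54.CN
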