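import Pool.Agent.Helper54.CN.Chain
import Pool.Agent.Helper54.CN.KillDef
import Pool.Agent.Helper54.CN.Search1
import Pool.Agent.Helper54.CN.Search2
import Pool.Agent.Helper54.CN.Search3
import Pool.Agent.Helper54.CN.Search4
import Pool.Agent.Helper54.CN.Search5
import Pool.Agent.Helper54.CN.Search6
import Pool.Agent.Helper54.CN.R91x37
import Pool.Agent.Helper54.CN.R273x37
import Pool.Agent.Helper54.CN.R119x97a
import Pool.Agent.Helper54.CN.R119x97b
import Pool.Agent.Helper54.CN.R221x73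
import Pool.Agent.Helper54.CN.R85x73
import Pool.Agent.Helper54.CN.R185x13
import Pool.Agent.Helper54.CN.R221x31

/-!
Conclusion of the search: `n` is divisible by `3 * 5 * 7 * 13 * 17`.
-/

namespace Pool.Agent.Helper54.CN

set_option maxRecDepth 100000

theorem srch_all : ∀ w ∈ L7, ch1 w.1 w.2 = true := by
  intro w hw
  simp only [L7, List.mem_cons, List.not_mem_nil, or_false] at hw
  rcases hw with rfl | rfl | rfl | rfl | rfl | rfl | rfl | rfl | rfl | rfl | rfl | rfl | rfl | rfl | rfl |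
  rfl | rfl | rfl | rfl | rfl | rfl
  exacts [srch_1_0, srch_1_3, srch_1_4, srch_2_0, srch_2_1, srch_2_6, srch_3_2, srch_3_3, srch_3_4,
  srch_3_5, srch_4_0, srch_4_2, srch_4_5, srch_5_1, srch_5_2, srch_5_5, srch_5_6,
  srch_6_1, srch_6_3, srch_6_4, srch_6_6]

/-- the primes used, all different from `|a|` -/
def Nn (a : ℤ) (l : List ℕ) : Prop := ∀ p ∈ l, ((p : ℕ) : ℤ) ≠ |a|

theorem Nn.sub {a : ℤ} {l l' : List ℕ} (h : Nn a l) (hs : ∀ p ∈ l', p ∈ l) : Nn a l' :=
  fun p hp => h p (hs p hp)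

theorem Ctx.mem3 {a n : ℤ} (c : Ctx a n) (h : ((3 : ℕ) : ℤ) ≠ |a|) :
    ∃ w ∈ L3, Cls a n 3 w.1 w.2 := by
  rw [← leq3]
  exact c.sp_mem (by norm_num) (by norm_num) (by norm_num) h nrok3

theorem Ctx.mem5 {a n : ℤ} (c : Ctx a n) (h : ((5 : ℕ) : ℤ) ≠ |a|) :
    ∃ w ∈ L5, Cls a n 5 w.1 w.2 := by
  rw [← leq5]
  exact c.sp_mem (by norm_num) (by norm_num) (by norm_num) h nrok5

theorem Ctx.mem7 {a n : ℤ} (c : Ctx a n) (h : ((7 : ℕ) : ℤ) ≠ |a|) :
    ∃ w ∈ L7, Cls a n 7 w.1 w.2 := by
  rw [← leq7]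
  exact c.sp_mem (by norm_num) (by norm_num) (by norm_num) h nrok7

theorem Ctx.mem13 {a n : ℤ} (c : Ctx a n) (h : ((13 : ℕ) : ℤ) ≠ |a|) :
    ∃ w ∈ L13, Cls a n 13 w.1 w.2 := by
  rw [← leq13]
  exact c.sp_mem (by norm_num) (by norm_num) (by norm_num) h nrok13

theorem Ctx.mem17 {a n : ℤ} (c : Ctx a n) (h : ((17 : ℕ) : ℤ) ≠ |a|) :
    ∃ w ∈ L17, Cls a n 17 w.1 w.2 := by
  rw [← leq17]
  exact c.sp_mem (by norm_num) (by norm_num) (by norm_num) h nrok17

theorem Ctx.search {a n : ℤ} (c : Ctx a n) (hna : Nn a [3, 5, 7, 13, 17]) :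
    ∃ α β, Cls a n 23205 α β ∧ fin α β = true := by
  obtain ⟨w, hw, hc⟩ := c.mem7 (hna 7 (by decide))
  have h1 := srch_all w hw
  obtain ⟨α1, β1, hc1, h2⟩ := c.stp_sound (Q := 7) (p := 17) (Q' := 119) (by decide +kernel)
    (c.mem17 (hna 17 (by decide))) (by
    intro D hD
    exact absurd hD List.not_mem_nil) (by
    intro D hD
    exact absurd hD List.not_mem_nil) hc h1
  obtain ⟨α2, β2, hc2, h3⟩ := c.stp_sound (Q := 119) (p := 5) (Q' := 595) (by decide +kernel)
    (c.mem5 (hna 5 (by decide))) (by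
    intro D hD
    simp only [List.mem_cons, List.not_mem_nil, or_false] at hD
    rcases hD with rfl | rfl
    · exact ⟨R119x5b_app (hna.sub (by decide)),
        (by show 119 ∣ 119; norm_num), rfl⟩
    · exact ⟨R119x5_app (hna.sub (by decide)),
        (by show 119 ∣ 119; norm_num), rfl⟩) (by
    intro D hD
    exact absurd hD List.not_mem_nil) hc1 h2
  obtain ⟨α3, β3, hc3, h4⟩ := c.stp_sound (Q := 595) (p := 3) (Q' := 1785) (by decide +kernel)
    (c.mem3 (hna 3 (by decide))) (by
    intro D hD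
    simp only [List.mem_cons, List.not_mem_nil, or_false] at hD
    rcases hD with rfl
    · exact ⟨R119x3_app (hna.sub (by decide)),
        (by show 119 ∣ 595; norm_num), rfl⟩) (by
    intro D hD
    simp only [List.mem_cons, List.not_mem_nil, or_false] at hD
    rcases hD with rfl
    · exact ⟨R51x5_app (hna.sub (by decide)),
        (by show 51 ∣ 1785; norm_num), (by show 5 ∣ 1785; norm_num)⟩) hc2 h3
  exact c.stp_sound (Q := 1785) (p := 13) (Q' := 23205) (by decide +kernel)
    (c.mem13 (hna 13 (by decide))) (by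
    intro D hD
    simp only [List.mem_cons, List.not_mem_nil, or_false] at hD
    rcases hD with rfl | rfl
    · exact ⟨R119x13_app (hna.sub (by decide)),
        (by show 119 ∣ 1785; norm_num), rfl⟩
    · exact ⟨R105x13_app (hna.sub (by decide)),
        (by show 105 ∣ 1785; norm_num), rfl⟩) (by
    intro D hD
    simp only [List.mem_cons, List.not_mem_nil, or_false] at hD
    rcases hD with rfl | rfl | rfl
    · exact ⟨R221x5b_app (hna.sub (by decide)),
        (by show 221 ∣ 23205; norm_num), (by show 5 ∣ 23205; norm_num)⟩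
    · exact ⟨R221x5_app (hna.sub (by decide)),
        (by show 221 ∣ 23205; norm_num), (by show 5 ∣ 23205; norm_num)⟩
    · exact ⟨R221x3_app (hna.sub (by decide)),
        (by show 221 ∣ 23205; norm_num), (by show 3 ∣ 23205; norm_num)⟩) hc3 h4

theorem Ctx.kil1 {a n : ℤ} (c : Ctx a n) (hna : Nn a [3, 5, 7, 13, 17, 37, 73, 97])
    {w : ℕ × ℕ} (hw : w ∈ grp1) (hc : Cls a n 23205 w.1 w.2) : False := by
  have hm := c.sp_mem (p := 37) (by norm_num) (by norm_num) (by norm_num)
    (hna 37 (by decide)) nrok37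
  obtain ⟨_, _, _, h⟩ := c.stp_sound (Q := 23205) (p := 37) (Q' := 858585) (e1 := 139231) (e2 := 719355)
    (by decide +kernel) (L := SP 37 nr37) hm
    (by
    intro D hD
    simp only [List.mem_cons, List.not_mem_nil, or_false] at hD
    rcases hD with rfl | rfl
    · exact ⟨R91x37_app (hna.sub (by decide)),
        (by show 91 ∣ 23205; norm_num), rfl⟩
    · exact ⟨R273x37_app (hna.sub (by decide)),
        (by show 273 ∣ 23205; norm_num), rfl⟩) (by
    intro D hD
    exact absurd hD List.not_mem_nil) hc (allL_iff.1 ktab1 w hw)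
  exact absurd h (by simp [non])

theorem Ctx.kil2 {a n : ℤ} (c : Ctx a n) (hna : Nn a [3, 5, 7, 13, 17, 37, 73, 97])
    {w : ℕ × ℕ} (hw : w ∈ grp2) (hc : Cls a n 23205 w.1 w.2) : False := by
  have hm := c.sp_mem (p := 97) (by norm_num) (by norm_num) (by norm_num)
    (hna 97 (by decide)) nrok97
  obtain ⟨_, _, _, h⟩ := c.stp_sound (Q := 23205) (p := 97) (Q' := 2250885) (e1 := 510511) (e2 := 1740375)
    (by decide +kernel) (L := SP 97 nr97) hm
    (by
    intro D hD
    simp only [List.mem_cons, List.not_mem_nil, or_false] at hD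
    rcases hD with rfl | rfl
    · exact ⟨R119x97a_app (hna.sub (by decide)),
        (by show 119 ∣ 23205; norm_num), rfl⟩
    · exact ⟨R119x97b_app (hna.sub (by decide)),
        (by show 119 ∣ 23205; norm_num), rfl⟩) (by
    intro D hD
    exact absurd hD List.not_mem_nil) hc (allL_iff.1 ktab2 w hw)
  exact absurd h (by simp [non])

theorem Ctx.kil3 {a n : ℤ} (c : Ctx a n) (hna : Nn a [3, 5, 7, 13, 17, 37, 73, 97])
    {w : ℕ × ℕ} (hw : w ∈ grp3) (hc : Cls a n 23205 w.1 w.2) : False := by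
  have hm := c.sp_mem (p := 73) (by norm_num) (by norm_num) (by norm_num)
    (hna 73 (by decide)) nrok73
  obtain ⟨_, _, _, h⟩ := c.stp_sound (Q := 23205) (p := 73) (Q' := 1693965) (e1 := 1508326) (e2 := 185640)
    (by decide +kernel) (L := SP 73 nr73) hm
    (by
    intro D hD
    simp only [List.mem_cons, List.not_mem_nil, or_false] at hD
    rcases hD with rfl | rfl
    · exact ⟨R221x73_app (hna.sub (by decide)),
        (by show 221 ∣ 23205; norm_num), rfl⟩
    · exact ⟨R85x73_app (hna.sub (by decide)),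
        (by show 85 ∣ 23205; norm_num), rfl⟩) (by
    intro D hD
    exact absurd hD List.not_mem_nil) hc (allL_iff.1 ktab3 w hw)
  exact absurd h (by simp [non])

theorem Ctx.kil4 {a n : ℤ} (c : Ctx a n) (hna : Nn a [3, 5, 7, 13, 17, 37, 73, 97])
    {w : ℕ × ℕ} (hw : w ∈ grp4) (hc : Cls a n 23205 w.1 w.2) : False := by
  have hm := c.sp_mem (p := 37) (by norm_num) (by norm_num) (by norm_num)
    (hna 37 (by decide)) nrok37
  obtain ⟨_, _, _, h⟩ := c.stp_sound (Q := 23205) (p := 37) (Q' := 858585) (e1 := 139231) (e2 := 719355)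
    (by decide +kernel) (L := SP 37 nr37) hm
    (by
    intro D hD
    simp only [List.mem_cons, List.not_mem_nil, or_false] at hD
    rcases hD with rfl
    · exact ⟨R91x37_app (hna.sub (by decide)),
        (by show 91 ∣ 23205; norm_num), rfl⟩) (by
    intro D hD
    simp only [List.mem_cons, List.not_mem_nil, or_false] at hD
    rcases hD with rfl
    · exact ⟨R185x13_app (hna.sub (by decide)),
        (by show 185 ∣ 858585; norm_num), (by show 13 ∣ 858585; norm_num)⟩) hc (allL_iff.1 ktab4 w hw)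
  exact absurd h (by simp [non])

theorem Ctx.main {a n : ℤ} (c : Ctx a n) (hna : Nn a [3, 5, 7, 13, 17, 37, 73, 97]) :
    (n : ZMod 23205) = 0 := by
  obtain ⟨α, β, hc, hf⟩ := c.search (hna.sub (by decide))
  unfold fin at hf
  rw [orB_iff, beq_iff', List.any_eq_true] at hf
  rcases hf with hf | ⟨w, hw, hf⟩
  · rw [hc.2, hf]; simp
  · exfalso
    rw [andB_iff, beq_iff', beq_iff'] at hf
    rw [← hf.1, ← hf.2] at hc
    rcases surv_split w hw with h | h | h | h
    · exact c.kil1 hna h hc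
    · exact c.kil2 hna h hc
    · exact c.kil3 hna h hc
    · exact c.kil4 hna h hc

end Pool.Agent.Helper54.CN
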