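import Pool.Agent.Helper54.CN.Bern
import Pool.Agent.Helper54.CN.ExpLem

/-!
Limits of `∑ g(k) b(l) exp (-t k l)` for periodic mean-zero `g`, `b`.
-/

namespace Pool.Agent.Helper54.CN

open Finset Filter Topology

/-- a finite exponential sum -/
noncomputable def ES (N : ℕ) (u : ℕ → ℝ) (t : ℝ) (k : ℕ) : ℝ :=
  ∑ i ∈ range N, u i * Real.exp (-(t * k)) ^ i

theorem ES_bound {N : ℕ} {u : ℕ → ℝ} {M : ℝ} (hM : ∀ i, |u i| ≤ M) {t : ℝ} (ht : 0 < t)
    (k : ℕ) :
    |dlt (ES N u t) k| ≤ M * N ^ 2 * t * Real.exp (-(t * k)) ∧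
    |dlt (dlt (ES N u t)) k| ≤ M * N ^ 3 * t ^ 2 * Real.exp (-(t * k)) := by
  have hM0 : 0 ≤ M := (abs_nonneg _).trans (hM 0)
  set x := Real.exp (-(t * k)) with hx
  have hx0 : 0 < x := Real.exp_pos _
  have hx1 : x ≤ 1 := Real.exp_le_one_iff.2 (by have : 0 ≤ t * k := by positivity
                                                linarith)
  have hstep : ∀ m : ℕ, Real.exp (-(t * (m + 1 : ℕ))) = Real.exp (-(t * m)) * Real.exp (-t) := by
    intro m
    rw [← Real.exp_add]
    congr 1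
    push_cast
    ring
  have hpow : ∀ i : ℕ, |Real.exp (-t) ^ i - 1| ≤ i * t := by
    intro i
    rw [← Real.exp_nat_mul]
    have := exp_neg_sub_one (a := i * t) (by positivity)
    convert this using 2
    ring_nf
  have e1 : dlt (ES N u t) k = ∑ i ∈ range N, u i * (x ^ i * (Real.exp (-t) ^ i - 1)) := by
    simp only [dlt, ES]
    rw [← Finset.sum_sub_distrib]
    apply Finset.sum_congr rfl
    intro i _
    rw [hstep, mul_pow, ← hx]
    ring
  have e2 : dlt (dlt (ES N u t)) k
      = ∑ i ∈ range N, u i * (x ^ i * (Real.exp (-t) ^ i - 1) ^ 2) := by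
    simp only [dlt, ES]
    rw [← Finset.sum_sub_distrib, ← Finset.sum_sub_distrib, ← Finset.sum_sub_distrib]
    apply Finset.sum_congr rfl
    intro i _
    rw [hstep (k + 1), hstep k, mul_pow, mul_pow, ← hx]
    ring
  constructor
  · rw [e1]
    calc |∑ i ∈ range N, u i * (x ^ i * (Real.exp (-t) ^ i - 1))|
        ≤ ∑ i ∈ range N, |u i * (x ^ i * (Real.exp (-t) ^ i - 1))| :=
          Finset.abs_sum_le_sum_abs _ _
      _ ≤ ∑ i ∈ range N, M * (x * (N * t)) := by
          apply Finset.sum_le_sum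
          intro i hi
          rw [abs_mul, abs_mul, abs_of_pos (pow_pos hx0 i)]
          have hiN : (i : ℝ) ≤ N := by exact_mod_cast (mem_range.1 hi).le
          rcases Nat.eq_zero_or_pos i with h0 | h0
          · subst h0
            simp only [pow_zero, sub_self, abs_zero, mul_zero]
            positivity
          · have h1 : x ^ i ≤ x := by
              calc x ^ i ≤ x ^ 1 := pow_le_pow_of_le_one hx0.le hx1 h0
                _ = x := pow_one x
            have h2 : |Real.exp (-t) ^ i - 1| ≤ N * t :=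
              (hpow i).trans (mul_le_mul_of_nonneg_right hiN ht.le)
            gcongr
            exact hM i
      _ = M * N ^ 2 * t * x := by
          rw [Finset.sum_const, card_range, nsmul_eq_mul]
          ring
  · rw [e2]
    calc |∑ i ∈ range N, u i * (x ^ i * (Real.exp (-t) ^ i - 1) ^ 2)|
        ≤ ∑ i ∈ range N, |u i * (x ^ i * (Real.exp (-t) ^ i - 1) ^ 2)| :=
          Finset.abs_sum_le_sum_abs _ _
      _ ≤ ∑ i ∈ range N, M * (x * (N * t) ^ 2) := by
          apply Finset.sum_le_sum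
          intro i hi
          rw [abs_mul, abs_mul, abs_of_pos (pow_pos hx0 i), abs_pow]
          have hiN : (i : ℝ) ≤ N := by exact_mod_cast (mem_range.1 hi).le
          rcases Nat.eq_zero_or_pos i with h0 | h0
          · subst h0
            simp only [pow_zero, sub_self, abs_zero, mul_zero, ne_eq, OfNat.ofNat_ne_zero,
              not_false_eq_true, zero_pow]
            positivity
          · have h1 : x ^ i ≤ x := by
              calc x ^ i ≤ x ^ 1 := pow_le_pow_of_le_one hx0.le hx1 h0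
                _ = x := pow_one x
            have h2 : |Real.exp (-t) ^ i - 1| ≤ N * t :=
              (hpow i).trans (mul_le_mul_of_nonneg_right hiN ht.le)
            gcongr
            exact hM i
      _ = M * N ^ 3 * t ^ 2 * x := by
          rw [Finset.sum_const, card_range, nsmul_eq_mul]
          ring

theorem ES_abs {N : ℕ} {u : ℕ → ℝ} {M : ℝ} (hM : ∀ i, |u i| ≤ M) (h0 : u 0 = 0) {t : ℝ}
    (ht : 0 < t) (k : ℕ) : |ES N u t k| ≤ M * N * Real.exp (-(t * k)) := by
  have hM0 : 0 ≤ M := (abs_nonneg _).trans (hM 0)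
  set x := Real.exp (-(t * k)) with hx
  have hx0 : 0 < x := Real.exp_pos _
  have hx1 : x ≤ 1 := Real.exp_le_one_iff.2 (by have : 0 ≤ t * k := by positivity
                                                linarith)
  unfold ES
  calc |∑ i ∈ range N, u i * x ^ i| ≤ ∑ i ∈ range N, |u i * x ^ i| :=
        Finset.abs_sum_le_sum_abs _ _
    _ ≤ ∑ i ∈ range N, M * x := by
        apply Finset.sum_le_sum
        intro i hi
        rcases Nat.eq_zero_or_pos i with h | h
        · subst h
          rw [h0]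
          simp only [zero_mul, abs_zero]
          positivity
        · rw [abs_mul, abs_of_pos (pow_pos hx0 i)]
          have h1 : x ^ i ≤ x := by
            calc x ^ i ≤ x ^ 1 := pow_le_pow_of_le_one hx0.le hx1 h
              _ = x := pow_one x
          gcongr
          exact hM i
    _ = M * N * x := by
        rw [Finset.sum_const, card_range, nsmul_eq_mul]
        ring

/-- the quotient of two exponential sums -/
noncomputable def RQ (N : ℕ) (u : ℕ → ℝ) (t : ℝ) (k : ℕ) : ℝ :=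
  ES N u t k / ES N (fun _ => 1) t k

theorem ES_one_ge {N : ℕ} (hN : 0 < N) (t : ℝ) (k : ℕ) : 1 ≤ ES N (fun _ => 1) t k := by
  unfold ES
  have h : ∀ i ∈ range N, 0 ≤ (1:ℝ) * Real.exp (-(t * k)) ^ i := fun i _ => by positivity
  have := Finset.single_le_sum h (mem_range.2 hN)
  simpa using this

theorem RQ_bound {N : ℕ} (hN : 0 < N) {u : ℕ → ℝ} {M : ℝ} (hM : ∀ i, |u i| ≤ M)
    (h0 : u 0 = 0) :
    ∃ K : ℝ, 0 ≤ K ∧ ∀ t : ℝ, 0 < t → t ≤ 1 → ∀ k : ℕ,
      |RQ N u t k| ≤ K * Real.exp (-(t * k)) ∧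
      |dlt (dlt (RQ N u t)) k| ≤ t ^ 2 * K * Real.exp (-(t * k)) := by
  have hM0 : 0 ≤ M := (abs_nonneg _).trans (hM 0)
  set C0 : ℝ := M * N with hC0
  set C1 : ℝ := M * N ^ 2 + C0 * (1 * N ^ 2) with hC1
  set C2 : ℝ := M * N ^ 3 + 2 * (1 * N ^ 2) * C1 + C0 * (1 * N ^ 3) with hC2
  have hC00 : 0 ≤ C0 := by positivity
  have hC10 : 0 ≤ C1 := by positivity
  have hC20 : 0 ≤ C2 := by positivity
  refine ⟨C0 + C2, by positivity, fun t ht ht1 k => ?_⟩
  have hmono : ∀ m : ℕ, Real.exp (-(t * (m + 1 : ℕ))) ≤ Real.exp (-(t * m)) := by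
    intro m
    apply Real.exp_le_exp.2
    push_cast
    nlinarith
  have hx1 : ∀ m : ℕ, Real.exp (-(t * m)) ≤ 1 := by
    intro m
    apply Real.exp_le_one_iff.2
    have : 0 ≤ t * m := by positivity
    linarith
  set a := ES N u t with ha
  set b := ES N (fun _ => 1) t with hb
  set φ := RQ N u t with hφ
  have hb1 : ∀ m, 1 ≤ b m := fun m => ES_one_ge hN t m
  have hM1 : ∀ i : ℕ, |(fun _ : ℕ => (1:ℝ)) i| ≤ 1 := fun i => by simp
  have hφa : ∀ m, φ m * b m = a m := by
    intro m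
    rw [hφ]
    unfold RQ
    exact div_mul_cancel₀ _ (by have := hb1 m; rw [hb] at this; linarith)
  have hφb : ∀ m, |φ m| ≤ C0 * Real.exp (-(t * m)) := by
    intro m
    have h1 := hφa m
    have h2 : |φ m| * b m = |a m| := by
      rw [← h1, abs_mul, abs_of_pos (lt_of_lt_of_le one_pos (hb1 m))]
    have h3 := ES_abs (N := N) hM h0 ht m
    have h4 := abs_nonneg (φ m)
    nlinarith [hb1 m]
  have hφb' : ∀ m, |φ m| ≤ C0 := fun m => (hφb m).trans (by
    have := mul_le_mul_of_nonneg_left (hx1 m) hC00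
    linarith)
  have hd1 : ∀ m, |dlt φ m| ≤ C1 * t * Real.exp (-(t * m)) := by
    intro m
    have h1 : b m * dlt φ m = dlt a m - φ (m + 1) * dlt b m := by
      simp only [dlt]
      rw [← hφa m, ← hφa (m + 1)]
      ring
    have h2 := (ES_bound (N := N) hM ht m).1
    have h3 := (ES_bound (N := N) hM1 ht m).1
    have h4 : |b m * dlt φ m| ≤ C1 * t * Real.exp (-(t * m)) := by
      rw [h1]
      calc |dlt a m - φ (m + 1) * dlt b m| ≤ |dlt a m| + |φ (m + 1) * dlt b m| := abs_sub _ _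
        _ ≤ M * N ^ 2 * t * Real.exp (-(t * m))
            + C0 * (1 * N ^ 2 * t * Real.exp (-(t * m))) := by
            rw [abs_mul]
            have h5 := hφb' (m + 1)
            gcongr
        _ = _ := by rw [hC1]; ring
    rw [abs_mul, abs_of_pos (lt_of_lt_of_le one_pos (hb1 m))] at h4
    nlinarith [hb1 m, abs_nonneg (dlt φ m)]
  constructor
  · refine (hφb k).trans ?_
    gcongr
    linarith
  · have h1 : b k * dlt (dlt φ) k = dlt (dlt a) k - 2 * dlt b k * dlt φ (k + 1)
        - φ (k + 2) * dlt (dlt b) k := by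
      simp only [dlt]
      rw [← hφa k, ← hφa (k + 1), ← hφa (k + 1 + 1)]
      ring
    have h2 := (ES_bound (N := N) hM ht k).2
    have h3 := (ES_bound (N := N) hM1 ht k).1
    have h3' := (ES_bound (N := N) hM1 ht k).2
    have h5 := hφb' (k + 2)
    have h6 : |dlt φ (k + 1)| ≤ C1 * t := by
      refine (hd1 (k + 1)).trans ?_
      have := hx1 (k + 1)
      have h7 : 0 ≤ C1 * t := by positivity
      nlinarith
    have h4 : |b k * dlt (dlt φ) k| ≤ C2 * t ^ 2 * Real.exp (-(t * k)) := by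
      rw [h1]
      calc |dlt (dlt a) k - 2 * dlt b k * dlt φ (k + 1) - φ (k + 2) * dlt (dlt b) k|
          ≤ |dlt (dlt a) k| + |2 * dlt b k * dlt φ (k + 1)| + |φ (k + 2) * dlt (dlt b) k| :=
            (abs_sub _ _).trans (add_le_add (abs_sub _ _) le_rfl)
        _ ≤ M * N ^ 3 * t ^ 2 * Real.exp (-(t * k))
            + 2 * (1 * N ^ 2 * t * Real.exp (-(t * k))) * (C1 * t)
            + C0 * (1 * N ^ 3 * t ^ 2 * Real.exp (-(t * k))) := by
            rw [abs_mul, abs_mul, abs_mul, abs_two]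
            gcongr
        _ = _ := by rw [hC2]; ring
    rw [abs_mul, abs_of_pos (lt_of_lt_of_le one_pos (hb1 k))] at h4
    have h8 : |dlt (dlt φ) k| ≤ C2 * t ^ 2 * Real.exp (-(t * k)) := by
      nlinarith [hb1 k, abs_nonneg (dlt (dlt φ) k)]
    refine h8.trans ?_
    have h9 : C2 ≤ C0 + C2 := by linarith
    calc C2 * t ^ 2 * Real.exp (-(t * k)) ≤ (C0 + C2) * t ^ 2 * Real.exp (-(t * k)) := by gcongr
      _ = _ := by ring

/-- closed form of a periodic power series -/
theorem periodic_series {N : ℕ} {b : ℕ → ℝ} (hb : PZ N b) {x : ℝ} (hx0 : 0 ≤ x) (hx1 : x < 1) :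
    (∑' l, b l * x ^ l) * ∑ i ∈ range N, x ^ i = ∑ i ∈ range N, psum b i * x ^ i := by
  obtain ⟨M, hM0, hM⟩ := per_bdd hb.pos hb.per
  obtain ⟨M', hM0', hM'⟩ := per_bdd hb.pos hb.psum_per
  have hg : Summable fun l : ℕ => x ^ l := summable_geometric_of_lt_one hx0 hx1
  have s1 : Summable fun l => b l * x ^ l := summable_bdd_mul hM hg
  have s2 : Summable fun l => psum b l * x ^ l := summable_bdd_mul hM' hg
  have h1 : (∑' l, psum b l * x ^ l) * (1 - x) = ∑' l, b l * x ^ l := by
    have e1 : ∑' l, psum b l * x ^ l = psum b 0 * x ^ 0 + ∑' l, psum b (l + 1) * x ^ (l + 1) :=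
      s2.tsum_eq_zero_add
    have e2 : ∑' l, b l * x ^ l = b 0 * x ^ 0 + ∑' l, b (l + 1) * x ^ (l + 1) :=
      s1.tsum_eq_zero_add
    have e3 : ∑' l, psum b (l + 1) * x ^ (l + 1)
        = x * ∑' l, psum b l * x ^ l + ∑' l, b (l + 1) * x ^ (l + 1) := by
      rw [← tsum_mul_left, ← (s2.mul_left x).tsum_add ((summable_nat_add_iff 1).2 s1)]
      apply tsum_congr
      intro l
      have : psum b (l + 1) = psum b l + b (l + 1) := Finset.sum_range_succ _ _
      rw [this]
      ring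
    have e4 : psum b 0 = b 0 := by simp [psum]
    rw [e3, e4] at e1
    rw [e2]
    linear_combination e1
  have h2 : (∑' l, psum b l * x ^ l) * (1 - x ^ N) = ∑ i ∈ range N, psum b i * x ^ i := by
    have e1 := s2.sum_add_tsum_nat_add N
    have e2 : ∑' l, psum b (l + N) * x ^ (l + N) = x ^ N * ∑' l, psum b l * x ^ l := by
      rw [← tsum_mul_left]
      apply tsum_congr
      intro l
      rw [hb.psum_per, pow_add]
      ring
    rw [e2] at e1
    linear_combination -e1
  have h3 : (1 - x) * ∑ i ∈ range N, x ^ i = 1 - x ^ N := by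
    have := mul_geom_sum x N
    linear_combination -this
  rw [← h1, mul_assoc, h3, h2]

theorem lim_core {q1 q2 : ℕ} {g b : ℕ → ℝ} (hg : PZ q1 g) (hb : PZ q2 b) (hb0 : b 0 = 0) :
    Tendsto (fun t : ℝ => ∑' k : ℕ, g (k + 1) * ∑' l : ℕ, b l * Real.exp (-(t * ((k + 1 : ℕ) * l))))
      (𝓝[>] 0) (𝓝 ((mu q1 g - g 0) * mu q2 b)) := by
  obtain ⟨M', hM0', hM'⟩ := per_bdd hb.pos hb.psum_per
  have hU0 : psum b 0 = 0 := by simp [psum, hb0]
  obtain ⟨K, hK, hk⟩ := RQ_bound hb.pos hM' hU0
  obtain ⟨K', hK', hk'⟩ := abel_bound2 hg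
  have hφ0 : ∀ t, RQ q2 (psum b) t 0 = mu q2 b := by
    intro t
    unfold RQ ES mu
    simp
  have hN1 : 1 ≤ q2 := hb.pos
  -- the inner sum
  have hin : ∀ t : ℝ, 0 < t → ∀ k : ℕ,
      ∑' l : ℕ, b l * Real.exp (-(t * ((k + 1 : ℕ) * l))) = RQ q2 (psum b) t (k + 1) := by
    intro t ht k
    set x := Real.exp (-(t * (k + 1 : ℕ))) with hx
    have hx0 : 0 < x := Real.exp_pos _
    have hx1 : x < 1 := Real.exp_lt_one_iff.2 (by
      have : 0 < t * ((k + 1 : ℕ) : ℝ) := by positivity
      linarith)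
    have e1 : ∀ l : ℕ, Real.exp (-(t * ((k + 1 : ℕ) * l))) = x ^ l := by
      intro l
      rw [hx, ← Real.exp_nat_mul]
      congr 1
      ring
    simp only [e1]
    have h1 := periodic_series hb hx0.le hx1
    unfold RQ ES
    rw [eq_div_iff]
    · rw [← hx]
      simpa using h1
    · have := ES_one_ge hb.pos t (k + 1)
      unfold ES at this
      linarith
  have hsum : ∀ t : ℝ, 0 < t → t ≤ 1 → Summable (RQ q2 (psum b) t) := by
    intro t ht ht1
    exact Summable.of_norm_bounded ((summ_exp ht).mul_left K) fun k => (hk t ht ht1 k).1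
  have h0 : Tendsto (fun t => ∑' k, g k * RQ q2 (psum b) t k - mu q1 g * mu q2 b) (𝓝[>] 0)
      (𝓝 0) := by
    apply tendsto_of_lin (K := K' * (2 * K))
    intro t ht ht1
    have h1 := hk' (RQ q2 (psum b) t) (hsum t ht ht1)
    rw [hφ0] at h1
    refine h1.trans ?_
    have h2 := (tsum_bound1 ht ht1 hK fun k => (hk t ht ht1 k).2).2
    calc _ ≤ K' * (2 * K * t) := by gcongr
      _ = _ := by ring
  have h1 : Tendsto (fun t => (∑' k, g k * RQ q2 (psum b) t k - mu q1 g * mu q2 b)
      + (mu q1 g - g 0) * mu q2 b) (𝓝[>] 0) (𝓝 ((mu q1 g - g 0) * mu q2 b)) := by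
    have := h0.add_const ((mu q1 g - g 0) * mu q2 b)
    rwa [zero_add] at this
  refine h1.congr' ?_
  have hI : ∀ᶠ s : ℝ in 𝓝[>] 0, s ∈ Set.Ioc (0:ℝ) 1 := Ioc_mem_nhdsGT one_pos
  filter_upwards [hI] with t ht
  obtain ⟨M, _, hM⟩ := per_bdd hg.pos hg.per
  have s1 : Summable fun k => g k * RQ q2 (psum b) t k :=
    summable_bdd_mul hM (hsum t ht.1 ht.2)
  rw [s1.tsum_eq_zero_add, hφ0]
  have : ∀ k, ∑' l : ℕ, b l * Real.exp (-(t * ((k + 1 : ℕ) * l))) = RQ q2 (psum b) t (k + 1) :=
    hin t ht.1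
  simp only [this]
  ring

end Pool.Agent.Helper54.CN
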