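import Pool.Agent.Helper54.CN.LSide
import Pool.Agent.Helper54.CN.Abs2D

/-!
The `L`-side limit theorem.
-/

namespace Pool.Agent.Helper54.CN

open Finset Filter Topology

theorem core_summable {q1 q2 : ℕ} {g b : ℕ → ℝ} (hg : PZ q1 g) (hb : PZ q2 b) (hb0 : b 0 = 0)
    {t : ℝ} (ht : 0 < t) (ht1 : t ≤ 1) :
    Summable (fun k : ℕ => g (k + 1) * ∑' l : ℕ, b l * Real.exp (-(t * ((k + 1 : ℕ) * l)))) := by
  obtain ⟨M', hM0', hM'⟩ := per_bdd hb.pos hb.psum_per
  have hU0 : psum b 0 = 0 := by simp [psum, hb0]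
  obtain ⟨K, hK, hk⟩ := RQ_bound hb.pos hM' hU0
  obtain ⟨M, _, hM⟩ := per_bdd hg.pos hg.per
  have hsum : Summable (RQ q2 (psum b) t) :=
    Summable.of_norm_bounded ((summ_exp ht).mul_left K) fun k => (hk t ht ht1 k).1
  have s1 : Summable fun k => g k * RQ q2 (psum b) t k := summable_bdd_mul hM hsum
  have s2 := (summable_nat_add_iff 1).2 s1
  refine s2.congr fun k => ?_
  congr 1
  set x := Real.exp (-(t * (k + 1 : ℕ))) with hx
  have hx0 : 0 < x := Real.exp_pos _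
  have hx1 : x < 1 := Real.exp_lt_one_iff.2 (by
    have : 0 < t * ((k + 1 : ℕ) : ℝ) := by positivity
    linarith)
  have e1 : ∀ l : ℕ, Real.exp (-(t * ((k + 1 : ℕ) * l))) = x ^ l := by
    intro l
    rw [hx, ← Real.exp_nat_mul]
    congr 1
    ring
  simp only [e1]
  have h1 := periodic_series hb hx0.le hx1
  unfold RQ ES
  symm
  rw [eq_div_iff]
  · rw [← hx]
    simpa using h1
  · have := ES_one_ge hb.pos t (k + 1)
    unfold ES at this
    linarith

theorem summable_pp {t : ℝ} (ht : 0 < t) :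
    Summable fun c : ℕ+ × ℕ+ => Real.exp (-(t * ((c.1 : ℕ) * (c.2 : ℕ)))) := by
  have h1 : ‖Real.exp (-t)‖ < 1 := by
    rw [Real.norm_eq_abs, abs_of_pos (Real.exp_pos _)]
    exact Real.exp_lt_one_iff.2 (by linarith)
  have h2 := summable_prod_mul_pow (𝕜 := ℝ) 0 h1
  refine h2.congr fun c => ?_
  rw [pow_zero, one_mul, ← Real.exp_nat_mul]
  congr 1
  push_cast
  ring

theorem tsum_antidiag (F : ℕ → ℕ → ℝ) (hF : Summable fun c : ℕ+ × ℕ+ => F c.1 c.2) :
    ∑' n : ℕ+, ∑ p ∈ Nat.divisorsAntidiagonal n, F p.1 p.2 = ∑' c : ℕ+ × ℕ+, F c.1 c.2 := by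
  rw [← sigmaAntidiagonalEquivProd.tsum_eq (fun c : ℕ+ × ℕ+ => F c.1 c.2)]
  have h2 : Summable fun x : (Σ n : ℕ+, Nat.divisorsAntidiagonal n) =>
      F (sigmaAntidiagonalEquivProd x).1 (sigmaAntidiagonalEquivProd x).2 :=
    (sigmaAntidiagonalEquivProd.summable_iff (f := fun c : ℕ+ × ℕ+ => F c.1 c.2)).2 hF
  rw [Summable.tsum_sigma h2]
  apply tsum_congr
  intro n
  rw [tsum_fintype]
  simp only [sigmaAntidiagonalEquivProd, divisorsAntidiagonalFactors, Equiv.coe_fn_mk, PNat.mk_coe]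
  exact (Finset.sum_attach (Nat.divisorsAntidiagonal n) (fun p => F p.1 p.2)).symm

/-- the `L`-side limit, double sum form -/
theorem LZ {q : ℕ} [NeZero q] (w : ZMod q → ℝ) (α β : ℕ → ℝ) {q1 q2 : ℕ} (h1 : 0 < q1)
    (h2 : 0 < q2) (hq1 : q ∣ q1) (hq2 : q ∣ q2) (hα : ∀ k, α (k + q1) = α k)
    (hβ : ∀ k, β (k + q2) = β k) (hβ0 : β 0 = 0) (hw0 : w 0 = 0)
    (hb : ∀ v : ZMod q, ∑ l ∈ range q2, (if (l : ZMod q) = v then β l else 0) = 0)
    (hg : ∀ v : ZMod q, ∑ k ∈ range q1, w (k * v) * α k = 0) :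
    Tendsto (fun t : ℝ => ∑' k : ℕ, ∑' l : ℕ, w (((k + 1 : ℕ) : ZMod q) * (l : ZMod q)) * α (k + 1)
        * β l * Real.exp (-(t * ((k + 1 : ℕ) * l)))) (𝓝[>] 0)
      (𝓝 ((∑ j ∈ range q1, ∑ l ∈ range q2, (j : ℝ) * l * w (j * l) * α j * β l) / (q1 * q2))) := by
  have hc1 : (q1 : ZMod q) = 0 := (ZMod.natCast_eq_zero_iff _ _).2 hq1
  have hc2 : (q2 : ZMod q) = 0 := (ZMod.natCast_eq_zero_iff _ _).2 hq2
  set g : ZMod q → ℕ → ℝ := fun v k => w (k * v) * α k with hgd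
  set b : ZMod q → ℕ → ℝ := fun v l => if (l : ZMod q) = v then β l else 0 with hbd
  have hgP : ∀ v, PZ q1 (g v) := fun v => ⟨h1, fun k => by
    simp only [hgd]
    rw [hα]
    push_cast
    rw [hc1, add_zero], hg v⟩
  have hbP : ∀ v, PZ q2 (b v) := fun v => ⟨h2, fun k => by
    simp only [hbd]
    rw [hβ]
    push_cast
    rw [hc2, add_zero], hb v⟩
  have hb0 : ∀ v, b v 0 = 0 := fun v => by
    simp only [hbd, hβ0, ite_self]
  have hg0 : ∀ v, g v 0 = 0 := fun v => by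
    simp only [hgd, Nat.cast_zero, zero_mul, hw0]
  have hlim := tendsto_finsetSum (univ : Finset (ZMod q)) fun v _ =>
    lim_core (hgP v) (hbP v) (hb0 v)
  have hval : ∑ v : ZMod q, (mu q1 (g v) - g v 0) * mu q2 (b v)
      = (∑ j ∈ range q1, ∑ l ∈ range q2, (j : ℝ) * l * w (j * l) * α j * β l) / (q1 * q2) := by
    have e1 : ∀ v, (mu q1 (g v) - g v 0) * mu q2 (b v)
        = (∑ j ∈ range q1, ∑ l ∈ range q2, (j * g v j) * (l * b v l)) / (q1 * q2) := by
      intro v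
      rw [hg0, sub_zero, (hgP v).mu_eq, (hbP v).mu_eq, ← Finset.sum_mul_sum]
      rw [div_mul_div_comm]
      ring
    simp only [e1]
    rw [← Finset.sum_div]
    congr 1
    rw [Finset.sum_comm]
    apply Finset.sum_congr rfl
    intro j _
    rw [Finset.sum_comm]
    apply Finset.sum_congr rfl
    intro l _
    simp only [hgd, hbd]
    rw [Finset.sum_eq_single (l : ZMod q)]
    · rw [if_pos rfl]
      ring
    · intro v _ hv
      rw [if_neg (Ne.symm hv)]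
      ring
    · intro h
      exact absurd (mem_univ _) h
  rw [hval] at hlim
  refine hlim.congr' ?_
  have hI : ∀ᶠ s : ℝ in 𝓝[>] 0, s ∈ Set.Ioc (0:ℝ) 1 := Ioc_mem_nhdsGT one_pos
  filter_upwards [hI] with t ht
  rw [← Summable.tsum_finsetSum fun v _ => core_summable (hgP v) (hbP v) (hb0 v) ht.1 ht.2]
  apply tsum_congr
  intro k
  have hs : ∀ v : ZMod q, Summable fun l : ℕ => b v l * Real.exp (-(t * ((k + 1 : ℕ) * l))) := by
    intro v
    obtain ⟨M, _, hM⟩ := per_bdd (hbP v).pos (hbP v).per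
    refine summable_bdd_mul hM ?_
    have : 0 < t * ((k + 1 : ℕ) : ℝ) := by have := ht.1; positivity
    refine (summ_exp this).congr fun l => ?_
    congr 1
    ring
  simp only [← tsum_mul_left]
  rw [← Summable.tsum_finsetSum fun v _ => (hs v).mul_left (g v (k + 1))]
  apply tsum_congr
  intro l
  simp only [hgd, hbd]
  rw [Finset.sum_eq_single (l : ZMod q)]
  · rw [if_pos rfl]
    ring
  · intro v _ hv
    rw [if_neg (Ne.symm hv)]
    ring
  · intro h
    exact absurd (mem_univ _) h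

/-- the `L`-side limit -/
theorem L_limit {q : ℕ} [NeZero q] (w : ZMod q → ℝ) (α β : ℕ → ℝ) {q1 q2 : ℕ} (h1 : 0 < q1)
    (h2 : 0 < q2) (hq1 : q ∣ q1) (hq2 : q ∣ q2) (hα : ∀ k, α (k + q1) = α k)
    (hβ : ∀ k, β (k + q2) = β k) (hβ0 : β 0 = 0) (hw0 : w 0 = 0)
    (hb : ∀ v : ZMod q, ∑ l ∈ range q2, (if (l : ZMod q) = v then β l else 0) = 0)
    (hg : ∀ v : ZMod q, ∑ k ∈ range q1, w (k * v) * α k = 0) :
    Tendsto (fun t : ℝ => ∑' n : ℕ+, w ((n : ℕ) : ZMod q)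
        * (∑ p ∈ Nat.divisorsAntidiagonal n, α p.1 * β p.2) * Real.exp (-(t * (n : ℕ)))) (𝓝[>] 0)
      (𝓝 ((∑ j ∈ range q1, ∑ l ∈ range q2, (j : ℝ) * l * w (j * l) * α j * β l) / (q1 * q2))) := by
  refine (LZ w α β h1 h2 hq1 hq2 hα hβ hβ0 hw0 hb hg).congr' ?_
  filter_upwards [self_mem_nhdsWithin] with t ht
  have ht : 0 < t := ht
  set F : ℕ → ℕ → ℝ := fun k l => w ((k : ZMod q) * (l : ZMod q)) * α k * β l
    * Real.exp (-(t * (k * l))) with hF
  obtain ⟨M1, hM1, hM1'⟩ := zmod_bdd w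
  obtain ⟨M2, hM2, hM2'⟩ := per_bdd h1 hα
  obtain ⟨M3, hM3, hM3'⟩ := per_bdd h2 hβ
  have hsum : Summable fun c : ℕ+ × ℕ+ => F c.1 c.2 := by
    refine Summable.of_norm_bounded ((summable_pp ht).mul_left (M1 * M2 * M3)) fun c => ?_
    simp only [hF, Real.norm_eq_abs]
    rw [abs_mul, abs_mul, abs_mul, abs_of_pos (Real.exp_pos _)]
    gcongr
    · exact hM1' _
    · exact hM2' _
    · exact hM3' _
  have e1 : ∑' n : ℕ+, w ((n : ℕ) : ZMod q)
        * (∑ p ∈ Nat.divisorsAntidiagonal n, α p.1 * β p.2) * Real.exp (-(t * (n : ℕ)))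
      = ∑' n : ℕ+, ∑ p ∈ Nat.divisorsAntidiagonal n, F p.1 p.2 := by
    apply tsum_congr
    intro n
    rw [Finset.mul_sum, Finset.sum_mul]
    apply Finset.sum_congr rfl
    intro p hp
    have hp' := (Nat.mem_divisorsAntidiagonal.1 hp).1
    simp only [hF]
    rw [← hp']
    push_cast
    ring
  rw [e1, tsum_antidiag F hsum, hsum.tsum_prod, tsum_pnat_eq_tsum_succ (f := fun k =>
    ∑' l : ℕ+, F k l)]
  apply tsum_congr
  intro k
  have hs2 : Summable fun l : ℕ => F (k + 1) l := by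
    have h3 : Summable fun l : ℕ => Real.exp (-(t * (((k + 1 : ℕ) : ℝ) * l))) := by
      have : 0 < t * ((k + 1 : ℕ) : ℝ) := by positivity
      refine (summ_exp this).congr fun l => ?_
      congr 1
      ring
    refine Summable.of_norm_bounded (h3.mul_left (M1 * M2 * M3)) fun l => ?_
    simp only [hF, Real.norm_eq_abs]
    rw [abs_mul, abs_mul, abs_mul, abs_of_pos (Real.exp_pos _)]
    gcongr
    · exact hM1' _
    · exact hM2' _
    · exact hM3' _
  have h4 : ∑' l : ℕ+, F (k + 1) l = ∑' l : ℕ, F (k + 1) l := by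
    have h5 := tsum_zero_pnat_eq_tsum_nat (f := fun l => F (k + 1) l) hs2
    rw [← h5]
    simp [hF, hβ0]
  rw [h4]

end Pool.Agent.Helper54.CN
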