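import Pool.Agent.Helper54.CN.Chain

/-!
Character sums in the case `n ≡ 0`.
-/

namespace Pool.Agent.Helper54.CN

open Finset QuadraticAlgebra

section general

variable {q : ℕ} [NeZero q] {F : Type*} [CommRing F]

/-- weight as function on residues -/
noncomputable def sz (F : Type*) [CommRing F] (z : ZMod q) : F := ((ss q z.val : ℤ) : F)

/-- weight as function on residues -/
noncomputable def bz (F : Type*) [CommRing F] (z : ZMod q) : F :=
  (((z.val : ℤ) ^ 2 - q * z.val : ℤ) : F)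

theorem sz_neg (z : ZMod q) : sz F (-z) = - sz F z := by
  unfold sz ss
  rw [ZMod.neg_val]
  by_cases h : z = 0
  · simp [h]
  · have h1 : z.val ≠ 0 := by rwa [Ne, ZMod.val_eq_zero]
    have h2 := ZMod.val_lt z
    rw [if_neg h]
    rw [if_neg (by omega), if_neg h1]
    push_cast [Nat.cast_sub h2.le]
    ring

theorem sum_even_odd (h2 : IsUnit (2 : F)) (f : ZMod q → F) (hf : ∀ y, f (-y) = f y) :
    ∑ y, f y * sz F y = 0 := by
  have e1 : ∑ y : ZMod q, f y * sz F y = ∑ y : ZMod q, f (-y) * sz F (-y) :=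
    (Equiv.sum_comp (Equiv.neg (ZMod q)) (fun y => f y * sz F y)).symm
  simp only [hf, sz_neg, mul_neg, Finset.sum_neg_distrib] at e1
  have e2 : (2 : F) * ∑ y : ZMod q, f y * sz F y = 0 := by linear_combination e1
  exact (h2.mul_right_eq_zero).1 e2

variable (χ : ZMod q →* F)

/-- Jacobi type sum -/
noncomputable def Jac (a : ZMod q) : F := ∑ t : ZMod q, χ (1 + a * t ^ 2)

theorem Jac_sq (a : ZMod q) (c : (ZMod q)ˣ) : Jac χ (a * c ^ 2) = Jac χ a := by
  unfold Jac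
  rw [← Equiv.sum_comp (Units.mulLeft c) (fun t => χ (1 + a * t ^ 2))]
  apply Finset.sum_congr rfl
  intro t _
  simp only [Units.mulLeft_apply]
  congr 1
  ring

theorem sum_t_sq (a : ZMod q) (ha : IsUnit a) : ∑ t : ZMod q, χ (t ^ 2 + a) = χ a * Jac χ a := by
  obtain ⟨u, rfl⟩ := ha
  unfold Jac
  rw [Finset.mul_sum, ← Equiv.sum_comp (Units.mulLeft u) (fun t => χ (t ^ 2 + u))]
  apply Finset.sum_congr rfl
  intro t _
  simp only [Units.mulLeft_apply]
  rw [← map_mul]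
  congr 1
  ring

theorem inner_x (hnu : ∀ z, ¬ IsUnit z → χ z = 0)
    (hc : ∀ x : ZMod q, ¬ IsUnit x → ∃ c : (ZMod q)ˣ, (c : ZMod q) * x = x ∧
      IsUnit (1 - χ c ^ 2)) (a x : ZMod q) :
    ∑ y : ZMod q, χ (x ^ 2 + a * y ^ 2) = χ x ^ 2 * Jac χ a := by
  by_cases hx : IsUnit x
  · obtain ⟨u, rfl⟩ := hx
    unfold Jac
    rw [Finset.mul_sum, ← Equiv.sum_comp (Units.mulLeft u) (fun t => χ ((u : ZMod q) ^ 2 + a * t ^ 2))]
    apply Finset.sum_congr rfl
    intro t _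
    simp only [Units.mulLeft_apply]
    rw [← map_pow, ← map_mul]
    congr 1
    ring
  · obtain ⟨c, hcx, hcu⟩ := hc x hx
    rw [hnu x hx]
    have e1 : ∑ y : ZMod q, χ (x ^ 2 + a * y ^ 2)
        = χ c ^ 2 * ∑ y : ZMod q, χ (x ^ 2 + a * y ^ 2) := by
      conv_lhs => rw [← Equiv.sum_comp (Units.mulLeft c) (fun t => χ (x ^ 2 + a * t ^ 2))]
      rw [Finset.mul_sum]
      apply Finset.sum_congr rfl
      intro t _
      simp only [Units.mulLeft_apply]
      rw [← map_pow, ← map_mul]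
      congr 1
      have h1 : (c : ZMod q) ^ 2 * x ^ 2 = x ^ 2 := by
        rw [← mul_pow, hcx]
      linear_combination -h1
    have e2 : (1 - χ c ^ 2) * ∑ y : ZMod q, χ (x ^ 2 + a * y ^ 2) = 0 := by
      linear_combination e1
    rw [(hcu.mul_right_eq_zero).1 e2]
    simp

theorem inner_y (hnu : ∀ z, ¬ IsUnit z → χ z = 0)
    (hc : ∀ x : ZMod q, ¬ IsUnit x → ∃ c : (ZMod q)ˣ, (c : ZMod q) * x = x ∧
      IsUnit (1 - χ c ^ 2)) (a y : ZMod q) (ha : IsUnit a) :
    ∑ x : ZMod q, χ (x ^ 2 + a * y ^ 2) = χ y ^ 2 * (χ a * Jac χ a) := by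
  by_cases hy : IsUnit y
  · obtain ⟨u, rfl⟩ := hy
    rw [← sum_t_sq χ a ha]
    rw [Finset.mul_sum, ← Equiv.sum_comp (Units.mulLeft u) (fun t => χ (t ^ 2 + a * (u : ZMod q) ^ 2))]
    apply Finset.sum_congr rfl
    intro t _
    simp only [Units.mulLeft_apply]
    rw [← map_pow, ← map_mul]
    congr 1
    ring
  · obtain ⟨c, hcx, hcu⟩ := hc y hy
    rw [hnu y hy]
    have e1 : ∑ x : ZMod q, χ (x ^ 2 + a * y ^ 2)
        = χ c ^ 2 * ∑ x : ZMod q, χ (x ^ 2 + a * y ^ 2) := by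
      conv_lhs => rw [← Equiv.sum_comp (Units.mulLeft c) (fun t => χ (t ^ 2 + a * y ^ 2))]
      rw [Finset.mul_sum]
      apply Finset.sum_congr rfl
      intro t _
      simp only [Units.mulLeft_apply]
      rw [← map_pow, ← map_mul]
      congr 1
      have h1 : (c : ZMod q) ^ 2 * y ^ 2 = y ^ 2 := by
        rw [← mul_pow, hcx]
      linear_combination -a * h1
    have e2 : (1 - χ c ^ 2) * ∑ x : ZMod q, χ (x ^ 2 + a * y ^ 2) = 0 := by
      linear_combination e1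
    rw [(hcu.mul_right_eq_zero).1 e2]
    simp

/-- the character sum in the case `n ≡ 0` -/
theorem n0_formula {a n : ℤ} (h2 : IsUnit (2 : F)) (hnu : ∀ z, ¬ IsUnit z → χ z = 0)
    (hc : ∀ x : ZMod q, ¬ IsUnit x → ∃ c : (ZMod q)ˣ, (c : ZMod q) * x = x ∧
      IsUnit (1 - χ c ^ 2)) (hn : (n : ZMod q) = 0) (ha : IsUnit (a : ZMod q)) :
    ∑ x ∈ range q, ∑ y ∈ range q, χ ((QQ a n x y : ℤ) : ZMod q) * ((WW q a n x y : ℤ) : F)
      = n * (1 + a * χ a) * (Jac χ a * ∑ x : ZMod q, χ x ^ 2 * bz F x) := by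
  have e1 : ∑ x ∈ range q, ∑ y ∈ range q, χ ((QQ a n x y : ℤ) : ZMod q) * ((WW q a n x y : ℤ) : F)
      = ∑ x : ZMod q, ∑ y : ZMod q, χ (x ^ 2 + a * y ^ 2) * (sz F x * sz F y + n * bz F x
        + (a * n : F) * bz F y) := by
    rw [sum_zmod q (fun x => ∑ y : ZMod q, χ (x ^ 2 + a * y ^ 2) * (sz F x * sz F y + n * bz F x
        + (a * n : F) * bz F y))]
    apply Finset.sum_congr rfl
    intro x hx
    rw [sum_zmod q (fun y => χ ((x : ZMod q) ^ 2 + a * y ^ 2) * (sz F (x : ZMod q) * sz F y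
        + n * bz F (x : ZMod q) + (a * n : F) * bz F y))]
    apply Finset.sum_congr rfl
    intro y hy
    rw [mem_range] at hx hy
    have v1 : ((QQ a n x y : ℤ) : ZMod q) = (x : ZMod q) ^ 2 + a * (y : ZMod q) ^ 2 := by
      unfold QQ
      push_cast
      rw [hn]
      ring
    rw [v1]
    congr 1
    unfold sz bz WW
    rw [ZMod.val_cast_of_lt hx, ZMod.val_cast_of_lt hy]
    simp only [Int.cast_add, Int.cast_mul]
  have e2 : ∀ x : ZMod q, ∑ y : ZMod q, χ (x ^ 2 + a * y ^ 2) * (sz F x * sz F y + n * bz F x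
        + (a * n : F) * bz F y)
      = sz F x * (∑ y : ZMod q, χ (x ^ 2 + a * y ^ 2) * sz F y)
        + n * bz F x * (∑ y : ZMod q, χ (x ^ 2 + a * y ^ 2))
        + (a * n : F) * ∑ y : ZMod q, χ (x ^ 2 + a * y ^ 2) * bz F y := by
    intro x
    rw [Finset.mul_sum, Finset.mul_sum, Finset.mul_sum, ← Finset.sum_add_distrib,
      ← Finset.sum_add_distrib]
    apply Finset.sum_congr rfl
    intro y _
    ring
  rw [e1]
  simp only [e2]
  rw [Finset.sum_add_distrib, Finset.sum_add_distrib]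
  have e3 : ∀ x : ZMod q, ∑ y : ZMod q, χ (x ^ 2 + a * y ^ 2) * sz F y = 0 := by
    intro x
    apply sum_even_odd h2 (fun y => χ (x ^ 2 + (a : ZMod q) * y ^ 2))
    intro y
    simp
  have e4 : ∑ x : ZMod q, (a * n : F) * ∑ y : ZMod q, χ (x ^ 2 + a * y ^ 2) * bz F y
      = (a * n : F) * ∑ y : ZMod q, (∑ x : ZMod q, χ (x ^ 2 + a * y ^ 2)) * bz F y := by
    rw [← Finset.mul_sum, Finset.sum_comm]
    congr 1
    apply Finset.sum_congr rfl
    intro y _
    rw [Finset.sum_mul]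
  rw [e4]
  simp only [e3, mul_zero, Finset.sum_const_zero, zero_add, inner_x χ hnu hc,
    inner_y χ hnu hc _ _ ha]
  have e5 : ∑ x : ZMod q, (n : F) * bz F x * (χ x ^ 2 * Jac χ a)
      = n * Jac χ a * ∑ x : ZMod q, χ x ^ 2 * bz F x := by
    rw [Finset.mul_sum]
    apply Finset.sum_congr rfl
    intro x _
    ring
  have e6 : ∑ y : ZMod q, χ y ^ 2 * (χ a * Jac χ a) * bz F y
      = χ a * Jac χ a * ∑ x : ZMod q, χ x ^ 2 * bz F x := by
    rw [Finset.mul_sum]
    apply Finset.sum_congr rfl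
    intro x _
    ring
  rw [e5, e6]
  ring

end general

end Pool.Agent.Helper54.CN
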