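import Pool.Agent.Helper54.CN.NZero

/-!
Numerical evaluation of the character sums in the case `n ≡ 0`.
-/

namespace Pool.Agent.Helper54.CN

open Finset QuadraticAlgebra

/-- accumulating sum -/
def sm (q : ℕ) (f : ℕ → ℕ) : ℕ :=
  Nat.rec (motive := fun _ => ℕ → ℕ) (fun acc => acc)
    (fun i k acc => slet (Nat.add (f i) acc) k) q 0

theorem sm_eq (q : ℕ) (f : ℕ → ℕ) : sm q f = ∑ i ∈ range q, f i := by
  have h : ∀ (q acc : ℕ), Nat.rec (motive := fun _ => ℕ → ℕ) (fun acc => acc)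
      (fun i k acc => slet (Nat.add (f i) acc) k) q acc = acc + ∑ i ∈ range q, f i := by
    intro q
    induction q with
    | zero => intro acc; rfl
    | succ q ih =>
      intro acc
      have e : Nat.rec (motive := fun _ => ℕ → ℕ) (fun acc => acc)
        (fun i k acc => slet (Nat.add (f i) acc) k) (q + 1) acc
        = Nat.rec (motive := fun _ => ℕ → ℕ) (fun acc => acc)
        (fun i k acc => slet (Nat.add (f i) acc) k) q (f q + acc) := rfl
      rw [e, ih, Finset.sum_range_succ]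
      ring
  unfold sm
  rw [h]
  ring

/-- unit test -/
def uOK (r ν x y : ℕ) : Bool :=
  Nat.beq (Nat.gcd (Nat.mod (Nat.add (Nat.mul x x) (Nat.mul (Nat.sub r (Nat.mod ν r))
    (Nat.mul y y))) r) r) 1

theorem uOK_unit {r ν x y : ℕ} (hr : 0 < r) (h : uOK r ν x y = true) : IsUnit (fp r ν x y) := by
  unfold uOK at h
  rw [beq_iff'] at h
  have h1 : Nat.Coprime ((x * x + (r - ν % r) * (y * y)) % r) r := h
  have h2 : IsUnit (((x * x + (r - ν % r) * (y * y)) % r : ℕ) : ZMod r) :=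
    (ZMod.isUnit_iff_coprime _ _).2 h1
  rw [ZMod.natCast_mod] at h2
  have hνr : ν % r ≤ r := (Nat.mod_lt _ hr).le
  push_cast [Nat.cast_sub hνr] at h2
  rw [ZMod.natCast_self, ZMod.natCast_mod, zero_sub] at h2
  obtain ⟨u, hu⟩ := h2
  have h3 : fp r ν x y * (⟨(x : ZMod r) * ↑u⁻¹, -(y : ZMod r) * ↑u⁻¹⟩ : FF r ν) = 1 := by
    have hu' : (u : ZMod r) * ↑u⁻¹ = 1 := u.mul_inv
    rw [hu] at hu'
    unfold fp
    ext
    · simp only [re_mul, re_one]
      linear_combination hu'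
    · simp only [im_mul, im_one]
      ring
  exact IsUnit.of_mul_eq_one _ h3

/-- first digit sum for the Jacobi type sum -/
def jd0 (q T a0 : ℕ) : ℕ := sm q fun t =>
  Nat.mod (lk T (Nat.mod (Nat.add 1 (Nat.mul a0 (Nat.mul t t))) q)) 4294967296
/-- second digit sum for the Jacobi type sum -/
def jd1 (q T a0 : ℕ) : ℕ := sm q fun t =>
  Nat.div (lk T (Nat.mod (Nat.add 1 (Nat.mul a0 (Nat.mul t t))) q)) 4294967296
/-- weight -/
def bwt (q r x : ℕ) : ℕ := Nat.mod (Nat.add (Nat.mul x x) (Nat.mul (Nat.sub r (Nat.mod q r)) x)) r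
/-- first digit sum for the weighted sum -/
def bd0 (q r ν T : ℕ) : ℕ := sm q fun x =>
  Nat.mul (bwt q r x) (Nat.mod (mulE r ν (lk T x) (lk T x)) 4294967296)
/-- second digit sum for the weighted sum -/
def bd1 (q r ν T : ℕ) : ℕ := sm q fun x =>
  Nat.mul (bwt q r x) (Nat.div (mulE r ν (lk T x) (lk T x)) 4294967296)

theorem jd_eq {q r ν T : ℕ} [NeZero q] (c : Chr q r ν T) (a0 : ℕ) :
    fp r ν (jd0 q T a0) (jd1 q T a0) = Jac c.χ (a0 : ZMod q) := by
  unfold jd0 jd1 Jac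
  rw [sm_eq, sm_eq, fp_finset_sum, sum_zmod q (fun t => c.χ (1 + (a0 : ZMod q) * t ^ 2))]
  apply Finset.sum_congr rfl
  intro t _
  have h1 : (1 + (a0 : ZMod q) * (t : ZMod q) ^ 2) = (((1 + a0 * (t * t)) % q : ℕ) : ZMod q) := by
    rw [ZMod.natCast_mod]
    push_cast
    ring
  rw [h1, c.tab _ (Nat.mod_lt _ (NeZero.pos q))]
  rfl

theorem bwt_cast {q r ν x : ℕ} (hr : 0 < r) :
    ((bwt q r x : ℕ) : FF r ν) = (((x : ℤ) ^ 2 - q * x : ℤ) : FF r ν) := by
  have h0 : ((r : ℕ) : FF r ν) = 0 := by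
    rw [natCast_fp, ← fp_mod, Nat.mod_self, Nat.zero_mod]
    exact fp_zero r ν
  have h1 : ((bwt q r x : ℕ) : FF r ν) = ((x * x + (r - q % r) * x : ℕ) : FF r ν) := by
    apply natCast_congr
    show ((x * x + (r - q % r) * x) % r) % r = _
    rw [Nat.mod_mod]
  have h2 : ((q % r : ℕ) : FF r ν) = (q : FF r ν) := natCast_congr (Nat.mod_mod _ _)
  rw [h1]
  push_cast [Nat.cast_sub (Nat.mod_lt q hr).le]
  rw [h0, h2]
  ring

theorem bd_eq {q r ν T : ℕ} [NeZero q] (hr : 0 < r) (hrB : r < BB) (c : Chr q r ν T) :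
    fp r ν (bd0 q r ν T) (bd1 q r ν T) = ∑ x : ZMod q, c.χ x ^ 2 * bz (FF r ν) x := by
  unfold bd0 bd1
  rw [sm_eq, sm_eq, fp_finset_sum, sum_zmod q (fun x => c.χ x ^ 2 * bz (FF r ν) x)]
  apply Finset.sum_congr rfl
  intro x hx
  rw [mem_range] at hx
  have h1 : c.χ (x : ZMod q) ^ 2 = fp r ν (mulE r ν (lk T x) (lk T x) % BB)
      (mulE r ν (lk T x) (lk T x) / BB) := by
    rw [sq, c.tab x hx, ← mulE_ev hr hrB]
    rfl
  have h2 : bz (FF r ν) (x : ZMod q) = ((bwt q r x : ℕ) : FF r ν) := by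
    rw [bwt_cast hr]
    unfold bz
    rw [ZMod.val_cast_of_lt hx]
  rw [h1, h2, mul_comm, fp_smul]
  rfl

/-- data for the case `n ≡ 0` -/
structure ND where
  q : ℕ
  r : ℕ
  ν : ℕ
  T : ℕ
  a0 : ℕ
  /-- primes dividing `q` with table of non-residues -/
  ps : List (ℕ × ℕ)
  /-- primes dividing `q` with auxiliary units -/
  cs : List (ℕ × ℕ)

/-- auxiliary unit test -/
def csOK (q r ν T p c : ℕ) : Bool :=
  andB (Nat.beq (Nat.gcd c q) 1) (andB (Nat.ble (Nat.succ c) q)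
  (andB (Nat.beq (Nat.mod (Nat.mul c p) q) (Nat.mod p q))
  (uOK r ν (Nat.sub (Nat.add 1 r) (Nat.mod (mulE r ν (lk T c) (lk T c)) 4294967296))
    (Nat.sub r (Nat.div (mulE r ν (lk T c) (lk T c)) 4294967296)))))

/-- `z` is admissible -/
def admz (ps : List (ℕ × ℕ)) (z : ℕ) : Bool :=
  allL ps fun w => Nat.beq (Nat.mod (Nat.shiftRight w.2 (Nat.mod (Nat.mul (Nat.sub w.1 1) z) w.1))
    2) 1

/-- negation -/
def notB (x : Bool) : Bool := Bool.rec (motive := fun _ => Bool) true false x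

theorem notB_iff {x : Bool} : notB x = true ↔ x = false := by cases x <;> simp [notB]

/-- validity of the data -/
def ND.ok (D : ND) : Bool :=
  andB (allL D.ps fun w => nrOK w.1 w.2)
  (andB (allL D.ps fun w => allB w.1 fun y => notB (Nat.beq (Nat.mod (Nat.mul y y) w.1)
    (Nat.mod (Nat.mul (Nat.sub w.1 1) D.a0) w.1)))
  (andB (allL D.cs fun w => csOK D.q D.r D.ν D.T w.1 w.2)
  (andB (allB D.q fun z => nrmE D.r (lk D.T z))
  (andB (Nat.beq (Nat.gcd D.a0 D.q) 1)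
  (slet (jd0 D.q D.T D.a0) fun j0 => slet (jd1 D.q D.T D.a0) fun j1 =>
    slet (bd0 D.q D.r D.ν D.T) fun b0 => slet (bd1 D.q D.r D.ν D.T) fun b1 =>
    uOK D.r D.ν (Nat.add (Nat.mul j0 b0) (Nat.mul D.ν (Nat.mul j1 b1)))
      (Nat.add (Nat.mul j0 b1) (Nat.mul j1 b0)))))))

/-- all values of the character at admissible residues are outside the prime field -/
def ND.ok2 (D : ND) : Bool :=
  allB D.q fun z => orB (notB (admz D.ps z)) (Nat.ble 1 (Nat.div (lk D.T z) 4294967296))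

end Pool.Agent.Helper54.CN
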