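import Pool.Agent.Helper54.CN.NZero2

/-!
Divisibility of `n` by further primes.
-/

namespace Pool.Agent.Helper54.CN

open Finset QuadraticAlgebra

theorem isSquare_crt {q1 q2 : ℕ} (hc : q1.Coprime q2) {x : ℤ} (h1 : IsSquare (x : ZMod q1))
    (h2 : IsSquare (x : ZMod q2)) : IsSquare (x : ZMod (q1 * q2)) := by
  obtain ⟨u, hu⟩ := h1
  obtain ⟨v, hv⟩ := h2
  refine ⟨(ZMod.chineseRemainder hc).symm (u, v), ?_⟩
  apply (ZMod.chineseRemainder hc).injective
  rw [map_mul, RingEquiv.apply_symm_apply, map_intCast]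
  ext
  · simp [hu]
  · simp [hv]

theorem isSquare_of_primes {x : ℤ} (q : ℕ) (hs : Squarefree q)
    (h : ∀ p, p.Prime → p ∣ q → IsSquare (x : ZMod p)) : IsSquare (x : ZMod q) := by
  induction q using Nat.strong_induction_on with
  | _ q ih =>
    rcases eq_or_ne q 1 with rfl | h1
    · exact ⟨0, Subsingleton.elim _ _⟩
    · set p := q.minFac with hp
      have hpp : p.Prime := Nat.minFac_prime h1
      obtain ⟨s, hqs⟩ := Nat.minFac_dvd q
      rw [← hp] at hqs
      have hs0 : 0 < s := by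
        rcases Nat.eq_zero_or_pos s with h0 | h0
        · rw [h0, mul_zero] at hqs
          rw [hqs] at hs
          exact absurd hs not_squarefree_zero
        · exact h0
      have hcop : p.Coprime s := by
        rw [hqs] at hs
        exact Nat.coprime_of_squarefree_mul hs
      have hs' : Squarefree s := by
        rw [hqs] at hs
        exact hs.of_mul_right
      have h3 := ih s (by
        rw [hqs]
        have := hpp.two_le
        nlinarith) hs' (fun p' hp' hd => h p' hp' (hqs ▸ hd.mul_left p))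
      have h4 := isSquare_crt hcop (h p hpp (hqs ▸ dvd_mul_right p s)) h3
      rw [hqs]
      exact h4

theorem isSquare_mul_of_not {p : ℕ} [Fact p.Prime] {x y : ZMod p} (hx : ¬ IsSquare x)
    (hy : ¬ IsSquare y) : IsSquare (x * y) := by
  have hx0 : x ≠ 0 := by rintro rfl; exact hx (IsSquare.zero)
  have hy0 : y ≠ 0 := by rintro rfl; exact hy (IsSquare.zero)
  rw [← quadraticChar_neg_one_iff_not_isSquare] at hx hy
  rw [← quadraticChar_one_iff_isSquare (mul_ne_zero hx0 hy0), map_mul, hx, hy]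
  norm_num

/-- hypotheses on the data -/
structure NGood (D : ND) : Prop where
  q1 : 1 < D.q
  odd : Odd D.q
  sqf : Squarefree D.q
  pr : D.r.Prime
  r2 : D.r ≠ 2
  small : ∀ p, p.Prime → p ∣ D.q * D.r → p ≤ 97
  chr : Nonempty (Chr D.q D.r D.ν D.T)
  t : tOK D.q D.r D.T = true
  ok : D.ok = true
  hps : ∀ w ∈ D.ps, w.1.Prime ∧ w.1 ∣ D.q
  hps' : ∀ p, p.Prime → p ∣ D.q → ∃ m, (p, m) ∈ D.ps
  hcs : ∀ p, p.Prime → p ∣ D.q → ∃ c, (p, c) ∈ D.cs

theorem Ctx.not_sq {a n : ℤ} (c : Ctx a n) {p : ℕ} (hp : p.Prime) (hp97 : p ≤ 97)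
    (hna : (p : ℤ) ≠ |a|) (hn : (n : ZMod p) = 0) : ¬ IsSquare ((-a : ℤ) : ZMod p) := by
  rintro ⟨y, hy⟩
  have : NeZero p := ⟨hp.ne_zero⟩
  have hb' : 3 * (p : ℤ) + 3 < 2 * (a * n) := by
    have := c.hb
    have : (p : ℤ) ≤ 97 := by exact_mod_cast hp97
    omega
  apply c.h.inert hp hna hb' (y.val : ℤ)
  rw [← ZMod.intCast_zmod_eq_zero_iff_dvd]
  push_cast
  rw [ZMod.natCast_zmod_val, hn]
  push_cast at hy
  linear_combination -hy

theorem Ctx.n0_core {a n : ℤ} (c : Ctx a n) {D : ND} (G : NGood D)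
    (hna : ∀ p, p.Prime → p ∣ D.q * D.r → (p : ℤ) ≠ |a|) (hn : (n : ZMod D.q) = 0) :
    ∃ α < D.q, (a : ZMod D.q) = (α : ℕ) ∧ admz D.ps α = true ∧
      (n : FF D.r D.ν) * (1 + a * ev D.r D.ν (lk D.T α)) = 0 := by
  obtain ⟨χ⟩ := G.chr
  have hNZ : NeZero D.q := ⟨by have := G.q1; omega⟩
  have hr := G.pr.pos
  have hrB : D.r < BB := by
    have := G.small D.r G.pr (dvd_mul_left _ _)
    unfold BB
    omega
  have hok := G.ok
  unfold ND.ok at hok
  simp only [andB_iff, allL_iff, allB_iff, slet_eq, orB_iff, notB_iff, Nat.ble_eq] at hok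
  obtain ⟨o1, o2, o3, o4, o5, o6⟩ := hok
  rw [beq_iff'] at o5
  have hodd2 : ∀ p, p.Prime → p ∣ D.q * D.r → p ≠ 2 := by
    intro p hp hpd hp2
    subst hp2
    rcases (Nat.Prime.dvd_mul hp).1 hpd with h1 | h1
    · have := G.odd
      rw [← Nat.not_even_iff_odd] at this
      exact this (even_iff_two_dvd.2 h1)
    · exact G.r2 ((Nat.prime_dvd_prime_iff_eq hp G.pr).1 h1).symm
  have hbd : ∀ p, p.Prime → p ∣ D.q * D.r → 3 * (p : ℤ) + 3 < 2 * (a * n) := by
    intro p hp hpd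
    have := G.small p hp hpd
    have : (p : ℤ) ≤ 97 := by exact_mod_cast this
    have := c.hb
    omega
  have hcq : D.q.Coprime (Dn a n) := by
    apply c.h.coprime_Dn
    intro p hp hpd
    exact ⟨hodd2 p hp (hpd.mul_right _), hna p hp (hpd.mul_right _), hbd p hp (hpd.mul_right _)⟩
  have hcr : D.r.Coprime (Dn a n) := by
    apply c.h.coprime_Dn
    intro p hp hpd
    exact ⟨hodd2 p hp (hpd.mul_left _), hna p hp (hpd.mul_left _), hbd p hp (hpd.mul_left _)⟩
  have hU2 : IsUnit (2 : FF D.r D.ν) := by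
    have h1 : Nat.Coprime 2 D.r := by
      rw [Nat.coprime_primes Nat.prime_two G.pr]
      exact G.r2.symm
    have := unit_natCast (ν := D.ν) h1
    exact_mod_cast this
  have hUD : IsUnit (Dn a n : FF D.r D.ν) := unit_natCast hcr.symm
  have hv := c.h.vanish G.odd G.sqf hcq hU2 hUD χ.χ (χ.neg_one G.q1 G.pr.one_lt hrB G.t)
    (χ.sum_zero G.t)
  -- `-a` is not a square
  have hnp : ∀ p, p.Prime → p ∣ D.q → (n : ZMod p) = 0 := by
    intro p _ hpd
    have := zmod_down (α := 0) (by simpa using hn) hpd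
    simpa using this
  have hns : ∀ p, p.Prime → p ∣ D.q → ¬ IsSquare ((-a : ℤ) : ZMod p) := fun p hp hpd =>
    c.not_sq hp (G.small p hp (hpd.mul_right _)) (hna p hp (hpd.mul_right _)) (hnp p hp hpd)
  have hns0 : ∀ p, p.Prime → p ∣ D.q → ¬ IsSquare ((-(D.a0 : ℤ) : ℤ) : ZMod p) := by
    rintro p hp hpd ⟨y, hy⟩
    have : NeZero p := ⟨hp.ne_zero⟩
    obtain ⟨m, hm⟩ := G.hps' p hp hpd
    have h1 := o2 (p, m) hm y.val (ZMod.val_lt _)
    have h2 : ¬ (Nat.beq (Nat.mod (Nat.mul y.val y.val) p) (Nat.mod (Nat.mul (Nat.sub p 1) D.a0) p)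
        = true) := by
      simp only at h1
      rw [h1]
      simp
    rw [beq_iff'] at h2
    apply h2
    show y.val * y.val % p = (p - 1) * D.a0 % p
    rw [← ZMod.natCast_eq_natCast_iff']
    push_cast [Nat.cast_sub hp.one_lt.le]
    rw [ZMod.natCast_zmod_val, ← hy, ZMod.natCast_self]
    push_cast
    ring
  -- `a` is a unit
  have haq : IsUnit (a : ZMod D.q) := by
    rw [ZMod.coe_int_isUnit_iff_isCoprime, Int.isCoprime_iff_gcd_eq_one]
    by_contra hne
    obtain ⟨p, hp, hpd⟩ := Nat.exists_prime_and_dvd hne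
    have h1 : p ∣ D.q := by
      have := hpd.trans (Int.gcd_dvd_natAbs_left (D.q : ℤ) a)
      simpa using this
    have h2 : (p : ℤ) ∣ a := by
      have := Int.natCast_dvd.2 (hpd.trans (Int.gcd_dvd_natAbs_right (D.q : ℤ) a))
      exact this
    apply hns p hp h1
    have h3 : ((-a : ℤ) : ZMod p) = 0 := by
      rw [ZMod.intCast_zmod_eq_zero_iff_dvd]
      exact (dvd_neg).2 h2
    rw [h3]
    exact IsSquare.zero
  have ha0q : IsUnit ((D.a0 : ℕ) : ZMod D.q) := (ZMod.isUnit_iff_coprime _ _).2 o5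
  have hsq : IsSquare (((a * D.a0 : ℤ)) : ZMod D.q) := by
    apply isSquare_of_primes D.q G.sqf
    intro p hp hpd
    have : Fact p.Prime := ⟨hp⟩
    have := isSquare_mul_of_not (hns p hp hpd) (hns0 p hp hpd)
    rw [← Int.cast_mul, neg_mul_neg] at this
    exact this
  obtain ⟨d, hd⟩ := hsq
  push_cast at hd
  obtain ⟨u0, hu0⟩ := ha0q
  obtain ⟨ua, hua⟩ := haq
  have hdu : IsUnit d := by
    have : IsUnit (d * d) := by
      rw [← hd, ← hu0, ← hua]
      exact (ua * u0).isUnit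
    exact isUnit_of_mul_isUnit_left this
  obtain ⟨ud, hud⟩ := hdu
  have haa : (a : ZMod D.q) = (D.a0 : ZMod D.q) * ((ud * u0⁻¹ : (ZMod D.q)ˣ) : ZMod D.q) ^ 2 := by
    rw [← hu0, ← hua] at hd ⊢
    rw [← hud] at hd
    push_cast
    have h3 : (u0 : ZMod D.q) * ↑u0⁻¹ = 1 := u0.mul_inv
    have h4 : (ua : ZMod D.q) = ua * (u0 * ↑u0⁻¹) * (u0 * ↑u0⁻¹) := by rw [h3]; ring
    linear_combination h4 + (u0 * (↑u0⁻¹ : ZMod D.q) ^ 2) * hd
  -- auxiliary units
  have hc : ∀ x : ZMod D.q, ¬ IsUnit x → ∃ e : (ZMod D.q)ˣ, (e : ZMod D.q) * x = x ∧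
      IsUnit (1 - χ.χ e ^ 2) := by
    intro x hx
    rw [← ZMod.natCast_zmod_val x, ZMod.isUnit_iff_coprime, Nat.coprime_iff_gcd_eq_one] at hx
    obtain ⟨p, hp, hpd⟩ := Nat.exists_prime_and_dvd hx
    have hpx : p ∣ x.val := hpd.trans (Nat.gcd_dvd_left _ _)
    have hpq : p ∣ D.q := hpd.trans (Nat.gcd_dvd_right _ _)
    obtain ⟨e, he⟩ := G.hcs p hp hpq
    have h1 := o3 (p, e) he
    unfold csOK at h1
    simp only [andB_iff, beq_iff', Nat.ble_eq] at h1
    obtain ⟨e1, e2, e3, e4⟩ := h1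
    have e1' : Nat.Coprime e D.q := e1
    have e3' : ((e * p : ℕ) : ZMod D.q) = (p : ZMod D.q) :=
      (ZMod.natCast_eq_natCast_iff' _ _ _).2 e3
    refine ⟨ZMod.unitOfCoprime e e1', ?_, ?_⟩
    · rw [ZMod.coe_unitOfCoprime]
      obtain ⟨k, hk⟩ := hpx
      rw [← ZMod.natCast_zmod_val x, hk]
      push_cast at e3' ⊢
      linear_combination (k : ZMod D.q) * e3'
    · rw [ZMod.coe_unitOfCoprime]
      have h5 : χ.χ (e : ZMod D.q) ^ 2 = fp D.r D.ν (mulE D.r D.ν (lk D.T e) (lk D.T e) % BB)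
          (mulE D.r D.ν (lk D.T e) (lk D.T e) / BB) := by
        rw [sq, χ.tab e e2, ← mulE_ev hr hrB]
        rfl
      have h6 := uOK_unit hr e4
      have hw0 : mulE D.r D.ν (lk D.T e) (lk D.T e) % BB ≤ 1 + D.r := by
        unfold mulE BB at *
        rw [Nat.add_mul_mod_self_left, Nat.mod_eq_of_lt ((Nat.mod_lt _ hr).trans hrB)]
        exact (Nat.mod_lt _ hr).le.trans (by omega)
      have hw1 : mulE D.r D.ν (lk D.T e) (lk D.T e) / BB ≤ D.r := by
        unfold mulE BB at *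
        rw [Nat.add_mul_div_left _ _ (by norm_num),
          Nat.div_eq_of_lt ((Nat.mod_lt _ hr).trans hrB), zero_add]
        exact (Nat.mod_lt _ hr).le
      have h7 : 1 - χ.χ (e : ZMod D.q) ^ 2 = fp D.r D.ν
          (1 + D.r - mulE D.r D.ν (lk D.T e) (lk D.T e) % BB)
          (D.r - mulE D.r D.ν (lk D.T e) (lk D.T e) / BB) := by
        rw [h5]
        unfold fp
        ext
        · simp only [re_sub, re_one]
          push_cast [Nat.cast_sub hw0]
          rw [ZMod.natCast_self]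
          ring
        · simp only [im_sub, im_one]
          push_cast [Nat.cast_sub hw1]
          rw [ZMod.natCast_self]
      rw [h7]
      exact h6
  rw [n0_formula χ.χ hU2 χ.nu hc hn ⟨ua, hua⟩, haa, Jac_sq, ← jd_eq χ, ← bd_eq hr hrB χ, fp_mul,
    ← haa] at hv
  have hP := uOK_unit hr o6
  have hv2 := (hP.mul_left_eq_zero).1 hv
  -- second coordinate
  set α := (a : ZMod D.q).val with hα
  have hα' : (a : ZMod D.q) = (α : ZMod D.q) := (ZMod.natCast_zmod_val _).symm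
  have hαq : α < D.q := ZMod.val_lt _
  have hadm : admz D.ps α = true := by
    unfold admz
    rw [allL_iff]
    intro w hw
    rw [beq_iff']
    have h1 := o1 w hw
    unfold nrOK at h1
    rw [allB_iff] at h1
    obtain ⟨hwp, hwd⟩ := G.hps w hw
    have h2 := h1 ((w.1 - 1) * α % w.1) (Nat.mod_lt _ hwp.pos)
    rw [orB_iff, beq_iff'] at h2
    rcases h2 with h2 | h2
    · exact h2
    · exfalso
      rw [List.any_eq_true] at h2
      obtain ⟨y, _, hy⟩ := h2
      rw [beq_iff'] at hy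
      apply hns w.1 hwp hwd
      refine ⟨(y : ZMod w.1), ?_⟩
      have hy' : y * y % w.1 = (w.1 - 1) * α % w.1 := hy
      rw [← ZMod.natCast_eq_natCast_iff'] at hy'
      push_cast [Nat.cast_sub hwp.one_lt.le] at hy'
      rw [hy', ZMod.natCast_self]
      push_cast
      have := zmod_down hα' hwd
      rw [this]
      ring
  refine ⟨α, hαq, hα', hadm, ?_⟩
  rw [hα', χ.tab α hαq] at hv2
  exact hv2

theorem Ctx.n0 {a n : ℤ} (c : Ctx a n) {D : ND} (G : NGood D) (h2 : D.ok2 = true)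
    (hna : ∀ p, p.Prime → p ∣ D.q * D.r → (p : ℤ) ≠ |a|) (hn : (n : ZMod D.q) = 0) :
    (n : ZMod D.r) = 0 := by
  obtain ⟨α, hαq, hα', hadm, hv2⟩ := c.n0_core G hna hn
  unfold ND.ok2 at h2
  simp only [allB_iff, orB_iff, notB_iff, Nat.ble_eq] at h2
  have hok := G.ok
  unfold ND.ok at hok
  simp only [andB_iff, allL_iff, allB_iff] at hok
  obtain ⟨_, _, _, o4, _⟩ := hok
  rcases h2 α hαq with h1 | h1
  · rw [hadm] at h1
    exact absurd h1 (by simp)
  · have h2 := nrmE_iff.1 (o4 α hαq)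
    unfold ev fp at hv2
    have h3 := congrArg QuadraticAlgebra.im hv2
    simp only [im_mul, re_mul, re_add, im_add, re_one, im_one, im_zero, re_intCast, im_intCast,
      mul_zero, zero_mul, zero_add, add_zero] at h3
    have : Fact D.r.Prime := ⟨G.pr⟩
    have h4 : (a : ZMod D.r) ≠ 0 := by
      intro h
      rw [ZMod.intCast_zmod_eq_zero_iff_dvd] at h
      have h5 : D.r ∣ a.natAbs := Int.natCast_dvd.1 h
      have h6 := (Nat.prime_dvd_prime_iff_eq G.pr c.h.prime_a).1 h5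
      apply hna D.r G.pr (dvd_mul_left _ _)
      rw [h6]
      exact Int.natCast_natAbs a
    have h5 : ((lk D.T α / BB : ℕ) : ZMod D.r) ≠ 0 := by
      intro h
      rw [ZMod.natCast_eq_zero_iff] at h
      have := Nat.le_of_dvd (by exact h1) h
      omega
    rcases mul_eq_zero.1 h3 with h6 | h6
    · exact h6
    · exact absurd h6 (mul_ne_zero h4 h5)

theorem Ctx.n0_re {a n : ℤ} (c : Ctx a n) {D : ND} (G : NGood D) (hν : D.ν = 0)
    (hna : ∀ p, p.Prime → p ∣ D.q * D.r → (p : ℤ) ≠ |a|) (hn : (n : ZMod D.q) = 0) :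
    ∃ α < D.q, (a : ZMod D.q) = (α : ℕ) ∧ admz D.ps α = true ∧
      ((n : ZMod D.r) = 0 ∨ (1 + a * ((lk D.T α % BB : ℕ) : ZMod D.r) : ZMod D.r) = 0) := by
  obtain ⟨α, hαq, hα', hadm, hv2⟩ := c.n0_core G hna hn
  refine ⟨α, hαq, hα', hadm, ?_⟩
  have : Fact D.r.Prime := ⟨G.pr⟩
  unfold ev fp at hv2
  have h3 := congrArg QuadraticAlgebra.re hv2
  simp only [im_mul, re_mul, re_add, im_add, re_one, im_one, re_zero, re_intCast, im_intCast,
      mul_zero, zero_mul, zero_add, add_zero] at h3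
  exact mul_eq_zero.1 h3

end Pool.Agent.Helper54.CN
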