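import Mathlib

/-!
Numerical evaluation of the character sums, with soundness proof.
-/

namespace Pool.Agent.Helper54.CN

open Finset

/-! ### natural number side -/

/-- digit base -/
def BB : ℕ := 4294967296

/-- table lookup, 64-bit entries -/
def lk (T i : ℕ) : ℕ := Nat.mod (Nat.shiftRight T (Nat.mul 64 i)) 18446744073709551616

/-- digits -/
def dg0 (N : ℕ) : ℕ := Nat.mod N 4294967296
def dg1 (N : ℕ) : ℕ := Nat.mod (Nat.div N 4294967296) 4294967296
def dg2 (N : ℕ) : ℕ := Nat.mod (Nat.div N 18446744073709551616) 4294967296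
def dg3 (N : ℕ) : ℕ := Nat.mod (Nat.div N 79228162514264337593543950336) 4294967296
def dg4 (N : ℕ) : ℕ := Nat.mod (Nat.div N 340282366920938463463374607431768211456) 4294967296
def dg5 (N : ℕ) : ℕ :=
  Nat.mod (Nat.div N 1461501637330902918203684832716283019655932542976) 4294967296

/-- packing of six digits -/
def pk (d0 d1 d2 d3 d4 d5 : ℕ) : ℕ :=
  d0 + 4294967296 * (d1 + 4294967296 * (d2 + 4294967296 * (d3 + 4294967296 * (d4
    + 4294967296 * d5))))

/-- a row of a relation: the point and two packed coefficients -/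
structure Row where
  x : ℕ
  y : ℕ
  X : ℕ
  Y : ℕ

/-- the packed value of the character sum for the class `(A, m)` -/
noncomputable def TOT (q T A m : ℕ) (rows : List Row) : ℕ :=
  List.rec (motive := fun _ => ℕ) 0 (fun R _ acc => Row.rec (motive := fun _ => ℕ)
    (fun x y X Y => (fun w => Nat.add (Nat.add (Nat.mul (Nat.mod w 4294967296) X)
      (Nat.mul (Nat.div w 4294967296) Y)) acc)
      (lk T (Nat.mod (Nat.add (Nat.mul x x) (Nat.mul y (Nat.add (Nat.mul m x) (Nat.mul A y)))) q)))
    R) rows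

theorem TOT_nil (q T A m : ℕ) : TOT q T A m [] = 0 := rfl

theorem TOT_cons (q T A m : ℕ) (R : Row) (rows : List Row) :
    TOT q T A m (R :: rows) =
      (lk T ((R.x * R.x + R.y * (m * R.x + A * R.y)) % q) % BB) * R.X
      + (lk T ((R.x * R.x + R.y * (m * R.x + A * R.y)) % q) / BB) * R.Y
      + TOT q T A m rows := rfl

/-- the packed coefficient sum for the point `(x, y)`; `U` lists units `c` with packed squares -/
noncomputable def KS (q S Bt x y : ℕ) (U : List (ℕ × ℕ)) : ℕ :=
  List.rec (motive := fun _ => ℕ) 0 (fun R _ acc => Prod.rec (motive := fun _ => ℕ)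
    (fun c Z => Nat.add (Nat.mul Z (Nat.add (Nat.mul (lk S (Nat.mod (Nat.mul c x) q))
      (lk S (Nat.mod (Nat.mul c y) q))) (Nat.add (Nat.mul 4294967296
      (lk Bt (Nat.mod (Nat.mul c x) q))) (Nat.mul 18446744073709551616
      (lk Bt (Nat.mod (Nat.mul c y) q)))))) acc) R) U

theorem KS_nil (q S Bt x y : ℕ) : KS q S Bt x y [] = 0 := rfl

theorem KS_cons (q S Bt x y : ℕ) (c : ℕ × ℕ) (U : List (ℕ × ℕ)) :
    KS q S Bt x y (c :: U) = c.2 * (lk S (c.1 * x % q) * lk S (c.1 * y % q)
      + (4294967296 * lk Bt (c.1 * x % q) + 18446744073709551616 * lk Bt (c.1 * y % q)))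
      + KS q S Bt x y U := rfl

theorem dg_pk {d0 d1 d2 d3 d4 d5 : ℕ} (h0 : d0 < BB) (h1 : d1 < BB) (h2 : d2 < BB) (h3 : d3 < BB)
    (h4 : d4 < BB) (h5 : d5 < BB) :
    dg0 (pk d0 d1 d2 d3 d4 d5) = d0 ∧ dg1 (pk d0 d1 d2 d3 d4 d5) = d1 ∧
    dg2 (pk d0 d1 d2 d3 d4 d5) = d2 ∧ dg3 (pk d0 d1 d2 d3 d4 d5) = d3 ∧
    dg4 (pk d0 d1 d2 d3 d4 d5) = d4 ∧ dg5 (pk d0 d1 d2 d3 d4 d5) = d5 := by
  unfold BB at *
  have key : ∀ (u v M : ℕ), u < M → (u + M * v) / M = v ∧ (u + M * v) % M = u := by
    intro u v M h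
    constructor
    · rw [Nat.add_mul_div_left _ _ (by omega), Nat.div_eq_of_lt h, zero_add]
    · rw [Nat.add_mul_mod_self_left, Nat.mod_eq_of_lt h]
  have k0 := key d0 (d1 + 4294967296 * (d2 + 4294967296 * (d3 + 4294967296 * (d4
    + 4294967296 * d5)))) 4294967296 h0
  have k1 := key d1 (d2 + 4294967296 * (d3 + 4294967296 * (d4
    + 4294967296 * d5))) 4294967296 h1
  have k2 := key d2 (d3 + 4294967296 * (d4 + 4294967296 * d5)) 4294967296 h2
  have k3 := key d3 (d4 + 4294967296 * d5) 4294967296 h3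
  have k4 := key d4 d5 4294967296 h4
  have k5 := key d5 0 4294967296 h5
  have e2 : (18446744073709551616 : ℕ) = 4294967296 * 4294967296 := by norm_num
  have e3 : (79228162514264337593543950336 : ℕ) = 4294967296 * 4294967296 * 4294967296 := by
    norm_num
  have e4 : (340282366920938463463374607431768211456 : ℕ)
      = 4294967296 * 4294967296 * 4294967296 * 4294967296 := by norm_num
  have e5 : (1461501637330902918203684832716283019655932542976 : ℕ)
      = 4294967296 * 4294967296 * 4294967296 * 4294967296 * 4294967296 := by norm_num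
  refine ⟨?_, ?_, ?_, ?_, ?_, ?_⟩
  · show pk _ _ _ _ _ _ % 4294967296 = _
    unfold pk
    exact k0.2
  · show pk _ _ _ _ _ _ / 4294967296 % 4294967296 = _
    unfold pk
    rw [k0.1, k1.2]
  · show pk _ _ _ _ _ _ / 18446744073709551616 % 4294967296 = _
    unfold pk
    rw [e2, ← Nat.div_div_eq_div_mul, k0.1, k1.1, k2.2]
  · show pk _ _ _ _ _ _ / 79228162514264337593543950336 % 4294967296 = _
    unfold pk
    rw [e3, ← Nat.div_div_eq_div_mul, ← Nat.div_div_eq_div_mul, k0.1, k1.1, k2.1, k3.2]
  · show pk _ _ _ _ _ _ / 340282366920938463463374607431768211456 % 4294967296 = _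
    unfold pk
    rw [e4, ← Nat.div_div_eq_div_mul, ← Nat.div_div_eq_div_mul, ← Nat.div_div_eq_div_mul,
      k0.1, k1.1, k2.1, k3.1, k4.2]
  · show pk _ _ _ _ _ _ / 1461501637330902918203684832716283019655932542976 % 4294967296 = _
    unfold pk
    rw [e5, ← Nat.div_div_eq_div_mul, ← Nat.div_div_eq_div_mul, ← Nat.div_div_eq_div_mul,
      ← Nat.div_div_eq_div_mul, k0.1, k1.1, k2.1, k3.1, k4.1, Nat.mod_eq_of_lt h5]

/-- every number below `B^6` is packed from its digits -/
theorem pk_dg (N : ℕ) (h : N < 6277101735386680763835789423207666416102355444464034512896) :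
    N = pk (dg0 N) (dg1 N) (dg2 N) (dg3 N) (dg4 N) (dg5 N) := by
  show N = pk (N % 4294967296) (N / 4294967296 % 4294967296)
    (N / 18446744073709551616 % 4294967296)
    (N / 79228162514264337593543950336 % 4294967296)
    (N / 340282366920938463463374607431768211456 % 4294967296)
    (N / 1461501637330902918203684832716283019655932542976 % 4294967296)
  have e2 : (18446744073709551616 : ℕ) = 4294967296 * 4294967296 := by norm_num
  have e3 : (79228162514264337593543950336 : ℕ) = 4294967296 * 4294967296 * 4294967296 := by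
    norm_num
  have e4 : (340282366920938463463374607431768211456 : ℕ)
      = 4294967296 * 4294967296 * 4294967296 * 4294967296 := by norm_num
  have e5 : (1461501637330902918203684832716283019655932542976 : ℕ)
      = 4294967296 * 4294967296 * 4294967296 * 4294967296 * 4294967296 := by norm_num
  rw [e2, e3, e4, e5]
  simp only [← Nat.div_div_eq_div_mul]
  set n1 := N / 4294967296 with h1
  set n2 := n1 / 4294967296 with h2
  set n3 := n2 / 4294967296 with h3
  set n4 := n3 / 4294967296 with h4
  set n5 := n4 / 4294967296 with h5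
  unfold pk
  omega

end Pool.Agent.Helper54.CN
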