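import Pool.Agent.Helper54.CN.Rel

/-!
Semantics of the numerical evaluation.
-/

namespace Pool.Agent.Helper54.CN

open Finset QuadraticAlgebra

/-- the coefficient ring -/
abbrev FF (r ν : ℕ) := QuadraticAlgebra (ZMod r) (ν : ZMod r) 0

/-- element of the coefficient ring from two naturals -/
def fp (r ν x y : ℕ) : FF r ν := ⟨(x : ZMod r), (y : ZMod r)⟩

/-- element of the coefficient ring from a packed pair -/
def ev (r ν w : ℕ) : FF r ν := fp r ν (w % BB) (w / BB)

theorem fp_add (r ν x y x' y' : ℕ) : fp r ν x y + fp r ν x' y' = fp r ν (x + x') (y + y') := by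
  unfold fp
  ext
  · simp
  · simp

theorem fp_mul (r ν x y x' y' : ℕ) :
    fp r ν x y * fp r ν x' y' = fp r ν (x * x' + ν * (y * y')) (x * y' + y * x') := by
  unfold fp
  ext
  · simp only [re_mul]
    push_cast
    ring
  · simp only [im_mul]
    push_cast
    ring

theorem fp_mod (r ν x y : ℕ) : fp r ν (x % r) (y % r) = fp r ν x y := by
  unfold fp
  ext
  · simp only [ZMod.natCast_mod]
  · simp only [ZMod.natCast_mod]

theorem fp_zero (r ν : ℕ) : fp r ν 0 0 = 0 := by
  unfold fp
  ext <;> simp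

theorem fp_one (r ν : ℕ) : fp r ν 1 0 = 1 := by
  unfold fp
  ext <;> simp

theorem fp_smul (r ν c x y : ℕ) : (c : FF r ν) * fp r ν x y = fp r ν (c * x) (c * y) := by
  unfold fp
  ext <;> simp

theorem fp_eq_zero {r ν x y : ℕ} (h : fp r ν x y = 0) : x % r = 0 ∧ y % r = 0 := by
  unfold fp at h
  have h1 := congrArg QuadraticAlgebra.re h
  have h2 := congrArg QuadraticAlgebra.im h
  simp only [re_zero, im_zero] at h1 h2
  rw [ZMod.natCast_eq_zero_iff] at h1 h2
  exact ⟨Nat.mod_eq_zero_of_dvd h1, Nat.mod_eq_zero_of_dvd h2⟩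

theorem fp_congr {r ν x y x' y' : ℕ} (h1 : x % r = x' % r) (h2 : y % r = y' % r) :
    fp r ν x y = fp r ν x' y' := by
  rw [← fp_mod r ν x y, ← fp_mod r ν x' y', h1, h2]

/-- character tables -/
def CT (q r ν T : ℕ) (χ : ZMod q →* FF r ν) : Prop := ∀ z, z < q → χ (z : ZMod q) = ev r ν (lk T z)

/-- bounded loop -/
def allB (n : ℕ) (f : ℕ → Bool) : Bool :=
  Nat.rec (motive := fun _ => Bool) true (fun i acc => Bool.rec (motive := fun _ => Bool)
    false acc (f i)) n

theorem allB_iff {n : ℕ} {f : ℕ → Bool} : allB n f = true ↔ ∀ i, i < n → f i = true := by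
  induction n with
  | zero => simp [allB]
  | succ n ih =>
    have e : allB (n + 1) f = Bool.rec (motive := fun _ => Bool) false (allB n f) (f n) := rfl
    rw [e]
    constructor
    · intro h i hi
      cases hf : f n with
      | false => rw [hf] at h; exact absurd h (by simp)
      | true =>
        rw [hf] at h
        rcases Nat.lt_succ_iff_lt_or_eq.1 hi with h1 | h1
        · exact ih.1 h i h1
        · rw [h1]; exact hf
    · intro h
      rw [h n (Nat.lt_succ_self n)]
      exact ih.2 fun i hi => h i (Nat.lt_succ_of_lt hi)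

/-- list loop -/
def allL {α : Type} (l : List α) (f : α → Bool) : Bool :=
  List.rec (motive := fun _ => Bool) true (fun i _ acc => Bool.rec (motive := fun _ => Bool)
    false acc (f i)) l

theorem allL_iff {α : Type} {l : List α} {f : α → Bool} :
    allL l f = true ↔ ∀ i, i ∈ l → f i = true := by
  induction l with
  | nil => simp [allL]
  | cons x l ih =>
    have e : allL (x :: l) f = Bool.rec (motive := fun _ => Bool) false (allL l f) (f x) := rfl
    rw [e]
    constructor
    · intro h i hi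
      cases hf : f x with
      | false => rw [hf] at h; exact absurd h (by simp)
      | true =>
        rw [hf] at h
        rcases List.mem_cons.1 hi with h1 | h1
        · rw [h1]; exact hf
        · exact ih.1 h i h1
    · intro h
      rw [h x (List.mem_cons_self)]
      exact ih.2 fun i hi => h i (List.mem_cons_of_mem _ hi)

theorem beq_iff' {x y : ℕ} : Nat.beq x y = true ↔ x = y :=
  ⟨Nat.eq_of_beq_eq_true, fun h => h ▸ Nat.beq_refl x⟩

/-- conjunction -/
def andB (x y : Bool) : Bool := Bool.rec (motive := fun _ => Bool) false y x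

theorem andB_iff {x y : Bool} : andB x y = true ↔ x = true ∧ y = true := by
  cases x <;> cases y <;> simp [andB]

/-- product of packed table entries -/
def mulE (r ν u v : ℕ) : ℕ :=
  ((u % 4294967296) * (v % 4294967296) + ν * ((u / 4294967296) * (v / 4294967296))) % r
    + 4294967296 * (((u % 4294967296) * (v / 4294967296)
      + (u / 4294967296) * (v % 4294967296)) % r)

theorem mulE_ev {r ν u v : ℕ} (hr : 0 < r) (hrB : r < BB) :
    ev r ν (mulE r ν u v) = ev r ν u * ev r ν v := by
  unfold ev mulE BB at *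
  set α := (u % 4294967296) * (v % 4294967296)
    + ν * ((u / 4294967296) * (v / 4294967296)) with hα
  set β := (u % 4294967296) * (v / 4294967296) + (u / 4294967296) * (v % 4294967296) with hβ
  have h1 := Nat.mod_lt α hr
  have h2 : (α % r + 4294967296 * (β % r)) % 4294967296 = α % r := by
    rw [Nat.add_mul_mod_self_left, Nat.mod_eq_of_lt (h1.trans hrB)]
  have h3 : (α % r + 4294967296 * (β % r)) / 4294967296 = β % r := by
    rw [Nat.add_mul_div_left _ _ (by norm_num), Nat.div_eq_of_lt (h1.trans hrB), zero_add]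
  rw [h2, h3, fp_mod, fp_mul]

/-- table entry is normalised -/
def nrmE (r w : ℕ) : Bool := andB (Nat.ble (Nat.succ (w % 4294967296)) r)
  (Nat.ble (Nat.succ (w / 4294967296)) r)

theorem nrmE_iff {r w : ℕ} : nrmE r w = true ↔ w % BB < r ∧ w / BB < r := by
  unfold nrmE BB
  rw [andB_iff, Nat.ble_eq, Nat.ble_eq]
  exact Iff.rfl

/-- validity of a character table modulo a prime -/
def pOK (p r ν T : ℕ) : Bool :=
  andB (Nat.beq (lk T 0) 0) (andB (Nat.beq (lk T 1) 1)
    (allB p fun x => allB p fun y => Nat.beq (mulE r ν (lk T x) (lk T y)) (lk T ((x * y) % p))))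

/-- a character with values in the coefficient ring, vanishing at non-units -/
structure Chr (q r ν T : ℕ) where
  χ : ZMod q →* FF r ν
  tab : CT q r ν T χ
  nu : ∀ z, ¬ IsUnit z → χ z = 0

theorem ev_one {r ν : ℕ} : ev r ν 1 = 1 := by
  unfold ev BB
  norm_num
  exact fp_one r ν

theorem ev_zero {r ν : ℕ} : ev r ν 0 = 0 := by
  unfold ev BB
  norm_num
  exact fp_zero r ν

/-- characters modulo primes from tables -/
theorem exists_chr_prime {p r ν T : ℕ} (hp : p.Prime) (hr : 0 < r) (hrB : r < BB)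
    (h : pOK p r ν T = true) : Nonempty (Chr p r ν T) := by
  have : Fact p.Prime := ⟨hp⟩
  unfold pOK at h
  simp only [andB_iff, allB_iff, beq_iff'] at h
  obtain ⟨h0, h1, h2⟩ := h
  let χ : ZMod p →* FF r ν :=
    { toFun := fun z => ev r ν (lk T z.val)
      map_one' := by
        rw [ZMod.val_one, h1]
        exact ev_one
      map_mul' := fun x y => by
        rw [ZMod.val_mul, ← h2 x.val (ZMod.val_lt x) y.val (ZMod.val_lt y), mulE_ev hr hrB] }
  refine ⟨⟨χ, fun z hz => ?_, fun z hz => ?_⟩⟩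
  · show ev r ν (lk T (z : ZMod p).val) = _
    rw [ZMod.val_cast_of_lt hz]
  · have : z = 0 := by
      by_contra h3
      exact hz (IsUnit.mk0 z h3)
    show ev r ν (lk T z.val) = 0
    rw [this, ZMod.val_zero, h0]
    exact ev_zero

/-- validity of a product table -/
def cOK (q1 q2 r ν T1 T2 T : ℕ) : Bool :=
  allB (q1 * q2) fun z => Nat.beq (mulE r ν (lk T1 (z % q1)) (lk T2 (z % q2))) (lk T z)

theorem exists_chr_mul {q1 q2 r ν T1 T2 T : ℕ} [NeZero q1] [NeZero q2] (hr : 0 < r)
    (hrB : r < BB) (h1 : Nonempty (Chr q1 r ν T1)) (h2 : Nonempty (Chr q2 r ν T2))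
    (h : cOK q1 q2 r ν T1 T2 T = true) : Nonempty (Chr (q1 * q2) r ν T) := by
  obtain ⟨c1⟩ := h1
  obtain ⟨c2⟩ := h2
  unfold cOK at h
  simp only [allB_iff, beq_iff'] at h
  have : NeZero (q1 * q2) := ⟨mul_ne_zero (NeZero.ne q1) (NeZero.ne q2)⟩
  let g1 : ZMod (q1 * q2) →* ZMod q1 := (ZMod.castHom (dvd_mul_right q1 q2) (ZMod q1))
  let g2 : ZMod (q1 * q2) →* ZMod q2 := (ZMod.castHom (dvd_mul_left q2 q1) (ZMod q2))
  let χ : ZMod (q1 * q2) →* FF r ν := (c1.χ.comp g1) * (c2.χ.comp g2)
  have hv : ∀ z : ℕ, χ (z : ZMod (q1 * q2)) = c1.χ (z : ZMod q1) * c2.χ (z : ZMod q2) := by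
    intro z
    show c1.χ (g1 z) * c2.χ (g2 z) = _
    have e1 : g1 (z : ZMod (q1 * q2)) = (z : ZMod q1) :=
      map_natCast (ZMod.castHom (dvd_mul_right q1 q2) (ZMod q1)) z
    have e2 : g2 (z : ZMod (q1 * q2)) = (z : ZMod q2) :=
      map_natCast (ZMod.castHom (dvd_mul_left q2 q1) (ZMod q2)) z
    rw [e1, e2]
  refine ⟨⟨χ, fun z hz => ?_, fun z hz => ?_⟩⟩
  · rw [hv, ← h z hz, mulE_ev hr hrB]
    congr 1
    · rw [← c1.tab (z % q1) (Nat.mod_lt _ (NeZero.pos q1)), ZMod.natCast_mod]
    · rw [← c2.tab (z % q2) (Nat.mod_lt _ (NeZero.pos q2)), ZMod.natCast_mod]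
  · have hz' : z = ((z.val : ℕ) : ZMod (q1 * q2)) := (ZMod.natCast_zmod_val z).symm
    rw [hz'] at hz ⊢
    rw [hv]
    by_cases hu1 : IsUnit ((z.val : ℕ) : ZMod q1)
    · by_cases hu2 : IsUnit ((z.val : ℕ) : ZMod q2)
      · exfalso
        apply hz
        rw [ZMod.isUnit_iff_coprime] at hu1 hu2 ⊢
        exact Nat.Coprime.mul_right hu1 hu2
      · rw [c2.nu _ hu2, mul_zero]
    · rw [c1.nu _ hu1, zero_mul]

end Pool.Agent.Helper54.CN
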