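import Pool.Agent.Helper54.CN.Rel2

/-!
Soundness of the numerical evaluation.
-/

namespace Pool.Agent.Helper54.CN

open Finset QuadraticAlgebra

/-- disjunction -/
def orB (x y : Bool) : Bool := Bool.rec (motive := fun _ => Bool) y true x

theorem orB_iff {x y : Bool} : orB x y = true ↔ x = true ∨ y = true := by
  cases x <;> cases y <;> simp [orB]

/-- validity of the table of first weights -/
def sOK (q r S : ℕ) : Bool := andB (Nat.beq (lk S 0) 0)
  (allB q fun z => andB (Nat.ble (Nat.succ (lk S z)) r)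
    (orB (Nat.beq z 0) (Nat.beq ((lk S z + q) % r) ((2 * z) % r))))

/-- validity of the table of second weights -/
def bOK (q r Bt : ℕ) : Bool :=
  allB q fun z => andB (Nat.ble (Nat.succ (lk Bt z)) r)
    (Nat.beq ((lk Bt z + q * z) % r) ((z * z) % r))

/-- spread a packed pair to distance three digits -/
def sp3 (w : ℕ) : ℕ := w % 4294967296 + 79228162514264337593543950336 * (w / 4294967296)

/-- units of `ZMod q` with packed squares of the character -/
def mkU (q r ν T : ℕ) : List (ℕ × ℕ) :=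
  ((List.range q).filter fun c => Nat.beq (Nat.gcd c q) 1).map
    fun c => (c, sp3 (mulE r ν (lk T c) (lk T c)))

theorem sum_units {q : ℕ} [NeZero q] {M : Type*} [AddCommMonoid M] (g : ZMod q → M) :
    ∑ c : (ZMod q)ˣ, g c
      = (((List.range q).filter fun c => Nat.beq (Nat.gcd c q) 1).map
        fun c : ℕ => g (c : ZMod q)).sum := by
  have h1 : (((List.range q).filter fun c => Nat.beq (Nat.gcd c q) 1).map
        fun c : ℕ => g (c : ZMod q)).sum
      = ∑ c ∈ (range q).filter (fun c => Nat.Coprime c q), g (c : ZMod q) := by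
    have e1 : (List.range q).filter (fun c => Nat.beq (Nat.gcd c q) 1)
        = (List.range q).filter (fun c => decide (Nat.Coprime c q)) := by
      apply List.filter_congr
      intro c _
      rw [Bool.eq_iff_iff, beq_iff', decide_eq_true_iff]
    rw [e1]
    rfl
  rw [h1]
  refine Finset.sum_bij (fun c _ => (c : ZMod q).val) ?_ ?_ ?_ ?_
  · intro c _
    rw [Finset.mem_filter, Finset.mem_range]
    refine ⟨ZMod.val_lt _, ?_⟩
    have := c.isUnit
    rw [← ZMod.natCast_zmod_val (c : ZMod q), ZMod.isUnit_iff_coprime] at this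
    exact this
  · intro c _ c' _ h
    exact Units.ext (ZMod.val_injective q h)
  · intro z hz
    rw [Finset.mem_filter, Finset.mem_range] at hz
    have hu : IsUnit ((z : ℕ) : ZMod q) := (ZMod.isUnit_iff_coprime z q).2 hz.2
    obtain ⟨u, hu⟩ := hu
    refine ⟨u, mem_univ _, ?_⟩
    rw [hu, ZMod.val_cast_of_lt hz.1]
  · intro c _
    rw [ZMod.natCast_zmod_val]

theorem pk_add (a0 a1 a2 a3 a4 a5 b0 b1 b2 b3 b4 b5 : ℕ) :
    pk a0 a1 a2 a3 a4 a5 + pk b0 b1 b2 b3 b4 b5
      = pk (a0 + b0) (a1 + b1) (a2 + b2) (a3 + b3) (a4 + b4) (a5 + b5) := by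
  unfold pk; ring

theorem fp_list_sum {α : Type} (r ν : ℕ) (l : List α) (f g : α → ℕ) :
    fp r ν (l.map f).sum (l.map g).sum = (l.map fun c => fp r ν (f c) (g c)).sum := by
  induction l with
  | nil => exact fp_zero r ν
  | cons x l ih =>
    rw [List.map_cons, List.map_cons, List.map_cons, List.sum_cons, List.sum_cons, List.sum_cons,
      ← fp_add, ih]

theorem list_sum_le {α : Type} (l : List α) (f : α → ℕ) (M : ℕ) (h : ∀ x ∈ l, f x ≤ M) :
    (l.map f).sum ≤ l.length * M := by
  induction l with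
  | nil => simp
  | cons x l ih =>
    rw [List.map_cons, List.sum_cons, List.length_cons]
    have h1 := h x List.mem_cons_self
    have h2 := ih fun y hy => h y (List.mem_cons_of_mem _ hy)
    calc f x + (l.map f).sum ≤ M + l.length * M := add_le_add h1 h2
      _ = (l.length + 1) * M := by ring

theorem list_map_mul_sum {α R : Type} [CommRing R] (l : List α) (f : α → R) (c : R) :
    (l.map fun x => c * f x).sum = c * (l.map f).sum := by
  induction l with
  | nil => simp
  | cons x l ih => simp [ih, mul_add]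

theorem list_map_add_sum {α R : Type} [CommRing R] (l : List α) (f g : α → R) :
    (l.map fun x => f x + g x).sum = (l.map f).sum + (l.map g).sum := by
  induction l with
  | nil => simp
  | cons x l ih =>
    simp only [List.map_cons, List.sum_cons, ih]
    ring

section KSsec

variable (q S Bt x y : ℕ)

/-- digits of an element of the unit list -/
def z0 (c : ℕ × ℕ) : ℕ := c.2 % 4294967296

/-- second digit of an element of the unit list -/
def z1 (c : ℕ × ℕ) : ℕ := c.2 / 79228162514264337593543950336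

theorem KS_pk (U : List (ℕ × ℕ))
    (hU : ∀ c ∈ U, c.2 = z0 c + 79228162514264337593543950336 * z1 c) :
    KS q S Bt x y U = pk
      (U.map fun c => z0 c * (lk S (c.1 * x % q) * lk S (c.1 * y % q))).sum
      (U.map fun c => z0 c * lk Bt (c.1 * x % q)).sum
      (U.map fun c => z0 c * lk Bt (c.1 * y % q)).sum
      (U.map fun c => z1 c * (lk S (c.1 * x % q) * lk S (c.1 * y % q))).sum
      (U.map fun c => z1 c * lk Bt (c.1 * x % q)).sum
      (U.map fun c => z1 c * lk Bt (c.1 * y % q)).sum := by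
  induction U with
  | nil => rfl
  | cons c U ih =>
    rw [KS_cons, ih fun c' hc' => hU c' (List.mem_cons_of_mem _ hc')]
    simp only [List.map_cons, List.sum_cons]
    rw [← pk_add]
    congr 1
    have h1 := hU c List.mem_cons_self
    conv_lhs => rw [h1]
    unfold pk
    ring

end KSsec

/-- validity of a row -/
noncomputable def rowOK (q r ν S Bt : ℕ) (U : List (ℕ × ℕ)) (R : Row) : Bool :=
  andB (Nat.ble (Nat.succ R.X) 6277101735386680763835789423207666416102355444464034512896)
  (andB (Nat.beq R.Y (pk (ν * dg3 R.X) (ν * dg4 R.X) (ν * dg5 R.X) (dg0 R.X) (dg1 R.X) (dg2 R.X)))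
  ((fun s => andB (Nat.beq (Nat.mod (dg0 s) r) (dg0 R.X)) (andB (Nat.beq (Nat.mod (dg1 s) r) (dg1 R.X))
    (andB (Nat.beq (Nat.mod (dg2 s) r) (dg2 R.X)) (andB (Nat.beq (Nat.mod (dg3 s) r) (dg3 R.X))
    (andB (Nat.beq (Nat.mod (dg4 s) r) (dg4 R.X)) (Nat.beq (Nat.mod (dg5 s) r) (dg5 R.X)))))))
    (KS q S Bt R.x R.y U)))

/-- all the data of a relation modulo `q` with values in characteristic `r` -/
structure RD where
  q : ℕ
  r : ℕ
  ν : ℕ
  T : ℕ
  S : ℕ
  Bt : ℕ
  U : List (ℕ × ℕ)
  rows : List Row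

/-- validity of the data -/
noncomputable def RD.ok (D : RD) : Bool :=
  andB (Nat.ble (Nat.succ (D.rows.length * (D.r * D.r * (2 + D.ν)))) 4294967296)
  (andB (Nat.ble (Nat.succ (D.U.length * (D.r * D.r * D.r))) 4294967296)
  (andB (sOK D.q D.r D.S) (andB (bOK D.q D.r D.Bt)
  (andB (allB D.q fun z => nrmE D.r (lk D.T z))
  (andB (decide (D.U = mkU D.q D.r D.ν D.T))
  (allL D.rows (rowOK D.q D.r D.ν D.S D.Bt D.U)))))))

/-- the digits of the character sum -/
noncomputable def RD.tot (D : RD) (A m : ℕ) : ℕ := TOT D.q D.T A m D.rows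

theorem TOT_pk (q T A m ν : ℕ) (rows : List Row)
    (hX : ∀ R ∈ rows, R.X = pk (dg0 R.X) (dg1 R.X) (dg2 R.X) (dg3 R.X) (dg4 R.X) (dg5 R.X))
    (hY : ∀ R ∈ rows, R.Y = pk (ν * dg3 R.X) (ν * dg4 R.X) (ν * dg5 R.X) (dg0 R.X) (dg1 R.X)
      (dg2 R.X)) :
    TOT q T A m rows = (fun w : Row → ℕ => pk
      (rows.map fun R => (w R % BB) * dg0 R.X + (w R / BB) * (ν * dg3 R.X)).sum
      (rows.map fun R => (w R % BB) * dg1 R.X + (w R / BB) * (ν * dg4 R.X)).sum
      (rows.map fun R => (w R % BB) * dg2 R.X + (w R / BB) * (ν * dg5 R.X)).sum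
      (rows.map fun R => (w R % BB) * dg3 R.X + (w R / BB) * dg0 R.X).sum
      (rows.map fun R => (w R % BB) * dg4 R.X + (w R / BB) * dg1 R.X).sum
      (rows.map fun R => (w R % BB) * dg5 R.X + (w R / BB) * dg2 R.X).sum)
      (fun R => lk T ((R.x * R.x + R.y * (m * R.x + A * R.y)) % q)) := by
  induction rows with
  | nil => rfl
  | cons R rows ih =>
    rw [TOT_cons, ih (fun c' hc' => hX c' (List.mem_cons_of_mem _ hc'))
      (fun c' hc' => hY c' (List.mem_cons_of_mem _ hc'))]
    simp only [List.map_cons, List.sum_cons]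
    rw [← pk_add]
    congr 1
    have h1 := hX R List.mem_cons_self
    have h2 := hY R List.mem_cons_self
    set w := lk T ((R.x * R.x + R.y * (m * R.x + A * R.y)) % q)
    have h3 : (w % BB) * R.X + (w / BB) * R.Y
        = (w % BB) * pk (dg0 R.X) (dg1 R.X) (dg2 R.X) (dg3 R.X) (dg4 R.X) (dg5 R.X)
          + (w / BB) * pk (ν * dg3 R.X) (ν * dg4 R.X) (ν * dg5 R.X) (dg0 R.X) (dg1 R.X)
            (dg2 R.X) := congrArg₂ (fun u v => (w % BB) * u + (w / BB) * v) h1 h2
    rw [h3]
    unfold pk
    ring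

end Pool.Agent.Helper54.CN
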