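import Pool.Agent.Helper54.CN.Star2

/-!
The main identity.
-/

namespace Pool.Agent.Helper54.CN

open QuadraticAlgebra NumberTheorySymbols Finset Filter Topology

/-- `-1` is represented modulo squarefree moduli prime to the discriminant -/
theorem neg_one_rep (a n : ℤ) (q : ℕ) (hodd : Odd q) (hs : Squarefree q)
    (hc : IsCoprime (q : ℤ) (DD a n)) :
    ∃ x y : ZMod q, x ^ 2 + a * n * x * y + a * y ^ 2 = -1 := by
  induction q using Nat.strong_induction_on with
  | _ q ih =>
    rcases eq_or_ne q 1 with rfl | h1
    · exact ⟨0, 0, Subsingleton.elim _ _⟩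
    · set p := q.minFac with hp
      have hpp : p.Prime := Nat.minFac_prime h1
      have : Fact p.Prime := ⟨hpp⟩
      obtain ⟨s, hqs⟩ := Nat.minFac_dvd q
      rw [← hp] at hqs
      have hs0 : s ≠ 0 := by
        rintro rfl
        rw [mul_zero] at hqs
        rw [hqs] at hodd
        exact (by decide : ¬ Odd 0) hodd
      have hcop : p.Coprime s := by
        rw [hqs] at hs
        exact Nat.coprime_of_squarefree_mul hs
      have hpodd : Odd p := by
        rw [hqs] at hodd
        exact (Nat.odd_mul.1 hodd).1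
      have hsodd : Odd s := by
        rw [hqs] at hodd
        exact (Nat.odd_mul.1 hodd).2
      have hs' : Squarefree s := by
        rw [hqs] at hs
        exact hs.of_mul_right
      have hcs : IsCoprime (s : ℤ) (DD a n) := by
        rw [hqs] at hc
        push_cast at hc
        exact hc.of_mul_left_right
      have hcp : IsCoprime (p : ℤ) (DD a n) := by
        rw [hqs] at hc
        push_cast at hc
        exact hc.of_mul_left_left
      obtain ⟨x2, y2, h2⟩ := ih s (by
        rw [hqs]
        have := hpp.two_le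
        have : 0 < s := Nat.pos_of_ne_zero hs0
        nlinarith) hsodd hs' hcs
      -- the prime case
      have hprime : ∃ x y : ZMod p, x ^ 2 + a * n * x * y + a * y ^ 2 = -1 := by
        have hp2 : (2 : ZMod p) ≠ 0 := by
          intro h
          have h3 : ((2 : ℕ) : ZMod p) = 0 := by exact_mod_cast h
          rw [ZMod.natCast_eq_zero_iff] at h3
          have := (Nat.prime_dvd_prime_iff_eq hpp Nat.prime_two).1 h3
          rw [this] at hpodd
          exact (by decide : ¬ Odd 2) hpodd
        have hD : ((DD a n : ℤ) : ZMod p) ≠ 0 := by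
          intro h
          rw [ZMod.intCast_zmod_eq_zero_iff_dvd] at h
          have h3 := hcp.isUnit_of_dvd' (dvd_refl _) h
          rw [Int.isUnit_iff] at h3
          have := hpp.one_lt
          omega
        have hD4 : -((DD a n : ℤ) : ZMod p) / 4 ≠ 0 := by
          apply div_ne_zero (neg_ne_zero.2 hD)
          have : (4 : ZMod p) = 2 * 2 := by norm_num
          rw [this]
          exact mul_ne_zero hp2 hp2
        obtain ⟨u, v, huv⟩ := FiniteField.exists_root_sum_quadratic (R := ZMod p)
          (f := Polynomial.X ^ 2 + Polynomial.C 1)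
          (g := Polynomial.C (-((DD a n : ℤ) : ZMod p) / 4) * Polynomial.X ^ 2)
          (Polynomial.degree_X_pow_add_C (by norm_num) _)
          (Polynomial.degree_C_mul_X_pow 2 hD4) (by
            rw [ZMod.card]
            exact Nat.odd_iff.1 hpodd)
        simp only [Polynomial.eval_add, Polynomial.eval_pow, Polynomial.eval_X, Polynomial.eval_C,
          Polynomial.eval_mul] at huv
        refine ⟨u - a * n / 2 * v, v, ?_⟩
        have h4 : (4 : ZMod p) ≠ 0 := by
          have : (4 : ZMod p) = 2 * 2 := by norm_num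
          rw [this]
          exact mul_ne_zero hp2 hp2
        unfold DD at huv
        push_cast at huv
        field_simp at huv ⊢
        linear_combination huv
      obtain ⟨x1, y1, h1'⟩ := hprime
      clear_value p
      subst hqs
      set E := ZMod.chineseRemainder hcop
      refine ⟨E.symm (x1, x2), E.symm (y1, y2), ?_⟩
      apply E.injective
      rw [map_add, map_add, map_pow, map_mul, map_mul, map_mul, map_mul, map_pow, map_neg, map_one,
        E.apply_symm_apply, E.apply_symm_apply, map_intCast, map_intCast]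
      ext
      · simpa using h1'
      · simpa using h2

variable {q : ℕ} [NeZero q]

/-- the sum of an odd function over the values of the form vanishes -/
theorem sum_form_zero {a n : ℤ} (w : ZMod q → ℝ) (hw : ∀ x, w (-x) = - w x)
    (hrep : ∃ x y : ZMod q, x ^ 2 + a * n * x * y + a * y ^ 2 = -1) :
    ∑ x : ZMod q, ∑ y : ZMod q, w (x ^ 2 + a * n * x * y + a * y ^ 2) = 0 := by
  obtain ⟨x0, y0, h0⟩ := hrep
  let E : ZMod q × ZMod q ≃ ZMod q × ZMod q :=
    { toFun := fun p => (x0 * p.1 - a * y0 * p.2, x0 * p.2 + y0 * p.1 + a * n * y0 * p.2)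
      invFun := fun p => (-(x0 + a * n * y0) * p.1 - a * y0 * p.2,
        -(x0 + a * n * y0) * p.2 + y0 * p.1 + a * n * y0 * p.2)
      left_inv := fun p => by
        ext
        · simp only
          linear_combination (-p.1) * h0
        · simp only
          linear_combination (-p.2) * h0
      right_inv := fun p => by
        ext
        · simp only
          linear_combination (-p.1) * h0
        · simp only
          linear_combination (-p.2) * h0 }
  have e1 : ∑ x : ZMod q, ∑ y : ZMod q, w (x ^ 2 + a * n * x * y + a * y ^ 2)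
      = ∑ p : ZMod q × ZMod q, w (p.1 ^ 2 + a * n * p.1 * p.2 + a * p.2 ^ 2) :=
    (Fintype.sum_prod_type' (fun x y => w (x ^ 2 + a * n * x * y + a * y ^ 2))).symm
  rw [e1]
  have e2 := Equiv.sum_comp E (fun p => w (p.1 ^ 2 + a * n * p.1 * p.2 + a * p.2 ^ 2))
  have e3 : ∀ p : ZMod q × ZMod q,
      w ((E p).1 ^ 2 + a * n * (E p).1 * (E p).2 + a * (E p).2 ^ 2)
        = - w (p.1 ^ 2 + a * n * p.1 * p.2 + a * p.2 ^ 2) := by
    intro p
    rw [← hw]
    congr 1
    show (x0 * p.1 - a * y0 * p.2) ^ 2 + a * n * (x0 * p.1 - a * y0 * p.2)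
      * (x0 * p.2 + y0 * p.1 + a * n * y0 * p.2)
      + a * (x0 * p.2 + y0 * p.1 + a * n * y0 * p.2) ^ 2 = _
    linear_combination (p.1 ^ 2 + a * n * p.1 * p.2 + a * p.2 ^ 2) * h0
  simp only [e3, Finset.sum_neg_distrib] at e2
  linarith

/-- addition formula for the first Bernoulli function -/
theorem be1_mul (x y : ZMod q) : be1 x * be1 y = be1 (x + y) * (be1 x + be1 y)
    - (be2 x + be2 y + be2 (x + y)) / 2 - 1 / 4 + (if x = 0 ∧ y = 0 then 1 / 4 else 0) := by
  have hq : (q : ℝ) ≠ 0 := by exact_mod_cast (NeZero.ne q)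
  by_cases hx : x = 0
  · by_cases hy : y = 0
    · subst hx hy
      simp [be1_zero, be2_zero]
    · subst hx
      rw [zero_add, be1_zero, be2_zero, if_neg (by tauto)]
      unfold be1 be2
      rw [if_neg hy]
      ring
  · by_cases hy : y = 0
    · subst hy
      rw [add_zero, be1_zero, be2_zero, if_neg (by tauto)]
      unfold be1 be2
      rw [if_neg hx]
      ring
    · rw [if_neg (by tauto)]
      by_cases hxy : x + y = 0
      · have : y = -x := by linear_combination hxy
        rw [hxy, this, be1_neg, be2_neg, be1_zero, be2_zero]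
        unfold be1 be2
        rw [if_neg hx]
        ring
      · have hv := ZMod.val_add x y
        have hxl := ZMod.val_lt x
        have hyl := ZMod.val_lt y
        unfold be1 be2
        rw [if_neg hx, if_neg hy, if_neg hxy]
        rcases lt_or_ge (x.val + y.val) q with h1 | h1
        · rw [Nat.mod_eq_of_lt h1] at hv
          rw [hv]
          push_cast
          field_simp
          ring
        · have h2 : (x + y).val + q = x.val + y.val := by
            have h3 : (x.val + y.val) % q = x.val + y.val - q := by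
              rw [Nat.mod_eq_sub_mod h1, Nat.mod_eq_of_lt (by omega)]
            rw [hv, h3]
            omega
          have h3 : ((x + y).val : ℝ) = x.val + y.val - q := by
            have : (((x + y).val + q : ℕ) : ℝ) = ((x.val + y.val : ℕ) : ℝ) := by rw [h2]
            push_cast at this
            linarith
          rw [h3]
          field_simp
          ring

/-- shifted first coordinate weight -/
def ss (q x : ℕ) : ℤ := if x = 0 then 0 else 2 * x - q

/-- the weight of the main identity -/
def WW (q : ℕ) (a n : ℤ) (x y : ℕ) : ℤ :=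
  ss q x * ss q y + n * ((x : ℤ) ^ 2 - q * x) + a * n * ((y : ℤ) ^ 2 - q * y)

theorem be_WW {a n : ℤ} (w : ZMod q → ℝ) :
    ∑ x : ZMod q, ∑ y : ZMod q, w (x ^ 2 + a * n * x * y + a * y ^ 2)
      * (be1 x * be1 y + (n : ℝ) / 4 * be2 x + (a * n : ℝ) / 4 * be2 y)
    = (∑ x ∈ range q, ∑ y ∈ range q, w ((QQ a n x y : ℤ) : ZMod q) * WW q a n x y)
      / (4 * q ^ 2) := by
  have hq : (q : ℝ) ≠ 0 := by exact_mod_cast (NeZero.ne q)
  rw [sum_zmod, Finset.sum_div]
  apply Finset.sum_congr rfl
  intro x hx
  rw [sum_zmod, Finset.sum_div]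
  apply Finset.sum_congr rfl
  intro y hy
  have hxl := mem_range.1 hx
  have hyl := mem_range.1 hy
  have hb1 : ∀ z : ℕ, z < q → be1 (z : ZMod q) = (ss q z : ℝ) / (2 * q) := by
    intro z hz
    unfold be1 ss
    by_cases h0 : z = 0
    · simp [h0]
    · rw [if_neg h0, if_neg, ZMod.val_cast_of_lt hz]
      · push_cast
        field_simp
      · intro h1
        apply h0
        have := congrArg ZMod.val h1
        rw [ZMod.val_cast_of_lt hz, ZMod.val_zero] at this
        exact this
  have hb2 : ∀ z : ℕ, z < q → be2 (z : ZMod q) = ((z : ℝ) ^ 2 - q * z) / q ^ 2 := by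
    intro z hz
    unfold be2
    rw [ZMod.val_cast_of_lt hz]
    field_simp
  rw [hb1 x hxl, hb1 y hyl, hb2 x hxl, hb2 y hyl]
  have e1 : (x : ZMod q) ^ 2 + a * n * x * y + a * y ^ 2 = ((QQ a n x y : ℤ) : ZMod q) := by
    unfold QQ
    push_cast
    ring
  rw [e1]
  unfold WW
  push_cast
  field_simp
  ring

variable {a n : ℤ}

theorem cone_pos (h : Hyp a n) (ha : 0 < a) (w : ZMod q → ℝ) (hw : ∀ x, w (-x) = - w x)
    (hrep : ∃ x y : ZMod q, x ^ 2 + a * n * x * y + a * y ^ 2 = -1) :
    Tendsto (fun t : ℝ => ∑' k : ℕ+, w ((k : ℕ) : ZMod q) *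
        ((2 * (Nat.card {z : ℤ × ℤ // z ∈ Dset a n ∧ QQ a n z.1 z.2 = (k : ℕ)} : ℤ) : ℤ) : ℝ)
        * Real.exp (-(t * (k : ℕ)))) (𝓝[>] 0)
      (𝓝 (4 * ∑ x : ZMod q, ∑ y : ZMod q, w (x ^ 2 + a * n * x * y + a * y ^ 2)
      * (be1 x * be1 y + (n : ℝ) / 4 * be2 x + (a * n : ℝ) / 4 * be2 y))) := by
  have hn : 0 < n := by
    rcases h.pos_or_neg with h1 | h1
    · exact h1.2
    · linarith [h1.1]
  have hb := h.big
  have hsz := sum_form_zero w hw hrep
  -- the parametrisation
  have hmem : ∀ x y : ℤ, (x, y) ∈ Dset a n ↔ 0 ≤ y ∧ 0 < n * x + y := by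
    intro x y
    unfold Dset
    simp [Int.sign_eq_one_of_pos ha]
  let f : Bool × ℕ × ℕ → Dset a n := fun p =>
    if hp : p.1 = true then ⟨((p.2.1 : ℤ) + 1, (p.2.2 : ℤ)), by
      rw [hmem]
      exact ⟨by positivity, by positivity⟩⟩
    else ⟨(-(p.2.2 : ℤ), ((p.2.1 : ℤ) + 1) + n * p.2.2), by
      rw [hmem]
      refine ⟨by positivity, ?_⟩
      have : n * -(p.2.2 : ℤ) + ((p.2.1 : ℤ) + 1 + n * p.2.2) = (p.2.1 : ℤ) + 1 := by ring
      rw [this]
      positivity⟩
  have ft : ∀ x y : ℕ, (f (true, x, y)).1 = ((x : ℤ) + 1, (y : ℤ)) := fun x y => rfl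
  have ff : ∀ x y : ℕ, (f (false, x, y)).1 = (-(y : ℤ), ((x : ℤ) + 1) + n * y) := fun x y => rfl
  have hfb : Function.Bijective f := by
    constructor
    · rintro ⟨b, x, y⟩ ⟨b', x', y'⟩ hf
      have hf' := congrArg Subtype.val hf
      cases b <;> cases b'
      · rw [ff, ff] at hf'
        simp only [Prod.mk.injEq] at hf' ⊢
        have : y = y' := by
          have := hf'.1
          omega
        subst this
        refine ⟨trivial, ?_, rfl⟩
        have := hf'.2
        omega
      · rw [ff, ft] at hf'
        simp only [Prod.mk.injEq] at hf'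
        omega
      · rw [ft, ff] at hf'
        simp only [Prod.mk.injEq] at hf'
        omega
      · rw [ft, ft] at hf'
        simp only [Prod.mk.injEq] at hf' ⊢
        exact ⟨trivial, by omega, by omega⟩
    · rintro ⟨⟨x, y⟩, hz⟩
      rw [hmem] at hz
      rcases le_or_gt x 0 with hx | hx
      · refine ⟨(false, (n * x + y - 1).toNat, (-x).toNat), ?_⟩
        apply Subtype.ext
        rw [ff]
        have e1 : (((-x).toNat : ℕ) : ℤ) = -x := Int.toNat_of_nonneg (by omega)
        have e2 : (((n * x + y - 1).toNat : ℕ) : ℤ) = n * x + y - 1 :=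
          Int.toNat_of_nonneg (by omega)
        rw [e1, e2]
        ext
        · simp
        · simp only
          ring
      · refine ⟨(true, (x - 1).toNat, y.toNat), ?_⟩
        apply Subtype.ext
        rw [ft]
        have e1 : (((x - 1).toNat : ℕ) : ℤ) = x - 1 := Int.toNat_of_nonneg (by omega)
        have e2 : ((y.toNat : ℕ) : ℤ) = y := Int.toNat_of_nonneg hz.1
        rw [e1, e2]
        ext
        · simp
        · rfl
  have key := cone_limit h (q := q) w hw (ι := Bool) (fun i => if i then 1 else a)
    (fun _ => a * n) (fun i => if i then a else 1)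
    (fun i => by cases i <;> simp [ha]) (fun i => by linarith)
    (fun i => by cases i <;> simp [ha]) (Equiv.boolNot) (fun i => by cases i <;> rfl)
    (Equiv.ofBijective f hfb) (fun i x y => by
      cases i
      · show QQ a n (f (false, x, y)).1.1 (f (false, x, y)).1.2 = _
        rw [ff]
        unfold QQ
        simp only [Bool.false_eq_true, if_false]
        ring
      · show QQ a n (f (true, x, y)).1.1 (f (true, x, y)).1.2 = _
        rw [ft]
        unfold QQ
        simp only [if_true]
        ring) (fun i => by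
      cases i
      · rw [Finset.sum_comm, ← hsz]
        apply Finset.sum_congr rfl
        intro x _
        apply Finset.sum_congr rfl
        intro y _
        congr 1
        simp only [Bool.false_eq_true, if_false]
        push_cast
        ring
      · rw [← hsz]
        apply Finset.sum_congr rfl
        intro x _
        apply Finset.sum_congr rfl
        intro y _
        congr 1
        simp only [if_true]
        push_cast
        ring)
  have ha' : (a : ℝ) ≠ 0 := by exact_mod_cast ha.ne'
  have hval : (2 * ∑ i : Bool, ∑ x : ZMod q, ∑ y : ZMod q,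
        w ((((if i then 1 else a : ℤ)) : ZMod q) * x ^ 2 + ((a * n : ℤ) : ZMod q) * x * y
          + (((if i then a else 1 : ℤ)) : ZMod q) * y ^ 2) *
        (be1 x * be1 y + ((a * n : ℤ) : ℝ) / (4 * ((if i then a else 1 : ℤ) : ℝ)) * be2 x
          + ((a * n : ℤ) : ℝ) / (4 * ((if i then 1 else a : ℤ) : ℝ)) * be2 y) : ℝ)
      = 4 * ∑ x : ZMod q, ∑ y : ZMod q, w (x ^ 2 + a * n * x * y + a * y ^ 2)
      * (be1 x * be1 y + (n : ℝ) / 4 * be2 x + (a * n : ℝ) / 4 * be2 y) := by
    rw [Fintype.sum_bool]
    simp only [if_true, Bool.false_eq_true, if_false]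
    have e2 : ∑ x : ZMod q, ∑ y : ZMod q,
        w ((a : ZMod q) * x ^ 2 + ((a * n : ℤ) : ZMod q) * x * y + ((1 : ℤ) : ZMod q) * y ^ 2) *
        (be1 x * be1 y + ((a * n : ℤ) : ℝ) / (4 * ((1 : ℤ) : ℝ)) * be2 x
          + ((a * n : ℤ) : ℝ) / (4 * (a : ℝ)) * be2 y)
        = ∑ x : ZMod q, ∑ y : ZMod q, w (x ^ 2 + a * n * x * y + a * y ^ 2)
      * (be1 x * be1 y + (n : ℝ) / 4 * be2 x + (a * n : ℝ) / 4 * be2 y) := by
      rw [Finset.sum_comm]
      apply Finset.sum_congr rfl
      intro x _
      apply Finset.sum_congr rfl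
      intro y _
      congr 1
      · congr 1
        push_cast
        ring
      · push_cast
        field_simp
        ring
    have e3 : ∑ x : ZMod q, ∑ y : ZMod q,
        w (((1 : ℤ) : ZMod q) * x ^ 2 + ((a * n : ℤ) : ZMod q) * x * y + (a : ZMod q) * y ^ 2) *
        (be1 x * be1 y + ((a * n : ℤ) : ℝ) / (4 * (a : ℝ)) * be2 x
          + ((a * n : ℤ) : ℝ) / (4 * ((1 : ℤ) : ℝ)) * be2 y)
        = ∑ x : ZMod q, ∑ y : ZMod q, w (x ^ 2 + a * n * x * y + a * y ^ 2)
      * (be1 x * be1 y + (n : ℝ) / 4 * be2 x + (a * n : ℝ) / 4 * be2 y) := by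
      apply Finset.sum_congr rfl
      intro x _
      apply Finset.sum_congr rfl
      intro y _
      congr 1
      · congr 1
        push_cast
        ring
      · push_cast
        field_simp
    rw [e2, e3]
    ring
  rw [hval] at key
  exact key

end Pool.Agent.Helper54.CN
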