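import Pool.Agent.Helper54.CN.Rel3
import Pool.Agent.Helper54.CN.Star3

/-!
Soundness of the numerical evaluation, main statement.
-/

namespace Pool.Agent.Helper54.CN

open Finset QuadraticAlgebra

theorem natCast_fp (r ν x : ℕ) : (x : FF r ν) = fp r ν x 0 := by
  unfold fp
  ext <;> simp

theorem natCast_congr {r ν x y : ℕ} (h : x % r = y % r) : (x : FF r ν) = y := by
  rw [natCast_fp, natCast_fp]
  exact fp_congr h rfl

theorem sOK_cast {q r ν S z : ℕ} (h : sOK q r S = true) (hz : z < q) :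
    lk S z < r ∧ ((lk S z : ℕ) : FF r ν) = ((ss q z : ℤ) : FF r ν) := by
  unfold sOK at h
  simp only [andB_iff, allB_iff, beq_iff', orB_iff, Nat.ble_eq] at h
  obtain ⟨h0, h1⟩ := h
  obtain ⟨h2, h3⟩ := h1 z hz
  refine ⟨h2, ?_⟩
  unfold ss
  split_ifs with hz0
  · rw [hz0, h0]; simp
  · rcases h3 with h3 | h3
    · exact absurd h3 hz0
    · have := natCast_congr (ν := ν) h3
      push_cast at this ⊢
      linear_combination this

theorem bOK_cast {q r ν Bt z : ℕ} (h : bOK q r Bt = true) (hz : z < q) :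
    lk Bt z < r ∧ ((lk Bt z : ℕ) : FF r ν) = (((z : ℤ) ^ 2 - q * z : ℤ) : FF r ν) := by
  unfold bOK at h
  simp only [andB_iff, allB_iff, beq_iff', Nat.ble_eq] at h
  obtain ⟨h2, h3⟩ := h z hz
  refine ⟨h2, ?_⟩
  have := natCast_congr (ν := ν) h3
  push_cast at this ⊢
  linear_combination this

/-- weights on residues -/
noncomputable def sF (q r ν : ℕ) (z : ZMod q) : FF r ν := ((ss q z.val : ℤ) : FF r ν)
/-- weights on residues -/
noncomputable def bF (q r ν : ℕ) (z : ZMod q) : FF r ν :=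
  (((z.val : ℤ) ^ 2 - q * z.val : ℤ) : FF r ν)

theorem not_coprime_nonunit {q : ℕ} {x y : ZMod q} (A m : ZMod q) (h : ¬ IsCoprime x y) :
    ¬ IsUnit (x * x + y * (m * x + A * y)) := by
  rintro ⟨u, hu⟩
  apply h
  refine ⟨(x + m * y) * ↑u⁻¹, A * y * ↑u⁻¹, ?_⟩
  have h1 : (u : ZMod q) * ↑u⁻¹ = 1 := u.mul_inv
  rw [hu] at h1
  linear_combination h1

theorem sp3_z {w : ℕ} (c : ℕ) : z0 (c, sp3 w) = w % BB ∧ z1 (c, sp3 w) = w / BB ∧
    sp3 w = z0 (c, sp3 w) + 79228162514264337593543950336 * z1 (c, sp3 w) := by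
  unfold z0 z1 sp3 BB
  simp only
  omega

variable {D : RD}

theorem K_eq [NeZero D.q] (hr : 0 < D.r) (hrB : D.r < BB) (c : Chr D.q D.r D.ν D.T)
    (hlen : D.U.length * (D.r * D.r * D.r) < BB)
    (hS : sOK D.q D.r D.S = true) (hB : bOK D.q D.r D.Bt = true)
    (hU : D.U = mkU D.q D.r D.ν D.T) (n m' : FF D.r D.ν) (x y : ℕ) :
    (∑ e : (ZMod D.q)ˣ, c.χ e ^ 2 * (sF D.q D.r D.ν (e * x) * sF D.q D.r D.ν (e * y)
      + n * bF D.q D.r D.ν (e * x) + m' * bF D.q D.r D.ν (e * y)))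
    = fp D.r D.ν (dg0 (KS D.q D.S D.Bt x y D.U)) (dg3 (KS D.q D.S D.Bt x y D.U))
      + n * fp D.r D.ν (dg1 (KS D.q D.S D.Bt x y D.U)) (dg4 (KS D.q D.S D.Bt x y D.U))
      + m' * fp D.r D.ν (dg2 (KS D.q D.S D.Bt x y D.U)) (dg5 (KS D.q D.S D.Bt x y D.U)) := by
  have hUp : ∀ e ∈ D.U, ∃ c : ℕ, e = (c, sp3 (mulE D.r D.ν (lk D.T c) (lk D.T c))) := by
    intro e he
    rw [hU, mkU, List.mem_map] at he
    obtain ⟨c, _, hc⟩ := he
    exact ⟨c, hc.symm⟩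
  have hq0 : 0 < D.q := NeZero.pos _
  -- bounds of the digits
  have hz : ∀ e ∈ D.U, z0 e < D.r ∧ z1 e < D.r ∧
      e.2 = z0 e + 79228162514264337593543950336 * z1 e := by
    intro e he
    obtain ⟨c, rfl⟩ := hUp e he
    obtain ⟨h1, h2, h3⟩ := sp3_z (w := mulE D.r D.ν (lk D.T c) (lk D.T c)) c
    rw [h1, h2] at *
    refine ⟨?_, ?_, h3⟩
    · unfold mulE BB at *
      rw [Nat.add_mul_mod_self_left, Nat.mod_eq_of_lt ((Nat.mod_lt _ hr).trans hrB)]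
      exact Nat.mod_lt _ hr
    · unfold mulE BB at *
      rw [Nat.add_mul_div_left _ _ (by norm_num),
        Nat.div_eq_of_lt ((Nat.mod_lt _ hr).trans hrB), zero_add]
      exact Nat.mod_lt _ hr
  have hSl : ∀ z, lk D.S (z % D.q) < D.r := fun z =>
    (sOK_cast (ν := D.ν) hS (Nat.mod_lt z hq0)).1
  have hBl : ∀ z, lk D.Bt (z % D.q) < D.r := fun z =>
    (bOK_cast (ν := D.ν) hB (Nat.mod_lt z hq0)).1
  have hb3 : ∀ u v w : ℕ, u < D.r → v < D.r → w < D.r → u * (v * w) ≤ D.r * D.r * D.r := by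
    intro u v w h1 h2 h3
    calc u * (v * w) ≤ D.r * (D.r * D.r) :=
          Nat.mul_le_mul h1.le (Nat.mul_le_mul h2.le h3.le)
      _ = D.r * D.r * D.r := by ring
  have hb2 : ∀ u v : ℕ, u < D.r → v < D.r → u * v ≤ D.r * D.r * D.r := by
    intro u v h1 h2
    calc u * v ≤ D.r * D.r := Nat.mul_le_mul h1.le h2.le
      _ = D.r * D.r * 1 := by ring
      _ ≤ D.r * D.r * D.r := Nat.mul_le_mul le_rfl hr
  have hk := KS_pk D.q D.S D.Bt x y D.U (fun e he => (hz e he).2.2)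
  have b0 := (list_sum_le D.U (fun c => z0 c * (lk D.S (c.1 * x % D.q) * lk D.S (c.1 * y % D.q)))
    (D.r * D.r * D.r) (fun e he => hb3 _ _ _ (hz e he).1 (hSl _) (hSl _))).trans_lt hlen
  have b1 := (list_sum_le D.U (fun c => z0 c * lk D.Bt (c.1 * x % D.q))
    (D.r * D.r * D.r) (fun e he => hb2 _ _ (hz e he).1 (hBl _))).trans_lt hlen
  have b2 := (list_sum_le D.U (fun c => z0 c * lk D.Bt (c.1 * y % D.q))
    (D.r * D.r * D.r) (fun e he => hb2 _ _ (hz e he).1 (hBl _))).trans_lt hlen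
  have b3 := (list_sum_le D.U (fun c => z1 c * (lk D.S (c.1 * x % D.q) * lk D.S (c.1 * y % D.q)))
    (D.r * D.r * D.r) (fun e he => hb3 _ _ _ (hz e he).2.1 (hSl _) (hSl _))).trans_lt hlen
  have b4 := (list_sum_le D.U (fun c => z1 c * lk D.Bt (c.1 * x % D.q))
    (D.r * D.r * D.r) (fun e he => hb2 _ _ (hz e he).2.1 (hBl _))).trans_lt hlen
  have b5 := (list_sum_le D.U (fun c => z1 c * lk D.Bt (c.1 * y % D.q))
    (D.r * D.r * D.r) (fun e he => hb2 _ _ (hz e he).2.1 (hBl _))).trans_lt hlen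
  obtain ⟨g0, g1, g2, g3, g4, g5⟩ := dg_pk b0 b1 b2 b3 b4 b5
  rw [hk, g0, g1, g2, g3, g4, g5]
  rw [fp_list_sum, fp_list_sum, fp_list_sum, ← list_map_mul_sum, ← list_map_mul_sum,
    ← list_map_add_sum, ← list_map_add_sum]
  rw [sum_units (fun e : ZMod D.q => c.χ e ^ 2 * (sF D.q D.r D.ν (e * x) * sF D.q D.r D.ν (e * y)
      + n * bF D.q D.r D.ν (e * x) + m' * bF D.q D.r D.ν (e * y)))]
  rw [hU, mkU, List.map_map]
  congr 1
  apply List.map_congr_left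
  intro e he
  have heq : e < D.q := List.mem_range.1 (List.mem_filter.1 he).1
  obtain ⟨h1, h2, h3⟩ := sp3_z (w := mulE D.r D.ν (lk D.T e) (lk D.T e)) e
  simp only [Function.comp_def]
  rw [h1, h2]
  have hχ : c.χ (e : ZMod D.q) ^ 2 = fp D.r D.ν (mulE D.r D.ν (lk D.T e) (lk D.T e) % BB)
      (mulE D.r D.ν (lk D.T e) (lk D.T e) / BB) := by
    rw [sq, c.tab e heq, ← mulE_ev hr hrB]
    rfl
  have hsx : ∀ x : ℕ, sF D.q D.r D.ν ((e : ZMod D.q) * x) = ((lk D.S (e * x % D.q) : ℕ) : FF D.r D.ν)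
      := by
    intro x
    rw [(sOK_cast (ν := D.ν) hS (Nat.mod_lt (e * x) hq0)).2]
    unfold sF
    rw [← Nat.cast_mul, ZMod.val_natCast]
  have hbx : ∀ x : ℕ, bF D.q D.r D.ν ((e : ZMod D.q) * x) = ((lk D.Bt (e * x % D.q) : ℕ) : FF D.r D.ν)
      := by
    intro x
    rw [(bOK_cast (ν := D.ν) hB (Nat.mod_lt (e * x) hq0)).2]
    unfold bF
    rw [← Nat.cast_mul, ZMod.val_natCast]
  rw [hχ, hsx, hsx, hbx, hbx]
  set u := mulE D.r D.ν (lk D.T e) (lk D.T e) % BB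
  set v := mulE D.r D.ν (lk D.T e) (lk D.T e) / BB
  have k1 : ∀ s : ℕ, fp D.r D.ν (u * s) (v * s) = fp D.r D.ν u v * s := by
    intro s
    rw [mul_comm u, mul_comm v, ← fp_smul, mul_comm]
  rw [k1, k1, k1]
  push_cast
  ring

end Pool.Agent.Helper54.CN
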