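import Pool.Agent.Helper54.CN.Star4

/-!
Transfer of the main identity to arbitrary commutative rings.
-/

namespace Pool.Agent.Helper54.CN

open QuadraticAlgebra NumberTheorySymbols Finset

variable {q : ℕ} [NeZero q] {a n : ℤ}

/-- coefficient of the value `z` in the difference of both sides -/
noncomputable def lam (q : ℕ) (a n : ℤ) (z : ZMod q) : ℤ :=
  (∑ j ∈ range q, ∑ l ∈ range (q * Dn a n),
    (if ((j : ZMod q) * (l : ZMod q)) = z then (j : ℤ) * l * J((l : ℤ) | Dn a n) else 0))
  - (Dn a n : ℤ) * ∑ x ∈ range q, ∑ y ∈ range q,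
    (if ((QQ a n x y : ℤ) : ZMod q) = z then WW q a n x y else 0)

theorem lam_sum {F : Type*} [CommRing F] (f : ZMod q → F) :
    ∑ z : ZMod q, f z * (lam q a n z : F)
    = (∑ j ∈ range q, ∑ l ∈ range (q * Dn a n), (j : F) * l * f (j * l) * (J((l : ℤ) | Dn a n) : F))
      - (Dn a n : F) * ∑ x ∈ range q, ∑ y ∈ range q, f ((QQ a n x y : ℤ) : ZMod q)
        * (WW q a n x y : F) := by
  unfold lam
  have e1 : ∀ z : ZMod q, f z * (((∑ j ∈ range q, ∑ l ∈ range (q * Dn a n),
      (if ((j : ZMod q) * (l : ZMod q)) = z then (j : ℤ) * l * J((l : ℤ) | Dn a n) else 0))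
      - (Dn a n : ℤ) * ∑ x ∈ range q, ∑ y ∈ range q,
      (if ((QQ a n x y : ℤ) : ZMod q) = z then WW q a n x y else 0) : ℤ) : F)
      = (∑ j ∈ range q, ∑ l ∈ range (q * Dn a n),
        (if ((j : ZMod q) * (l : ZMod q)) = z then f z * ((j : F) * l * (J((l : ℤ) | Dn a n) : F))
          else 0))
      - (Dn a n : F) * ∑ x ∈ range q, ∑ y ∈ range q,
      (if ((QQ a n x y : ℤ) : ZMod q) = z then f z * (WW q a n x y : F) else 0) := by
    intro z
    push_cast
    rw [mul_sub, Finset.mul_sum]
    congr 1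
    · apply Finset.sum_congr rfl
      intro j _
      rw [Finset.mul_sum]
      apply Finset.sum_congr rfl
      intro l _
      split_ifs <;> simp
    · rw [mul_left_comm, Finset.mul_sum]
      congr 1
      apply Finset.sum_congr rfl
      intro x _
      rw [Finset.mul_sum]
      apply Finset.sum_congr rfl
      intro y _
      split_ifs <;> simp
  simp only [e1]
  rw [Finset.sum_sub_distrib]
  congr 1
  · rw [Finset.sum_comm]
    apply Finset.sum_congr rfl
    intro j _
    rw [Finset.sum_comm]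
    apply Finset.sum_congr rfl
    intro l _
    rw [Finset.sum_ite_eq Finset.univ _ (fun z => f z * ((j : F) * l * (J((l : ℤ) | Dn a n) : F)))]
    simp only [Finset.mem_univ, if_true]
    ring
  · rw [← Finset.mul_sum]
    congr 1
    rw [Finset.sum_comm]
    apply Finset.sum_congr rfl
    intro x _
    rw [Finset.sum_comm]
    apply Finset.sum_congr rfl
    intro y _
    rw [Finset.sum_ite_eq Finset.univ _ (fun z => f z * (WW q a n x y : F))]
    simp only [Finset.mem_univ, if_true]

theorem Hyp.lam_even (h : Hyp a n) (hodd : Odd q) (hs : Squarefree q) (hq : q.Coprime (Dn a n))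
    (z : ZMod q) : lam q a n (-z) = lam q a n z := by
  by_cases hz : z = -z
  · rw [← hz]
  · set w : ZMod q → ℝ := fun x => (if x = z then 1 else 0) - (if x = -z then 1 else 0) with hw
    have hwo : ∀ x, w (-x) = - w x := by
      intro x
      simp only [hw]
      have e1 : (-x = z) ↔ (x = -z) := neg_eq_iff_eq_neg
      have e2 : (-x = -z) ↔ (x = z) := neg_inj
      simp only [e1, e2]
      ring
    have h1 := h.star hodd hs hq w hwo
    have h2 := lam_sum (q := q) (a := a) (n := n) (F := ℝ) w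
    have h3 : ∑ z' : ZMod q, w z' * (lam q a n z' : ℝ) = 0 := by
      rw [h2, sub_eq_zero]
      rw [← h1]
      unfold LL
      rfl
    have h4 : ∑ z' : ZMod q, w z' * (lam q a n z' : ℝ) = lam q a n z - lam q a n (-z) := by
      simp only [hw, sub_mul, ite_mul, one_mul, zero_mul, Finset.sum_sub_distrib,
        Finset.sum_ite_eq', Finset.mem_univ, if_true]
    rw [h4] at h3
    have h5 : (lam q a n (-z) : ℝ) = lam q a n z := by linarith
    exact_mod_cast h5

/-- the identity over a commutative ring in which `2` is invertible -/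
theorem Hyp.star_ring (h : Hyp a n) (hodd : Odd q) (hs : Squarefree q) (hq : q.Coprime (Dn a n))
    {F : Type*} [CommRing F] (h2 : IsUnit (2 : F)) (f : ZMod q → F) (hf : ∀ x, f (-x) = - f x) :
    (∑ j ∈ range q, ∑ l ∈ range (q * Dn a n), (j : F) * l * f (j * l) * (J((l : ℤ) | Dn a n) : F))
      = (Dn a n : F) * ∑ x ∈ range q, ∑ y ∈ range q, f ((QQ a n x y : ℤ) : ZMod q)
        * (WW q a n x y : F) := by
  rw [← sub_eq_zero, ← lam_sum]
  have e1 : ∑ z : ZMod q, f z * (lam q a n z : F) = ∑ z : ZMod q, f (-z) * (lam q a n (-z) : F) :=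
    (Equiv.sum_comp (Equiv.neg (ZMod q)) (fun z => f z * (lam q a n z : F))).symm
  simp only [hf, h.lam_even hodd hs hq, neg_mul, Finset.sum_neg_distrib] at e1
  have e2 : (2 : F) * ∑ z : ZMod q, f z * (lam q a n z : F) = 0 := by linear_combination e1
  exact (h2.mul_right_eq_zero).1 e2

/-- vanishing for characters -/
theorem Hyp.vanish (h : Hyp a n) (hodd : Odd q) (hs : Squarefree q) (hq : q.Coprime (Dn a n))
    {F : Type*} [CommRing F] (h2 : IsUnit (2 : F)) (hD : IsUnit (Dn a n : F))
    (χ : ZMod q →* F) (hχ : χ (-1) = -1) (hS : ∑ j ∈ range q, (j : F) * χ j = 0) :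
    ∑ x ∈ range q, ∑ y ∈ range q, χ ((QQ a n x y : ℤ) : ZMod q) * (WW q a n x y : F) = 0 := by
  have hf : ∀ x, χ (-x) = - χ x := by
    intro x
    rw [neg_eq_neg_one_mul, map_mul, hχ, neg_one_mul]
  have h1 := h.star_ring hodd hs hq h2 (fun x => χ x) hf
  have e1 : (∑ j ∈ range q, ∑ l ∈ range (q * Dn a n), (j : F) * l * χ (j * l)
      * (J((l : ℤ) | Dn a n) : F)) = (∑ j ∈ range q, (j : F) * χ j)
      * ∑ l ∈ range (q * Dn a n), (l : F) * χ l * (J((l : ℤ) | Dn a n) : F) := by
    rw [Finset.sum_mul_sum]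
    apply Finset.sum_congr rfl
    intro j _
    apply Finset.sum_congr rfl
    intro l _
    rw [map_mul]
    ring
  rw [e1, hS, zero_mul] at h1
  exact (hD.mul_right_eq_zero).1 h1.symm

end Pool.Agent.Helper54.CN
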