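import Pool.Agent.Helper54.CN.Rel4
import Pool.Agent.Helper54.CN.Reduce
import Pool.Agent.Helper54.CN.Transfer

/-!
Soundness of the numerical evaluation, conclusion.
-/

namespace Pool.Agent.Helper54.CN

open Finset QuadraticAlgebra

variable {D : RD}

theorem rel_main [NeZero D.q] (hr : 0 < D.r) (hrB : D.r < BB) (c : Chr D.q D.r D.ν D.T)
    (hok : D.ok = true) (hsys : Sys (ZMod D.q) (castL D.q (D.rows.map fun R => (R.x, R.y))))
    {a n : ℤ} {A m : ℕ} (hA : (a : ZMod D.q) = A) (hm : ((a * n : ℤ) : ZMod D.q) = m) :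
    ∑ x ∈ range D.q, ∑ y ∈ range D.q, c.χ ((QQ a n x y : ℤ) : ZMod D.q)
      * ((WW D.q a n x y : ℤ) : FF D.r D.ν)
    = fp D.r D.ν (dg0 (D.tot A m)) (dg3 (D.tot A m))
      + (n : FF D.r D.ν) * fp D.r D.ν (dg1 (D.tot A m)) (dg4 (D.tot A m))
      + ((a * n : ℤ) : FF D.r D.ν) * fp D.r D.ν (dg2 (D.tot A m)) (dg5 (D.tot A m)) := by
  unfold RD.ok at hok
  simp only [andB_iff, allB_iff, allL_iff, Nat.ble_eq, decide_eq_true_iff] at hok
  obtain ⟨hl1, hl2, hS, hB, hT, hU, hrows⟩ := hok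
  have hq0 : 0 < D.q := NeZero.pos _
  -- conversion to residues
  set h : ZMod D.q → ZMod D.q → FF D.r D.ν := fun x y => c.χ (x * x + y * ((m : ZMod D.q) * x + A * y))
    * (sF D.q D.r D.ν x * sF D.q D.r D.ν y + n * bF D.q D.r D.ν x
      + ((a * n : ℤ) : FF D.r D.ν) * bF D.q D.r D.ν y) with hh
  have e1 : ∑ x ∈ range D.q, ∑ y ∈ range D.q, c.χ ((QQ a n x y : ℤ) : ZMod D.q)
      * ((WW D.q a n x y : ℤ) : FF D.r D.ν) = ∑ x, ∑ y, h x y := by
    rw [sum_zmod D.q (fun x => ∑ y, h x y)]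
    apply Finset.sum_congr rfl
    intro x hx
    rw [sum_zmod D.q (fun y => h x y)]
    apply Finset.sum_congr rfl
    intro y hy
    rw [mem_range] at hx hy
    simp only [hh]
    have v1 : ((QQ a n x y : ℤ) : ZMod D.q) = (x : ZMod D.q) * x + y * ((m : ZMod D.q) * x
        + A * y) := by
      rw [← hA, ← hm]
      unfold QQ
      push_cast
      ring
    rw [v1]
    congr 1
    unfold sF bF WW
    rw [ZMod.val_cast_of_lt hx, ZMod.val_cast_of_lt hy]
    simp only [Int.cast_add, Int.cast_mul]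
  rw [e1, hsys (FF D.r D.ν) h (fun x y hxy => by
    simp only [hh]
    rw [c.nu _ (not_coprime_nonunit _ _ hxy), zero_mul])]
  -- rows
  unfold castL
  rw [List.map_map, List.map_map]
  set N := D.tot A m with hN
  set w : Row → ℕ := fun R => lk D.T ((R.x * R.x + R.y * (m * R.x + A * R.y)) % D.q) with hw
  have hrow : ∀ R ∈ D.rows,
      (∑ e : (ZMod D.q)ˣ, h (e * (R.x : ZMod D.q)) (e * (R.y : ZMod D.q)))
      = ev D.r D.ν (w R) * (fp D.r D.ν (dg0 R.X) (dg3 R.X)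
        + n * fp D.r D.ν (dg1 R.X) (dg4 R.X)
        + ((a * n : ℤ) : FF D.r D.ν) * fp D.r D.ν (dg2 R.X) (dg5 R.X)) := by
    intro R hR
    have hR' := hrows R hR
    unfold rowOK at hR'
    simp only [andB_iff, beq_iff', Nat.ble_eq] at hR'
    obtain ⟨_, _, k0, k1, k2, k3, k4, k5⟩ := hR'
    have hK := K_eq hr hrB c hl2 hS hB hU (n : FF D.r D.ν) ((a * n : ℤ) : FF D.r D.ν) R.x R.y
    have t : ∀ e : (ZMod D.q)ˣ, h (e * (R.x : ZMod D.q)) (e * (R.y : ZMod D.q))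
        = ev D.r D.ν (w R) * (c.χ e ^ 2 * (sF D.q D.r D.ν (e * R.x) * sF D.q D.r D.ν (e * R.y)
      + n * bF D.q D.r D.ν (e * R.x) + ((a * n : ℤ) : FF D.r D.ν) * bF D.q D.r D.ν (e * R.y))) := by
      intro e
      have t1 : (e : ZMod D.q) * (R.x : ZMod D.q) * (e * (R.x : ZMod D.q))
          + e * (R.y : ZMod D.q) * ((m : ZMod D.q) * (e * (R.x : ZMod D.q))
            + A * (e * (R.y : ZMod D.q)))
          = e ^ 2 * (((R.x * R.x + R.y * (m * R.x + A * R.y)) % D.q : ℕ) : ZMod D.q) := by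
        rw [ZMod.natCast_mod]
        push_cast
        ring
      simp only [hh]
      rw [t1, map_mul, map_pow, c.tab _ (Nat.mod_lt _ hq0)]
      simp only [hw]
      ring
    simp only [t]
    rw [← Finset.mul_sum, hK]
    have q0 : fp D.r D.ν (dg0 (KS D.q D.S D.Bt R.x R.y D.U)) (dg3 (KS D.q D.S D.Bt R.x R.y D.U))
        = fp D.r D.ν (dg0 R.X) (dg3 R.X) := by
      rw [← fp_mod]; exact congrArg₂ (fp D.r D.ν) k0 k3
    have q1 : fp D.r D.ν (dg1 (KS D.q D.S D.Bt R.x R.y D.U)) (dg4 (KS D.q D.S D.Bt R.x R.y D.U))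
        = fp D.r D.ν (dg1 R.X) (dg4 R.X) := by
      rw [← fp_mod]; exact congrArg₂ (fp D.r D.ν) k1 k4
    have q2 : fp D.r D.ν (dg2 (KS D.q D.S D.Bt R.x R.y D.U)) (dg5 (KS D.q D.S D.Bt R.x R.y D.U))
        = fp D.r D.ν (dg2 R.X) (dg5 R.X) := by
      rw [← fp_mod]; exact congrArg₂ (fp D.r D.ν) k2 k5
    rw [q0, q1, q2]
  have e2 : (List.map (((fun ρ : ZMod D.q × ZMod D.q => ∑ e : (ZMod D.q)ˣ,
        h (e * ρ.1) (e * ρ.2)) ∘ (fun ρ : ℕ × ℕ => ((ρ.1 : ZMod D.q), (ρ.2 : ZMod D.q))))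
        ∘ fun R : Row => (R.x, R.y)) D.rows).sum
      = (D.rows.map fun R => ev D.r D.ν (w R) * fp D.r D.ν (dg0 R.X) (dg3 R.X)
        + (n * (ev D.r D.ν (w R) * fp D.r D.ν (dg1 R.X) (dg4 R.X))
        + ((a * n : ℤ) : FF D.r D.ν) * (ev D.r D.ν (w R) * fp D.r D.ν (dg2 R.X) (dg5 R.X)))).sum := by
    congr 1
    apply List.map_congr_left
    intro R hR
    simp only [Function.comp_def]
    rw [hrow R hR]
    ring
  rw [e2, list_map_add_sum, list_map_add_sum, list_map_mul_sum, list_map_mul_sum]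
  -- digits of the total
  have hX : ∀ R ∈ D.rows, R.X = pk (dg0 R.X) (dg1 R.X) (dg2 R.X) (dg3 R.X) (dg4 R.X) (dg5 R.X) := by
    intro R hR
    have hR' := hrows R hR
    unfold rowOK at hR'
    simp only [andB_iff, beq_iff', Nat.ble_eq] at hR'
    exact pk_dg _ hR'.1
  have hY : ∀ R ∈ D.rows, R.Y = pk (D.ν * dg3 R.X) (D.ν * dg4 R.X) (D.ν * dg5 R.X) (dg0 R.X)
      (dg1 R.X) (dg2 R.X) := by
    intro R hR
    have hR' := hrows R hR
    unfold rowOK at hR'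
    simp only [andB_iff, beq_iff', Nat.ble_eq] at hR'
    exact hR'.2.1
  have hXr : ∀ R ∈ D.rows, dg0 R.X < D.r ∧ dg1 R.X < D.r ∧ dg2 R.X < D.r ∧ dg3 R.X < D.r ∧
      dg4 R.X < D.r ∧ dg5 R.X < D.r := by
    intro R hR
    have hR' := hrows R hR
    unfold rowOK at hR'
    simp only [andB_iff, beq_iff', Nat.ble_eq] at hR'
    obtain ⟨_, _, k0, k1, k2, k3, k4, k5⟩ := hR'
    rw [← k0, ← k1, ← k2, ← k3, ← k4, ← k5]
    exact ⟨Nat.mod_lt _ hr, Nat.mod_lt _ hr, Nat.mod_lt _ hr, Nat.mod_lt _ hr, Nat.mod_lt _ hr,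
      Nat.mod_lt _ hr⟩
  have hwr : ∀ R : Row, w R % BB < D.r ∧ w R / BB < D.r := by
    intro R
    exact nrmE_iff.1 (hT _ (Nat.mod_lt _ hq0))
  have tp := TOT_pk D.q D.T A m D.ν D.rows hX hY
  have bd : ∀ (k : ℕ) (f g : Row → ℕ), k ≤ 1 + D.ν → (∀ R ∈ D.rows, f R < D.r) →
      (∀ R ∈ D.rows, g R < D.r) →
      (D.rows.map fun R => (w R % BB) * f R + (w R / BB) * (k * g R)).sum < BB := by
    intro k f g hk hf hg
    refine lt_of_le_of_lt (list_sum_le D.rows _ (D.r * D.r * (2 + D.ν)) ?_) hl1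
    intro R hR
    calc (w R % BB) * f R + (w R / BB) * (k * g R)
        ≤ D.r * D.r + D.r * ((1 + D.ν) * D.r) :=
          add_le_add (Nat.mul_le_mul (hwr R).1.le (hf R hR).le)
            (Nat.mul_le_mul (hwr R).2.le (Nat.mul_le_mul hk (hg R hR).le))
      _ = D.r * D.r * (2 + D.ν) := by ring
  have b0 := bd D.ν (fun R => dg0 R.X) (fun R => dg3 R.X) (by omega)
    (fun R hR => (hXr R hR).1) (fun R hR => (hXr R hR).2.2.2.1)
  have b1 := bd D.ν (fun R => dg1 R.X) (fun R => dg4 R.X) (by omega)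
    (fun R hR => (hXr R hR).2.1) (fun R hR => (hXr R hR).2.2.2.2.1)
  have b2 := bd D.ν (fun R => dg2 R.X) (fun R => dg5 R.X) (by omega)
    (fun R hR => (hXr R hR).2.2.1) (fun R hR => (hXr R hR).2.2.2.2.2)
  have b3 := bd 1 (fun R => dg3 R.X) (fun R => dg0 R.X) (by omega)
    (fun R hR => (hXr R hR).2.2.2.1) (fun R hR => (hXr R hR).1)
  have b4 := bd 1 (fun R => dg4 R.X) (fun R => dg1 R.X) (by omega)
    (fun R hR => (hXr R hR).2.2.2.2.1) (fun R hR => (hXr R hR).2.1)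
  have b5 := bd 1 (fun R => dg5 R.X) (fun R => dg2 R.X) (by omega)
    (fun R hR => (hXr R hR).2.2.2.2.2) (fun R hR => (hXr R hR).2.2.1)
  simp only [one_mul] at b3 b4 b5
  obtain ⟨g0, g1, g2, g3, g4, g5⟩ := dg_pk b0 b1 b2 b3 b4 b5
  have tp' : N = _ := tp
  rw [tp']
  simp only
  rw [g0, g1, g2, g3, g4, g5, fp_list_sum, fp_list_sum, fp_list_sum]
  have key : ∀ f g : Row → ℕ, (D.rows.map fun R => fp D.r D.ν
      ((w R % BB) * f R + (w R / BB) * (D.ν * g R)) ((w R % BB) * g R + (w R / BB) * f R)).sum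
      = (D.rows.map fun R => ev D.r D.ν (w R) * fp D.r D.ν (f R) (g R)).sum := by
    intro f g
    congr 1
    apply List.map_congr_left
    intro R _
    unfold ev
    rw [fp_mul]
    congr 1
    ring
  rw [key (fun R => dg0 R.X) (fun R => dg3 R.X), key (fun R => dg1 R.X) (fun R => dg4 R.X),
    key (fun R => dg2 R.X) (fun R => dg5 R.X)]
  ring

end Pool.Agent.Helper54.CN
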