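import Pool.Agent.Helper54.CN.Small

/-!
The quadratic order of discriminant `(an)^2 - 4a`.
-/

namespace Pool.Agent.Helper54.CN

open QuadraticAlgebra

/-- the quadratic order `ℤ[ω]`, `ω^2 = -a + a n ω` -/
abbrev RR (a n : ℤ) := QuadraticAlgebra ℤ (-a) (a * n)

/-- the discriminant -/
def DD (a n : ℤ) : ℤ := (a * n) ^ 2 - 4 * a

/-- standing hypotheses -/
structure Hyp (a n : ℤ) : Prop where
  odd_a : Odd a
  odd_n : Odd n
  ha : 3 ≤ |a|
  big : 35 < a * n
  sqf : Squarefree (DD a n)
  pid : IsPrincipalIdealRing (RR a n)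

variable {a n : ℤ}

theorem norm_eq (z : RR a n) : z.norm = QQ a n z.re z.im := by
  rw [norm_def]; unfold QQ; ring

theorem abs_a_le (big : 35 < a * n) : |a| ≤ a * n := by
  have h1 : |a * n| = a * n := abs_of_pos (by linarith)
  rw [← h1, abs_mul]
  have hn : n ≠ 0 := by
    rintro rfl
    simp at big
  have : 1 ≤ |n| := Int.one_le_abs hn
  nlinarith [abs_nonneg a]

theorem DD_gt (big : 35 < a * n) : 1 < DD a n := by
  unfold DD
  have h1 := abs_a_le big
  have h2 := le_abs_self a
  nlinarith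

theorem DD_not_square (sqf : Squarefree (DD a n)) (big : 35 < a * n) (k : ℤ) :
    DD a n ≠ k ^ 2 := by
  intro h
  have h1 : IsUnit k := sqf k (by rw [h, sq])
  have h2 := DD_gt big
  rw [h] at h2
  rcases Int.isUnit_iff.1 h1 with rfl | rfl <;> norm_num at h2

theorem QQ_eq_zero (sqf : Squarefree (DD a n)) (big : 35 < a * n) {x y : ℤ}
    (h : QQ a n x y = 0) : x = 0 ∧ y = 0 := by
  have h4 := four_QQ a n x y
  rw [h] at h4
  have hy : y = 0 := by
    by_contra hy
    have h5 : (2 * x + a * n * y) ^ 2 = DD a n * y ^ 2 := by unfold DD; linarith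
    have h6 : y ∣ 2 * x + a * n * y := by
      rw [← Int.pow_dvd_pow_iff (two_ne_zero)]
      exact ⟨DD a n, by rw [h5]; ring⟩
    obtain ⟨k, hk⟩ := h6
    rw [hk, mul_pow, mul_comm] at h5
    have hy2 : y ^ 2 ≠ 0 := pow_ne_zero 2 hy
    exact DD_not_square sqf big k (mul_right_cancel₀ hy2 h5).symm
  subst hy
  refine ⟨?_, rfl⟩
  have : x ^ 2 = 0 := by
    unfold QQ at h
    linarith
  exact pow_eq_zero_iff (two_ne_zero) |>.1 this

theorem norm_eq_zero' (sqf : Squarefree (DD a n)) (big : 35 < a * n) {z : RR a n}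
    (h : z.norm = 0) : z = 0 := by
  rw [norm_eq] at h
  obtain ⟨h1, h2⟩ := QQ_eq_zero sqf big h
  ext <;> simp [h1, h2]

theorem isDomain_RR (sqf : Squarefree (DD a n)) (big : 35 < a * n) : IsDomain (RR a n) := by
  have : NoZeroDivisors (RR a n) := ⟨by
    intro x y h
    have h1 : x.norm * y.norm = 0 := by rw [← map_mul, h, QuadraticAlgebra.norm_zero]
    rcases mul_eq_zero.1 h1 with h2 | h2
    · exact Or.inl (norm_eq_zero' sqf big h2)
    · exact Or.inr (norm_eq_zero' sqf big h2)⟩
  exact NoZeroDivisors.to_isDomain _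

theorem isUnit_iff' {z : RR a n} : IsUnit z ↔ |z.norm| = 1 := by
  rw [isUnit_iff_norm_isUnit, Int.isUnit_iff_abs_eq]

namespace Hyp

theorem dom (h : Hyp a n) : IsDomain (RR a n) := isDomain_RR h.sqf h.big

/-- a root modulo `l` gives an element of norm `± l` -/
theorem exists_norm_of_root (h : Hyp a n) {l : ℕ} (hl : l.Prime) {x : ℤ}
    (hx : (l : ℤ) ∣ x ^ 2 - a * n * x + a) : ∃ z : RR a n, |z.norm| = l := by
  have := h.dom
  have := h.pid
  have hnl : (l : RR a n).norm = (l : ℤ) ^ 2 := norm_natCast l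
  have hl1 : (1 : ℤ) < l := by exact_mod_cast hl.one_lt
  have hnu : ¬ IsUnit (l : RR a n) := by
    rw [isUnit_iff', hnl, abs_of_nonneg (by positivity)]
    nlinarith
  have hl0 : (l : RR a n) ≠ 0 := by
    intro h0
    rw [h0, QuadraticAlgebra.norm_zero] at hnl
    nlinarith
  have hni : ¬ Irreducible (l : RR a n) := by
    intro hirr
    have hp : Prime (l : RR a n) := hirr.prime
    -- the element x - ω
    set z : RR a n := ⟨x, -1⟩ with hz
    have h1 : (l : RR a n) ∣ z * star z := by
      rw [← algebraMap_norm_eq_mul_star, norm_eq]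
      obtain ⟨k, hk⟩ := hx
      refine ⟨(k : RR a n), ?_⟩
      have : QQ a n z.re z.im = (l : ℤ) * k := by
        rw [← hk, hz]; unfold QQ; ring
      rw [this]
      ext <;> simp
    have key : ∀ w : RR a n, (l : RR a n) ∣ w → (l : ℤ) ∣ w.im := by
      rintro w ⟨v, rfl⟩
      refine ⟨v.im, ?_⟩
      simp
    have hl2 : ¬ (l : ℤ) ∣ 1 := fun hd => by
      have := Int.le_of_dvd one_pos hd
      linarith
    rcases hp.dvd_or_dvd h1 with h2 | h2
    · have := key _ h2
      rw [hz] at this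
      exact hl2 ((dvd_neg).1 this)
    · have := key _ h2
      rw [hz, im_star] at this
      simp only [neg_neg] at this
      exact hl2 this
  rw [irreducible_iff] at hni
  push Not at hni
  obtain ⟨α, β, hαβ, hα, hβ⟩ := hni hnu
  refine ⟨α, ?_⟩
  have h2 : |α.norm| * |β.norm| = (l : ℤ) ^ 2 := by
    rw [← abs_mul, ← map_mul, ← hαβ, hnl, abs_of_nonneg (by positivity)]
  rw [isUnit_iff'] at hα hβ
  have h3 : α.norm.natAbs * β.norm.natAbs = l ^ 2 := by
    have : ((α.norm.natAbs * β.norm.natAbs : ℕ) : ℤ) = ((l ^ 2 : ℕ) : ℤ) := by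
      push_cast
      exact h2
    exact_mod_cast this
  have hα' : α.norm.natAbs ≠ 1 := by
    intro h4
    apply hα
    rw [Int.abs_eq_natAbs, h4]
    rfl
  have hβ' : β.norm.natAbs ≠ 1 := by
    intro h4
    apply hβ
    rw [Int.abs_eq_natAbs, h4]
    rfl
  have h5 := (Nat.Prime.mul_eq_prime_sq_iff hl hα' hβ').1 h3
  rw [Int.abs_eq_natAbs, h5.1]

theorem small (h : Hyp a n) {l : ℕ} (hl : l.Prime) (hla : (l : ℤ) ≠ |a|) {x y : ℤ}
    (hx : |QQ a n x y| = l) : 2 * (a * n) ≤ 3 * l + 3 := by
  have hodd := h.odd_n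
  rcases lt_trichotomy a 0 with ha | ha | ha
  · have hn : n < 0 := by
      by_contra hc
      have := h.big
      nlinarith
    have h1 := small_plus (r := -a) (k := -n) (l := l) (x := x) (y := y)
      (by have := h.ha; rwa [abs_of_neg ha] at this)
      (by linarith) (by
        obtain ⟨j, hj⟩ := hodd
        omega)
      (by have := h.big; linarith) hl (by rwa [abs_of_neg ha] at hla) (by
        simpa using hx)
    linarith
  · have := h.big
    rw [ha] at this
    simp at this
  · have hn : 0 < n := by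
      by_contra hc
      have := h.big
      nlinarith
    exact small_minus (by have := h.ha; rwa [abs_of_pos ha] at this) (by linarith) (by
        obtain ⟨j, hj⟩ := hodd
        omega) h.big hl (by rwa [abs_of_pos ha] at hla) hx

/-- small primes are inert -/
theorem inert (h : Hyp a n) {l : ℕ} (hl : l.Prime) (hla : (l : ℤ) ≠ |a|)
    (hb : 3 * (l : ℤ) + 3 < 2 * (a * n)) (x : ℤ) : ¬ (l : ℤ) ∣ x ^ 2 - a * n * x + a := by
  intro hx
  obtain ⟨z, hz⟩ := h.exists_norm_of_root hl hx
  rw [norm_eq] at hz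
  have := h.small hl hla hz
  linarith

end Hyp

end Pool.Agent.Helper54.CN
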