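import Pool.Agent.Helper54.CN.R51x5
import Pool.Agent.Helper54.CN.R119x3
import Pool.Agent.Helper54.CN.R119x5b
import Pool.Agent.Helper54.CN.R119x5
import Pool.Agent.Helper54.CN.R119x13
import Pool.Agent.Helper54.CN.R105x13
import Pool.Agent.Helper54.CN.R221x3
import Pool.Agent.Helper54.CN.R221x5
import Pool.Agent.Helper54.CN.R221x5b

/-!
The main search.
-/

namespace Pool.Agent.Helper54.CN

/-- admissible pairs -/
def L3 : List (ℕ × ℕ) := [(1, 0), (2, 1), (2, 2)]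

/-- admissible pairs -/
def L5 : List (ℕ × ℕ) := [(1, 1), (1, 4), (2, 0), (2, 2), (2, 3), (3,
  0), (3, 1), (3, 4), (4, 2), (4, 3)]

/-- admissible pairs -/
def L7 : List (ℕ × ℕ) := [(1, 0), (1, 3), (1, 4), (2, 0), (2, 1), (2,
  6), (3, 2), (3, 3), (3, 4), (3, 5), (4, 0), (4, 2), (4, 5), (5, 1), (5, 2), (5, 5), (5, 6),
  (6, 1), (6, 3), (6, 4), (6, 6)]

/-- admissible pairs -/
def L13 : List (ℕ × ℕ) := [(1, 3), (1, 5), (1, 6), (1, 7), (1, 8), (1,
  10), (2, 0), (2, 2), (2, 3), (2, 6), (2, 7), (2, 10), (2, 11), (3, 2), (3, 4), (3, 5), (3,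
  8), (3, 9), (3, 11), (4, 3), (4, 4), (4, 5), (4, 8), (4, 9), (4, 10), (5, 0), (5, 1), (5, 2),
  (5, 5), (5, 8), (5, 11), (5, 12), (6, 0), (6, 4), (6, 5), (6, 6), (6, 7), (6, 8), (6, 9), (7,
  0), (7, 1), (7, 4), (7, 6), (7, 7), (7, 9), (7, 12), (8, 0), (8, 1), (8, 3), (8, 5), (8, 8),
  (8, 10), (8, 12), (9, 1), (9, 2), (9, 6), (9, 7), (9, 11), (9, 12), (10, 1), (10, 3), (10,
  6), (10, 7), (10, 10), (10, 12), (11, 0), (11, 2), (11, 3), (11, 4), (11, 9), (11, 10), (11,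
  11), (12, 1), (12, 2), (12, 4), (12, 9), (12, 11), (12, 12)]

/-- admissible pairs -/
def L17 : List (ℕ × ℕ) := [(1, 1), (1, 3), (1, 4), (1, 7), (1, 10), (1,
  13), (1, 14), (1, 16), (2, 3), (2, 4), (2, 5), (2, 8), (2, 9), (2, 12), (2, 13), (2, 14), (3,
  0), (3, 1), (3, 2), (3, 6), (3, 8), (3, 9), (3, 11), (3, 15), (3, 16), (4, 2), (4, 5), (4,
  7), (4, 8), (4, 9), (4, 10), (4, 12), (4, 15), (5, 0), (5, 1), (5, 2), (5, 4), (5, 5), (5,
  12), (5, 13), (5, 15), (5, 16), (6, 0), (6, 1), (6, 3), (6, 6), (6, 7), (6, 10), (6, 11), (6,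
  14), (6, 16), (7, 0), (7, 3), (7, 5), (7, 7), (7, 8), (7, 9), (7, 10), (7, 12), (7, 14), (8,
  2), (8, 4), (8, 6), (8, 7), (8, 10), (8, 11), (8, 13), (8, 15), (9, 1), (9, 6), (9, 7), (9,
  8), (9, 9), (9, 10), (9, 11), (9, 16), (10, 0), (10, 2), (10, 3), (10, 5), (10, 6), (10, 11),
  (10, 12), (10, 14), (10, 15), (11, 0), (11, 4), (11, 5), (11, 6), (11, 7), (11, 10), (11,
  11), (11, 12), (11, 13), (12, 0), (12, 1), (12, 3), (12, 4), (12, 8), (12, 9), (12, 13), (12,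
  14), (12, 16), (13, 2), (13, 3), (13, 6), (13, 8), (13, 9), (13, 11), (13, 14), (13, 15),
  (14, 0), (14, 2), (14, 4), (14, 7), (14, 8), (14, 9), (14, 10), (14, 13), (14, 15), (15, 1),
  (15, 2), (15, 3), (15, 5), (15, 12), (15, 14), (15, 15), (15, 16), (16, 1), (16, 4), (16, 5),
  (16, 6), (16, 11), (16, 12), (16, 13), (16, 16)]

/-- exceptional classes -/
def surv : List (ℕ × ℕ) := [(23, 1), (23, 23204), (23186, 1),
  (23186, 23204), (2, 20), (2, 23185), (12107, 23), (12107, 23182), (19541, 19), (19541,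
  23186), (11603, 40), (11603, 23165), (2, 13), (2, 23192), (11603, 26), (11603, 23179),
  (11602, 30), (11602, 23175), (16243, 30), (16243, 23175), (23194, 3), (23194, 23202), (18562,
  15), (18562, 23190), (23203, 15), (23203, 23190), (4219, 33), (4219, 23172), (3713, 25),
  (3713, 23180), (9287, 5), (9287, 23200), (18563, 9271), (18563, 13934), (13922, 9293),
  (13922, 13912), (1, 21), (1, 23184)]

/-- final test -/
def fin (α β : ℕ) : Bool := orB (Nat.beq β 0)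
  (List.any surv fun w => andB (Nat.beq w.1 α) (Nat.beq w.2 β))

/-- last step -/
noncomputable def ch4 : ℕ → ℕ → Bool :=
  stp 23205 5356 17850 L13 [R119x13, R105x13] [R221x5b, R221x5, R221x3] fin

/-- third step -/
noncomputable def ch3 : ℕ → ℕ → Bool := stp 1785 1191 595 L3 [R119x3] [R51x5] ch4

/-- second step -/
noncomputable def ch2 : ℕ → ℕ → Bool := stp 595 120 476 L5 [R119x5b, R119x5] [] ch3

/-- first step -/
noncomputable def ch1 : ℕ → ℕ → Bool := stp 119 85 35 L17 [] [] ch2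

end Pool.Agent.Helper54.CN
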