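import Pool.Agent.Helper54.CN.SmallA

/-!
Norms are not small primes, case `a < 0`.
-/

namespace Pool.Agent.Helper54.CN

set_option maxHeartbeats 2000000 in
/-- no small prime is the absolute value of a norm: case `a = -r < 0` -/
theorem small_plus {r k : ℤ} (hr : 3 ≤ r) (hk1 : 1 ≤ k) (hk : k = 1 ∨ 3 ≤ k)
    (hm : 35 < r * k) {l : ℕ} (hl : l.Prime) (hlr : (l : ℤ) ≠ r)
    {x y : ℤ} (h : |QQ (-r) (-k) x y| = l) : 2 * (r * k) ≤ 3 * l + 3 := by
  have hl0 : (0 : ℤ) < l := by exact_mod_cast hl.pos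
  set m := r * k with hmd
  have hT : (2 : ℤ) ≤ r * k ^ 2 + 2 := by nlinarith [sq_nonneg k]
  have hmm : -r * -k = m := by rw [hmd]; ring
  rcases abs_choice (QQ (-r) (-k) x y) with hN | hN
  · -- positive norm
    obtain ⟨U, Y, hU, hY, e, ⟨j, hj⟩, h1, h2⟩ := min_rep (-r) (-k) _ ⟨x, y, rfl⟩
    rw [← hN, h, hmm] at e
    rw [hmm] at hj
    have hkU : 0 ≤ k * U := by positivity
    have h1' : 2 * Y ≤ |k * U - (r * k ^ 2 + 2) * Y| := by
      rw [← abs_neg]
      convert h1 using 2
      ring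
    have alt := min_alt h1'
    have hk2 : k ^ 2 * U ^ 2 = ((r * k ^ 2 + 2) ^ 2 - 4) * Y ^ 2 + 4 * l * k ^ 2 := by
      rw [e, hmd]; ring
    have hY2 : (r * k ^ 2 + 4) * Y ^ 2 ≤ l * k ^ 2 := by
      rcases alt with alt | alt
      · have h3 : ((r * k ^ 2 + 2 + 2) * Y) ^ 2 ≤ (k * U) ^ 2 :=
          pow_le_pow_left₀ (by positivity) alt 2
        linarith
      · exfalso
        have h3 : (k * U) ^ 2 ≤ ((r * k ^ 2 + 2 - 2) * Y) ^ 2 :=
          pow_le_pow_left₀ hkU alt 2
        have h5 : 0 < (l : ℤ) * k ^ 2 := by positivity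
        have h6 : 0 ≤ r * k ^ 2 * Y ^ 2 := by positivity
        linarith
    rcases hY.eq_or_lt with h0 | h0
    · exfalso
      rw [← h0] at e hj
      have : j ^ 2 = l := by
        have h7 : U = 2 * j := by linarith
        rw [h7] at e
        linarith
      exact not_prime_sq hl this
    · have h4 : (m * Y) ^ 2 < U ^ 2 := by rw [e]; linarith [mul_nonneg (by linarith : (0:ℤ) ≤ r) (sq_nonneg Y)]
      have h5 : m * Y < U := lt_of_pow_lt_pow_left₀ 2 hU h4
      have h6 : m * Y + 2 ≤ U := by omega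
      have h7 : (m * Y + 2) ^ 2 ≤ U ^ 2 := pow_le_pow_left₀ (by positivity) h6 2
      have hL : m * Y + 1 ≤ l + r * Y ^ 2 := by linarith
      have hlt : r * Y ^ 2 ≤ l := by
        have h8 : (r * k ^ 2 + 4) * (r * Y ^ 2) ≤ (r * k ^ 2 + 4) * l := by
          have h9 : r * ((r * k ^ 2 + 4) * Y ^ 2) ≤ r * (l * k ^ 2) :=
            mul_le_mul_of_nonneg_left hY2 (by positivity)
          linarith
        exact le_of_mul_le_mul_left h8 (by positivity)
      rcases hk with hk | hk
      · subst hk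
        have hmr : m = r := by rw [hmd]; ring
        have : (r + 4) * 1 ≤ (r + 4) * Y ^ 2 := by
          have h8 : (1 : ℤ) ≤ Y ^ 2 := by nlinarith
          exact mul_le_mul_of_nonneg_left h8 (by linarith)
        linarith
      · have hm3 : 3 * r ≤ m := by rw [hmd]; nlinarith
        rcases (show Y = 1 ∨ 2 ≤ Y by omega) with h8 | h8
        · subst h8
          linarith
        · have h14 : m * 2 ≤ m * Y := mul_le_mul_of_nonneg_left h8 (by linarith)
          linarith
  · -- negative norm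
    obtain ⟨U, Y, hU, hY, e, ⟨j, hj⟩, h1, h2⟩ := min_rep (-r) (-k) _ ⟨x, y, rfl⟩
    have hN' : QQ (-r) (-k) x y = -l := by linarith
    rw [hN', hmm] at e
    rw [hmm] at hj
    have hkU : 0 ≤ k * U := by positivity
    have h1' : 2 * Y ≤ |k * U - (r * k ^ 2 + 2) * Y| := by
      rw [← abs_neg]
      convert h1 using 2
      ring
    have alt := min_alt h1'
    have hk2 : k ^ 2 * U ^ 2 = ((r * k ^ 2 + 2) ^ 2 - 4) * Y ^ 2 - 4 * l * k ^ 2 := by
      rw [e, hmd]; ring
    have hY1 : 1 ≤ Y := by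
      by_contra hc
      have : Y = 0 := by omega
      rw [this] at e
      linarith [sq_nonneg U]
    have hY2 : r * Y ^ 2 ≤ l := by
      rcases alt with alt | alt
      · exfalso
        have h3 : ((r * k ^ 2 + 2 + 2) * Y) ^ 2 ≤ (k * U) ^ 2 :=
          pow_le_pow_left₀ (by positivity) alt 2
        have h5 : 0 < (l : ℤ) * k ^ 2 := by positivity
        have h6 : 0 ≤ r * k ^ 2 * Y ^ 2 := by positivity
        nlinarith
      · have h3 : (k * U) ^ 2 ≤ ((r * k ^ 2 + 2 - 2) * Y) ^ 2 :=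
          pow_le_pow_left₀ hkU alt 2
        have h4 : k ^ 2 * (r * Y ^ 2) ≤ k ^ 2 * l := by linarith
        exact le_of_mul_le_mul_left h4 (by positivity)
    rcases hY2.eq_or_lt with h3 | h3
    · exact absurd (prime_mul_sq (by linarith) hl h3.symm) hlr
    · have hUlt : U < m * Y := by
        have h4 : U ^ 2 < (m * Y) ^ 2 := by rw [e]; linarith
        exact lt_of_pow_lt_pow_left₀ 2 (by positivity) h4
      have h6 : U ≤ m * Y - 2 := by omega
      have h7 : U ^ 2 ≤ (m * Y - 2) ^ 2 := pow_le_pow_left₀ hU h6 2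
      nlinarith

end Pool.Agent.Helper54.CN
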