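import Pool.Agent.Helper54.CN.SmallB
import Pool.Agent.Helper54.CN.SmallC

/-!
Norms are not small primes.
-/
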