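import Mathlib

/-!
Small prime norms of the form `x^2 + a n x y + a y^2`.
-/

namespace Pool.Agent.Helper54.CN

/-- the norm form -/
def QQ (a n x y : ℤ) : ℤ := x ^ 2 + a * n * x * y + a * y ^ 2

theorem QQ_mul_eps (a n x y : ℤ) :
    QQ a n (-x - n * a * y) (n * x + (n * (a * n) - 1) * y) = QQ a n x y := by
  unfold QQ; ring

theorem QQ_mul_eps' (a n x y : ℤ) :
    QQ a n ((n * (a * n) - 1) * x + n * a * y) (-(n * x + y)) = QQ a n x y := by
  unfold QQ; ring

theorem four_QQ (a n x y : ℤ) :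
    4 * QQ a n x y = (2 * x + a * n * y) ^ 2 - ((a * n) ^ 2 - 4 * a) * y ^ 2 := by
  unfold QQ; ring

theorem min_rep (a n N : ℤ) (h : ∃ x y, QQ a n x y = N) :
    ∃ U Y : ℤ, 0 ≤ U ∧ 0 ≤ Y ∧ U ^ 2 = ((a * n) ^ 2 - 4 * a) * Y ^ 2 + 4 * N ∧
      (∃ k, U = a * n * Y + 2 * k) ∧
      2 * Y ≤ |n * U - (a * n ^ 2 - 2) * Y| ∧ 2 * Y ≤ |n * U + (a * n ^ 2 - 2) * Y| := by
  classical
  have h' : ∃ k : ℕ, ∃ x y, QQ a n x y = N ∧ y.natAbs = k := by
    obtain ⟨x, y, hxy⟩ := h
    exact ⟨_, x, y, hxy, rfl⟩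
  obtain ⟨x, y, hxy, hk⟩ := Nat.find_spec h'
  have hmin : ∀ x' y', QQ a n x' y' = N → |y| ≤ |y'| := by
    intro x' y' h1
    have := Nat.find_min' h' ⟨x', y', h1, rfl⟩
    rw [← hk] at this
    rw [Int.abs_eq_natAbs, Int.abs_eq_natAbs]
    exact_mod_cast this
  have m1 := hmin _ _ ((QQ_mul_eps a n x y).trans hxy)
  have m2 := hmin _ _ ((QQ_mul_eps' a n x y).trans hxy)
  rw [abs_neg] at m2
  have f := four_QQ a n x y
  rw [hxy] at f
  have e1 : 2 * |y| ≤ |n * (2 * x + a * n * y) + (a * n ^ 2 - 2) * y| := by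
    have : n * (2 * x + a * n * y) + (a * n ^ 2 - 2) * y
      = 2 * (n * x + (n * (a * n) - 1) * y) := by ring
    rw [this, abs_mul, abs_two]
    linarith
  have e2 : 2 * |y| ≤ |n * (2 * x + a * n * y) - (a * n ^ 2 - 2) * y| := by
    have : n * (2 * x + a * n * y) - (a * n ^ 2 - 2) * y
      = 2 * (n * x + y) := by ring
    rw [this, abs_mul, abs_two]
    linarith
  set u := 2 * x + a * n * y with hu
  refine ⟨|u|, |y|, abs_nonneg _, abs_nonneg _, ?_, ?_, ?_, ?_⟩
  · rw [sq_abs, sq_abs]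
    linarith
  · rcases abs_choice u with h1 | h1 <;> rcases abs_choice y with h2 | h2 <;> rw [h1, h2]
    · exact ⟨x, by rw [hu]; ring⟩
    · exact ⟨x + a * n * y, by rw [hu]; ring⟩
    · exact ⟨-x - a * n * y, by rw [hu]; ring⟩
    · exact ⟨-x, by rw [hu]; ring⟩
  · rcases abs_choice u with h1 | h1 <;> rcases abs_choice y with h2 | h2 <;> rw [h1]
    · rw [h2] at e2 ⊢; exact e2
    · rw [h2] at e1 ⊢
      convert e1 using 2
      ring
    · rw [h2] at e1 ⊢
      rw [← abs_neg]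
      convert e1 using 2
      ring
    · rw [h2] at e2 ⊢
      rw [← abs_neg]
      convert e2 using 2
      ring
  · rcases abs_choice u with h1 | h1 <;> rcases abs_choice y with h2 | h2 <;> rw [h1]
    · rw [h2] at e1 ⊢; exact e1
    · rw [h2] at e2 ⊢
      convert e2 using 2
      ring
    · rw [h2] at e2 ⊢
      rw [← abs_neg]
      convert e2 using 2
      ring
    · rw [h2] at e1 ⊢
      rw [← abs_neg]
      convert e1 using 2
      ring

/-- the two alternatives coming from minimality -/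
theorem min_alt {ν T U Y : ℤ}
    (h1 : 2 * Y ≤ |ν * U - T * Y|) : (T + 2) * Y ≤ ν * U ∨ ν * U ≤ (T - 2) * Y := by
  rcases le_total (ν * U) (T * Y) with h | h
  · right
    rw [abs_of_nonpos (by linarith)] at h1
    linarith
  · left
    rw [abs_of_nonneg (by linarith)] at h1
    linarith

theorem parity_lt {U V k : ℤ} (h : U < V) (hk : U = V + 2 * k) : U ≤ V - 2 := by omega

theorem not_prime_sq {x : ℤ} {l : ℕ} (hl : l.Prime) (h : x ^ 2 = l) : False := by
  have h1 : x.natAbs ^ 2 = l := by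
    have : ((x.natAbs ^ 2 : ℕ) : ℤ) = l := by
      push_cast
      rw [sq_abs]
      exact h
    exact_mod_cast this
  rw [← h1] at hl
  exact Nat.Prime.not_prime_pow (le_refl 2) hl

theorem prime_mul_sq {r y : ℤ} (hr : 1 < r) {l : ℕ} (hl : l.Prime) (h : (l : ℤ) = r * y ^ 2) :
    (l : ℤ) = r := by
  have h1 : l = r.natAbs * (y.natAbs ^ 2) := by
    have := congrArg Int.natAbs h
    simpa [Int.natAbs_mul, Int.natAbs_pow] using this
  rw [h1] at hl
  have hr1 : r.natAbs ≠ 1 := by omega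
  have := (Nat.prime_mul_iff.1 hl)
  rcases this with ⟨_, h2⟩ | ⟨_, h2⟩
  · have h3 : ((y.natAbs ^ 2 : ℕ) : ℤ) = 1 := by exact_mod_cast h2
    push_cast at h3
    rw [sq_abs] at h3
    rw [h, h3, mul_one]
  · exact absurd h2 hr1

end Pool.Agent.Helper54.CN
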