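import Pool.Agent.Helper54.CN.SmallA

/-!
Norms are not small primes, case `a > 0`.
-/

namespace Pool.Agent.Helper54.CN

set_option maxHeartbeats 2000000 in
/-- no small prime is the absolute value of a norm: case `a = r > 0` -/
theorem small_minus {r k : ℤ} (hr : 3 ≤ r) (hk1 : 1 ≤ k) (hk : k = 1 ∨ 3 ≤ k)
    (hm : 35 < r * k) {l : ℕ} (hl : l.Prime) (hlr : (l : ℤ) ≠ r)
    {x y : ℤ} (h : |QQ r k x y| = l) : 2 * (r * k) ≤ 3 * l + 3 := by
  have hl0 : (0 : ℤ) < l := by exact_mod_cast hl.pos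
  set m := r * k with hmd
  have hT : (2 : ℤ) ≤ r * k ^ 2 - 2 := by nlinarith
  rcases abs_choice (QQ r k x y) with hN | hN
  · -- positive norm
    obtain ⟨U, Y, hU, hY, e, ⟨j, hj⟩, h1, h2⟩ := min_rep r k _ ⟨x, y, rfl⟩
    rw [← hN, h, ← hmd] at e
    rw [← hmd] at hj
    have hkU : 0 ≤ k * U := by positivity
    have alt := min_alt h1
    have hk2 : k ^ 2 * U ^ 2 = ((r * k ^ 2 - 2) ^ 2 - 4) * Y ^ 2 + 4 * l * k ^ 2 := by
      rw [e, hmd]; ring
    have hY2 : r * Y ^ 2 ≤ l := by
      rcases alt with alt | alt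
      · have h3 : ((r * k ^ 2 - 2 + 2) * Y) ^ 2 ≤ (k * U) ^ 2 :=
          pow_le_pow_left₀ (by positivity) alt 2
        have h4 : k ^ 2 * (r * k ^ 2 * (r * Y ^ 2)) ≤ k ^ 2 * (r * k ^ 2 * l) := by nlinarith
        have h5 : 0 < k ^ 2 := by positivity
        have h6 : 0 < r * k ^ 2 := by positivity
        exact le_of_mul_le_mul_left (le_of_mul_le_mul_left h4 h5) h6
      · exfalso
        have h3 : (k * U) ^ 2 ≤ ((r * k ^ 2 - 2 - 2) * Y) ^ 2 :=
          pow_le_pow_left₀ hkU alt 2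
        have h5 : 0 < (l : ℤ) * k ^ 2 := by positivity
        linarith [mul_nonneg (sub_nonneg.2 hT) (sq_nonneg Y)]
    rcases hY.eq_or_lt with h0 | h0
    · exfalso
      rw [← h0] at e hj
      have : j ^ 2 = l := by
        have h7 : U = 2 * j := by linarith
        rw [h7] at e
        linarith
      exact not_prime_sq hl this
    · rcases hY2.eq_or_lt with h3 | h3
      · exact absurd (prime_mul_sq (by linarith) hl h3.symm) hlr
      · have h4 : (m * Y) ^ 2 < U ^ 2 := by rw [e]; linarith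
        have h5 : m * Y < U := lt_of_pow_lt_pow_left₀ 2 hU h4
        have h6 : m * Y + 2 ≤ U := by omega
        have h7 : (m * Y + 2) ^ 2 ≤ U ^ 2 := pow_le_pow_left₀ (by positivity) h6 2
        nlinarith
  · -- negative norm
    obtain ⟨U, Y, hU, hY, e, ⟨j, hj⟩, h1, h2⟩ := min_rep r k _ ⟨x, y, rfl⟩
    have hN' : QQ r k x y = -l := by linarith
    rw [hN', ← hmd] at e
    rw [← hmd] at hj
    have hkU : 0 ≤ k * U := by positivity
    have alt := min_alt h1
    have hk2 : k ^ 2 * U ^ 2 = ((r * k ^ 2 - 2) ^ 2 - 4) * Y ^ 2 - 4 * l * k ^ 2 := by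
      rw [e, hmd]; ring
    have hY1 : 1 ≤ Y := by
      by_contra hc
      have : Y = 0 := by omega
      rw [this] at e
      linarith [sq_nonneg U]
    have hY2 : (r * k ^ 2 - 4) * Y ^ 2 ≤ l * k ^ 2 := by
      rcases alt with alt | alt
      · exfalso
        have h3 : ((r * k ^ 2 - 2 + 2) * Y) ^ 2 ≤ (k * U) ^ 2 :=
          pow_le_pow_left₀ (by positivity) alt 2
        have h5 : 0 < (l : ℤ) * k ^ 2 := by positivity
        nlinarith [mul_nonneg (sub_nonneg.2 hT) (sq_nonneg Y)]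
      · have h3 : (k * U) ^ 2 ≤ ((r * k ^ 2 - 2 - 2) * Y) ^ 2 :=
          pow_le_pow_left₀ hkU alt 2
        linarith
    have hUlt : U < m * Y := by
      have h4 : U ^ 2 < (m * Y) ^ 2 := by rw [e]; nlinarith
      exact lt_of_pow_lt_pow_left₀ 2 (by positivity) h4
    have h6 : U ≤ m * Y - 2 := by omega
    have h7 : U ^ 2 ≤ (m * Y - 2) ^ 2 := pow_le_pow_left₀ hU h6 2
    have hL : m * Y - 1 - r * Y ^ 2 ≤ l := by linarith
    rcases hk with hk | hk
    · subst hk
      rw [one_pow, mul_one, mul_one] at hY2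
      have hmr : m = r := by rw [hmd]; ring
      have : (r - 4) * 1 ≤ (r - 4) * Y ^ 2 := by
        have h8 : (1 : ℤ) ≤ Y ^ 2 := by nlinarith
        have h9 : 0 ≤ r - 4 := by linarith
        exact mul_le_mul_of_nonneg_left h8 h9
      linarith
    · have h27 : 27 ≤ r * k ^ 2 := by nlinarith
      have hm3 : 3 * r ≤ m := by rw [hmd]; nlinarith
      rcases (show Y = 1 ∨ 2 ≤ Y by omega) with h8 | h8
      · subst h8
        linarith
      · have h9 : 23 * (r * Y ^ 2) ≤ 27 * l := by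
          have h10 : 23 * (r * k ^ 2) ≤ 27 * (r * k ^ 2 - 4) := by linarith
          have h11 : 23 * (r * k ^ 2) * (r * Y ^ 2) ≤ 27 * (r * k ^ 2 - 4) * (r * Y ^ 2) :=
            mul_le_mul_of_nonneg_right h10 (by positivity)
          have h12 : (r * k ^ 2) * (23 * (r * Y ^ 2)) ≤ (r * k ^ 2) * (27 * l) := by
            have h13 : r * ((r * k ^ 2 - 4) * Y ^ 2) ≤ r * (l * k ^ 2) :=
              mul_le_mul_of_nonneg_left hY2 (by positivity)
            linarith
          exact le_of_mul_le_mul_left h12 (by positivity)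
        have h14 : m * 2 ≤ m * Y := mul_le_mul_of_nonneg_left h8 (by linarith)
        linarith

end Pool.Agent.Helper54.CN
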