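import Pool.Agent.Helper54.CN.Genus

/-!
The finite range `35 < a * n < 150`.
-/

namespace Pool.Agent.Helper54.CN

open NumberTheorySymbols Finset

/-- no proper divisor -/
def nd (r : ℕ) : Bool := (List.range r).all fun d => Nat.ble d 1 || !(Nat.beq (r % d) 0)

/-- a small prime with a root; `e` is `r` or `-r` modulo each prime -/
def wit (m : ℕ) (r : ℕ) (s : ℕ → ℕ) : Bool :=
  [3, 5, 7, 11, 13, 17, 19].any fun l => !(Nat.beq l r) && Nat.ble (3 * l + 4) (2 * m) &&
    ((List.range l).any fun x => Nat.beq ((x * x + (l - 1) * (m * x) + s l) % l) 0)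

/-- the finite check -/
def chk : Bool := (List.range 150).all fun m => (List.range 150).all fun r =>
  !(Nat.ble 36 m && Nat.beq (m % 2) 1 && Nat.beq (r % 4) 3 && Nat.beq (m % r) 0 && nd r) ||
    (wit m r (fun _ => r) && wit m r (fun l => (l - 1) * r))

set_option maxRecDepth 100000 in
theorem chk_true : chk = true := by decide +kernel

theorem nd_of_prime {r : ℕ} (hr : r.Prime) : nd r = true := by
  unfold nd
  rw [List.all_eq_true]
  intro d hd
  rw [List.mem_range] at hd
  rw [Bool.or_eq_true]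
  by_cases h : d ≤ 1
  · left
    exact Nat.ble_eq_true_of_le h
  · right
    rw [Bool.not_eq_true', Bool.eq_false_iff]
    intro h0
    have h1 : r % d = 0 := Nat.eq_of_beq_eq_true h0
    have h2 := (Nat.dvd_prime hr).1 (Nat.dvd_of_mod_eq_zero h1)
    omega

theorem Hyp.wit_false {a n : ℤ} (h : Hyp a n) {m r : ℕ} (hm : (m : ℤ) = a * n)
    (hr : (r : ℤ) = |a|) {s : ℕ → ℕ} (hs : ∀ l : ℕ, 1 ≤ l → ((s l : ℕ) : ZMod l) = (a : ZMod l))
    (hw : wit m r s = true) : False := by
  unfold wit at hw
  rw [List.any_eq_true] at hw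
  obtain ⟨l, hl, hw⟩ := hw
  rw [Bool.and_eq_true, Bool.and_eq_true, Bool.not_eq_true', List.any_eq_true] at hw
  obtain ⟨⟨h1, h2⟩, x, _, hx⟩ := hw
  have hlr : l ≠ r := by
    rintro rfl
    rw [Nat.beq_refl] at h1
    exact absurd h1 (by simp)
  have h2' : 3 * l + 4 ≤ 2 * m := Nat.le_of_ble_eq_true h2
  have hlp : l.Prime := by
    simp only [List.mem_cons, List.not_mem_nil, or_false] at hl
    rcases hl with rfl | rfl | rfl | rfl | rfl | rfl | rfl <;> norm_num
  have hx' := Nat.eq_of_beq_eq_true hx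
  apply h.inert hlp (x := (x : ℤ)) (by
    rw [← hr]
    exact_mod_cast hlr) (by rw [← hm]; push_cast; omega)
  rw [← ZMod.intCast_zmod_eq_zero_iff_dvd]
  have h3 : ((x * x + (l - 1) * (m * x) + s l : ℕ) : ZMod l) = 0 := by
    rw [ZMod.natCast_eq_zero_iff]
    exact Nat.dvd_of_mod_eq_zero hx'
  push_cast [Nat.cast_sub hlp.one_lt.le] at h3
  rw [ZMod.natCast_self, hs l hlp.one_lt.le] at h3
  have h4 : ((m : ℕ) : ZMod l) = a * n := by
    have := congrArg (Int.cast : ℤ → ZMod l) hm
    push_cast at this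
    exact this
  rw [h4] at h3
  push_cast
  linear_combination h3

theorem Hyp.small_m {a n : ℤ} (h : Hyp a n) (hb : a * n < 150) : False := by
  have hbig := h.big
  set m := (a * n).toNat with hm
  set r := a.natAbs with hr
  have hm' : (m : ℤ) = a * n := Int.toNat_of_nonneg (by omega)
  have hr' : (r : ℤ) = |a| := Int.natCast_natAbs a
  have hmlt : m < 150 := by omega
  have hm36 : 36 ≤ m := by omega
  have hdvd : r ∣ m := by
    have h1 : (r : ℤ) ∣ m := by
      rw [hm', hr', abs_dvd]
      exact dvd_mul_right a n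
    exact_mod_cast h1
  have hrm : r ≤ m := Nat.le_of_dvd (by omega) hdvd
  have hmodd : m % 2 = 1 := by
    have h1 : Odd (a * n) := h.odd_a.mul h.odd_n
    rw [← hm'] at h1
    have h2 : Odd m := by exact_mod_cast h1
    exact Nat.odd_iff.1 h2
  have hc := chk_true
  unfold chk at hc
  rw [List.all_eq_true] at hc
  have hc1 := hc m (List.mem_range.2 hmlt)
  rw [List.all_eq_true] at hc1
  have hc2 := hc1 r (List.mem_range.2 (by omega))
  have e1 : Nat.ble 36 m = true := Nat.ble_eq_true_of_le hm36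
  have e2 : Nat.beq (m % 2) 1 = true := by rw [hmodd]; rfl
  have e3 : Nat.beq (r % 4) 3 = true := by
    have := h.a_mod_four
    rw [← hr] at this
    rw [this]
    rfl
  have e4 : Nat.beq (m % r) 0 = true := by
    rw [Nat.mod_eq_zero_of_dvd hdvd]; rfl
  have e5 : nd r = true := nd_of_prime h.prime_a
  rw [e1, e2, e3, e4, e5] at hc2
  simp only [Bool.and_self, Bool.not_true, Bool.false_or, Bool.and_eq_true] at hc2
  obtain ⟨w1, w2⟩ := hc2
  have hab := Int.natAbs_eq a
  rw [← hr] at hab
  rcases hab with ha | ha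
  · refine h.wit_false hm' hr' (fun l _ => ?_) w1
    have := congrArg (Int.cast : ℤ → ZMod l) ha
    push_cast at this
    exact this.symm
  · refine h.wit_false hm' hr' (fun l hl => ?_) w2
    have := congrArg (Int.cast : ℤ → ZMod l) ha
    push_cast at this
    push_cast [Nat.cast_sub hl]
    rw [ZMod.natCast_self, this]
    ring

end Pool.Agent.Helper54.CN
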