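import Pool.Agent.Helper54.CN.Cone
import Pool.Agent.Helper54.CN.LSide2

/-!
The `L`-side of the main identity.
-/

namespace Pool.Agent.Helper54.CN

open QuadraticAlgebra NumberTheorySymbols Finset Filter Topology

theorem sum_crt {M : Type*} [AddCommMonoid M] {q D : ℕ} [NeZero q] [NeZero D]
    (hc : q.Coprime D) (F : ZMod q → ZMod D → M) :
    ∑ l ∈ range (q * D), F (l : ZMod q) (l : ZMod D) = ∑ u : ZMod q, ∑ v : ZMod D, F u v := by
  have : NeZero (q * D) := ⟨mul_ne_zero (NeZero.ne q) (NeZero.ne D)⟩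
  have e := (ZMod.chineseRemainder hc).toEquiv
  have h1 : ∑ l ∈ range (q * D), F (l : ZMod q) (l : ZMod D)
      = ∑ x : ZMod (q * D), F (ZMod.chineseRemainder hc x).1 (ZMod.chineseRemainder hc x).2 := by
    rw [sum_zmod]
    apply Finset.sum_congr rfl
    intro l _
    rw [map_natCast]
    rfl
  rw [h1, ← Fintype.sum_prod_type']
  exact Equiv.sum_comp (ZMod.chineseRemainder hc).toEquiv (fun p : ZMod q × ZMod D => F p.1 p.2)

theorem jacobi_val {D : ℕ} [NeZero D] (l : ℕ) :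
    J((l : ℤ) | D) = J((((l : ZMod D).val : ℕ) : ℤ) | D) := by
  rw [ZMod.val_natCast]
  apply jacobiSym.mod_left'
  push_cast
  rw [Int.emod_emod_of_dvd _ (dvd_refl _)]

theorem jacobi_cast_eq {D : ℕ} [NeZero D] {x y : ℤ} (h : (x : ZMod D) = (y : ZMod D)) :
    J(x | D) = J(y | D) := by
  apply jacobiSym.mod_left'
  exact (ZMod.intCast_eq_intCast_iff x y D).1 h

theorem jacobi_sum_zero {D : ℕ} [NeZero D] (hodd : Odd D) (hs : Squarefree D) (h1 : 1 < D) :
    ∑ v : ZMod D, (J((v.val : ℤ) | D) : ℝ) = 0 := by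
  obtain ⟨c, hc⟩ := exists_jacobi_neg hodd hs h1
  have hcop : IsUnit ((c : ZMod D)) := by
    rw [ZMod.isUnit_iff_coprime]
    by_contra hn
    have : J((c : ℤ) | D) = 0 := by
      rw [jacobiSym.eq_zero_iff, Int.gcd_natCast_natCast]
      exact ⟨by omega, hn⟩
    rw [hc] at this
    norm_num at this
  obtain ⟨u, hu⟩ := hcop
  have e1 : ∑ v : ZMod D, (J((v.val : ℤ) | D) : ℝ)
      = ∑ v : ZMod D, (J((((u : ZMod D) * v).val : ℤ) | D) : ℝ) :=
    (Equiv.sum_comp (Units.mulLeft u) (fun v : ZMod D => (J((v.val : ℤ) | D) : ℝ))).symm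
  have e2 : ∀ v : ZMod D, (J((((u : ZMod D) * v).val : ℤ) | D) : ℝ)
      = - (J((v.val : ℤ) | D) : ℝ) := by
    intro v
    have : J((((u : ZMod D) * v).val : ℤ) | D) = J((c : ℤ) * (v.val : ℤ) | D) := by
      apply jacobi_cast_eq
      push_cast
      rw [ZMod.natCast_zmod_val, ZMod.natCast_zmod_val, hu]
    rw [this, jacobiSym.mul_left, hc]
    push_cast
    ring
  simp only [e2, Finset.sum_neg_distrib] at e1
  linarith

variable {a n : ℤ}

theorem cnv_bound {f g : ℕ → ℤ} (hf : ∀ k, |f k| ≤ 1) (hg : ∀ k, |g k| ≤ 1) (N : ℕ) :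
    |(cnv f g N : ℝ)| ≤ N := by
  have h1 : |cnv f g N| ≤ N := by
    unfold cnv
    calc |∑ x ∈ Nat.divisorsAntidiagonal N, f x.1 * g x.2|
        ≤ ∑ x ∈ Nat.divisorsAntidiagonal N, |f x.1 * g x.2| := Finset.abs_sum_le_sum_abs _ _
      _ ≤ ∑ x ∈ Nat.divisorsAntidiagonal N, 1 := by
          apply Finset.sum_le_sum
          intro x _
          rw [abs_mul]
          exact mul_le_one₀ (hf _) (abs_nonneg _) (hg _)
      _ = (N.divisors.card : ℤ) := by
          rw [Finset.sum_const, nsmul_eq_mul, mul_one]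
          congr 1
          rw [← Nat.map_div_right_divisors, Finset.card_map]
      _ ≤ N := by exact_mod_cast Nat.card_divisors_le_self N
  exact_mod_cast h1

theorem summable_cnv {q : ℕ} [NeZero q] (w : ZMod q → ℝ) {f g : ℕ → ℤ} (hf : ∀ k, |f k| ≤ 1)
    (hg : ∀ k, |g k| ≤ 1) {t : ℝ} (ht : 0 < t) :
    Summable fun n : ℕ+ => w ((n : ℕ) : ZMod q) * (cnv f g n : ℝ) * Real.exp (-(t * (n : ℕ))) := by
  obtain ⟨M, hM, hM'⟩ := zmod_bdd w
  have h1 : Summable fun n : ℕ => (n : ℝ) ^ 1 * Real.exp (-t * n) :=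
    Real.summable_pow_mul_exp_neg_nat_mul 1 ht
  have h2 : Summable fun n : ℕ+ => M * (((n : ℕ) : ℝ) ^ 1 * Real.exp (-t * (n : ℕ))) :=
    (h1.comp_injective PNat.coe_injective).mul_left M
  refine Summable.of_norm_bounded h2 fun n => ?_
  rw [Real.norm_eq_abs, abs_mul, abs_mul, abs_of_pos (Real.exp_pos _), mul_assoc, pow_one,
    neg_mul]
  gcongr
  · exact hM' _
  · exact cnv_bound hf hg _

theorem abs_jacobi_le (x : ℤ) (b : ℕ) : |J(x | b)| ≤ 1 := by
  rcases jacobiSym.trichotomy x b with h | h | h <;> rw [h] <;> norm_num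

theorem even_sum_zero {N : ℕ} [NeZero N] (G : ZMod N → ℝ) (he : ∀ x, G (-x) = G x)
    (h0 : G 0 = 0) (hs : ∑ x, G x = 0) : ∑ j ∈ range N, (j : ℝ) * G j = 0 := by
  have h1 : ∑ x : ZMod N, G x * be1 x = 0 := by
    have h : ∑ x : ZMod N, G x * be1 x = ∑ x : ZMod N, G (-x) * be1 (-x) :=
      (Equiv.sum_comp (Equiv.neg (ZMod N)) (fun x => G x * be1 x)).symm
    simp only [be1_neg, he, mul_neg, Finset.sum_neg_distrib] at h
    linarith
  have hN : (N : ℝ) ≠ 0 := by exact_mod_cast (NeZero.ne N)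
  have h2 : ∑ x : ZMod N, G x * be1 x = (∑ x : ZMod N, (x.val : ℝ) * G x) / N
      - (∑ x, G x) / 2 := by
    rw [Finset.sum_div, Finset.sum_div, ← Finset.sum_sub_distrib]
    apply Finset.sum_congr rfl
    intro x _
    unfold be1
    by_cases hx : x = 0
    · simp [hx, h0]
    · rw [if_neg hx]
      ring
  rw [h1, hs] at h2
  have h3 : ∑ j ∈ range N, (j : ℝ) * G j = ∑ x : ZMod N, (x.val : ℝ) * G x := by
    rw [sum_zmod]
    apply Finset.sum_congr rfl
    intro j hj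
    rw [ZMod.val_cast_of_lt (mem_range.1 hj)]
  rw [h3]
  field_simp at h2
  linarith

theorem odd_sum_zero {N : ℕ} [NeZero N] {R : Type*} [Ring R] (w : ZMod N → ℝ)
    (hw : ∀ x, w (-x) = - w x) (v : ZMod N) : ∑ u : ZMod N, w (u * v) = 0 := by
  have h : ∑ x : ZMod N, w (x * v) = ∑ x : ZMod N, w (-x * v) :=
    (Equiv.sum_comp (Equiv.neg (ZMod N)) (fun x => w (x * v))).symm
  simp only [neg_mul, hw, Finset.sum_neg_distrib] at h
  linarith

/-- the double sum on the `L`-side -/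
noncomputable def LL (q D : ℕ) (w : ZMod q → ℝ) : ℝ :=
  ∑ j ∈ range q, ∑ l ∈ range (q * D), (j : ℝ) * l * w (j * l) * J((l : ℤ) | D)

theorem Hyp.L_side (h : Hyp a n) {q : ℕ} [NeZero q] (hq : q.Coprime (Dn a n)) (w : ZMod q → ℝ)
    (hw : ∀ x, w (-x) = - w x) :
    Tendsto (fun t : ℝ => ∑' k : ℕ+, w ((k : ℕ) : ZMod q) *
        ((cnv (fun _ => 1) (fun k => J((k : ℤ) | Dn a n)) k
        + cnv (fun k => J((k : ℤ) | a.natAbs)) (fun k => J((k : ℤ) | pp a n)) k : ℤ) : ℝ)
        * Real.exp (-(t * (k : ℕ)))) (𝓝[>] 0)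
      (𝓝 (LL q (Dn a n) w / (q * (q * Dn a n)))) := by
  have hD0 : Dn a n ≠ 0 := by have := h.Dn_gt; omega
  have hA0 : a.natAbs ≠ 0 := h.prime_a.ne_zero
  have hP0 : pp a n ≠ 0 := by have := h.pp_gt; omega
  have : NeZero (Dn a n) := ⟨hD0⟩
  have : NeZero a.natAbs := ⟨hA0⟩
  have : NeZero (pp a n) := ⟨hP0⟩
  have hq0 : q ≠ 0 := NeZero.ne q
  have hw0 : w 0 = 0 := by
    have := hw 0
    rw [neg_zero] at this
    linarith
  have hqA : q.Coprime a.natAbs := by
    rw [h.Dn_mul] at hq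
    exact hq.coprime_mul_right_right
  have hqP : q.Coprime (pp a n) := by
    rw [h.Dn_mul] at hq
    exact hq.coprime_mul_left_right
  have jz : ∀ {D : ℕ}, 1 < D → (J(((0 : ℕ) : ℤ) | D) : ℝ) = 0 := by
    intro D hD
    push_cast
    rw [jacobiSym.zero_left hD]
    norm_num
  have jper : ∀ (q D k : ℕ), (J(((k + q * D : ℕ) : ℤ) | D) : ℝ) = J((k : ℤ) | D) := by
    intro q D k
    congr 1
    apply jacobiSym.mod_left'
    push_cast
    rw [Int.add_mul_emod_self_right]
  have hb : ∀ (D : ℕ) [NeZero D], q.Coprime D → Odd D → Squarefree D → 1 < D → ∀ v : ZMod q,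
      ∑ l ∈ range (q * D), (if (l : ZMod q) = v then (J((l : ℤ) | D) : ℝ) else 0) = 0 := by
    intro D _ hc h1 h2 h3 v
    have e1 : ∑ l ∈ range (q * D), (if (l : ZMod q) = v then (J((l : ℤ) | D) : ℝ) else 0)
        = ∑ l ∈ range (q * D), (fun (u : ZMod q) (x : ZMod D) =>
          if u = v then (J((x.val : ℤ) | D) : ℝ) else 0) (l : ZMod q) (l : ZMod D) := by
      apply Finset.sum_congr rfl
      intro l _
      simp only
      rw [jacobi_val (D := D) l]
    refine (e1.trans (sum_crt hc (fun (u : ZMod q) (x : ZMod D) =>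
      if u = v then (J((x.val : ℤ) | D) : ℝ) else 0))).trans ?_
    rw [Finset.sum_comm]
    simp only [Finset.sum_ite_eq', Finset.mem_univ, if_true]
    exact jacobi_sum_zero h1 h2 h3
  have l1 := L_limit (q := q) w (fun _ => (1 : ℝ)) (fun k => (J((k : ℤ) | Dn a n) : ℝ))
    (q1 := q) (q2 := q * Dn a n) (Nat.pos_of_ne_zero hq0)
    (Nat.pos_of_ne_zero (mul_ne_zero hq0 hD0)) (dvd_refl q) (dvd_mul_right _ _) (fun _ => rfl)
    (fun k => jper q _ k) (jz h.Dn_gt) hw0 (hb _ hq h.Dn_odd h.Dn_sqf h.Dn_gt) (fun v => by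
      simp only [mul_one]
      rw [← sum_zmod q (fun u => w (u * v))]
      exact odd_sum_zero (R := ℤ) w hw v)
  have hsumA : ∀ v : ZMod q, ∑ k ∈ range (q * a.natAbs), w (k * v) * (J((k : ℤ) | a.natAbs) : ℝ)
      = 0 := by
    intro v
    have e1 : ∑ k ∈ range (q * a.natAbs), w (k * v) * (J((k : ℤ) | a.natAbs) : ℝ)
        = ∑ l ∈ range (q * a.natAbs), (fun (u : ZMod q) (x : ZMod a.natAbs) =>
          w (u * v) * (J((x.val : ℤ) | a.natAbs) : ℝ)) (l : ZMod q) (l : ZMod a.natAbs) := by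
      apply Finset.sum_congr rfl
      intro l _
      simp only
      rw [jacobi_val (D := a.natAbs) l]
    refine (e1.trans (sum_crt hqA (fun (u : ZMod q) (x : ZMod a.natAbs) =>
      w (u * v) * (J((x.val : ℤ) | a.natAbs) : ℝ)))).trans ?_
    simp only [← Finset.mul_sum]
    rw [jacobi_sum_zero h.A_odd h.prime_a.prime.squarefree h.prime_a.one_lt]
    simp
  have l2 := L_limit (q := q) w (fun k => (J((k : ℤ) | a.natAbs) : ℝ))
    (fun k => (J((k : ℤ) | pp a n) : ℝ))
    (q1 := q * a.natAbs) (q2 := q * pp a n) (Nat.pos_of_ne_zero (mul_ne_zero hq0 hA0))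
    (Nat.pos_of_ne_zero (mul_ne_zero hq0 hP0)) (dvd_mul_right _ _) (dvd_mul_right _ _)
    (fun k => jper q _ k)
    (fun k => jper q _ k) (jz h.pp_gt) hw0 (hb _ hqP h.pp_odd h.pp_sqf h.pp_gt) hsumA
  have hzero : ∑ j ∈ range (q * a.natAbs), ∑ l ∈ range (q * pp a n),
      (j : ℝ) * l * w (j * l) * (J((j : ℤ) | a.natAbs) : ℝ) * (J((l : ℤ) | pp a n) : ℝ) = 0 := by
    rw [Finset.sum_comm]
    apply Finset.sum_eq_zero
    intro l _
    have : NeZero (q * a.natAbs) := ⟨mul_ne_zero hq0 hA0⟩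
    set G : ZMod (q * a.natAbs) → ℝ := fun x =>
      w ((x.val : ZMod q) * l) * (J((x.val : ℤ) | a.natAbs) : ℝ) with hG
    have hGc : ∀ j ∈ range (q * a.natAbs), G (j : ZMod (q * a.natAbs))
        = w (j * l) * (J((j : ℤ) | a.natAbs) : ℝ) := by
      intro j hj
      simp only [hG]
      rw [ZMod.val_cast_of_lt (mem_range.1 hj)]
    have hev : ∀ x, G (-x) = G x := by
      intro x
      simp only [hG]
      by_cases hx : x = 0
      · rw [hx, neg_zero]
      · rw [ZMod.neg_val, if_neg hx, Nat.cast_sub (ZMod.val_lt x).le, Nat.cast_sub (ZMod.val_lt x).le]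
        have e1 : (((q * a.natAbs : ℕ) : ZMod q) - (x.val : ZMod q)) * l
            = -((x.val : ZMod q) * l) := by
          push_cast
          rw [ZMod.natCast_self]
          ring
        have e2 : J(((q * a.natAbs : ℕ) : ℤ) - (x.val : ℤ) | a.natAbs)
            = - J((x.val : ℤ) | a.natAbs) := by
          have e3 : J(((q * a.natAbs : ℕ) : ℤ) - (x.val : ℤ) | a.natAbs)
              = J(-1 * (x.val : ℤ) | a.natAbs) := by
            apply jacobiSym.mod_left'
            push_cast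
            apply Int.ModEq.symm
            apply Int.modEq_iff_dvd.2
            refine ⟨q, ?_⟩
            simp
            ring
          rw [e3, jacobiSym.mul_left, h.jacobi_neg_one]
          ring
        rw [e1, e2, hw]
        push_cast
        ring
    have h00 : G 0 = 0 := by
      simp only [hG]
      rw [ZMod.val_zero, jz h.prime_a.one_lt, mul_zero]
    have hs0 : ∑ x, G x = 0 := by
      rw [sum_zmod, Finset.sum_congr rfl hGc]
      exact hsumA l
    have h5 := even_sum_zero G hev h00 hs0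
    have h6 : ∑ j ∈ range (q * a.natAbs), (j : ℝ) * l * w (j * l)
          * (J((j : ℤ) | a.natAbs) : ℝ) * (J((l : ℤ) | pp a n) : ℝ)
        = (l * (J((l : ℤ) | pp a n) : ℝ)) * ∑ j ∈ range (q * a.natAbs), (j : ℝ) * G j := by
      rw [Finset.mul_sum]
      apply Finset.sum_congr rfl
      intro j hj
      rw [hGc j hj]
      ring
    rw [h6, h5, mul_zero]
  rw [hzero, zero_div] at l2
  have l3 := l1.add l2
  rw [add_zero] at l3
  have hval : (∑ j ∈ range q, ∑ l ∈ range (q * Dn a n), (j : ℝ) * l * w (j * l) * 1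
      * (J((l : ℤ) | Dn a n) : ℝ)) / ((q : ℝ) * ((q * Dn a n : ℕ) : ℝ))
      = LL q (Dn a n) w / (q * (q * Dn a n)) := by
    unfold LL
    push_cast
    congr 1
    apply Finset.sum_congr rfl
    intro j _
    apply Finset.sum_congr rfl
    intro l _
    ring
  rw [hval] at l3
  refine l3.congr' ?_
  filter_upwards [self_mem_nhdsWithin] with t ht
  have ht : 0 < t := ht
  have cs1 := summable_cnv (q := q) w (f := fun _ => 1) (g := fun k => J((k : ℤ) | Dn a n))
    (by simp) (fun k => abs_jacobi_le _ _) ht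
  have cs2 := summable_cnv (q := q) w (f := fun k => J((k : ℤ) | a.natAbs))
    (g := fun k => J((k : ℤ) | pp a n)) (fun k => abs_jacobi_le _ _)
    (fun k => abs_jacobi_le _ _) ht
  have e1 : ∀ (f g : ℕ → ℤ) (N : ℕ), ((cnv f g N : ℤ) : ℝ)
      = ∑ p ∈ Nat.divisorsAntidiagonal N, (f p.1 : ℝ) * (g p.2 : ℝ) := by
    intro f g N
    unfold cnv
    push_cast
    rfl
  have f1 : ∑' n_1 : ℕ+, w ((n_1 : ℕ) : ZMod q)
        * (∑ p ∈ Nat.divisorsAntidiagonal n_1, (1 : ℝ) * (J((p.2 : ℤ) | Dn a n) : ℝ))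
        * Real.exp (-(t * (n_1 : ℕ)))
      = ∑' n_1 : ℕ+, w ((n_1 : ℕ) : ZMod q)
        * (cnv (fun _ => 1) (fun k => J((k : ℤ) | Dn a n)) n_1 : ℝ)
        * Real.exp (-(t * (n_1 : ℕ))) := by
    apply tsum_congr
    intro k
    rw [e1]
    push_cast
    rfl
  have f2 : ∑' n_1 : ℕ+, w ((n_1 : ℕ) : ZMod q)
        * (∑ p ∈ Nat.divisorsAntidiagonal n_1, (J((p.1 : ℤ) | a.natAbs) : ℝ)
          * (J((p.2 : ℤ) | pp a n) : ℝ))
        * Real.exp (-(t * (n_1 : ℕ)))
      = ∑' n_1 : ℕ+, w ((n_1 : ℕ) : ZMod q)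
        * (cnv (fun k => J((k : ℤ) | a.natAbs)) (fun k => J((k : ℤ) | pp a n)) n_1 : ℝ)
        * Real.exp (-(t * (n_1 : ℕ))) := by
    apply tsum_congr
    intro k
    rw [e1]
  rw [f1, f2, ← cs1.tsum_add cs2]
  apply tsum_congr
  intro k
  push_cast
  ring

end Pool.Agent.Helper54.CN
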