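import Pool.Agent.Helper54.CN.Star1
import Pool.Agent.Helper54.CN.Gauss2

/-!
The cone side of the main identity.
-/

namespace Pool.Agent.Helper54.CN

open QuadraticAlgebra NumberTheorySymbols Finset Filter Topology

variable {a n : ℤ}

theorem tr2 {G : ℕ → ℕ → ℝ} (hG : Sm G) (h0 : G 0 0 = 0) :
    ∑' p : ℕ × ℕ, G (p.1 + 1) p.2 = Tr (fun y => Tr fun x => G x y)
      + (∑' x, G x 0) / 2 - (∑' y, G 0 y) / 2 := by
  have s1 : Sm fun x y => G (x + 1) y :=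
    hG.comp_injective (i := fun p : ℕ × ℕ => (p.1 + 1, p.2)) (by
      intro p p' hp
      simpa [Prod.ext_iff] using hp)
  have e1 : ∑' p : ℕ × ℕ, G (p.1 + 1) p.2 = ∑' y, ∑' x, G (x + 1) y :=
    s1.tsum_eq
  have e2 : ∀ y, ∑' x, G (x + 1) y = ∑' x, G x y - G 0 y := by
    intro y
    have := (hG.col y).tsum_eq_zero_add
    linarith
  have e3 : ∑' y, ∑' x, G (x + 1) y = ∑' y, ∑' x, G x y - ∑' y, G 0 y := by
    simp only [e2]
    exact hG.tsum_col.tsum_sub (hG.row 0)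
  have e4 : Tr (fun y => Tr fun x => G x y) = (∑' y, ∑' x, G x y - (∑' y, G 0 y) / 2)
      - ((∑' x, G x 0) - G 0 0 / 2) / 2 := by
    have e5 : ∑' y, (∑' x, G x y - G 0 y / 2) = ∑' y, ∑' x, G x y - (∑' y, G 0 y) / 2 := by
      rw [hG.tsum_col.tsum_sub ((hG.row 0).div_const 2), tsum_div_const]
    show ∑' y, (∑' x, G x y - G 0 y / 2) - ((∑' x, G x 0) - G 0 0 / 2) / 2 = _
    rw [e5]
  rw [e1, e3, e4, h0]
  ring

theorem fiber_sum (h : Hyp a n) {q : ℕ} [NeZero q] (w : ZMod q → ℝ) (t : ℝ)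
    (hs : Summable fun z : Dset a n => w ((QQ a n z.1.1 z.1.2 : ℤ) : ZMod q)
      * Real.exp (-(t * (QQ a n z.1.1 z.1.2 : ℤ)))) :
    ∑' k : ℕ+, w ((k : ℕ) : ZMod q) *
        ((2 * (Nat.card {z : ℤ × ℤ // z ∈ Dset a n ∧ QQ a n z.1 z.2 = (k : ℕ)} : ℤ) : ℤ) : ℝ)
        * Real.exp (-(t * (k : ℕ)))
      = 2 * ∑' z : Dset a n, w ((QQ a n z.1.1 z.1.2 : ℤ) : ZMod q)
      * Real.exp (-(t * (QQ a n z.1.1 z.1.2 : ℤ))) := by
  have hpos : ∀ z : Dset a n, 0 < (QQ a n z.1.1 z.1.2).toNat := by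
    intro z
    have := (h.dset_trace (x := z.1.1) (y := z.1.2) z.2).2
    omega
  set g : Dset a n → ℕ+ := fun z => ⟨(QQ a n z.1.1 z.1.2).toNat, hpos z⟩ with hg
  have h1 := (hs.hasSum.tsum_fiberwise g).tsum_eq
  rw [← h1, ← tsum_mul_left]
  apply tsum_congr
  intro k
  have h2 : ∀ b : g ⁻¹' {k}, w ((QQ a n b.1.1.1 b.1.1.2 : ℤ) : ZMod q)
      * Real.exp (-(t * (QQ a n b.1.1.1 b.1.1.2 : ℤ)))
      = w ((k : ℕ) : ZMod q) * Real.exp (-(t * (k : ℕ))) := by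
    intro b
    have hb : g b.1 = k := b.2
    have hb2 : (QQ a n b.1.1.1 b.1.1.2).toNat = (k : ℕ) := congrArg PNat.val hb
    have hb3 : QQ a n b.1.1.1 b.1.1.2 = ((k : ℕ) : ℤ) := by
      have := (h.dset_trace (x := b.1.1.1) (y := b.1.1.2) b.1.2).2
      omega
    rw [hb3]
    push_cast
    rfl
  have h3 : ∑' b : g ⁻¹' {k}, w ((QQ a n b.1.1.1 b.1.1.2 : ℤ) : ZMod q)
      * Real.exp (-(t * (QQ a n b.1.1.1 b.1.1.2 : ℤ)))
      = (Nat.card (g ⁻¹' {k})) • (w ((k : ℕ) : ZMod q) * Real.exp (-(t * (k : ℕ)))) := by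
    rw [← tsum_const]
    exact tsum_congr h2
  rw [h3]
  have h4 : Nat.card (g ⁻¹' {k})
      = Nat.card {z : ℤ × ℤ // z ∈ Dset a n ∧ QQ a n z.1 z.2 = (k : ℕ)} := by
    apply Nat.card_congr
    refine ⟨fun b => ⟨b.1.1, b.1.2, ?_⟩, fun z => ⟨⟨z.1, z.2.1⟩, ?_⟩, ?_, ?_⟩
    · have hb : g b.1 = k := b.2
      have hb2 : (QQ a n b.1.1.1 b.1.1.2).toNat = (k : ℕ) := congrArg PNat.val hb
      have := (h.dset_trace (x := b.1.1.1) (y := b.1.1.2) b.1.2).2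
      omega
    · show g ⟨z.1, z.2.1⟩ = k
      apply PNat.coe_injective
      show (QQ a n z.1.1 z.1.2).toNat = (k : ℕ)
      rw [z.2.2]
      simp
    · intro b
      rfl
    · intro z
      rfl
  rw [h4, nsmul_eq_mul]
  push_cast
  ring

theorem cone_limit (h : Hyp a n) {q : ℕ} [NeZero q] (w : ZMod q → ℝ) (hw : ∀ x, w (-x) = - w x)
    {ι : Type} [Fintype ι] (A B C : ι → ℤ) (hA : ∀ i, 0 < A i) (hB : ∀ i, 0 ≤ B i)
    (hC : ∀ i, 0 < C i) (π : ι ≃ ι) (hπ : ∀ i, C i = A (π i)) (e : ι × ℕ × ℕ ≃ Dset a n)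
    (he : ∀ i (x y : ℕ), QQ a n (e (i, x, y)).1.1 (e (i, x, y)).1.2
      = A i * ((x : ℤ) + 1) ^ 2 + B i * ((x : ℤ) + 1) * y + C i * (y : ℤ) ^ 2)
    (hsum : ∀ i, ∑ x : ZMod q, ∑ y : ZMod q,
      w ((A i : ZMod q) * x ^ 2 + B i * x * y + C i * y ^ 2) = 0) :
    Tendsto (fun t : ℝ => ∑' k : ℕ+, w ((k : ℕ) : ZMod q) *
        ((2 * (Nat.card {z : ℤ × ℤ // z ∈ Dset a n ∧ QQ a n z.1 z.2 = (k : ℕ)} : ℤ) : ℤ) : ℝ)
        * Real.exp (-(t * (k : ℕ)))) (𝓝[>] 0)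
      (𝓝 (2 * ∑ i, ∑ x : ZMod q, ∑ y : ZMod q,
        w ((A i : ZMod q) * x ^ 2 + B i * x * y + C i * y ^ 2) *
        (be1 x * be1 y + (B i : ℝ) / (4 * C i) * be2 x + (B i : ℝ) / (4 * A i) * be2 y))) := by
  have hw0 : w 0 = 0 := by
    have := hw 0
    rw [neg_zero] at this
    linarith
  have hA' : ∀ i, (0 : ℝ) < A i := fun i => by exact_mod_cast hA i
  have hB' : ∀ i, (0 : ℝ) ≤ B i := fun i => by exact_mod_cast hB i
  have hC' : ∀ i, (0 : ℝ) < C i := fun i => by exact_mod_cast hC i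
  have hlim := tendsto_finsetSum (univ : Finset ι) fun i _ =>
    gauss_2D (q := q) (hA' i) (hB' i) (hC' i)
      (fun x y => w ((A i : ZMod q) * x ^ 2 + B i * x * y + C i * y ^ 2)) (hsum i)
      (fun x y => by
        congr 1
        ring)
  have hlim2 := hlim.const_mul 2
  refine hlim2.congr' ?_
  filter_upwards [self_mem_nhdsWithin] with t ht
  have ht : 0 < t := ht
  obtain ⟨M, hM0, hM⟩ := zmod_bdd w
  -- the functions on each cone
  set G : ι → ℕ → ℕ → ℝ := fun i x y =>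
    w ((A i : ZMod q) * (x : ZMod q) ^ 2 + B i * (x : ZMod q) * (y : ZMod q)
      + C i * (y : ZMod q) ^ 2)
      * Real.exp (-(t * (A i * (x : ℝ) ^ 2 + B i * x * y + C i * (y : ℝ) ^ 2))) with hGd
  have hG : ∀ i, Sm (G i) := by
    intro i
    have h1 := gauss_sm (hA' i) (hB' i) (hC' i) (Real.sqrt_pos.2 ht)
    have h2 : Sm fun x y : ℕ => Real.exp (-(t * (A i * (x : ℝ) ^ 2 + B i * x * y
        + C i * (y : ℝ) ^ 2))) := by
      have h3 : GF (A i) (B i) (C i) (Real.sqrt t) = fun x y : ℕ =>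
          Real.exp (-(t * (A i * (x : ℝ) ^ 2 + B i * x * y + C i * (y : ℝ) ^ 2))) := by
        funext x y
        unfold GF
        rw [Real.sq_sqrt ht.le]
      rwa [h3] at h1
    exact h2.bdd_mul (fun x y => hM _)
  have hG0 : ∀ i, G i 0 0 = 0 := by
    intro i
    simp only [hGd]
    simp [hw0]
  have hFe : ∀ i (x y : ℕ), w ((QQ a n (e (i, x, y)).1.1 (e (i, x, y)).1.2 : ℤ) : ZMod q)
      * Real.exp (-(t * (QQ a n (e (i, x, y)).1.1 (e (i, x, y)).1.2 : ℤ))) = G i (x + 1) y := by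
    intro i x y
    simp only [hGd]
    rw [he]
    push_cast
    rfl
  have hsm : Summable fun p : ι × ℕ × ℕ => G p.1 (p.2.1 + 1) p.2.2 := by
    apply Summable.of_norm
    rw [summable_prod_of_nonneg (fun _ => norm_nonneg _)]
    refine ⟨fun i => ?_, (hasSum_fintype _).summable⟩
    have : Sm fun x y => G i (x + 1) y :=
      (hG i).comp_injective (i := fun p : ℕ × ℕ => (p.1 + 1, p.2)) (by
        intro p p' hp
        simpa [Prod.ext_iff] using hp)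
    exact Summable.norm this
  have hsF : Summable fun z : Dset a n => w ((QQ a n z.1.1 z.1.2 : ℤ) : ZMod q)
      * Real.exp (-(t * (QQ a n z.1.1 z.1.2 : ℤ))) := by
    rw [← e.summable_iff]
    refine hsm.congr fun p => ?_
    obtain ⟨i, x, y⟩ := p
    exact (hFe i x y).symm
  rw [fiber_sum h w t hsF]
  congr 1
  rw [← e.tsum_eq]
  have e1 : ∑' p : ι × ℕ × ℕ, w ((QQ a n (e p).1.1 (e p).1.2 : ℤ) : ZMod q)
      * Real.exp (-(t * (QQ a n (e p).1.1 (e p).1.2 : ℤ)))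
      = ∑' p : ι × ℕ × ℕ, G p.1 (p.2.1 + 1) p.2.2 := by
    apply tsum_congr
    rintro ⟨i, x, y⟩
    exact hFe i x y
  rw [e1, hsm.tsum_prod, tsum_fintype]
  have e2 : ∀ i, ∑' c : ℕ × ℕ, G i (c.1 + 1) c.2 = Tr (fun y => Tr fun x => G i x y)
      + (∑' x, G i x 0) / 2 - (∑' y, G i 0 y) / 2 := fun i => tr2 (hG i) (hG0 i)
  simp only [e2]
  rw [Finset.sum_sub_distrib, Finset.sum_add_distrib]
  set H : ℤ → ℝ := fun c => ∑' x : ℕ, w ((c : ZMod q) * (x : ZMod q) ^ 2)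
    * Real.exp (-(t * (c * (x : ℝ) ^ 2))) with hH
  have e3 : ∀ i, ∑' x, G i x 0 = H (A i) := by
    intro i
    simp only [hGd, hH]
    apply tsum_congr
    intro x
    simp
  have e4 : ∀ i, ∑' y, G i 0 y = H (C i) := by
    intro i
    simp only [hGd, hH]
    apply tsum_congr
    intro x
    simp
  have e5 : ∑ i, (∑' x, G i x 0) / 2 = ∑ i, (∑' y, G i 0 y) / 2 := by
    simp only [e3, e4, hπ]
    exact (Equiv.sum_comp π (fun i => H (A i) / 2)).symm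
  rw [e5]
  simp only [add_sub_cancel_right]
  rfl

end Pool.Agent.Helper54.CN
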