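import Pool.Agent.Helper54.CN.Star3

/-!
The main identity, negative case and conclusion.
-/

namespace Pool.Agent.Helper54.CN

open QuadraticAlgebra NumberTheorySymbols Finset Filter Topology

variable {q : ℕ} [NeZero q] {a n : ℤ}

/-- norms of the edge vectors -/
def cA (a n : ℤ) (j : ℕ) : ℤ := 1 + a * n * j + a * (j : ℤ) ^ 2

/-- mixed coefficients of the cones -/
def cB (a n : ℤ) (j : ℕ) : ℤ := 2 + a * n * (2 * j + 1) + 2 * a * (j * (j + 1))

theorem cB_add (a n : ℤ) (j : ℕ) : cB a n j + cB a n (j + 1) = 4 * cA a n (j + 1) := by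
  unfold cA cB
  push_cast
  ring

/-- contribution of one cone -/
theorem cone_term (w : ZMod q → ℝ) (hw0 : w 0 = 0) (j : ℕ) (u v : ℝ)
    (hsz : ∑ x : ZMod q, ∑ y : ZMod q, w (x ^ 2 + a * n * x * y + a * y ^ 2) = 0) :
    ∑ x : ZMod q, ∑ y : ZMod q,
      w ((cA a n j : ZMod q) * x ^ 2 + cB a n j * x * y + cA a n (j + 1) * y ^ 2) *
        (be1 x * be1 y + u * be2 x + v * be2 y)
    = (∑ x : ZMod q, ∑ y : ZMod q, w (x ^ 2 + a * n * x * y + a * y ^ 2)
        * (be1 x * be1 (y - (j : ZMod q) * x)))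
      - (∑ x : ZMod q, ∑ y : ZMod q, w (x ^ 2 + a * n * x * y + a * y ^ 2)
        * (be1 x * be1 (y - ((j + 1 : ℕ) : ZMod q) * x)))
      - (∑ x : ZMod q, ∑ y : ZMod q, w (x ^ 2 + a * n * x * y + a * y ^ 2) * be2 x) / 2
      + (u - 1 / 2) * (∑ x : ZMod q, ∑ y : ZMod q, w (x ^ 2 + a * n * x * y + a * y ^ 2)
        * be2 (y - ((j + 1 : ℕ) : ZMod q) * x))
      + (v - 1 / 2) * (∑ x : ZMod q, ∑ y : ZMod q, w (x ^ 2 + a * n * x * y + a * y ^ 2)
        * be2 (y - (j : ZMod q) * x)) := by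
  let E : ZMod q × ZMod q ≃ ZMod q × ZMod q :=
    { toFun := fun p => (p.1 + p.2, j * p.1 + (j + 1) * p.2)
      invFun := fun p => ((j + 1) * p.1 - p.2, p.2 - j * p.1)
      left_inv := fun p => by
        ext
        · simp only
          ring
        · simp only
          ring
      right_inv := fun p => by
        ext
        · simp only
          ring
        · simp only
          ring }
  set c : ZMod q × ZMod q → ℝ := fun p => w (p.1 ^ 2 + a * n * p.1 * p.2 + a * p.2 ^ 2) with hc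
  have tr : ∀ (g : ZMod q → ZMod q → ℝ), ∑ x : ZMod q, ∑ y : ZMod q, g x y
      = ∑ p : ZMod q × ZMod q, g p.1 p.2 := fun g => (Fintype.sum_prod_type' g).symm
  simp only [tr] at hsz ⊢
  set F : ZMod q × ZMod q → ℝ := fun p => c p * (be1 p.1 * be1 (p.2 - (j : ZMod q) * p.1))
    - c p * (be1 p.1 * be1 (p.2 - ((j + 1 : ℕ) : ZMod q) * p.1)) - c p * be2 p.1 / 2
    + (u - 1 / 2) * (c p * be2 (p.2 - ((j + 1 : ℕ) : ZMod q) * p.1))
    + (v - 1 / 2) * (c p * be2 (p.2 - (j : ZMod q) * p.1)) - c p / 4 with hF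
  have e1 : ∀ p : ZMod q × ZMod q,
      w ((cA a n j : ZMod q) * p.1 ^ 2 + cB a n j * p.1 * p.2 + cA a n (j + 1) * p.2 ^ 2) *
        (be1 p.1 * be1 p.2 + u * be2 p.1 + v * be2 p.2) = F (E p) := by
    rintro ⟨x, y⟩
    have hw1 : w ((cA a n j : ZMod q) * x ^ 2 + cB a n j * x * y + cA a n (j + 1) * y ^ 2)
        = c (E (x, y)) := by
      simp only [hc]
      congr 1
      show _ = (x + y) ^ 2 + a * n * (x + y) * (j * x + (j + 1) * y)
        + a * (j * x + (j + 1) * y) ^ 2
      unfold cA cB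
      push_cast
      ring
    have hE1 : (E (x, y)).1 = x + y := rfl
    have hE2 : (E (x, y)).2 = j * x + (j + 1) * y := rfl
    have hz1 : (E (x, y)).2 - j * (E (x, y)).1 = y := by rw [hE1, hE2]; ring
    have hz2 : (E (x, y)).2 - ((j + 1 : ℕ) : ZMod q) * (E (x, y)).1 = -x := by
      rw [hE1, hE2]
      push_cast
      ring
    simp only [hF]
    rw [hw1, hz1, hz2, hE1, be1_neg, be2_neg, be1_mul x y]
    by_cases hxy : x = 0 ∧ y = 0
    · obtain ⟨rfl, rfl⟩ := hxy
      have : c (E (0, 0)) = 0 := by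
        simp only [hc, hE1, hE2]
        simp [hw0]
      rw [this]
      ring
    · rw [if_neg hxy]
      ring
  rw [Finset.sum_congr rfl fun p _ => e1 p, Equiv.sum_comp E F]
  simp only [hF, Finset.sum_add_distrib, Finset.sum_sub_distrib, ← Finset.mul_sum,
    ← Finset.sum_div]
  have hsz' : ∑ p, c p = 0 := hsz
  rw [hsz']
  ring

set_option maxHeartbeats 2000000 in
theorem cone_neg (h : Hyp a n) (ha : a < 0) (w : ZMod q → ℝ) (hw : ∀ x, w (-x) = - w x)
    (hrep : ∃ x y : ZMod q, x ^ 2 + a * n * x * y + a * y ^ 2 = -1) :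
    Tendsto (fun t : ℝ => ∑' k : ℕ+, w ((k : ℕ) : ZMod q) *
        ((2 * (Nat.card {z : ℤ × ℤ // z ∈ Dset a n ∧ QQ a n z.1 z.2 = (k : ℕ)} : ℤ) : ℤ) : ℝ)
        * Real.exp (-(t * (k : ℕ)))) (𝓝[>] 0)
      (𝓝 (4 * ∑ x : ZMod q, ∑ y : ZMod q, w (x ^ 2 + a * n * x * y + a * y ^ 2)
      * (be1 x * be1 y + (n : ℝ) / 4 * be2 x + (a * n : ℝ) / 4 * be2 y))) := by
  have hn : n < 0 := by
    rcases h.pos_or_neg with h1 | h1
    · linarith [h1.1]
    · exact h1.2
  have hb := h.big
  have hw0 : w 0 = 0 := by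
    have := hw 0
    rw [neg_zero] at this
    linarith
  have hsz := sum_form_zero w hw hrep
  obtain ⟨K', hK'⟩ : ∃ K' : ℕ, n = -((K' : ℤ) + 1) := ⟨(-n - 1).toNat, by omega⟩
  set K := K' + 1 with hKd
  have hnK : n = -(K : ℤ) := by rw [hK', hKd]; push_cast; ring
  -- positivity
  have hApos : ∀ j : ℕ, j ≤ K → 0 < cA a n j := by
    intro j hj
    unfold cA
    have h1 : a * n * j + a * (j : ℤ) ^ 2 = (-a) * (j * ((K : ℤ) - j)) := by rw [hnK]; ring
    have h2 : (0 : ℤ) ≤ (K : ℤ) - j := by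
      have : (j : ℤ) ≤ K := by exact_mod_cast hj
      linarith
    have h3 : 0 ≤ (-a) * (j * ((K : ℤ) - j)) := by
      apply mul_nonneg (by linarith)
      positivity
    linarith
  have hBpos : ∀ j : ℕ, j < K → 0 ≤ cB a n j := by
    intro j hj
    unfold cB
    have h1 : a * n * (2 * j + 1) + 2 * a * (j * (j + 1))
        = (-a) * ((K : ℤ) * (2 * j + 1) - 2 * (j * (j + 1))) := by rw [hnK]; ring
    have h2 : (j : ℤ) + 1 ≤ K := by exact_mod_cast hj
    have h3 : 0 ≤ (K : ℤ) * (2 * j + 1) - 2 * (j * (j + 1)) := by nlinarith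
    have h4 : 0 ≤ (-a) * ((K : ℤ) * (2 * j + 1) - 2 * (j * (j + 1))) :=
      mul_nonneg (by linarith) h3
    linarith
  have hAK : cA a n K = 1 := by unfold cA; rw [hnK]; ring
  have hA0 : cA a n 0 = 1 := by unfold cA; push_cast; ring
  -- the parametrisation
  have hmem : ∀ x y : ℤ, (x, y) ∈ Dset a n ↔ 0 ≤ y ∧ y < K * x := by
    intro x y
    unfold Dset
    simp only [Set.mem_ofPred_eq, Int.sign_eq_neg_one_of_neg ha]
    rw [hnK]
    constructor
    · rintro ⟨h1, h2⟩
      exact ⟨h1, by linarith⟩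
    · rintro ⟨h1, h2⟩
      exact ⟨h1, by linarith⟩
  let f : Fin K × ℕ × ℕ → Dset a n := fun p =>
    ⟨((p.2.1 : ℤ) + 1 + p.2.2, (p.1 : ℕ) * ((p.2.1 : ℤ) + 1 + p.2.2) + p.2.2), by
      rw [hmem]
      refine ⟨by positivity, ?_⟩
      have h1 : ((p.1 : ℕ) : ℤ) + 1 ≤ K := by exact_mod_cast p.1.2
      nlinarith [Int.natCast_nonneg p.2.1, Int.natCast_nonneg p.2.2]⟩
  have fe : ∀ (j : Fin K) (x y : ℕ), (f (j, x, y)).1
      = ((x : ℤ) + 1 + y, (j : ℕ) * ((x : ℤ) + 1 + y) + y) := fun j x y => rfl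
  have hfb : Function.Bijective f := by
    constructor
    · rintro ⟨j, x, y⟩ ⟨j', x', y'⟩ hf
      have hf' := congrArg Subtype.val hf
      rw [fe, fe] at hf'
      simp only [Prod.mk.injEq] at hf'
      obtain ⟨h1, h2⟩ := hf'
      rw [← h1] at h2
      have hX : (0 : ℤ) < (x : ℤ) + 1 + y := by positivity
      have hy : (y : ℤ) < (x : ℤ) + 1 + y := by
        have := Int.natCast_nonneg x
        linarith
      have hy' : (y' : ℤ) < (x : ℤ) + 1 + y := by
        rw [h1]
        have := Int.natCast_nonneg x'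
        linarith
      have hjj : ((j : ℕ) : ℤ) = ((j' : ℕ) : ℤ) := by
        have e1 := Int.mul_add_ediv_left
        by_contra hne
        rcases lt_or_gt_of_ne hne with h3 | h3
        · have : ((j : ℕ) : ℤ) + 1 ≤ (j' : ℕ) := h3
          nlinarith [Int.natCast_nonneg y']
        · have : ((j' : ℕ) : ℤ) + 1 ≤ (j : ℕ) := h3
          nlinarith [Int.natCast_nonneg y]
      have hj : j = j' := by
        apply Fin.ext
        exact_mod_cast hjj
      subst hj
      have hyy : y = y' := by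
        have : (y : ℤ) = y' := by linarith
        exact_mod_cast this
      subst hyy
      have hxx : x = x' := by
        have : (x : ℤ) = x' := by linarith
        exact_mod_cast this
      subst hxx
      rfl
    · rintro ⟨⟨X, Y⟩, hz⟩
      rw [hmem] at hz
      obtain ⟨hY, hYX⟩ := hz
      have hX : 0 < X := by
        by_contra hc
        have : (K : ℤ) * X ≤ 0 := mul_nonpos_of_nonneg_of_nonpos (by positivity) (by linarith)
        linarith
      have hdm := Int.emod_add_mul_ediv Y X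
      have hm0 := Int.emod_nonneg Y hX.ne'
      have hm1 := Int.emod_lt_of_pos Y hX
      have hd0 : 0 ≤ Y / X := Int.ediv_nonneg hY hX.le
      have hdK : Y / X < K := by
        rw [Int.ediv_lt_iff_lt_mul hX]
        exact hYX
      refine ⟨(⟨(Y / X).toNat, by omega⟩, (X - 1 - Y % X).toNat, (Y % X).toNat), ?_⟩
      apply Subtype.ext
      rw [fe]
      have e1 : (((Y / X).toNat : ℕ) : ℤ) = Y / X := Int.toNat_of_nonneg hd0
      have e2 : (((X - 1 - Y % X).toNat : ℕ) : ℤ) = X - 1 - Y % X :=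
        Int.toNat_of_nonneg (by omega)
      have e3 : (((Y % X).toNat : ℕ) : ℤ) = Y % X := Int.toNat_of_nonneg hm0
      simp only [e1, e2, e3]
      ext
      · simp only
        ring
      · simp only
        linear_combination hdm
  have key := cone_limit h (q := q) w hw (ι := Fin K) (fun i => cA a n i)
    (fun i => cB a n i) (fun i => cA a n (i + 1))
    (fun i => hApos i i.2.le) (fun i => hBpos i i.2)
    (fun i => hApos (i + 1) i.2) (finRotate K) (fun i => by
      by_cases hi : i = Fin.last K'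
      · rw [hi, finRotate_last]
        show cA a n (K' + 1) = cA a n 0
        rw [hA0, hAK]
      · rw [coe_finRotate_of_ne_last hi])
    (Equiv.ofBijective f hfb) (fun i x y => by
      show QQ a n (f (i, x, y)).1.1 (f (i, x, y)).1.2 = _
      rw [fe]
      unfold QQ cA cB
      push_cast
      ring) (fun i => by
      let E : ZMod q × ZMod q ≃ ZMod q × ZMod q :=
        { toFun := fun p => (p.1 + p.2, (i : ℕ) * p.1 + ((i : ℕ) + 1) * p.2)
          invFun := fun p => (((i : ℕ) + 1) * p.1 - p.2, p.2 - (i : ℕ) * p.1)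
          left_inv := fun p => by
            ext
            · simp only
              ring
            · simp only
              ring
          right_inv := fun p => by
            ext
            · simp only
              ring
            · simp only
              ring }
      have tr : ∀ (g : ZMod q → ZMod q → ℝ), ∑ x : ZMod q, ∑ y : ZMod q, g x y
          = ∑ p : ZMod q × ZMod q, g p.1 p.2 := fun g => (Fintype.sum_prod_type' g).symm
      rw [tr] at hsz ⊢
      rw [← hsz]
      symm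
      rw [← Equiv.sum_comp E]
      apply Finset.sum_congr rfl
      rintro ⟨x, y⟩ _
      congr 1
      show (x + y) ^ 2 + a * n * (x + y) * ((i : ℕ) * x + ((i : ℕ) + 1) * y)
        + a * ((i : ℕ) * x + ((i : ℕ) + 1) * y) ^ 2 = _
      unfold cA cB
      push_cast
      ring)
  -- evaluation of the limit
  set R : ℕ → ℝ := fun j => ∑ x : ZMod q, ∑ y : ZMod q,
    w (x ^ 2 + a * n * x * y + a * y ^ 2) * be2 (y - (j : ZMod q) * x) with hR
  set P : ℕ → ℝ := fun j => ∑ x : ZMod q, ∑ y : ZMod q,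
    w (x ^ 2 + a * n * x * y + a * y ^ 2) * (be1 x * be1 (y - (j : ZMod q) * x)) with hP
  set R' : ℝ := ∑ x : ZMod q, ∑ y : ZMod q,
    w (x ^ 2 + a * n * x * y + a * y ^ 2) * be2 x with hR'
  set S : ℕ → ℝ := fun j => ∑ x : ZMod q, ∑ y : ZMod q,
      w ((cA a n j : ZMod q) * x ^ 2 + cB a n j * x * y + cA a n (j + 1) * y ^ 2) *
        (be1 x * be1 y + (cB a n j : ℝ) / (4 * cA a n (j + 1)) * be2 x
          + (cB a n j : ℝ) / (4 * cA a n j) * be2 y) with hS
  have hSj : ∀ j, S j = P j - P (j + 1) - R' / 2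
      + ((cB a n j : ℝ) / (4 * cA a n (j + 1)) - 1 / 2) * R (j + 1)
      + ((cB a n j : ℝ) / (4 * cA a n j) - 1 / 2) * R j := fun j =>
    cone_term w hw0 j _ _ hsz
  have hpart : ∀ i : ℕ, i < K → ∑ j ∈ range (i + 1), S j = P 0 - P (i + 1)
      - ((i : ℝ) + 1) / 2 * R' + (a * n : ℝ) / 4 * R 0
      + ((cB a n i : ℝ) / (4 * cA a n (i + 1)) - 1 / 2) * R (i + 1) := by
    intro i
    induction i with
    | zero =>
      intro _
      rw [zero_add, Finset.sum_range_one, hSj 0, hA0]
      have : (cB a n 0 : ℝ) = 2 + a * n := by unfold cB; push_cast; ring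
      rw [this]
      push_cast
      ring
    | succ i ih =>
      intro hi
      rw [Finset.sum_range_succ, ih (by omega), hSj (i + 1)]
      have h1 : (cB a n i : ℝ) + cB a n (i + 1) = 4 * cA a n (i + 1) := by
        exact_mod_cast cB_add a n i
      have h2 : (cA a n (i + 1) : ℝ) ≠ 0 := by
        have := hApos (i + 1) (by omega)
        exact_mod_cast this.ne'
      have h3 : (cB a n (i + 1) : ℝ) / (4 * cA a n (i + 1))
          = 1 - (cB a n i : ℝ) / (4 * cA a n (i + 1)) := by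
        field_simp
        linarith
      rw [h3]
      push_cast
      ring
  have hlast : ∑ j ∈ range K, S j = P 0 - P K - (K : ℝ) / 2 * R' + (a * n : ℝ) / 4 * R 0
      + (a * n : ℝ) / 4 * R K := by
    have h1 := hpart K' (by omega)
    have h2 : (cB a n K' : ℝ) = 2 + a * n := by
      have : cB a n K' = 2 + a * n := by
        unfold cB
        rw [hK']
        ring
      rw [this]
      push_cast
      ring
    rw [← hKd, hAK, h2] at h1
    rw [h1]
    have h3 : (K : ℝ) = K' + 1 := by rw [hKd]; push_cast; ring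
    rw [h3]
    push_cast
    ring
  -- the reflection symmetry
  let E' : ZMod q × ZMod q ≃ ZMod q × ZMod q :=
    { toFun := fun p => (p.1, (K : ZMod q) * p.1 - p.2)
      invFun := fun p => (p.1, (K : ZMod q) * p.1 - p.2)
      left_inv := fun p => by
        ext
        · rfl
        · simp only
          ring
      right_inv := fun p => by
        ext
        · rfl
        · simp only
          ring }
  have tr : ∀ (g : ZMod q → ZMod q → ℝ), ∑ x : ZMod q, ∑ y : ZMod q, g x y
      = ∑ p : ZMod q × ZMod q, g p.1 p.2 := fun g => (Fintype.sum_prod_type' g).symm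
  have hnz : (n : ZMod q) = -(K : ZMod q) := by rw [hnK]; push_cast; ring
  have hinv : ∀ x y : ZMod q, w (x ^ 2 + a * n * x * (K * x - y) + a * (K * x - y) ^ 2)
      = w (x ^ 2 + a * n * x * y + a * y ^ 2) := by
    intro x y
    congr 1
    rw [hnz]
    ring
  have hRK : R K = R 0 := by
    simp only [hR, tr]
    rw [← Equiv.sum_comp E']
    apply Finset.sum_congr rfl
    rintro ⟨x, y⟩ _
    show w (x ^ 2 + a * n * x * (K * x - y) + a * (K * x - y) ^ 2)
      * be2 (((K : ZMod q) * x - y) - (K : ZMod q) * x) = _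
    rw [hinv]
    congr 1
    rw [← be2_neg]
    congr 1
    push_cast
    ring
  have hPK : P K = - P 0 := by
    simp only [hP, tr]
    rw [← Equiv.sum_comp E', ← Finset.sum_neg_distrib]
    apply Finset.sum_congr rfl
    rintro ⟨x, y⟩ _
    show w (x ^ 2 + a * n * x * (K * x - y) + a * (K * x - y) ^ 2)
      * (be1 x * be1 (((K : ZMod q) * x - y) - (K : ZMod q) * x)) = _
    rw [hinv]
    have e1 : ((K : ZMod q) * x - y) - K * x = -y := by ring
    have e2 : y - ((0 : ℕ) : ZMod q) * x = y := by push_cast; ring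
    rw [e1, be1_neg]
    simp only
    rw [e2]
    ring
  rw [hRK, hPK] at hlast
  have hsumS : ∑ i : Fin K, S i = ∑ j ∈ range K, S j := Fin.sum_univ_eq_sum_range S K
  have hfinal : (2 * ∑ i : Fin K, S i : ℝ)
      = 4 * ∑ x : ZMod q, ∑ y : ZMod q, w (x ^ 2 + a * n * x * y + a * y ^ 2)
      * (be1 x * be1 y + (n : ℝ) / 4 * be2 x + (a * n : ℝ) / 4 * be2 y) := by
    rw [hsumS, hlast]
    have hR0 : R 0 = ∑ x : ZMod q, ∑ y : ZMod q,
        w (x ^ 2 + a * n * x * y + a * y ^ 2) * be2 y := by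
      simp only [hR]
      simp
    have hP0 : P 0 = ∑ x : ZMod q, ∑ y : ZMod q,
        w (x ^ 2 + a * n * x * y + a * y ^ 2) * (be1 x * be1 y) := by
      simp only [hP]
      simp
    have hn' : (n : ℝ) = -(K : ℝ) := by rw [hnK]; push_cast; ring
    rw [hR0, hP0, hR']
    have e : ∑ x : ZMod q, ∑ y : ZMod q, w (x ^ 2 + a * n * x * y + a * y ^ 2)
      * (be1 x * be1 y + (n : ℝ) / 4 * be2 x + (a * n : ℝ) / 4 * be2 y)
      = ∑ x : ZMod q, ∑ y : ZMod q, w (x ^ 2 + a * n * x * y + a * y ^ 2) * (be1 x * be1 y)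
       + (n : ℝ) / 4 * ∑ x : ZMod q, ∑ y : ZMod q, w (x ^ 2 + a * n * x * y + a * y ^ 2) * be2 x
       + (a * n : ℝ) / 4 * ∑ x : ZMod q, ∑ y : ZMod q,
          w (x ^ 2 + a * n * x * y + a * y ^ 2) * be2 y := by
      simp only [Finset.mul_sum, ← Finset.sum_add_distrib]
      apply Finset.sum_congr rfl
      intro x _
      apply Finset.sum_congr rfl
      intro y _
      ring
    rw [e, hn']
    ring
  rw [← hfinal]
  exact key

/-- the main identity -/
theorem Hyp.star (h : Hyp a n) (hodd : Odd q) (hs : Squarefree q) (hq : q.Coprime (Dn a n))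
    (w : ZMod q → ℝ) (hw : ∀ x, w (-x) = - w x) :
    LL q (Dn a n) w = (Dn a n : ℝ) * ∑ x ∈ range q, ∑ y ∈ range q,
      w ((QQ a n x y : ℤ) : ZMod q) * WW q a n x y := by
  have hq0 : (q : ℝ) ≠ 0 := by exact_mod_cast (NeZero.ne q)
  have hD0 : (Dn a n : ℝ) ≠ 0 := by
    have := h.Dn_gt
    have : Dn a n ≠ 0 := by omega
    exact_mod_cast this
  have hrep := neg_one_rep a n q hodd hs (by
    rw [← h.Dn_eq]
    exact Nat.isCoprime_iff_coprime.2 hq)
  have l1 := h.L_side hq w hw
  have l2 : Tendsto (fun t : ℝ => ∑' k : ℕ+, w ((k : ℕ) : ZMod q) *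
        ((2 * (Nat.card {z : ℤ × ℤ // z ∈ Dset a n ∧ QQ a n z.1 z.2 = (k : ℕ)} : ℤ) : ℤ) : ℝ)
        * Real.exp (-(t * (k : ℕ)))) (𝓝[>] 0)
      (𝓝 (4 * ∑ x : ZMod q, ∑ y : ZMod q, w (x ^ 2 + a * n * x * y + a * y ^ 2)
      * (be1 x * be1 y + (n : ℝ) / 4 * be2 x + (a * n : ℝ) / 4 * be2 y))) := by
    rcases h.pos_or_neg with h1 | h1
    · exact cone_pos h h1.1 w hw hrep
    · exact cone_neg h h1.1 w hw hrep
  have e1 : (fun t : ℝ => ∑' k : ℕ+, w ((k : ℕ) : ZMod q) *
        ((2 * (Nat.card {z : ℤ × ℤ // z ∈ Dset a n ∧ QQ a n z.1 z.2 = (k : ℕ)} : ℤ) : ℤ) : ℝ)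
        * Real.exp (-(t * (k : ℕ))))
      = fun t : ℝ => ∑' k : ℕ+, w ((k : ℕ) : ZMod q) *
        ((cnv (fun _ => 1) (fun k => J((k : ℤ) | Dn a n)) k
        + cnv (fun k => J((k : ℤ) | a.natAbs)) (fun k => J((k : ℤ) | pp a n)) k : ℤ) : ℝ)
        * Real.exp (-(t * (k : ℕ))) := by
    funext t
    apply tsum_congr
    intro k
    rw [h.card_dset k.pos]
  rw [e1] at l2
  have l3 := tendsto_nhds_unique l1 l2
  rw [be_WW] at l3
  field_simp at l3
  linarith

end Pool.Agent.Helper54.CN
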