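import Pool.Agent.Helper54.CN.Star1

/-!
Divisibility by powers of two of first moments of Jacobi symbols.
-/

namespace Pool.Agent.Helper54.CN

open NumberTheorySymbols Finset

/-- first moment of the Jacobi symbol modulo `m` over residues prime to `k` -/
noncomputable def Bf (m k : ℕ) : ℤ := ∑ l ∈ range (m * k), (l : ℤ) * (J((l : ℤ) | m) * J((l : ℤ) | k) ^ 2)

theorem sum_blocks {M : Type*} [AddCommMonoid M] (f : ℕ → M) (N p : ℕ) :
    ∑ l ∈ range (N * p), f l = ∑ j ∈ range p, ∑ l ∈ range N, f (N * j + l) := by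
  induction p with
  | zero => simp
  | succ p ih => rw [Nat.mul_succ, Finset.sum_range_add, ih, Finset.sum_range_succ]

theorem sum_multiples {M : Type*} [AddCommMonoid M] (f : ℕ → M) (N p : ℕ) (hp : 0 < p) :
    ∑ l ∈ range (p * N), (if p ∣ l then f l else 0) = ∑ l ∈ range N, f (p * l) := by
  rw [sum_blocks]
  apply Finset.sum_congr rfl
  intro j _
  rw [Finset.sum_eq_single 0]
  · simp
  · intro i hi h0
    rw [mem_range] at hi
    rw [if_neg]
    intro hd
    rw [Nat.dvd_add_right (dvd_mul_right p j)] at hd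
    exact h0 (Nat.eq_zero_of_dvd_of_lt hd hi)
  · intro h
    exact absurd (mem_range.2 hp) h

theorem jacobi_periodic {m : ℕ} (N j l : ℕ) (h : m ∣ N) :
    J(((N * j + l : ℕ) : ℤ) | m) = J((l : ℤ) | m) := by
  apply jacobiSym.mod_left'
  obtain ⟨c, rfl⟩ := h
  push_cast
  rw [mul_assoc, add_comm, Int.add_mul_emod_self_left]

theorem jacobi_moment_zero {m k : ℕ} (hm : Odd m) (hms : Squarefree m) (hm1 : 1 < m)
    (hk : Odd k) (hc : m.Coprime k) :
    ∑ l ∈ range (m * k), (J((l : ℤ) | m) * J((l : ℤ) | k) ^ 2) = 0 := by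
  have : NeZero m := ⟨by omega⟩
  have : NeZero k := ⟨by rintro rfl; exact (by decide : ¬ Odd 0) hk⟩
  have h1 := sum_crt hc (fun (u : ZMod m) (v : ZMod k) => (J((u.val : ℤ) | m) : ℤ)
    * J((v.val : ℤ) | k) ^ 2)
  have h2 : ∑ l ∈ range (m * k), (J((l : ℤ) | m) * J((l : ℤ) | k) ^ 2)
      = ∑ l ∈ range (m * k), (J((((l : ZMod m).val : ℕ) : ℤ) | m)
        * J((((l : ZMod k).val : ℕ) : ℤ) | k) ^ 2) := by
    apply Finset.sum_congr rfl
    intro l _
    rw [← jacobi_val, ← jacobi_val]
  rw [h2, h1]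
  have h3 : ∀ u : ZMod m, ∑ v : ZMod k, (J((u.val : ℤ) | m) : ℤ) * J((v.val : ℤ) | k) ^ 2
      = J((u.val : ℤ) | m) * ∑ v : ZMod k, J((v.val : ℤ) | k) ^ 2 := by
    intro u
    rw [Finset.mul_sum]
  simp only [h3]
  rw [← Finset.sum_mul]
  have h4 := jacobi_sum_zero hm hms hm1
  have h5 : ∑ u : ZMod m, J((u.val : ℤ) | m) = 0 := by exact_mod_cast h4
  rw [h5, zero_mul]

theorem jac_sq_prime {p : ℕ} (hp : p.Prime) (l : ℕ) :
    J((l : ℤ) | p) ^ 2 = if p ∣ l then 0 else 1 := by
  have : NeZero p := ⟨hp.ne_zero⟩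
  split_ifs with h
  · have h1 : J((l : ℤ) | p) = 0 := by
      rw [jacobiSym.eq_zero_iff]
      refine ⟨hp.ne_zero, ?_⟩
      rw [Int.gcd_natCast_natCast]
      intro h2
      have := Nat.dvd_gcd h (dvd_refl p)
      rw [h2] at this
      exact hp.one_lt.ne' (Nat.dvd_one.1 this)
    rw [h1]
    norm_num
  · apply jacobiSym.sq_one
    rw [Int.gcd_natCast_natCast]
    exact ((Nat.Prime.coprime_iff_not_dvd hp).2 h).symm

theorem Bf_prime {m k p : ℕ} (hm : Odd m) (hms : Squarefree m) (hm1 : 1 < m)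
    (hk : Odd k) (hc : m.Coprime k) (hp : p.Prime) (hpk : p.Coprime k) :
    Bf m (k * p) = Bf m k * (p * (1 - J((p : ℤ) | m))) := by
  have hk0 : NeZero k := ⟨by rintro rfl; exact (by decide : ¬ Odd 0) hk⟩
  have hp0 : NeZero p := ⟨hp.ne_zero⟩
  set g : ℕ → ℤ := fun l => J((l : ℤ) | m) * J((l : ℤ) | k) ^ 2 with hg
  have hper : ∀ j l, g (m * k * j + l) = g l := by
    intro j l
    simp only [hg]
    rw [jacobi_periodic _ _ _ (dvd_mul_right m k), jacobi_periodic _ _ _ (dvd_mul_left k m)]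
  have hsum : ∑ l ∈ range (m * k), g l = 0 := jacobi_moment_zero hm hms hm1 hk hc
  have e1 : Bf m (k * p) = ∑ l ∈ range (m * k * p), (l : ℤ) * g l
      - ∑ l ∈ range (p * (m * k)), (if p ∣ l then (l : ℤ) * g l else 0) := by
    unfold Bf
    rw [mul_comm p (m * k), ← mul_assoc, ← Finset.sum_sub_distrib]
    apply Finset.sum_congr rfl
    intro l _
    rw [jacobiSym.mul_right, mul_pow, jac_sq_prime hp]
    simp only [hg]
    split_ifs <;> ring
  have e2 : ∑ l ∈ range (m * k * p), (l : ℤ) * g l = p * Bf m k := by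
    rw [sum_blocks]
    have : ∀ j ∈ range p, ∑ l ∈ range (m * k), ((m * k * j + l : ℕ) : ℤ) * g (m * k * j + l)
        = Bf m k := by
      intro j _
      unfold Bf
      have h3 : ∀ l ∈ range (m * k), ((m * k * j + l : ℕ) : ℤ) * g (m * k * j + l)
          = ((m * k * j : ℕ) : ℤ) * g l + (l : ℤ) * g l := by
        intro l _
        rw [hper]
        push_cast
        ring
      rw [Finset.sum_congr rfl h3, Finset.sum_add_distrib, ← Finset.mul_sum, hsum, mul_zero,
        zero_add]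
    rw [Finset.sum_congr rfl this, Finset.sum_const, card_range, nsmul_eq_mul]
  have e3 : ∑ l ∈ range (p * (m * k)), (if p ∣ l then (l : ℤ) * g l else 0)
      = p * J((p : ℤ) | m) * Bf m k := by
    rw [sum_multiples (fun l => (l : ℤ) * g l) (m * k) p hp.pos]
    unfold Bf
    rw [Finset.mul_sum]
    apply Finset.sum_congr rfl
    intro l _
    have h1 : J((p : ℤ) | k) ^ 2 = 1 := by
      apply jacobiSym.sq_one
      rw [Int.gcd_natCast_natCast]
      exact hpk
    simp only [hg]
    push_cast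
    rw [jacobiSym.mul_left, jacobiSym.mul_left, mul_pow, h1]
    ring
  rw [e1, e2, e3]
  ring

theorem two_dvd_one_sub {p m : ℕ} (h : p.Coprime m) : (2 : ℤ) ∣ 1 - J((p : ℤ) | m) := by
  have h1 : J((p : ℤ) | m) = 1 ∨ J((p : ℤ) | m) = -1 := by
    apply jacobiSym.eq_one_or_neg_one
    rw [Int.gcd_natCast_natCast]
    exact h
  rcases h1 with h1 | h1 <;> rw [h1] <;> norm_num

theorem Bf_dvd {m k : ℕ} (hm : Odd m) (hms : Squarefree m) (hm1 : 1 < m)
    (hk : Odd k) (hc : m.Coprime k) (k' : ℕ) (hk' : Odd k') (hs : Squarefree k')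
    (hc1 : k'.Coprime m) (hc2 : k'.Coprime k) :
    Bf m k ∣ Bf m (k * k') ∧ (1 < k' → 2 * Bf m k ∣ Bf m (k * k')) := by
  induction k' using Nat.strong_induction_on with
  | _ k' ih =>
    rcases eq_or_ne k' 1 with rfl | h1
    · rw [mul_one]
      exact ⟨dvd_refl _, fun h => absurd h (by omega)⟩
    · set p := k'.minFac with hp
      have hpp : p.Prime := Nat.minFac_prime h1
      obtain ⟨s, hqs⟩ := Nat.minFac_dvd k'
      rw [← hp] at hqs
      have hs0 : 0 < s := by
        rcases Nat.eq_zero_or_pos s with h0 | h0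
        · rw [h0, mul_zero] at hqs
          rw [hqs] at hk'
          exact absurd hk' (by decide)
        · exact h0
      have hcop : p.Coprime s := by
        rw [hqs] at hs
        exact Nat.coprime_of_squarefree_mul hs
      have hs' : Squarefree s := by
        rw [hqs] at hs
        exact hs.of_mul_right
      have hso : Odd s := by
        rw [hqs] at hk'
        exact (Nat.odd_mul.1 hk').2
      have hc1s : s.Coprime m := Nat.Coprime.coprime_dvd_left (hqs ▸ dvd_mul_left s p) hc1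
      have hc1p : p.Coprime m := Nat.Coprime.coprime_dvd_left (hqs ▸ dvd_mul_right p s) hc1
      have hc2s : s.Coprime k := Nat.Coprime.coprime_dvd_left (hqs ▸ dvd_mul_left s p) hc2
      have hc2p : p.Coprime k := Nat.Coprime.coprime_dvd_left (hqs ▸ dvd_mul_right p s) hc2
      obtain ⟨⟨c, hcc⟩, _⟩ := ih s (by
        rw [hqs]
        have := hpp.two_le
        nlinarith) hso hs' hc1s hc2s
      have h2 : Bf m (k * k') = Bf m (k * s) * (p * (1 - J((p : ℤ) | m))) := by
        rw [hqs, show k * (p * s) = (k * s) * p by ring]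
        exact Bf_prime hm hms hm1 (hk.mul hso) (Nat.Coprime.mul_right hc hc1s.symm) hpp
          (Nat.Coprime.mul_right hc2p hcop)
      obtain ⟨d, hd⟩ := two_dvd_one_sub hc1p
      have h3 : 2 * Bf m k ∣ Bf m (k * k') := by
        rw [h2, hcc, hd]
        exact ⟨c * p * d, by ring⟩
      exact ⟨(dvd_mul_left _ _).trans h3, fun _ => h3⟩

variable {ι : Type*} [DecidableEq ι]

theorem jacobi_prod (N : ι → ℕ) (S : Finset ι) (hN : ∀ i ∈ S, N i ≠ 0) (l : ℤ) :
    J(l | ∏ i ∈ S, N i) = ∏ i ∈ S, J(l | N i) := by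
  induction S using Finset.induction_on with
  | empty => simp
  | insert i S hi ih =>
    rw [Finset.prod_insert hi, Finset.prod_insert hi]
    have : NeZero (N i) := ⟨hN i (Finset.mem_insert_self i S)⟩
    have : NeZero (∏ i ∈ S, N i) := ⟨Finset.prod_ne_zero_iff.2 fun j hj =>
      hN j (Finset.mem_insert_of_mem hj)⟩
    rw [jacobiSym.mul_right, ih fun j hj => hN j (Finset.mem_insert_of_mem hj)]

/-- admissible family of moduli -/
structure Fam (m : ℕ) (N : ι → ℕ) (s : Finset ι) : Prop where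
  odd : ∀ i ∈ s, Odd (N i)
  sqf : ∀ i ∈ s, Squarefree (N i)
  one : ∀ i ∈ s, 1 < N i
  cop : ∀ i ∈ s, (N i).Coprime m
  cop2 : ∀ i ∈ s, ∀ j ∈ s, i ≠ j → (N i).Coprime (N j)

theorem Fam.sub {m : ℕ} {N : ι → ℕ} {s S : Finset ι} (h : Fam m N s) (hS : S ⊆ s) :
    Fam m N S :=
  ⟨fun i hi => h.odd i (hS hi), fun i hi => h.sqf i (hS hi), fun i hi => h.one i (hS hi),
    fun i hi => h.cop i (hS hi), fun i hi j hj => h.cop2 i (hS hi) j (hS hj)⟩

theorem Fam.prod_odd {m : ℕ} {N : ι → ℕ} {s : Finset ι} (h : Fam m N s) :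
    Odd (∏ i ∈ s, N i) := by
  induction s using Finset.induction_on with
  | empty => simp
  | insert i s hi ih =>
    rw [Finset.prod_insert hi]
    exact (h.odd i (Finset.mem_insert_self i s)).mul (ih (h.sub (Finset.subset_insert i s)))

theorem Fam.cop_prod {m : ℕ} {N : ι → ℕ} {s : Finset ι} (h : Fam m N s) :
    (∏ i ∈ s, N i).Coprime m :=
  Nat.Coprime.prod_left h.cop

theorem Fam.prod_sqf {m : ℕ} {N : ι → ℕ} {s : Finset ι} (h : Fam m N s) :
    Squarefree (∏ i ∈ s, N i) := by
  induction s using Finset.induction_on with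
  | empty => simp
  | insert i s hi ih =>
    rw [Finset.prod_insert hi]
    rw [Nat.squarefree_mul]
    · exact ⟨h.sqf i (Finset.mem_insert_self i s), ih (h.sub (Finset.subset_insert i s))⟩
    · apply Nat.Coprime.prod_right
      intro j hj
      exact h.cop2 i (Finset.mem_insert_self i s) j (Finset.mem_insert_of_mem hj)
        (by rintro rfl; exact hi hj)

theorem pow_dvd_Bf {m : ℕ} {N : ι → ℕ} (hm : Odd m) (hms : Squarefree m) (hm1 : 1 < m)
    {k : ℕ} (hk : Odd k) (hc : m.Coprime k) (s : Finset ι) (h : Fam m N s)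
    (h2 : ∀ i ∈ s, (N i).Coprime k) : 2 ^ s.card * Bf m k ∣ Bf m (k * ∏ i ∈ s, N i) := by
  induction s using Finset.induction_on with
  | empty => simp
  | insert i s hi ih =>
    rw [Finset.card_insert_of_notMem hi, Finset.prod_insert hi]
    have h3 := ih (h.sub (Finset.subset_insert i s)) fun j hj => h2 j (Finset.mem_insert_of_mem hj)
    have hF := h.sub (Finset.subset_insert i s)
    have h4 := (Bf_dvd (k := k * ∏ i ∈ s, N i) hm hms hm1 (hk.mul hF.prod_odd)
      (Nat.Coprime.mul_right hc hF.cop_prod.symm) (N i) (h.odd i (Finset.mem_insert_self i s))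
      (h.sqf i (Finset.mem_insert_self i s)) (h.cop i (Finset.mem_insert_self i s))
      (Nat.Coprime.mul_right (h2 i (Finset.mem_insert_self i s))
        (Nat.Coprime.prod_right fun j hj => h.cop2 i (Finset.mem_insert_self i s) j
          (Finset.mem_insert_of_mem hj) (by rintro rfl; exact hi hj)))).2
      (h.one i (Finset.mem_insert_self i s))
    rw [show k * (N i * ∏ j ∈ s, N j) = k * (∏ j ∈ s, N j) * N i by ring]
    refine dvd_trans ?_ h4
    rw [pow_succ]
    have : (2 : ℤ) ^ s.card * 2 * Bf m k = 2 * (2 ^ s.card * Bf m k) := by ring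
    rw [this]
    exact mul_dvd_mul_left 2 h3

theorem moment_dvd {m : ℕ} {N : ι → ℕ} (hm : Odd m) (hms : Squarefree m) (hm1 : 1 < m)
    (s : Finset ι) (h : Fam m N s) : (2 : ℤ) ^ s.card ∣ Bf (m * ∏ i ∈ s, N i) 1 := by
  induction s using Finset.strongInduction with
  | H s ih =>
    have hm0 : NeZero m := ⟨by omega⟩
    -- the total sum
    have hE : (2 : ℤ) ^ s.card ∣ ∑ l ∈ range (m * ∏ i ∈ s, N i), (l : ℤ) * (J((l : ℤ) | m)
        * ∏ i ∈ s, (J((l : ℤ) | N i) + J((l : ℤ) | N i) ^ 2)) := by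
      apply Finset.dvd_sum
      intro l _
      apply Dvd.dvd.mul_left
      apply Dvd.dvd.mul_left
      rw [← Finset.prod_const]
      apply Finset.prod_dvd_prod_of_dvd
      intro i _
      rcases jacobiSym.trichotomy (l : ℤ) (N i) with h1 | h1 | h1 <;> rw [h1] <;> norm_num
    -- expansion
    have hexp : ∑ l ∈ range (m * ∏ i ∈ s, N i), (l : ℤ) * (J((l : ℤ) | m)
        * ∏ i ∈ s, (J((l : ℤ) | N i) + J((l : ℤ) | N i) ^ 2))
        = ∑ S ∈ s.powerset, Bf (m * ∏ i ∈ S, N i) (∏ i ∈ s \ S, N i) := by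
      have h1 : ∀ l ∈ range (m * ∏ i ∈ s, N i), (l : ℤ) * (J((l : ℤ) | m)
          * ∏ i ∈ s, (J((l : ℤ) | N i) + J((l : ℤ) | N i) ^ 2))
          = ∑ S ∈ s.powerset, (l : ℤ) * (J((l : ℤ) | m * ∏ i ∈ S, N i)
            * J((l : ℤ) | ∏ i ∈ s \ S, N i) ^ 2) := by
        intro l _
        rw [Finset.prod_add, Finset.mul_sum, Finset.mul_sum]
        apply Finset.sum_congr rfl
        intro S hS
        rw [Finset.mem_powerset] at hS
        have hF := h.sub hS
        have : NeZero (∏ i ∈ S, N i) := ⟨by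
          have := hF.prod_odd
          intro h0
          rw [h0] at this
          exact absurd this (by decide)⟩
        rw [jacobiSym.mul_right, jacobi_prod N S (fun i hi => by have := hF.one i hi; omega),
          jacobi_prod N (s \ S) (fun i hi => by
            have := h.one i (Finset.sdiff_subset hi); omega), Finset.prod_pow]
        ring
      rw [Finset.sum_congr rfl h1, Finset.sum_comm]
      apply Finset.sum_congr rfl
      intro S hS
      rw [Finset.mem_powerset] at hS
      unfold Bf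
      rw [mul_assoc, mul_comm (∏ i ∈ S, N i), Finset.prod_sdiff hS]
    rw [hexp, ← Finset.add_sum_erase _ _ (Finset.mem_powerset_self s)] at hE
    rw [Finset.sdiff_self, Finset.prod_empty] at hE
    refine (Int.dvd_iff_dvd_of_dvd_add hE).2 ?_
    apply Finset.dvd_sum
    intro S hS
    rw [Finset.mem_erase, Finset.mem_powerset] at hS
    obtain ⟨hne, hSs⟩ := hS
    have hss : S ⊂ s := Finset.ssubset_iff_subset_ne.2 ⟨hSs, hne⟩
    have h1 := ih S hss (h.sub hSs)
    have hF := h.sub hSs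
    have hF2 := h.sub (Finset.sdiff_subset : s \ S ⊆ s)
    have hM : Squarefree (m * ∏ i ∈ S, N i) := by
      rw [Nat.squarefree_mul hF.cop_prod.symm]
      exact ⟨hms, hF.prod_sqf⟩
    have hM1 : 1 < m * ∏ i ∈ S, N i := by
      have h2 : 0 < ∏ i ∈ S, N i := hF.prod_odd.pos
      nlinarith
    have h2 := pow_dvd_Bf (m := m * ∏ i ∈ S, N i) (N := N) (k := 1) (hm.mul hF.prod_odd) hM hM1
      (by decide) (Nat.coprime_one_right _) (s \ S)
      ⟨hF2.odd, hF2.sqf, hF2.one, fun i hi => Nat.Coprime.mul_right (hF2.cop i hi)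
        (Nat.Coprime.prod_right fun j hj => h.cop2 i (Finset.sdiff_subset hi) j (hSs hj) (by
          rintro rfl
          exact (Finset.mem_sdiff.1 hi).2 hj)), hF2.cop2⟩ (fun i _ => Nat.coprime_one_right _)
    rw [one_mul] at h2
    refine dvd_trans ?_ h2
    rw [← Finset.card_sdiff_add_card_eq_card hSs, pow_add]
    exact mul_dvd_mul_left _ h1

end Pool.Agent.Helper54.CN
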