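import Pool.Agent.Helper54.CN.TwoAdic
import Pool.Agent.Helper54.CN.NZero

/-!
The main identity for real characters in the case `n ≡ 0`.
-/

namespace Pool.Agent.Helper54.CN

open NumberTheorySymbols Finset

/-- sum of a quadratic character over a conic -/
theorem conic_sum {p : ℕ} [Fact p.Prime] (hp2 : p ≠ 2) {a : ZMod p} (ha : a ≠ 0) :
    ∑ t : ZMod p, quadraticChar (ZMod p) (1 + a * t ^ 2) = - quadraticChar (ZMod p) a := by
  have hchar : ringChar (ZMod p) ≠ 2 := by rwa [ZMod.ringChar_zmod_n]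
  set χ := quadraticChar (ZMod p) with hχ
  have e1 : ∑ t : ZMod p, χ (1 + a * t ^ 2) = ∑ u : ZMod p, (χ u + 1) * χ (1 + a * u) := by
    rw [← Finset.sum_fiberwise (s := Finset.univ) (g := fun t : ZMod p => t ^ 2)]
    apply Finset.sum_congr rfl
    intro u _
    have h1 : ∀ t ∈ (Finset.univ.filter fun t : ZMod p => t ^ 2 = u), χ (1 + a * t ^ 2)
        = χ (1 + a * u) := by
      intro t ht
      rw [(Finset.mem_filter.1 ht).2]
    rw [Finset.sum_congr rfl h1, Finset.sum_const, nsmul_eq_mul]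
    congr 1
    have h2 := quadraticChar_card_sqrts hchar u
    rw [← h2]
    congr 2
    ext t
    simp
  rw [e1]
  have e2 : ∑ u : ZMod p, (χ u + 1) * χ (1 + a * u) = ∑ u : ZMod p, χ (u * (1 + a * u))
      + ∑ u : ZMod p, χ (1 + a * u) := by
    rw [← Finset.sum_add_distrib]
    apply Finset.sum_congr rfl
    intro u _
    rw [map_mul]
    ring
  have e3 : ∑ u : ZMod p, χ (1 + a * u) = 0 := by
    rw [← quadraticChar_sum_zero hchar, ← Equiv.sum_comp
      ((Equiv.mulLeft₀ a ha).trans (Equiv.addLeft (1 : ZMod p))) (fun u => χ u)]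
    rfl
  have e4 : ∑ u : ZMod p, χ (u * (1 + a * u)) = ∑ v : ZMod p, χ (v + a) - χ a := by
    have h5 : ∑ u : ZMod p, χ (u * (1 + a * u))
        = ∑ u ∈ univ.erase (0 : ZMod p), χ (u * (1 + a * u)) := by
      rw [← Finset.add_sum_erase univ _ (mem_univ (0 : ZMod p)), zero_mul, MulChar.map_zero, zero_add]
    have h6 : ∑ v : ZMod p, χ (v + a) = χ a + ∑ v ∈ univ.erase (0 : ZMod p), χ (v + a) := by
      rw [← Finset.add_sum_erase univ _ (mem_univ (0 : ZMod p)), zero_add]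
    rw [h5, h6, add_sub_cancel_left]
    refine Finset.sum_bij (fun u _ => u⁻¹) ?_ ?_ ?_ ?_
    · intro u hu
      rw [mem_erase] at hu ⊢
      exact ⟨inv_ne_zero hu.1, mem_univ _⟩
    · intro u _ v _ h
      exact inv_injective h
    · intro v hv
      rw [mem_erase] at hv
      exact ⟨v⁻¹, by rw [mem_erase]; exact ⟨inv_ne_zero hv.1, mem_univ _⟩, inv_inv v⟩
    · intro u hu
      rw [mem_erase] at hu
      have h7 : u * (1 + a * u) = u ^ 2 * (u⁻¹ + a) := by
        field_simp [hu.1]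
      rw [h7, map_mul, hχ, quadraticChar_sq_one' hu.1, one_mul]
  have e5 : ∑ v : ZMod p, χ (v + a) = 0 := by
    rw [← quadraticChar_sum_zero hchar, ← Equiv.sum_comp (Equiv.addRight a) (fun u => χ u)]
    rfl
  rw [e2, e3, e4, e5]
  ring

theorem jacobi_eq_char {p : ℕ} [Fact p.Prime] (x : ℤ) :
    J(x | p) = quadraticChar (ZMod p) (x : ZMod p) := by
  rw [← jacobiSym.legendreSym.to_jacobiSym]
  rfl

/-- the weight of Ramanujan type -/
def gR (ps : List ℕ) (x : ℕ) : ℤ := (ps.map fun p => if p ∣ x then (p : ℤ) - 1 else -1).prod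

theorem gR_append (ps ps' : List ℕ) (x : ℕ) : gR (ps ++ ps') x = gR ps x * gR ps' x := by
  unfold gR
  rw [List.map_append, List.prod_append]

theorem gR_mod (ps : List ℕ) {q : ℕ} (h : ∀ p ∈ ps, p ∣ q) (x : ℕ) : gR ps (x % q) = gR ps x := by
  unfold gR
  congr 1
  apply List.map_congr_left
  intro p hp
  have : p ∣ x % q ↔ p ∣ x := (Nat.dvd_mod_iff (h p hp))
  simp only [this]

/-- inner sums of the norm form -/
structure IS (q : ℕ) (a : ℤ) (ps : List ℕ) : Prop where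
  dv : ∀ p ∈ ps, p ∣ q
  h1 : ∀ X : ℕ, ∑ y ∈ range q, J((X : ℤ) ^ 2 + a * (y : ℤ) ^ 2 | q) = J(a | q) * gR ps X
  h2 : ∀ X : ℕ, ∑ x ∈ range q, J((x : ℤ) ^ 2 + a * (X : ℤ) ^ 2 | q) = gR ps X

theorem IS.prime {p : ℕ} (hp : p.Prime) (hp2 : p ≠ 2) {a : ℤ} (ha : ¬ (p : ℤ) ∣ a) :
    IS p a [p] := by
  have : Fact p.Prime := ⟨hp⟩
  have hchar : ringChar (ZMod p) ≠ 2 := by rwa [ZMod.ringChar_zmod_n]
  have ha0 : (a : ZMod p) ≠ 0 := by
    rwa [Ne, ZMod.intCast_zmod_eq_zero_iff_dvd]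
  have hg : ∀ X : ℕ, gR [p] X = if (X : ZMod p) = 0 then (p : ℤ) - 1 else -1 := by
    intro X
    unfold gR
    simp only [List.map_cons, List.map_nil, List.prod_cons, List.prod_nil, mul_one,
      ZMod.natCast_eq_zero_iff]
  have hsq : ∀ c : ZMod p, c ≠ 0 → ∑ y : ZMod p, quadraticChar (ZMod p) (c * y ^ 2)
      = quadraticChar (ZMod p) c * ((p : ℤ) - 1) := by
    intro c _
    rw [← Finset.add_sum_erase univ _ (mem_univ (0 : ZMod p))]
    have h5 : ∀ y ∈ univ.erase (0 : ZMod p), quadraticChar (ZMod p) (c * y ^ 2)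
        = quadraticChar (ZMod p) c := by
      intro y hy
      rw [mem_erase] at hy
      rw [map_mul, quadraticChar_sq_one' hy.1, mul_one]
    rw [Finset.sum_congr rfl h5, Finset.sum_const, Finset.card_erase_of_mem (mem_univ _),
      Finset.card_univ, ZMod.card, nsmul_eq_mul, Nat.cast_sub hp.one_lt.le]
    simp only [ne_eq, OfNat.ofNat_ne_zero, not_false_eq_true, zero_pow, mul_zero,
      MulChar.map_zero, zero_add, Nat.cast_one]
    ring
  constructor
  · intro p' hp'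
    rw [List.mem_singleton] at hp'
    rw [hp']
  · intro X
    have e1 : ∑ y ∈ range p, J((X : ℤ) ^ 2 + a * (y : ℤ) ^ 2 | p)
        = ∑ y : ZMod p, quadraticChar (ZMod p) ((X : ZMod p) ^ 2 + a * y ^ 2) := by
      rw [sum_zmod]
      apply Finset.sum_congr rfl
      intro y _
      rw [jacobi_eq_char]
      push_cast
      rfl
    rw [e1, hg, jacobi_eq_char]
    by_cases hX : (X : ZMod p) = 0
    · rw [if_pos hX, hX]
      simp only [ne_eq, OfNat.ofNat_ne_zero, not_false_eq_true, zero_pow, zero_add]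
      exact hsq _ ha0
    · rw [if_neg hX, mul_neg, mul_one, ← conic_sum hp2 ha0,
        ← Equiv.sum_comp (Equiv.mulLeft₀ (X : ZMod p) hX)]
      apply Finset.sum_congr rfl
      intro t _
      have : (X : ZMod p) ^ 2 + a * (Equiv.mulLeft₀ (X : ZMod p) hX t) ^ 2
          = (X : ZMod p) ^ 2 * (1 + a * t ^ 2) := by
        rw [Equiv.mulLeft₀_apply]
        ring
      rw [this, map_mul, quadraticChar_sq_one' hX, one_mul]
  · intro X
    have e1 : ∑ x ∈ range p, J((x : ℤ) ^ 2 + a * (X : ℤ) ^ 2 | p)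
        = ∑ x : ZMod p, quadraticChar (ZMod p) (x ^ 2 + a * (X : ZMod p) ^ 2) := by
      rw [sum_zmod]
      apply Finset.sum_congr rfl
      intro y _
      rw [jacobi_eq_char]
      push_cast
      rfl
    rw [e1, hg]
    by_cases hX : (X : ZMod p) = 0
    · rw [if_pos hX, hX]
      have := hsq 1 one_ne_zero
      simp only [one_mul, map_one] at this
      simp only [ne_eq, OfNat.ofNat_ne_zero, not_false_eq_true, zero_pow, mul_zero, add_zero]
      exact this
    · rw [if_neg hX, ← Equiv.sum_comp (Equiv.mulLeft₀ ((X : ZMod p) * a) (mul_ne_zero hX ha0))]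
      have e2 : ∀ t : ZMod p, quadraticChar (ZMod p)
          ((Equiv.mulLeft₀ ((X : ZMod p) * a) (mul_ne_zero hX ha0) t) ^ 2
            + a * (X : ZMod p) ^ 2)
          = quadraticChar (ZMod p) a * quadraticChar (ZMod p) (1 + a * t ^ 2) := by
        intro t
        have : (Equiv.mulLeft₀ ((X : ZMod p) * a) (mul_ne_zero hX ha0) t) ^ 2
            + a * (X : ZMod p) ^ 2 = (X : ZMod p) ^ 2 * (a * (1 + a * t ^ 2)) := by
          rw [Equiv.mulLeft₀_apply]
          ring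
        rw [this, map_mul, quadraticChar_sq_one' hX, one_mul, map_mul]
      simp only [e2]
      rw [← Finset.mul_sum, conic_sum hp2 ha0]
      have := quadraticChar_sq_one ha0
      linear_combination -this

theorem IS.mul {q1 q2 : ℕ} [NeZero q1] [NeZero q2] (hc : q1.Coprime q2) {a : ℤ}
    {ps1 ps2 : List ℕ} (i1 : IS q1 a ps1) (i2 : IS q2 a ps2) : IS (q1 * q2) a (ps1 ++ ps2) := by
  have key : ∀ f : ℕ → ℤ → ℤ, (∀ q [NeZero q] (y y' : ℤ), (y : ZMod q) = y' → f q y = f q y') →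
      ∑ y ∈ range (q1 * q2), f q1 y * f q2 y
        = (∑ y ∈ range q1, f q1 y) * ∑ y ∈ range q2, f q2 y := by
    intro f hf
    have h1 := sum_crt hc (fun (u : ZMod q1) (v : ZMod q2) => f q1 (u.val : ℤ) * f q2 (v.val : ℤ))
    have h2 : ∑ y ∈ range (q1 * q2), f q1 y * f q2 y
        = ∑ l ∈ range (q1 * q2), f q1 (((l : ZMod q1).val : ℕ) : ℤ)
          * f q2 (((l : ZMod q2).val : ℕ) : ℤ) := by
      apply Finset.sum_congr rfl
      intro l _
      congr 1
      · apply hf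
        simp
      · apply hf
        simp
    rw [h2, h1, Finset.sum_mul_sum, sum_zmod]
    apply Finset.sum_congr rfl
    intro u hu
    rw [sum_zmod]
    apply Finset.sum_congr rfl
    intro v hv
    rw [mem_range] at hu hv
    rw [ZMod.val_cast_of_lt hu, ZMod.val_cast_of_lt hv]
  constructor
  · intro p hp
    rcases List.mem_append.1 hp with h | h
    · exact (i1.dv p h).mul_right _
    · exact (i2.dv p h).mul_left _
  · intro X
    have h3 := key (fun q y => J((X : ℤ) ^ 2 + a * y ^ 2 | q)) (by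
      intro q _ y y' hy
      apply jacobi_cast_eq
      push_cast
      rw [hy])
    have h4 : ∑ y ∈ range (q1 * q2), J((X : ℤ) ^ 2 + a * (y : ℤ) ^ 2 | q1 * q2)
        = ∑ y ∈ range (q1 * q2), J((X : ℤ) ^ 2 + a * (y : ℤ) ^ 2 | q1)
          * J((X : ℤ) ^ 2 + a * (y : ℤ) ^ 2 | q2) := by
      apply Finset.sum_congr rfl
      intro y _
      rw [jacobiSym.mul_right]
    rw [h4, h3, i1.h1, i2.h1, gR_append, jacobiSym.mul_right]
    ring
  · intro X
    have h3 := key (fun q y => J(y ^ 2 + a * (X : ℤ) ^ 2 | q)) (by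
      intro q _ y y' hy
      apply jacobi_cast_eq
      push_cast
      rw [hy])
    have h4 : ∑ y ∈ range (q1 * q2), J((y : ℤ) ^ 2 + a * (X : ℤ) ^ 2 | q1 * q2)
        = ∑ y ∈ range (q1 * q2), J((y : ℤ) ^ 2 + a * (X : ℤ) ^ 2 | q1)
          * J((y : ℤ) ^ 2 + a * (X : ℤ) ^ 2 | q2) := by
      apply Finset.sum_congr rfl
      intro y _
      rw [jacobiSym.mul_right]
    rw [h4, h3, i1.h2, i2.h2, gR_append]

/-- numerical constant -/
def GG (q : ℕ) (ps : List ℕ) : ℤ := ∑ x ∈ range q, ((x : ℤ) ^ 2 - q * x) * gR ps x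

theorem Bf_one (q : ℕ) : Bf q 1 = ∑ j ∈ range q, (j : ℤ) * J((j : ℤ) | q) := by
  unfold Bf
  rw [mul_one]
  apply Finset.sum_congr rfl
  intro l _
  rw [jacobiSym.one_right]
  ring

theorem Hyp.real_formula {a n : ℤ} (h : Hyp a n) {q : ℕ} [NeZero q] (hodd : Odd q)
    (hs : Squarefree q) (hq : q.Coprime (Dn a n)) (h3 : J(-1 | q) = -1) (hn : (n : ZMod q) = 0)
    {ps : List ℕ} (is : IS q a ps) :
    Bf q 1 * Bf (q * Dn a n) 1 = Dn a n * (n * (a + J(a | q)) * GG q ps) := by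
  set f : ZMod q → ℚ := fun z => (J((z.val : ℤ) | q) : ℚ) with hf
  have hfc : ∀ x : ℤ, f (x : ZMod q) = (J(x | q) : ℚ) := by
    intro x
    simp only [hf]
    have : J((((x : ZMod q).val : ℕ) : ℤ) | q) = J(x | q) := by
      apply jacobi_cast_eq
      simp
    rw [this]
  have hfo : ∀ z, f (-z) = - f z := by
    intro z
    have h4 : (-z : ZMod q) = (((-1) * (z.val : ℤ) : ℤ) : ZMod q) := by
      push_cast
      rw [ZMod.natCast_zmod_val]
      ring
    rw [h4, hfc, jacobiSym.mul_left, h3]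
    simp only [hf]
    push_cast
    ring
  have h2 : IsUnit (2 : ℚ) := by norm_num
  have hD : NeZero (Dn a n) := ⟨by have := h.Dn_gt; omega⟩
  have h5 := h.star_ring hodd hs hq h2 f hfo
  -- left side
  have hL : (∑ j ∈ range q, ∑ l ∈ range (q * Dn a n), (j : ℚ) * l * f (j * l)
      * (J((l : ℤ) | Dn a n) : ℚ)) = ((Bf q 1 * Bf (q * Dn a n) 1 : ℤ) : ℚ) := by
    rw [Bf_one, Bf_one, Finset.sum_mul_sum]
    push_cast
    apply Finset.sum_congr rfl
    intro j _
    apply Finset.sum_congr rfl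
    intro l _
    have h6 : ((j : ZMod q) * (l : ZMod q)) = (((j : ℤ) * (l : ℤ) : ℤ) : ZMod q) := by
      push_cast; rfl
    rw [h6, hfc, jacobiSym.mul_left, jacobiSym.mul_right]
    push_cast
    ring
  rw [hL] at h5
  -- right side
  have hsum1 : ∀ x : ZMod q, ∑ y : ZMod q, f (x ^ 2 + a * y ^ 2) = ((J(a | q) * gR ps x.val : ℤ) : ℚ) := by
    intro x
    rw [← is.h1 x.val, sum_zmod]
    push_cast
    apply Finset.sum_congr rfl
    intro y _
    rw [← hfc]
    congr 1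
    push_cast
    rw [ZMod.natCast_zmod_val]
  have hsum2 : ∀ y : ZMod q, ∑ x : ZMod q, f (x ^ 2 + a * y ^ 2) = ((gR ps y.val : ℤ) : ℚ) := by
    intro y
    rw [← is.h2 y.val, sum_zmod]
    push_cast
    apply Finset.sum_congr rfl
    intro x _
    rw [← hfc]
    congr 1
    push_cast
    rw [ZMod.natCast_zmod_val]
  have e1 : ∑ x ∈ range q, ∑ y ∈ range q, f ((QQ a n x y : ℤ) : ZMod q) * ((WW q a n x y : ℤ) : ℚ)
      = ∑ x : ZMod q, ∑ y : ZMod q, f (x ^ 2 + a * y ^ 2) * (sz ℚ x * sz ℚ y + n * bz ℚ x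
        + (a * n : ℚ) * bz ℚ y) := by
    rw [sum_zmod q (fun x => ∑ y : ZMod q, f (x ^ 2 + a * y ^ 2) * (sz ℚ x * sz ℚ y + n * bz ℚ x
        + (a * n : ℚ) * bz ℚ y))]
    apply Finset.sum_congr rfl
    intro x hx
    rw [sum_zmod q (fun y => f ((x : ZMod q) ^ 2 + a * y ^ 2) * (sz ℚ (x : ZMod q) * sz ℚ y
        + n * bz ℚ (x : ZMod q) + (a * n : ℚ) * bz ℚ y))]
    apply Finset.sum_congr rfl
    intro y hy
    rw [mem_range] at hx hy
    have v1 : ((QQ a n x y : ℤ) : ZMod q) = (x : ZMod q) ^ 2 + a * (y : ZMod q) ^ 2 := by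
      unfold QQ
      push_cast
      rw [hn]
      ring
    rw [v1]
    congr 1
    unfold sz bz WW
    rw [ZMod.val_cast_of_lt hx, ZMod.val_cast_of_lt hy]
    simp only [Int.cast_add, Int.cast_mul]
  have e2 : ∀ x : ZMod q, ∑ y : ZMod q, f (x ^ 2 + a * y ^ 2) * (sz ℚ x * sz ℚ y + n * bz ℚ x
        + (a * n : ℚ) * bz ℚ y)
      = sz ℚ x * (∑ y : ZMod q, f (x ^ 2 + a * y ^ 2) * sz ℚ y)
        + n * bz ℚ x * (∑ y : ZMod q, f (x ^ 2 + a * y ^ 2))
        + (a * n : ℚ) * ∑ y : ZMod q, f (x ^ 2 + a * y ^ 2) * bz ℚ y := by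
    intro x
    rw [Finset.mul_sum, Finset.mul_sum, Finset.mul_sum, ← Finset.sum_add_distrib,
      ← Finset.sum_add_distrib]
    apply Finset.sum_congr rfl
    intro y _
    ring
  have e3 : ∀ x : ZMod q, ∑ y : ZMod q, f (x ^ 2 + a * y ^ 2) * sz ℚ y = 0 := by
    intro x
    apply sum_even_odd h2 (fun y => f (x ^ 2 + (a : ZMod q) * y ^ 2))
    intro y
    simp
  have e4 : ∑ x : ZMod q, (a * n : ℚ) * ∑ y : ZMod q, f (x ^ 2 + a * y ^ 2) * bz ℚ y
      = (a * n : ℚ) * ∑ y : ZMod q, (∑ x : ZMod q, f (x ^ 2 + a * y ^ 2)) * bz ℚ y := by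
    rw [← Finset.mul_sum, Finset.sum_comm]
    congr 1
    apply Finset.sum_congr rfl
    intro y _
    rw [Finset.sum_mul]
  have e5 : ∑ x : ZMod q, ((gR ps x.val : ℤ) : ℚ) * bz ℚ x = ((GG q ps : ℤ) : ℚ) := by
    rw [sum_zmod q (fun x : ZMod q => ((gR ps x.val : ℤ) : ℚ) * bz ℚ x)]
    unfold GG
    push_cast
    apply Finset.sum_congr rfl
    intro x hx
    rw [mem_range] at hx
    unfold bz
    rw [ZMod.val_cast_of_lt hx]
    push_cast
    ring
  rw [e1] at h5
  simp only [e2] at h5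
  rw [Finset.sum_add_distrib, Finset.sum_add_distrib, e4] at h5
  simp only [e3, mul_zero, Finset.sum_const_zero, zero_add, hsum1, hsum2] at h5
  rw [e5] at h5
  have e6 : ∑ x : ZMod q, (n : ℚ) * bz ℚ x * ((J(a | q) * gR ps x.val : ℤ) : ℚ)
      = n * J(a | q) * ((GG q ps : ℤ) : ℚ) := by
    rw [← e5, Finset.mul_sum]
    apply Finset.sum_congr rfl
    intro x _
    push_cast
    ring
  rw [e6] at h5
  have h7 : ((Bf q 1 * Bf (q * Dn a n) 1 : ℤ) : ℚ)
      = ((Dn a n * (n * (a + J(a | q)) * GG q ps) : ℤ) : ℚ) := by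
    rw [h5]
    push_cast
    ring
  exact_mod_cast h7

end Pool.Agent.Helper54.CN
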