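import Pool.Agent.Helper54.CN.TwoAdic2
import Pool.Agent.Helper54.CN.NZero3

/-!
Numerical part of the 2-adic argument.
-/

namespace Pool.Agent.Helper54.CN

open NumberTheorySymbols Finset

/-- value of a sign code -/
def dec (v : ℕ) : ℤ := if v = 1 then 1 else if v = 2 then -1 else 0

theorem dec_mul : ∀ v < 3, ∀ w < 3, dec (v * w % 3) = dec v * dec w := by decide

/-- digit of a packed table in base four -/
def d4 (T z : ℕ) : ℕ := Nat.mod (Nat.shiftRight T (Nat.mul 2 z)) 4

/-- validity of a packed table of Legendre symbols -/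
def lOK (p T : ℕ) : Bool :=
  andB (Nat.beq (d4 T 0) 0) (allB p fun z => orB (Nat.beq z 0)
    (Bool.rec (motive := fun _ => Bool) (Nat.beq (d4 T z) 2) (Nat.beq (d4 T z) 1)
      (List.any (List.range p) fun y => Nat.beq (Nat.mod (Nat.mul y y) p) z)))

theorem lOK_spec {p T : ℕ} (hp : p.Prime) (h : lOK p T = true) (j : ℕ) :
    d4 T (j % p) < 3 ∧ J((j : ℤ) | p) = dec (d4 T (j % p)) := by
  have : Fact p.Prime := ⟨hp⟩
  unfold lOK at h
  simp only [andB_iff, allB_iff, orB_iff, beq_iff'] at h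
  obtain ⟨h0, h1⟩ := h
  have h2 := h1 (j % p) (Nat.mod_lt _ hp.pos)
  have hj : J((j : ℤ) | p) = quadraticChar (ZMod p) ((j % p : ℕ) : ZMod p) := by
    rw [jacobi_eq_char, ZMod.natCast_mod]
    push_cast
    rfl
  rw [hj]
  set z := j % p with hz
  have hzp : z < p := Nat.mod_lt _ hp.pos
  rcases h2 with h2 | h2
  · rw [h2, h0]
    simp [dec]
  · by_cases hz0 : z = 0
    · rw [hz0, h0]
      simp [dec]
    · have hzz : ((z : ℕ) : ZMod p) ≠ 0 := by
        rw [Ne, ZMod.natCast_eq_zero_iff]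
        intro hd
        exact hz0 (Nat.eq_zero_of_dvd_of_lt hd hzp)
      cases hb : (List.any (List.range p) fun y => Nat.beq (Nat.mod (Nat.mul y y) p) z) with
      | true =>
        rw [hb] at h2
        have h3 : d4 T z = 1 := beq_iff'.1 h2
        rw [List.any_eq_true] at hb
        obtain ⟨y, _, hy⟩ := hb
        rw [beq_iff'] at hy
        have h4 : quadraticChar (ZMod p) ((z : ℕ) : ZMod p) = 1 := by
          rw [quadraticChar_one_iff_isSquare hzz]
          refine ⟨(y : ZMod p), ?_⟩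
          have hy' : y * y % p = z := hy
          rw [← hy', ZMod.natCast_mod]
          push_cast
          rfl
        rw [h3, h4]
        exact ⟨by norm_num, rfl⟩
      | false =>
        rw [hb] at h2
        have h3 : d4 T z = 2 := beq_iff'.1 h2
        have h4 : quadraticChar (ZMod p) ((z : ℕ) : ZMod p) = -1 := by
          rw [quadraticChar_neg_one_iff_not_isSquare]
          rintro ⟨y, hy⟩
          rw [List.any_eq_false] at hb
          apply hb y.val (List.mem_range.2 (ZMod.val_lt y))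
          rw [beq_iff']
          show y.val * y.val % p = z
          have h5 : ((y.val * y.val : ℕ) : ZMod p) = ((z : ℕ) : ZMod p) := by
            push_cast
            rw [ZMod.natCast_zmod_val, hy]
          rw [ZMod.natCast_eq_natCast_iff'] at h5
          rw [h5, Nat.mod_eq_of_lt hzp]
        rw [h3, h4]
        exact ⟨by norm_num, rfl⟩

/-- sign code of the product symbol -/
def sgc (ps : List (ℕ × ℕ)) (j : ℕ) : ℕ :=
  List.rec (motive := fun _ => ℕ) 1 (fun w _ acc => Nat.mod (Nat.mul (d4 w.2 (Nat.mod j w.1)) acc) 3)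
    ps

theorem sgc_cons (w : ℕ × ℕ) (ps : List (ℕ × ℕ)) (j : ℕ) :
    sgc (w :: ps) j = d4 w.2 (j % w.1) * sgc ps j % 3 := rfl

theorem sgc_spec (ps : List (ℕ × ℕ)) (hp : ∀ w ∈ ps, w.1.Prime) (h : ∀ w ∈ ps, lOK w.1 w.2 = true)
    (j : ℕ) : sgc ps j < 3 ∧ J((j : ℤ) | (ps.map Prod.fst).prod) = dec (sgc ps j) := by
  induction ps with
  | nil =>
    refine ⟨by show 1 < 3; norm_num, ?_⟩
    rw [List.map_nil, List.prod_nil, jacobiSym.one_right]
    rfl
  | cons w ps ih =>
    obtain ⟨i1, i2⟩ := ih (fun w' hw' => hp w' (List.mem_cons_of_mem _ hw'))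
      (fun w' hw' => h w' (List.mem_cons_of_mem _ hw'))
    obtain ⟨h1, h2⟩ := lOK_spec (hp w List.mem_cons_self) (h w List.mem_cons_self) j
    have : NeZero w.1 := ⟨(hp w List.mem_cons_self).ne_zero⟩
    have : NeZero (ps.map Prod.fst).prod := ⟨by
      rw [Ne, List.prod_eq_zero_iff]
      intro h0
      rw [List.mem_map] at h0
      obtain ⟨w', hw', h0⟩ := h0
      exact (hp w' (List.mem_cons_of_mem _ hw')).ne_zero h0⟩
    rw [sgc_cons, List.map_cons, List.prod_cons, jacobiSym.mul_right, h2, i2]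
    exact ⟨Nat.mod_lt _ (by norm_num), (dec_mul _ h1 _ i1).symm⟩

/-- moments of the positive and of the negative part -/
def mom (ps : List (ℕ × ℕ)) (q v : ℕ) : ℕ :=
  sm q fun j => Bool.rec (motive := fun _ => ℕ) 0 j (Nat.beq (sgc ps j) v)

theorem Bf_mom (ps : List (ℕ × ℕ)) (hp : ∀ w ∈ ps, w.1.Prime) (h : ∀ w ∈ ps, lOK w.1 w.2 = true)
    (q : ℕ) (hq : (ps.map Prod.fst).prod = q) :
    Bf q 1 = (mom ps q 1 : ℤ) - (mom ps q 2 : ℤ) := by
  rw [Bf_one]
  unfold mom
  rw [sm_eq, sm_eq]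
  push_cast
  rw [← Finset.sum_sub_distrib]
  apply Finset.sum_congr rfl
  intro j _
  obtain ⟨h1, h2⟩ := sgc_spec ps hp h j
  rw [← hq, h2]
  have h3 : sgc ps j = 0 ∨ sgc ps j = 1 ∨ sgc ps j = 2 := by omega
  rcases h3 with h3 | h3 | h3
  · rw [h3]
    simp [dec]
  · rw [h3]
    simp [dec]
  · rw [h3]
    simp [dec]

/-- absolute value of the weight -/
def gA (ps : List ℕ) (x : ℕ) : ℕ :=
  List.rec (motive := fun _ => ℕ) 1 (fun p _ acc => Nat.mul (Bool.rec (motive := fun _ => ℕ) 1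
    (Nat.sub p 1) (Nat.beq (Nat.mod x p) 0)) acc) ps

/-- number of primes not dividing -/
def gS (ps : List ℕ) (x : ℕ) : ℕ :=
  List.rec (motive := fun _ => ℕ) 0 (fun p _ acc => Nat.add (Bool.rec (motive := fun _ => ℕ) 1
    0 (Nat.beq (Nat.mod x p) 0)) acc) ps

theorem gR_eq (ps : List ℕ) (hp : ∀ p ∈ ps, 1 ≤ p) (x : ℕ) :
    gR ps x = (-1) ^ (gS ps x) * (gA ps x : ℤ) := by
  induction ps with
  | nil => simp [gR, gS, gA]
  | cons p ps ih =>
    have e1 : gR (p :: ps) x = (if p ∣ x then (p : ℤ) - 1 else -1) * gR ps x := by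
      unfold gR
      rw [List.map_cons, List.prod_cons]
    have e2 : gA (p :: ps) x = (Bool.rec (motive := fun _ => ℕ) 1 (p - 1) (Nat.beq (x % p) 0))
      * gA ps x := rfl
    have e3 : gS (p :: ps) x = (Bool.rec (motive := fun _ => ℕ) 1 0 (Nat.beq (x % p) 0))
      + gS ps x := rfl
    rw [e1, e2, e3, ih fun p' hp' => hp p' (List.mem_cons_of_mem _ hp')]
    by_cases hd : p ∣ x
    · have : Nat.beq (x % p) 0 = true := beq_iff'.2 (Nat.mod_eq_zero_of_dvd hd)
      rw [if_pos hd, this]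
      push_cast [Nat.cast_sub (hp p List.mem_cons_self)]
      simp only [zero_add]
      ring
    · have : Nat.beq (x % p) 0 = false := by
        rw [Bool.eq_false_iff]
        intro h
        rw [beq_iff'] at h
        exact hd (Nat.dvd_of_mod_eq_zero h)
      rw [if_neg hd, this]
      simp only [one_mul]
      rw [pow_add]
      ring

/-- parts of the numerical constant -/
def gmo (ps : List ℕ) (q v : ℕ) : ℕ :=
  sm q fun x => Bool.rec (motive := fun _ => ℕ) 0 (Nat.mul (Nat.mul x (Nat.sub q x)) (gA ps x))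
    (Nat.beq (Nat.mod (gS ps x) 2) v)

theorem GG_gmo (ps : List ℕ) (hp : ∀ p ∈ ps, 1 ≤ p) (q : ℕ) :
    GG q ps = (gmo ps q 1 : ℤ) - (gmo ps q 0 : ℤ) := by
  unfold GG gmo
  rw [sm_eq, sm_eq]
  push_cast
  rw [← Finset.sum_sub_distrib]
  apply Finset.sum_congr rfl
  intro x hx
  rw [mem_range] at hx
  rw [gR_eq ps hp]
  have h1 : gS ps x % 2 = 0 ∨ gS ps x % 2 = 1 := by omega
  rcases h1 with h1 | h1
  · have h2 : Nat.mod (gS ps x) 2 = 0 := h1
    rw [h2]
    rw [← Nat.even_iff] at h1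
    rw [h1.neg_one_pow]
    show _ = (0 : ℤ) - ((x * (q - x) * gA ps x : ℕ) : ℤ)
    push_cast [Nat.cast_sub hx.le]
    ring
  · have h2 : Nat.mod (gS ps x) 2 = 1 := h1
    rw [h2]
    rw [← Nat.odd_iff] at h1
    rw [h1.neg_one_pow]
    show _ = ((x * (q - x) * gA ps x : ℕ) : ℤ) - (0 : ℤ)
    push_cast [Nat.cast_sub hx.le]
    ring

end Pool.Agent.Helper54.CN
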