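import Pool.Agent.Helper54.CN.TwoAdic3

/-!
The 2-adic contradiction.
-/

namespace Pool.Agent.Helper54.CN

open NumberTheorySymbols Finset

set_option maxRecDepth 100000

/-- Legendre symbols -/
def leg5 : ℕ := 420

theorem leg5_ok : lOK 5 leg5 = true := by decide +kernel

/-- Legendre symbols -/
def leg11 : ℕ := 2532708

theorem leg11_ok : lOK 11 leg11 = true := by decide +kernel

/-- Legendre symbols -/
def leg37 : ℕ := 7500427295909498743140

theorem leg37_ok : lOK 37 leg37 = true := by decide +kernel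

/-- Legendre symbols -/
def leg41 : ℕ := 1688936232098150237971860

theorem leg41_ok : lOK 41 leg41 = true := by decide +kernel

/-- Legendre symbols -/
def leg59 : ℕ := 200682209287176774334770714186769764

theorem leg59_ok : lOK 59 leg59 = true := by decide +kernel

theorem Ctx.jac_neg {a n : ℤ} (c : Ctx a n) {p : ℕ} (hp : p.Prime) (hp97 : p ≤ 97)
    (hna : (p : ℤ) ≠ |a|) (hn : (n : ZMod p) = 0) : J(-a | p) = -1 := by
  have : Fact p.Prime := ⟨hp⟩
  have h1 := c.not_sq hp hp97 hna hn
  rw [jacobi_eq_char, quadraticChar_neg_one_iff_not_isSquare]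
  exact h1

theorem Ctx.not_dvd_a {a n : ℤ} (c : Ctx a n) {p : ℕ} (hp : p.Prime) (hna : (p : ℤ) ≠ |a|) :
    ¬ (p : ℤ) ∣ a := by
  intro h
  have h5 : p ∣ a.natAbs := Int.natCast_dvd.1 h
  have h6 := (Nat.prime_dvd_prime_iff_eq hp c.h.prime_a).1 h5
  apply hna
  rw [h6]
  exact Int.natCast_natAbs a

theorem Ctx.cop_A {a n : ℤ} (c : Ctx a n) {p : ℕ} (hp : p.Prime) (hna : (p : ℤ) ≠ |a|) :
    p.Coprime a.natAbs := by
  rw [Nat.Prime.coprime_iff_not_dvd hp]
  intro h
  exact c.not_dvd_a hp hna (Int.natCast_dvd.2 h)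

theorem Ctx.cop_pp {a n : ℤ} (c : Ctx a n) {p : ℕ} (hp : p.Prime) (hp2 : p ≠ 2) (hp97 : p ≤ 97)
    (hna : (p : ℤ) ≠ |a|) : p.Coprime (pp a n) := by
  rw [Nat.Prime.coprime_iff_not_dvd hp]
  intro h
  have hb' : 3 * (p : ℤ) + 3 < 2 * (a * n) := by
    have := c.hb
    have : (p : ℤ) ≤ 97 := by exact_mod_cast hp97
    omega
  apply c.h.not_dvd_Dn hp hp2 hna hb'
  rw [c.h.Dn_mul]
  exact h.mul_left _

theorem pos_m : (mom [(11, leg11), (37, leg37)] 407 1) % 16 = (mom [(11, leg11), (37, leg37)] 407 2) % 16 := by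
  decide +kernel

theorem pos_g : (gmo [11, 37] 407 1) % 64 = (gmo [11, 37] 407 0 + 32) % 64 := by
  decide +kernel

theorem Ctx.pos {a n : ℤ} (c : Ctx a n) (ha : 0 < a)
    (hna : ∀ p ∈ [11, 37], ((p : ℕ) : ℤ) ≠ |a|) (hn : (n : ZMod 407) = 0) : False := by
  have hNZ : NeZero (407 : ℕ) := ⟨by norm_num⟩
  have hn11 : (n : ZMod 11) = 0 := by
    have := zmod_down (q := 11) (α := 0) (by simpa using hn) (by norm_num)
    simpa using this
  have hp11 : Nat.Prime 11 := by norm_num
  have hj11 : J(-a | 11) = -1 := c.jac_neg hp11 (by norm_num) (hna 11 (by decide)) hn11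
  have hn37 : (n : ZMod 37) = 0 := by
    have := zmod_down (q := 37) (α := 0) (by simpa using hn) (by norm_num)
    simpa using this
  have hp37 : Nat.Prime 37 := by norm_num
  have hj37 : J(-a | 37) = -1 := c.jac_neg hp37 (by norm_num) (hna 37 (by decide)) hn37
  have hm1 : J(-1 | 407) = -1 := by norm_num
  have hneg : J(-a | 407) = 1 := by
    rw [show (407 : ℕ) = 11 * 37 by norm_num, jacobiSym.mul_right' _ (by norm_num) (by norm_num),
      hj11, hj37]
    norm_num
  have hJ : J(a | 407) = -1 := by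
    have h1 : J(-a | 407) = J(-1 | 407) * J(a | 407) := by
      rw [← jacobiSym.mul_left, neg_one_mul]
    rw [hneg, hm1] at h1
    linarith
  have hsq : Squarefree 407 := (Nat.squarefree_mul (by norm_num : Nat.Coprime 11 37)).2
    ⟨hp11.prime.squarefree, hp37.prime.squarefree⟩
  have hcq : Nat.Coprime 407 (Dn a n) := by
    apply c.h.coprime_Dn
    intro p hp hpd
    have h' : p ∣ 11 * 37 := hpd
    simp only [Nat.Prime.dvd_mul hp] at h'
    have hb := c.hb
    rcases h' with h | h
    · rw [(Nat.prime_dvd_prime_iff_eq hp hp11).1 h]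
      exact ⟨by norm_num, hna 11 (by decide), by push_cast; omega⟩
    · rw [(Nat.prime_dvd_prime_iff_eq hp hp37).1 h]
      exact ⟨by norm_num, hna 37 (by decide), by push_cast; omega⟩
  have is : IS 407 a [11, 37] := (IS.prime hp11 (by norm_num) (c.not_dvd_a hp11 (hna 11 (by decide)))).mul
    (by norm_num) (IS.prime hp37 (by norm_num) (c.not_dvd_a hp37 (hna 37 (by decide))))
  have hodd : Odd 407 := ⟨203, by norm_num⟩
  have hF := c.h.real_formula hodd hsq hcq hm1 hn is
  rw [hJ] at hF
  have hB1 : ∃ s1 : ℤ, Bf 407 1 = 16 * s1 := by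
    have h1 := Bf_mom [(11, leg11), (37, leg37)] (by
      intro w hw
      simp only [List.mem_cons, List.not_mem_nil, or_false] at hw
      rcases hw with rfl | rfl <;> assumption) (by
      intro w hw
      simp only [List.mem_cons, List.not_mem_nil, or_false] at hw
      rcases hw with rfl | rfl
      exacts [leg11_ok, leg37_ok]) 407 (by norm_num)
    have h2 := pos_m
    rw [h1]
    generalize mom [(11, leg11), (37, leg37)] 407 1 = u at h2 ⊢
    generalize mom [(11, leg11), (37, leg37)] 407 2 = v at h2 ⊢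
    exact ⟨((u : ℤ) - v) / 16, by omega⟩
  have hG : ∃ g : ℤ, GG 407 [11, 37] = 32 * (2 * g + 1) := by
    have h1 := GG_gmo [11, 37] (by
      intro w hw
      simp only [List.mem_cons, List.not_mem_nil, or_false] at hw
      omega) 407
    have h2 := pos_g
    rw [h1]
    generalize gmo [11, 37] 407 1 = u at h2 ⊢
    generalize gmo [11, 37] 407 0 = v at h2 ⊢
    exact ⟨(((u : ℤ) - v) / 32 - 1) / 2, by omega⟩
  have hAo := c.h.A_odd
  have hPo := c.h.pp_odd
  have hcop := c.h.cop
  have hB2 : ∃ s2 : ℤ, Bf (407 * Dn a n) 1 = 8 * s2 := by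
    have hFam : Fam 11 (![37, a.natAbs, pp a n] : Fin 3 → ℕ) Finset.univ := by
      refine ⟨?_, ?_, ?_, ?_, ?_⟩
      · intro i _
        fin_cases i
        · exact (by decide : Odd 37)
        · exact hAo
        · exact hPo
      · intro i _
        fin_cases i
        · exact hp37.prime.squarefree
        · exact c.h.prime_a.prime.squarefree
        · exact c.h.pp_sqf
      · intro i _
        fin_cases i
        · exact hp37.one_lt
        · exact c.h.prime_a.one_lt
        · exact c.h.pp_gt
      · intro i _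
        fin_cases i
        · exact (by norm_num : Nat.Coprime 37 11)
        · exact (c.cop_A hp11 (hna 11 (by decide))).symm
        · exact (c.cop_pp hp11 (by norm_num) (by norm_num) (hna 11 (by decide))).symm
      · intro i _ j _ hij
        fin_cases i <;> fin_cases j
        · exact absurd rfl hij
        · exact (c.cop_A hp37 (hna 37 (by decide)))
        · exact (c.cop_pp hp37 (by norm_num) (by norm_num) (hna 37 (by decide)))
        · exact (c.cop_A hp37 (hna 37 (by decide))).symm
        · exact absurd rfl hij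
        · exact hcop
        · exact (c.cop_pp hp37 (by norm_num) (by norm_num) (hna 37 (by decide))).symm
        · exact hcop.symm
        · exact absurd rfl hij
    have h1 := moment_dvd (by decide : Odd 11) hp11.prime.squarefree hp11.one_lt Finset.univ hFam
    have h2 : 11 * ∏ i, (![37, a.natAbs, pp a n] : Fin 3 → ℕ) i = 407 * Dn a n := by
      rw [c.h.Dn_mul]
      simp [Fin.prod_univ_succ]
      ring
    rw [h2] at h1
    simp only [Finset.card_univ, Fintype.card_fin] at h1
    obtain ⟨s2, hs2⟩ := h1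
    exact ⟨s2, by rw [hs2]; norm_num⟩
  obtain ⟨s1, hs1⟩ := hB1
  obtain ⟨s2, hs2⟩ := hB2
  obtain ⟨g, hg⟩ := hG
  have hDo : Odd (Dn a n) := c.h.Dn_odd
  obtain ⟨d, hd⟩ := hDo
  obtain ⟨e, he⟩ := c.h.odd_n
  have ha4 : ∃ f : ℤ, a + (-1) = 2 * (2 * f + 1) := by
    have h4 := c.h.a_mod_four
    refine ⟨(a + (-1) - 2) / 4, ?_⟩
    omega
  obtain ⟨f, hf⟩ := ha4
  rw [hs1, hs2, hg, hf] at hF
  have hd' : (Dn a n : ℤ) = 2 * d + 1 := by exact_mod_cast hd
  rw [hd', he] at hF
  have h9 : 2 * (s1 * s2) = (2 * (d : ℤ) + 1) * ((2 * e + 1) * (2 * f + 1) * (2 * g + 1)) := by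
    linarith [hF]
  have h10 : Odd ((2 * (d : ℤ) + 1) * ((2 * e + 1) * (2 * f + 1) * (2 * g + 1))) :=
    (odd_two_mul_add_one (d : ℤ)).mul (((odd_two_mul_add_one e).mul (odd_two_mul_add_one f)).mul
      (odd_two_mul_add_one g))
  rw [← h9] at h10
  exact (Int.not_even_iff_odd.2 h10) (even_two_mul _)

theorem neg_m : (mom [(5, leg5), (41, leg41), (59, leg59)] 12095 1) % 128 = (mom [(5, leg5), (41, leg41), (59, leg59)] 12095 2) % 128 := by
  decide +kernel

theorem neg_g : (gmo [5, 41, 59] 12095 1) % 1024 = (gmo [5, 41, 59] 12095 0 + 512) % 1024 := by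
  decide +kernel

theorem Ctx.neg {a n : ℤ} (c : Ctx a n) (ha : a < 0)
    (hna : ∀ p ∈ [5, 41, 59], ((p : ℕ) : ℤ) ≠ |a|) (hn : (n : ZMod 12095) = 0) : False := by
  have hNZ : NeZero (12095 : ℕ) := ⟨by norm_num⟩
  have hn5 : (n : ZMod 5) = 0 := by
    have := zmod_down (q := 5) (α := 0) (by simpa using hn) (by norm_num)
    simpa using this
  have hp5 : Nat.Prime 5 := by norm_num
  have hj5 : J(-a | 5) = -1 := c.jac_neg hp5 (by norm_num) (hna 5 (by decide)) hn5
  have hn41 : (n : ZMod 41) = 0 := by
    have := zmod_down (q := 41) (α := 0) (by simpa using hn) (by norm_num)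
    simpa using this
  have hp41 : Nat.Prime 41 := by norm_num
  have hj41 : J(-a | 41) = -1 := c.jac_neg hp41 (by norm_num) (hna 41 (by decide)) hn41
  have hn59 : (n : ZMod 59) = 0 := by
    have := zmod_down (q := 59) (α := 0) (by simpa using hn) (by norm_num)
    simpa using this
  have hp59 : Nat.Prime 59 := by norm_num
  have hj59 : J(-a | 59) = -1 := c.jac_neg hp59 (by norm_num) (hna 59 (by decide)) hn59
  have hm1 : J(-1 | 12095) = -1 := by norm_num
  have hneg : J(-a | 12095) = -1 := by
    rw [show (12095 : ℕ) = 5 * (41 * 59) by norm_num,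
      jacobiSym.mul_right' _ (by norm_num) (by norm_num),
      jacobiSym.mul_right' _ (by norm_num) (by norm_num), hj5, hj41, hj59]
    norm_num
  have hJ : J(a | 12095) = 1 := by
    have h1 : J(-a | 12095) = J(-1 | 12095) * J(a | 12095) := by
      rw [← jacobiSym.mul_left, neg_one_mul]
    rw [hneg, hm1] at h1
    linarith
  have hsq : Squarefree 12095 := (Nat.squarefree_mul (by norm_num : Nat.Coprime (5 * 41) 59)).2
    ⟨(Nat.squarefree_mul (by norm_num : Nat.Coprime 5 41)).2
    ⟨hp5.prime.squarefree, hp41.prime.squarefree⟩, hp59.prime.squarefree⟩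
  have hcq : Nat.Coprime 12095 (Dn a n) := by
    apply c.h.coprime_Dn
    intro p hp hpd
    have h' : p ∣ 5 * 41 * 59 := hpd
    simp only [Nat.Prime.dvd_mul hp] at h'
    have hb := c.hb
    rcases h' with (h | h) | h
    · rw [(Nat.prime_dvd_prime_iff_eq hp hp5).1 h]
      exact ⟨by norm_num, hna 5 (by decide), by push_cast; omega⟩
    · rw [(Nat.prime_dvd_prime_iff_eq hp hp41).1 h]
      exact ⟨by norm_num, hna 41 (by decide), by push_cast; omega⟩
    · rw [(Nat.prime_dvd_prime_iff_eq hp hp59).1 h]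
      exact ⟨by norm_num, hna 59 (by decide), by push_cast; omega⟩
  have is : IS 12095 a [5, 41, 59] := ((IS.prime hp5 (by norm_num) (c.not_dvd_a hp5 (hna 5 (by decide)))).mul
    (by norm_num) (IS.prime hp41 (by norm_num) (c.not_dvd_a hp41 (hna 41 (by decide))))).mul
    (by norm_num) (IS.prime hp59 (by norm_num) (c.not_dvd_a hp59 (hna 59 (by decide))))
  have hodd : Odd 12095 := ⟨6047, by norm_num⟩
  have hF := c.h.real_formula hodd hsq hcq hm1 hn is
  rw [hJ] at hF
  have hB1 : ∃ s1 : ℤ, Bf 12095 1 = 128 * s1 := by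
    have h1 := Bf_mom [(5, leg5), (41, leg41), (59, leg59)] (by
      intro w hw
      simp only [List.mem_cons, List.not_mem_nil, or_false] at hw
      rcases hw with rfl | rfl | rfl <;> assumption) (by
      intro w hw
      simp only [List.mem_cons, List.not_mem_nil, or_false] at hw
      rcases hw with rfl | rfl | rfl
      exacts [leg5_ok, leg41_ok, leg59_ok]) 12095 (by norm_num)
    have h2 := neg_m
    rw [h1]
    generalize mom [(5, leg5), (41, leg41), (59, leg59)] 12095 1 = u at h2 ⊢
    generalize mom [(5, leg5), (41, leg41), (59, leg59)] 12095 2 = v at h2 ⊢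
    exact ⟨((u : ℤ) - v) / 128, by omega⟩
  have hG : ∃ g : ℤ, GG 12095 [5, 41, 59] = 512 * (2 * g + 1) := by
    have h1 := GG_gmo [5, 41, 59] (by
      intro w hw
      simp only [List.mem_cons, List.not_mem_nil, or_false] at hw
      omega) 12095
    have h2 := neg_g
    rw [h1]
    generalize gmo [5, 41, 59] 12095 1 = u at h2 ⊢
    generalize gmo [5, 41, 59] 12095 0 = v at h2 ⊢
    exact ⟨(((u : ℤ) - v) / 512 - 1) / 2, by omega⟩
  have hAo := c.h.A_odd
  have hPo := c.h.pp_odd
  have hcop := c.h.cop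
  have hB2 : ∃ s2 : ℤ, Bf (12095 * Dn a n) 1 = 16 * s2 := by
    have hFam : Fam 5 (![41, 59, a.natAbs, pp a n] : Fin 4 → ℕ) Finset.univ := by
      refine ⟨?_, ?_, ?_, ?_, ?_⟩
      · intro i _
        fin_cases i
        · exact (by decide : Odd 41)
        · exact (by decide : Odd 59)
        · exact hAo
        · exact hPo
      · intro i _
        fin_cases i
        · exact hp41.prime.squarefree
        · exact hp59.prime.squarefree
        · exact c.h.prime_a.prime.squarefree
        · exact c.h.pp_sqf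
      · intro i _
        fin_cases i
        · exact hp41.one_lt
        · exact hp59.one_lt
        · exact c.h.prime_a.one_lt
        · exact c.h.pp_gt
      · intro i _
        fin_cases i
        · exact (by norm_num : Nat.Coprime 41 5)
        · exact (by norm_num : Nat.Coprime 59 5)
        · exact (c.cop_A hp5 (hna 5 (by decide))).symm
        · exact (c.cop_pp hp5 (by norm_num) (by norm_num) (hna 5 (by decide))).symm
      · intro i _ j _ hij
        fin_cases i <;> fin_cases j
        · exact absurd rfl hij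
        · exact (by norm_num : Nat.Coprime 41 59)
        · exact (c.cop_A hp41 (hna 41 (by decide)))
        · exact (c.cop_pp hp41 (by norm_num) (by norm_num) (hna 41 (by decide)))
        · exact (by norm_num : Nat.Coprime 59 41)
        · exact absurd rfl hij
        · exact (c.cop_A hp59 (hna 59 (by decide)))
        · exact (c.cop_pp hp59 (by norm_num) (by norm_num) (hna 59 (by decide)))
        · exact (c.cop_A hp41 (hna 41 (by decide))).symm
        · exact (c.cop_A hp59 (hna 59 (by decide))).symm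
        · exact absurd rfl hij
        · exact hcop
        · exact (c.cop_pp hp41 (by norm_num) (by norm_num) (hna 41 (by decide))).symm
        · exact (c.cop_pp hp59 (by norm_num) (by norm_num) (hna 59 (by decide))).symm
        · exact hcop.symm
        · exact absurd rfl hij
    have h1 := moment_dvd (by decide : Odd 5) hp5.prime.squarefree hp5.one_lt Finset.univ hFam
    have h2 : 5 * ∏ i, (![41, 59, a.natAbs, pp a n] : Fin 4 → ℕ) i = 12095 * Dn a n := by
      rw [c.h.Dn_mul]
      simp [Fin.prod_univ_succ]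
      ring
    rw [h2] at h1
    simp only [Finset.card_univ, Fintype.card_fin] at h1
    obtain ⟨s2, hs2⟩ := h1
    exact ⟨s2, by rw [hs2]; norm_num⟩
  obtain ⟨s1, hs1⟩ := hB1
  obtain ⟨s2, hs2⟩ := hB2
  obtain ⟨g, hg⟩ := hG
  have hDo : Odd (Dn a n) := c.h.Dn_odd
  obtain ⟨d, hd⟩ := hDo
  obtain ⟨e, he⟩ := c.h.odd_n
  have ha4 : ∃ f : ℤ, a + (1) = 2 * (2 * f + 1) := by
    have h4 := c.h.a_mod_four
    refine ⟨(a + (1) - 2) / 4, ?_⟩
    omega
  obtain ⟨f, hf⟩ := ha4
  rw [hs1, hs2, hg, hf] at hF
  have hd' : (Dn a n : ℤ) = 2 * d + 1 := by exact_mod_cast hd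
  rw [hd', he] at hF
  have h9 : 2 * (s1 * s2) = (2 * (d : ℤ) + 1) * ((2 * e + 1) * (2 * f + 1) * (2 * g + 1)) := by
    linarith [hF]
  have h10 : Odd ((2 * (d : ℤ) + 1) * ((2 * e + 1) * (2 * f + 1) * (2 * g + 1))) :=
    (odd_two_mul_add_one (d : ℤ)).mul (((odd_two_mul_add_one e).mul (odd_two_mul_add_one f)).mul
      (odd_two_mul_add_one g))
  rw [← h9] at h10
  exact (Int.not_even_iff_odd.2 h10) (even_two_mul _)

end Pool.Agent.Helper54.CN
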